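import Mathlib

/-!
Definitions for MP_57dfd7_co (planar quasi-transitive subgraphs of unbounded treewidth).
-/

namespace Pool.Agent.MP_57dfd7_co

/-! ### Public definitions used in the final statement -/

/-- `G` has a tree-decomposition all of whose bags have at most `k + 1` vertices. -/
def TreewidthLE {V : Type} (G : SimpleGraph V) (k : ℕ) : Prop :=
  ∃ (ι : Type) (T : SimpleGraph ι) (bag : ι → Finset V),
    T.IsTree ∧ (∀ v, ∃ t, v ∈ bag t) ∧
    (∀ u v, G.Adj u v → ∃ t, u ∈ bag t ∧ v ∈ bag t) ∧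
    (∀ v, (T.induce {t | v ∈ bag t}).Preconnected) ∧
    ∀ t, (bag t).card ≤ k + 1

/-- The automorphism group of `G` has finitely many orbits on the vertices. -/
def QuasiTransitive {V : Type} (G : SimpleGraph V) : Prop :=
  ∃ S : Set V, S.Finite ∧ ∀ v, ∃ s ∈ S, ∃ φ : G ≃g G, φ s = v

/-- `G` contains a subdivision of `K_{3,3}`: six distinct branch vertices `a i`, `b j` and nine
paths from `a i` to `b j`, two of which only meet in a common end. -/
def HasK33Subdivision {V : Type} (G : SimpleGraph V) : Prop :=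
  ∃ (a b : Fin 3 → V) (p : ∀ i j, G.Walk (a i) (b j)),
    Function.Injective a ∧ Function.Injective b ∧ (∀ i j, a i ≠ b j) ∧
    (∀ i j, (p i j).IsPath) ∧
    ∀ i j i' j' v, v ∈ (p i j).support → v ∈ (p i' j').support →
      (i = i' ∧ j = j') ∨ (i = i' ∧ v = a i) ∨ (j = j' ∧ v = b j)

/-- The Cayley graph of the lamplighter group `Z_2 wr Z` for the generators `a` (switch the lamp
at the current position) and `t` (walk one step).  A vertex is the finite set of lit lamps
together with the position of the lamplighter. -/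
def lamplighter : SimpleGraph (Finset ℤ × ℤ) where
  Adj x y := (x.1 = y.1 ∧ (y.2 = x.2 + 1 ∨ x.2 = y.2 + 1)) ∨
    (x.2 = y.2 ∧ symmDiff x.1 y.1 = {x.2})
  symm := ⟨by
    rintro x y (⟨h1, h2⟩ | ⟨h1, h2⟩)
    · exact Or.inl ⟨h1.symm, h2.symm⟩
    · exact Or.inr ⟨h1.symm, by rw [symmDiff_comm, h2, h1]⟩⟩
  loopless := ⟨by
    rintro x (⟨_, h2 | h2⟩ | ⟨_, h2⟩)
    · omega
    · omega
    · rw [symmDiff_self] at h2
      exact Finset.singleton_ne_empty x.2 h2.symm⟩

/-! ### Multigraphs given by an incidence relation (internal tool) -/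

/-- A loopless multigraph: every edge is incident with exactly two vertices. -/
structure MG (V E : Type) where
  inc : V → E → Prop
  two : ∀ e, ∃ u v, u ≠ v ∧ ∀ w, inc w e ↔ (w = u ∨ w = v)

namespace MG

variable {V E : Type} (M : MG V E)

open Classical in
/-- number of edges of `z` at `v` -/
noncomputable def deg (z : Finset E) (v : V) : ℕ := (z.filter (fun e => M.inc v e)).card

/-- even edge set (element of the cycle space mod 2) -/
def IsEven (z : Finset E) : Prop := ∀ v, Even (M.deg z v)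

/-- edge set whose odd vertices are exactly `x` and `y` -/
def IsJoin (x y : V) (T : Finset E) : Prop := ∀ v, Odd (M.deg T v) ↔ (v = x ∨ v = y)

/-- edges with exactly one end in `X` -/
def cut (X : Set V) : Set E := {e | ∃ u v, M.inc u e ∧ M.inc v e ∧ u ∈ X ∧ v ∉ X}

/-- minimal nonempty even sets -/
def IsCircuit (z : Finset E) : Prop :=
  M.IsEven z ∧ z.Nonempty ∧ ∀ w, w ⊆ z → M.IsEven w → w.Nonempty → w = z

/-- sums mod 2 of finitely many sets satisfying `P` -/
inductive Gen (P : Finset E → Prop) : Finset E → Prop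
  | zero : Gen P ∅
  | add {z w t : Finset E} : P z → Gen P w → (∀ e, e ∈ t ↔ Xor (e ∈ z) (e ∈ w)) → Gen P t

/-- the cycle space is generated by even sets with at most `L` edges -/
def GenBy (L : ℕ) : Prop :=
  ∀ z, M.IsEven z → Gen (fun w => M.IsEven w ∧ w.card ≤ L) z

/-- even sets that are not sums of smaller even sets -/
def Essential (z : Finset E) : Prop :=
  M.IsEven z ∧ ¬ Gen (fun w => M.IsEven w ∧ w.card < z.card) z

def Subcubic : Prop := ∀ v, {e | M.inc v e}.encard ≤ 3

def Cubic : Prop := ∀ v, {e | M.inc v e}.encard = 3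

/-- every edge lies in an even set -/
def Bridgeless : Prop := ∀ e, ∃ z, M.IsEven z ∧ e ∈ z

/-- connected -/
def Conn : Prop := ∀ X : Set V, X.Nonempty → Xᶜ.Nonempty → (M.cut X).Nonempty

/-- every nonempty cut has at least three edges -/
def Conn3 : Prop := ∀ X : Set V, (M.cut X).Nonempty → 3 ≤ (M.cut X).encard

/-- automorphisms -/
structure Auto where
  v : V ≃ V
  e : E ≃ E
  inc_iff : ∀ x f, M.inc (v x) (e f) ↔ M.inc x f

/-- finitely many orbits of vertices -/
def QT : Prop := ∃ S : Set V, S.Finite ∧ ∀ x, ∃ φ : M.Auto, φ.v x ∈ S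

/-- algebraic version of a `K_{3,3}`-subdivision: nine pairwise edge-disjoint joins.  In a
subcubic multigraph this is the same as a subdivision of `K_{3,3}`. -/
def K33 : Prop :=
  ∃ (a b : Fin 3 → V) (P : Fin 3 → Fin 3 → Finset E),
    Function.Injective a ∧ Function.Injective b ∧ (∀ i j, a i ≠ b j) ∧
    (∀ i j, M.IsJoin (a i) (b j) (P i j)) ∧
    ∀ i j i' j', (i, j) ≠ (i', j') → Disjoint (P i j) (P i' j')

/-- `Match v w f e g`: `f` has ends `v ≠ w`, `e ≠ f` is at `v`, `g ≠ f` is at `w` and there are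
even sets `C`, `D` with `C ∩ D = {f}` and `e, g ∈ C`. (In a 3-connected planar cubic graph: `e`
and `g` are on the same side of `f`.) -/
def Match (v w : V) (f e g : E) : Prop :=
  v ≠ w ∧ M.inc v f ∧ M.inc w f ∧ M.inc v e ∧ e ≠ f ∧ M.inc w g ∧ g ≠ f ∧
  ∃ C D : Finset E, M.IsEven C ∧ M.IsEven D ∧ (∀ x, (x ∈ C ∧ x ∈ D) ↔ x = f) ∧ e ∈ C ∧ g ∈ C

/-- Matchings exist -/
def H1 : Prop := ∀ v w f e, v ≠ w → M.inc v f → M.inc w f → M.inc v e → e ≠ f →
  ∃ g, M.Match v w f e g

/-- Matchings are unique -/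
def H2 : Prop := ∀ v w f e g g', M.Match v w f e g → M.Match v w f e g' → g = g'

/-- A set of corners (the corner at `v` opposite to the edge `e` is the pair `(v, e)`) that is a
union of faces. -/
def IsRegion (U : V → E → Prop) : Prop :=
  ∀ v w f e g, M.Match v w f e g → (U v e ↔ U w g)

/-- boundary of a set of corners -/
def bd (U : V → E → Prop) (f : E) : Prop :=
  ∃ v e e', M.inc v f ∧ M.inc v e ∧ M.inc v e' ∧ e ≠ f ∧ e' ≠ f ∧ U v e ∧ ¬ U v e'

/-- every circuit bounds a region -/
def H3 : Prop := ∀ C, M.IsCircuit C → ∃ U : V → E → Prop, M.IsRegion U ∧ ∀ f, M.bd U f ↔ f ∈ C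

end MG

/-- the multigraph of a simple graph -/
def ofGraph {V : Type} (H : SimpleGraph V) : MG V H.edgeSet where
  inc v e := v ∈ (e : Sym2 V)
  two := by
    rintro ⟨e, he⟩
    induction e using Sym2.ind with
    | _ u v =>
      refine ⟨u, v, H.ne_of_adj he, fun w => ?_⟩
      simp [Sym2.mem_iff]

end Pool.Agent.MP_57dfd7_co
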