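import Pool.Agent.MP_57dfd7_co.Defs

/-! Basic library on even sets, joins, cuts, circuits in a multigraph `MG`. -/

namespace Pool.Agent.MP_57dfd7_co

namespace MG

variable {V E : Type} (M : MG V E)

/-! ### degrees and parity -/

open Classical in
lemma deg_def (z : Finset E) (v : V) : M.deg z v = (z.filter (fun e => M.inc v e)).card := rfl

@[simp] lemma deg_empty (v : V) : M.deg ∅ v = 0 := by simp [deg]

lemma deg_union [DecidableEq E] {z w : Finset E} (h : Disjoint z w) (v : V) :
    M.deg (z ∪ w) v = M.deg z v + M.deg w v := by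
  classical
  have e1 : M.deg (z ∪ w) v = ((z.filter (fun e => M.inc v e)) ∪
      (w.filter (fun e => M.inc v e))).card := by
    rw [deg_def]
    congr 1
    ext e
    simp only [Finset.mem_filter, Finset.mem_union]
    tauto
  rw [e1, Finset.card_union_of_disjoint, deg_def, deg_def]
  exact (Finset.disjoint_filter_filter h)

/-- parity of degree as an element of `ZMod 2` -/
noncomputable def par (z : Finset E) (v : V) : ZMod 2 := (M.deg z v : ZMod 2)

lemma even_iff_par (z : Finset E) (v : V) : Even (M.deg z v) ↔ M.par z v = 0 := by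
  rw [par, ZMod.natCast_eq_zero_iff_even]

lemma odd_iff_par (z : Finset E) (v : V) : Odd (M.deg z v) ↔ M.par z v = 1 := by
  rw [par, ZMod.natCast_eq_one_iff_odd]

lemma isEven_iff {z : Finset E} : M.IsEven z ↔ ∀ v, M.par z v = 0 :=
  forall_congr' fun v => M.even_iff_par z v

open Classical in
lemma par_eq_sum (z : Finset E) (v : V) :
    M.par z v = ∑ e ∈ z, if M.inc v e then (1 : ZMod 2) else 0 := by
  rw [par, deg_def, Finset.sum_boole]

lemma par_symmDiff [DecidableEq E] (z w : Finset E) (v : V) :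
    M.par (symmDiff z w) v = M.par z v + M.par w v := by
  classical
  have h1 : Disjoint (z \ w) (w \ z) := disjoint_sdiff_sdiff
  have h2 : symmDiff z w = (z \ w) ∪ (w \ z) := rfl
  have hz : M.par z v = M.par (z \ w) v + M.par (z ∩ w) v := by
    have : z = (z \ w) ∪ (z ∩ w) := by rw [Finset.sdiff_union_inter]
    conv_lhs => rw [this]
    rw [par, deg_union _ (Finset.disjoint_sdiff_inter _ _)]
    push_cast
    rfl
  have hw : M.par w v = M.par (w \ z) v + M.par (z ∩ w) v := by
    have : w = (w \ z) ∪ (w ∩ z) := by rw [Finset.sdiff_union_inter]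
    conv_lhs => rw [this]
    rw [par, deg_union _ (Finset.disjoint_sdiff_inter _ _), Finset.inter_comm w z]
    push_cast
    rfl
  have hs : M.par (symmDiff z w) v = M.par (z \ w) v + M.par (w \ z) v := by
    rw [h2, par, deg_union _ h1]
    push_cast
    rfl
  rw [hs, hz, hw]
  have : M.par (z ∩ w) v + M.par (z ∩ w) v = 0 := CharTwo.add_self_eq_zero _
  linear_combination -this

lemma par_empty (v : V) : M.par ∅ v = 0 := by simp [par]

lemma isEven_empty : M.IsEven ∅ := by
  rw [isEven_iff]; intro v; exact M.par_empty v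

lemma par_union [DecidableEq E] {z w : Finset E} (h : Disjoint z w) (v : V) :
    M.par (z ∪ w) v = M.par z v + M.par w v := by
  rw [par, deg_union _ h]; push_cast; rfl

lemma IsEven.symmDiff [DecidableEq E] {z w : Finset E} (hz : M.IsEven z) (hw : M.IsEven w) :
    M.IsEven (symmDiff z w) := by
  rw [isEven_iff] at *
  intro v
  rw [par_symmDiff, hz, hw, add_zero]

lemma IsEven.union [DecidableEq E] {z w : Finset E} (hz : M.IsEven z) (hw : M.IsEven w)
    (h : Disjoint z w) : M.IsEven (z ∪ w) := by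
  rw [isEven_iff] at *
  intro v
  rw [par_union _ h, hz, hw, add_zero]

lemma IsEven.sdiff [DecidableEq E] {z w : Finset E} (hz : M.IsEven z) (hw : M.IsEven w)
    (h : w ⊆ z) : M.IsEven (z \ w) := by
  have : z \ w = _root_.symmDiff z w := by
    ext x
    simp only [Finset.mem_sdiff, Finset.mem_symmDiff]
    have := @h x
    tauto
  rw [this]
  exact IsEven.symmDiff M hz hw

/-- a join seen through parities -/
lemma isJoin_iff {x y : V} {T : Finset E} :
    M.IsJoin x y T ↔ ∀ v, (M.par T v = 1 ↔ (v = x ∨ v = y)) := by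
  unfold IsJoin
  simp only [odd_iff_par]

lemma par_eq_zero_or_one (z : Finset E) (v : V) : M.par z v = 0 ∨ M.par z v = 1 := by
  have : ∀ a : ZMod 2, a = 0 ∨ a = 1 := by decide
  exact this _

lemma IsJoin.symm {x y : V} {T : Finset E} (h : M.IsJoin x y T) : M.IsJoin y x T := by
  intro v; rw [h v]; tauto

lemma IsJoin.par_left {x y : V} {T : Finset E} (h : M.IsJoin x y T) : M.par T x = 1 :=
  ((M.isJoin_iff).1 h x).2 (Or.inl rfl)

lemma IsJoin.par_right {x y : V} {T : Finset E} (h : M.IsJoin x y T) : M.par T y = 1 :=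
  ((M.isJoin_iff).1 h y).2 (Or.inr rfl)

lemma IsJoin.par_other {x y v : V} {T : Finset E} (h : M.IsJoin x y T) (hx : v ≠ x)
    (hy : v ≠ y) : M.par T v = 0 := by
  rcases M.par_eq_zero_or_one T v with h0 | h1
  · exact h0
  · rcases ((M.isJoin_iff).1 h v).1 h1 with h | h
    · exact absurd h hx
    · exact absurd h hy

lemma isJoin_of_par {x y : V} {T : Finset E} (hx : M.par T x = 1) (hy : M.par T y = 1)
    (h : ∀ v, v ≠ x → v ≠ y → M.par T v = 0) : M.IsJoin x y T := by
  rw [isJoin_iff]
  intro v
  constructor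
  · intro h1
    by_contra hcon
    push Not at hcon
    have := h v hcon.1 hcon.2
    rw [this] at h1
    exact absurd h1 (by decide)
  · rintro (rfl | rfl) <;> assumption

/-- two joins with the same ends differ by an even set -/
lemma IsJoin.even_symmDiff [DecidableEq E] {x y : V} {T T' : Finset E} (h : M.IsJoin x y T)
    (h' : M.IsJoin x y T') : M.IsEven (symmDiff T T') := by
  rw [isEven_iff]
  intro v
  rw [par_symmDiff]
  by_cases hx : v = x
  · subst hx; rw [h.par_left, h'.par_left]; decide
  by_cases hy : v = y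
  · subst hy; rw [h.par_right, h'.par_right]; decide
  rw [h.par_other _ hx hy, h'.par_other _ hx hy, add_zero]

/-- concatenation of joins -/
lemma IsJoin.trans [DecidableEq E] {x y u : V} {T T' : Finset E} (h : M.IsJoin x y T)
    (h' : M.IsJoin y u T') (hxy : x ≠ y) (hyu : y ≠ u) (hxu : x ≠ u) :
    M.IsJoin x u (symmDiff T T') := by
  refine M.isJoin_of_par ?_ ?_ ?_
  · rw [par_symmDiff, h.par_left, h'.par_other _ hxy hxu, add_zero]
  · rw [par_symmDiff, h.par_other _ hxu.symm hyu.symm, h'.par_right, zero_add]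
  · intro v hvx hvu
    rw [par_symmDiff]
    by_cases hy : v = y
    · subst hy; rw [h.par_right, h'.par_left]; decide
    · rw [h.par_other _ hvx hy, h'.par_other _ hy hvu, add_zero]

/-- adding an even set to a join -/
lemma IsJoin.add_even [DecidableEq E] {x y : V} {T z : Finset E} (h : M.IsJoin x y T)
    (hz : M.IsEven z) : M.IsJoin x y (symmDiff T z) := by
  rw [isJoin_iff] at *
  intro v
  rw [par_symmDiff, (M.isEven_iff).1 hz v, add_zero]
  exact h v

lemma exists_ends (e : E) : ∃ u v, u ≠ v ∧ M.inc u e ∧ M.inc v e ∧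
    ∀ w, M.inc w e → w = u ∨ w = v := by
  obtain ⟨u, v, huv, h⟩ := M.two e
  exact ⟨u, v, huv, (h u).2 (Or.inl rfl), (h v).2 (Or.inr rfl), fun w hw => (h w).1 hw⟩

lemma exists_other {u : V} {e : E} (h : M.inc u e) : ∃ v, v ≠ u ∧ M.inc v e ∧
    ∀ w, M.inc w e → w = u ∨ w = v := by
  obtain ⟨a, b, hab, ha, hb, hw⟩ := M.exists_ends e
  rcases hw u h with rfl | rfl
  · exact ⟨b, hab.symm, hb, hw⟩
  · exact ⟨a, hab, ha, fun w h => (hw w h).symm⟩

lemma inc_eq {u v w : V} {e : E} (hu : M.inc u e) (hv : M.inc v e) (huv : u ≠ v)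
    (hw : M.inc w e) : w = u ∨ w = v := by
  obtain ⟨a, b, _, _, _, h⟩ := M.exists_ends e
  rcases h u hu with rfl | rfl <;> rcases h v hv with rfl | rfl <;> rcases h w hw with rfl | rfl <;>
    first | exact Or.inl rfl | exact Or.inr rfl | exact absurd rfl huv

/-- a single edge is a join -/
lemma isJoin_singleton {u v : V} {e : E} (hu : M.inc u e) (hv : M.inc v e) (huv : u ≠ v) :
    M.IsJoin u v {e} := by
  classical
  rw [isJoin_iff]
  intro w
  rw [par_eq_sum, Finset.sum_singleton]
  by_cases h : M.inc w e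
  · simp only [h, if_true, true_iff]
    exact M.inc_eq hu hv huv h
  · simp only [h, if_false]
    constructor
    · intro h0; exact absurd h0 (by decide)
    · rintro (rfl | rfl)
      · exact absurd hu h
      · exact absurd hv h

/-! ### cuts -/

lemma mem_cut {X : Set V} {e : E} :
    e ∈ M.cut X ↔ ∃ u v, M.inc u e ∧ M.inc v e ∧ u ∈ X ∧ v ∉ X := Iff.rfl

lemma cut_compl (X : Set V) : M.cut Xᶜ = M.cut X := by
  ext e
  constructor
  · rintro ⟨u, v, hu, hv, h1, h2⟩
    exact ⟨v, u, hv, hu, by simpa using h2, h1⟩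
  · rintro ⟨u, v, hu, hv, h1, h2⟩
    exact ⟨v, u, hv, hu, h2, by simpa using h1⟩

open Classical in
/-- parity of `z ∩ cut X` is the sum of the parities over `X`: version with a finite set of
vertices carrying all odd degrees. -/
lemma card_inter_cut_parity (z : Finset E) (X : Set V) :
    ∃ W : Finset V, (∀ v, M.par z v ≠ 0 → v ∈ W) ∧
    ((z.filter (fun e => e ∈ M.cut X)).card : ZMod 2) =
      ∑ v ∈ W, if v ∈ X then M.par z v else 0 := by
  classical
  choose a b hab ha hb hw using M.exists_ends
  refine ⟨z.image a ∪ z.image b, ?_, ?_⟩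
  · intro v hv
    by_contra hcon
    apply hv
    rw [par_eq_sum]
    apply Finset.sum_eq_zero
    intro e he
    rw [if_neg]
    intro hinc
    apply hcon
    rw [Finset.mem_union]
    rcases hw e v hinc with rfl | rfl
    · exact Or.inl (Finset.mem_image_of_mem _ he)
    · exact Or.inr (Finset.mem_image_of_mem _ he)
  · set W := z.image a ∪ z.image b with hW
    have e1 : ∑ v ∈ W, (if v ∈ X then M.par z v else 0) =
        ∑ e ∈ z, ∑ v ∈ W, (if v ∈ X then (if M.inc v e then (1 : ZMod 2) else 0) else 0) := by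
      rw [Finset.sum_comm]
      refine Finset.sum_congr rfl (fun v _ => ?_)
      by_cases h : v ∈ X
      · simp only [h, if_true]; exact M.par_eq_sum z v
      · simp [h]
    rw [e1, ← Finset.sum_boole]
    refine Finset.sum_congr rfl (fun e he => ?_)
    have haW : a e ∈ W := by
      rw [hW, Finset.mem_union]; exact Or.inl (Finset.mem_image_of_mem _ he)
    have hbW : b e ∈ W := by
      rw [hW, Finset.mem_union]; exact Or.inr (Finset.mem_image_of_mem _ he)
    have e2 : ∑ v ∈ W, (if v ∈ X then (if M.inc v e then (1 : ZMod 2) else 0) else 0) =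
        ∑ v ∈ ({a e, b e} : Finset V),
          (if v ∈ X then (if M.inc v e then (1 : ZMod 2) else 0) else 0) := by
      symm
      apply Finset.sum_subset
      · intro v hv
        rw [Finset.mem_insert, Finset.mem_singleton] at hv
        rcases hv with rfl | rfl <;> assumption
      · intro v _ hv
        have : ¬ M.inc v e := by
          intro hinc
          apply hv
          rw [Finset.mem_insert, Finset.mem_singleton]
          exact hw e v hinc
        simp [this]
    rw [e2, Finset.sum_pair (hab e)]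
    simp only [ha e, hb e, if_true]
    by_cases h1 : a e ∈ X <;> by_cases h2 : b e ∈ X
    · have : e ∉ M.cut X := by
        rintro ⟨u, v, hu, hv, hu', hv'⟩
        rcases hw e v hv with rfl | rfl
        · exact hv' h1
        · exact hv' h2
      simp only [h1, h2, this, if_true, if_false]
      decide
    · have : e ∈ M.cut X := ⟨a e, b e, ha e, hb e, h1, h2⟩
      simp [h1, h2, this]
    · have : e ∈ M.cut X := ⟨b e, a e, hb e, ha e, h2, h1⟩
      simp [h1, h2, this]
    · have : e ∉ M.cut X := by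
        rintro ⟨u, v, hu, hv, hu', hv'⟩
        rcases hw e u hu with rfl | rfl
        · exact h1 hu'
        · exact h2 hu'
      simp [h1, h2, this]

open Classical in
/-- an even set meets every cut evenly -/
lemma IsEven.even_cut {z : Finset E} (hz : M.IsEven z) (X : Set V) :
    Even (z.filter (fun e => e ∈ M.cut X)).card := by
  obtain ⟨W, _, h⟩ := M.card_inter_cut_parity z X
  rw [← ZMod.natCast_eq_zero_iff_even, h]
  apply Finset.sum_eq_zero
  intro v _
  rw [(M.isEven_iff).1 hz v]
  simp

open Classical in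
/-- a join meets a cut separating its ends oddly -/
lemma IsJoin.odd_cut {x y : V} {T : Finset E} (hT : M.IsJoin x y T) {X : Set V}
    (hx : x ∈ X) (hy : y ∉ X) : Odd (T.filter (fun e => e ∈ M.cut X)).card := by
  obtain ⟨W, hW, h⟩ := M.card_inter_cut_parity T X
  rw [← ZMod.natCast_eq_one_iff_odd, h]
  have hxW : x ∈ W := hW x (by rw [hT.par_left]; decide)
  rw [Finset.sum_eq_single_of_mem x hxW]
  · simp [hx, hT.par_left]
  · intro v _ hv
    by_cases hvX : v ∈ X
    · have : v ≠ y := by rintro rfl; exact hy hvX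
      simp [hvX, hT.par_other _ hv this]
    · simp [hvX]

/-- a join whose ends are separated by `X` meets the cut -/
lemma IsJoin.exists_mem_cut {x y : V} {T : Finset E} (hT : M.IsJoin x y T) {X : Set V}
    (hx : x ∈ X) (hy : y ∉ X) : ∃ e ∈ T, e ∈ M.cut X := by
  classical
  have h := hT.odd_cut M hx hy
  have hne : (T.filter (fun e => e ∈ M.cut X)).Nonempty := by
    rw [← Finset.card_pos]
    exact h.pos
  obtain ⟨e, he⟩ := hne
  rw [Finset.mem_filter] at he
  exact ⟨e, he.1, he.2⟩

/-- if an even set contains one edge of a cut it contains another one -/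
lemma IsEven.exists_ne_mem_cut {z : Finset E} (hz : M.IsEven z) {X : Set V} {e : E}
    (he : e ∈ z) (hc : e ∈ M.cut X) : ∃ e' ∈ z, e' ∈ M.cut X ∧ e' ≠ e := by
  classical
  have h := hz.even_cut M X
  have hmem : e ∈ z.filter (fun e => e ∈ M.cut X) := Finset.mem_filter.2 ⟨he, hc⟩
  have h2 : 1 < (z.filter (fun e => e ∈ M.cut X)).card := by
    have : 0 < (z.filter (fun e => e ∈ M.cut X)).card := Finset.card_pos.2 ⟨e, hmem⟩
    rcases h with ⟨k, hk⟩
    omega
  obtain ⟨e', he', hne⟩ := Finset.exists_mem_ne h2 e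
  rw [Finset.mem_filter] at he'
  exact ⟨e', he'.1, he'.2, hne⟩

/-! ### reachability -/

/-- adjacency through edges of `S` -/
def Step (S : Set E) (x y : V) : Prop := ∃ e ∈ S, M.inc x e ∧ M.inc y e

/-- reachability through edges of `S` -/
def Reach (S : Set E) : V → V → Prop := Relation.ReflTransGen (M.Step S)

lemma Reach.refl (S : Set E) (x : V) : M.Reach S x x := Relation.ReflTransGen.refl

lemma Reach.symm {S : Set E} {x y : V} (h : M.Reach S x y) : M.Reach S y x := by
  induction h with
  | refl => exact Reach.refl M S x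
  | tail _ hbc ih =>
    obtain ⟨e, he, h1, h2⟩ := hbc
    exact Relation.ReflTransGen.head ⟨e, he, h2, h1⟩ ih

lemma Reach.trans {S : Set E} {x y u : V} (h : M.Reach S x y) (h' : M.Reach S y u) :
    M.Reach S x u := Relation.ReflTransGen.trans h h'

lemma Reach.mono {S S' : Set E} (hS : S ⊆ S') {x y : V} (h : M.Reach S x y) :
    M.Reach S' x y := by
  induction h with
  | refl => exact Relation.ReflTransGen.refl
  | tail _ hbc ih =>
    obtain ⟨e, he, h1, h2⟩ := hbc
    exact Relation.ReflTransGen.tail ih ⟨e, hS he, h1, h2⟩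

lemma reach_of_mem {S : Set E} {x y : V} {e : E} (he : e ∈ S) (hx : M.inc x e)
    (hy : M.inc y e) : M.Reach S x y := Relation.ReflTransGen.single ⟨e, he, hx, hy⟩

/-- the set reached from `x` has no `S`-edge in its cut -/
lemma cut_reach (S : Set E) (A : Set V) {e : E} (he : e ∈ S)
    (hc : e ∈ M.cut {y | ∃ x ∈ A, M.Reach S x y}) : False := by
  obtain ⟨u, v, hu, hv, ⟨x, hx, hxu⟩, hnv⟩ := hc
  exact hnv ⟨x, hx, hxu.trans M (M.reach_of_mem he hu hv)⟩

/-- a set without `S`-edges in its cut is closed under reachability -/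
lemma Reach.mem_of_cut {S : Set E} {X : Set V} (hX : ∀ e ∈ S, e ∉ M.cut X) {x y : V}
    (h : M.Reach S x y) (hx : x ∈ X) : y ∈ X := by
  induction h with
  | refl => exact hx
  | tail _ hbc ih =>
    obtain ⟨e, he, h1, h2⟩ := hbc
    by_contra hcon
    exact hX e he ⟨_, _, h1, h2, ih, hcon⟩

/-- reachability gives joins -/
lemma Reach.exists_join {S : Set E} {x y : V} (h : M.Reach S x y) (hxy : x ≠ y) :
    ∃ T : Finset E, (↑T ⊆ S) ∧ M.IsJoin x y T := by
  classical
  induction h with
  | refl => exact absurd rfl hxy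
  | @tail b c hab hbc ih =>
    obtain ⟨e, he, h1, h2⟩ := hbc
    by_cases hbc' : b = c
    · subst hbc'
      exact ih hxy
    by_cases hxb : x = b
    · subst hxb
      exact ⟨{e}, by simpa using he, M.isJoin_singleton h1 h2 hbc'⟩
    · obtain ⟨T, hT, hJ⟩ := ih hxb
      refine ⟨symmDiff T {e}, ?_, hJ.trans M (M.isJoin_singleton h1 h2 hbc') hxb hbc' hxy⟩
      intro a ha
      rw [Finset.mem_coe, Finset.mem_symmDiff, Finset.mem_singleton] at ha
      rcases ha with ⟨h, _⟩ | ⟨h, _⟩
      · exact hT h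
      · rw [h]; exact he

/-- joins give reachability -/
lemma IsJoin.reach {x y : V} {T : Finset E} (h : M.IsJoin x y T) : M.Reach (↑T) x y := by
  by_contra hcon
  obtain ⟨e, he, hc⟩ := h.exists_mem_cut M (X := {v | ∃ a ∈ ({x} : Set V), M.Reach (↑T) a v})
    ⟨x, rfl, Reach.refl M _ x⟩ (by
      rintro ⟨a, rfl, ha⟩
      exact hcon ha)
  exact M.cut_reach (↑T) {x} he hc

/-- ends of a join are different -/
lemma IsJoin.exists_mem {x y : V} {T : Finset E} (h : M.IsJoin x y T) :
    ∃ e ∈ T, M.inc x e := by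
  classical
  by_contra hcon
  push Not at hcon
  have : M.par T x = 0 := by
    rw [par_eq_sum]
    apply Finset.sum_eq_zero
    intro e he
    simp [hcon e he]
  rw [h.par_left] at this
  exact absurd this (by decide)

/-! ### vertices of an edge set -/

/-- vertices incident with an edge of `z` -/
def verts (z : Finset E) : Set V := {v | ∃ e ∈ z, M.inc v e}

lemma mem_verts_of_par {z : Finset E} {v : V} (h : M.par z v ≠ 0) : v ∈ M.verts z := by
  classical
  by_contra hcon
  apply h
  rw [par_eq_sum]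
  apply Finset.sum_eq_zero
  intro e he
  rw [if_neg]
  intro hinc
  exact hcon ⟨e, he, hinc⟩

lemma par_eq_zero_of_not_mem_verts {z : Finset E} {v : V} (h : v ∉ M.verts z) :
    M.par z v = 0 := by
  by_contra hcon
  exact h (M.mem_verts_of_par hcon)

/-! ### restriction of edge sets to vertex sets -/

open Classical in
/-- edges of `z` with both ends in `X` -/
noncomputable def inside (z : Finset E) (X : Set V) : Finset E :=
  z.filter (fun e => ∀ v, M.inc v e → v ∈ X)

lemma mem_inside {z : Finset E} {X : Set V} {e : E} :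
    e ∈ M.inside z X ↔ e ∈ z ∧ ∀ v, M.inc v e → v ∈ X := by
  classical
  simp [inside]

lemma inside_subset (z : Finset E) (X : Set V) : M.inside z X ⊆ z := by
  intro e he
  exact ((M.mem_inside).1 he).1

/-- parity of the restriction at a vertex of `X` all of whose `z`-edges avoid the cut -/
lemma par_inside {z : Finset E} {X : Set V} {v : V} (hv : v ∈ X)
    (h : ∀ e ∈ z, M.inc v e → e ∉ M.cut X) : M.par (M.inside z X) v = M.par z v := by
  classical
  rw [par, par, deg_def, deg_def]
  congr 2
  ext e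
  rw [Finset.mem_filter, Finset.mem_filter, mem_inside]
  constructor
  · rintro ⟨⟨h1, _⟩, h3⟩; exact ⟨h1, h3⟩
  · rintro ⟨h1, h3⟩
    refine ⟨⟨h1, ?_⟩, h3⟩
    intro w hw
    by_contra hwX
    exact h e h1 h3 ⟨v, w, h3, hw, hv, hwX⟩

lemma par_inside_of_not_mem {z : Finset E} {X : Set V} {v : V} (hv : v ∉ X) :
    M.par (M.inside z X) v = 0 := by
  apply M.par_eq_zero_of_not_mem_verts
  rintro ⟨e, he, hinc⟩
  exact hv (((M.mem_inside).1 he).2 v hinc)

/-- if an even set avoids the cut of `X` its restriction to `X` is even -/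
lemma IsEven.inside {z : Finset E} (hz : M.IsEven z) {X : Set V}
    (h : ∀ e ∈ z, e ∉ M.cut X) : M.IsEven (M.inside z X) := by
  rw [isEven_iff]
  intro v
  by_cases hv : v ∈ X
  · rw [M.par_inside hv (fun e he _ => h e he)]
    exact (M.isEven_iff).1 hz v
  · exact M.par_inside_of_not_mem hv

/-! ### circuits -/

/-- every edge of an even set lies in a circuit contained in the set -/
lemma IsEven.exists_circuit {z : Finset E} (hz : M.IsEven z) {e : E} (he : e ∈ z) :
    ∃ C, C ⊆ z ∧ e ∈ C ∧ M.IsCircuit C := by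
  classical
  induction z using Finset.strongInduction with
  | H z ih =>
    by_cases hc : M.IsCircuit z
    · exact ⟨z, subset_rfl, he, hc⟩
    · have : ∃ w, w ⊆ z ∧ M.IsEven w ∧ w.Nonempty ∧ w ≠ z := by
        by_contra hcon
        push Not at hcon
        exact hc ⟨hz, ⟨e, he⟩, fun w h1 h2 h3 => hcon w h1 h2 h3⟩
      obtain ⟨w, hwz, hwe, hwn, hne⟩ := this
      by_cases hew : e ∈ w
      · obtain ⟨C, h1, h2, h3⟩ := ih w (Finset.ssubset_iff_subset_ne.2 ⟨hwz, hne⟩) hwe hew
        exact ⟨C, h1.trans hwz, h2, h3⟩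
      · have hs : z \ w ⊂ z := by
          refine Finset.ssubset_iff_subset_ne.2 ⟨Finset.sdiff_subset, ?_⟩
          intro h
          obtain ⟨a, ha⟩ := hwn
          have : a ∈ z \ w := by rw [h]; exact hwz ha
          exact (Finset.mem_sdiff.1 this).2 ha
        obtain ⟨C, h1, h2, h3⟩ := ih (z \ w) hs (IsEven.sdiff M hz hwe hwz)
          (Finset.mem_sdiff.2 ⟨he, hew⟩)
        exact ⟨C, h1.trans Finset.sdiff_subset, h2, h3⟩

/-- a circuit avoiding the cut of `X` is inside `X` or disjoint from `X` -/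
lemma IsCircuit.subset_or {C : Finset E} (hC : M.IsCircuit C) {X : Set V}
    (h : ∀ e ∈ C, e ∉ M.cut X) : M.verts C ⊆ X ∨ ∀ v ∈ M.verts C, v ∉ X := by
  have hI := IsEven.inside M hC.1 h
  by_cases hne : (M.inside C X).Nonempty
  · left
    have := hC.2.2 _ (M.inside_subset C X) hI hne
    rintro v ⟨e, he, hinc⟩
    rw [← this] at he
    exact ((M.mem_inside).1 he).2 v hinc
  · right
    rintro v ⟨e, he, hinc⟩ hvX
    apply hne
    refine ⟨e, (M.mem_inside).2 ⟨he, ?_⟩⟩
    intro w hw
    by_contra hwX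
    exact h e he ⟨v, w, hinc, hw, hvX, hwX⟩

/-- vertices of a circuit are mutually reachable inside the circuit -/
lemma IsCircuit.reach {C : Finset E} (hC : M.IsCircuit C) {x y : V} (hx : x ∈ M.verts C)
    (hy : y ∈ M.verts C) : M.Reach (↑C) x y := by
  have h := hC.subset_or M (X := {v | ∃ a ∈ ({x} : Set V), M.Reach (↑C) a v})
    (fun e he hc => M.cut_reach (↑C) {x} he hc)
  rcases h with h | h
  · obtain ⟨a, rfl, ha⟩ := h hy
    exact ha
  · exact absurd ⟨x, rfl, Reach.refl M _ x⟩ (h x hx)

/-- proper subsets of circuits contain no nonempty even set -/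
lemma IsCircuit.no_even {C T : Finset E} (hC : M.IsCircuit C) (hT : T ⊂ C) {w : Finset E}
    (hw : w ⊆ T) (he : M.IsEven w) : w = ∅ := by
  by_contra hne
  have := hC.2.2 w (hw.trans hT.subset) he (Finset.nonempty_iff_ne_empty.2 hne)
  subst this
  exact hT.not_subset hw

/-! ### minimal joins -/

/-- joins without nonempty even subsets (paths) -/
def IsPathJoin (x y : V) (T : Finset E) : Prop :=
  M.IsJoin x y T ∧ ∀ w, w ⊆ T → M.IsEven w → w = ∅

/-- every join contains a path join -/
lemma IsJoin.exists_path {x y : V} {T : Finset E} (h : M.IsJoin x y T) :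
    ∃ T', T' ⊆ T ∧ M.IsPathJoin x y T' := by
  classical
  induction T using Finset.strongInduction with
  | H T ih =>
    by_cases hc : ∀ w, w ⊆ T → M.IsEven w → w = ∅
    · exact ⟨T, subset_rfl, h, hc⟩
    · push Not at hc
      obtain ⟨w, hwT, hwe, hne⟩ := hc
      have hs : symmDiff T w ⊂ T := by
        have hsd : symmDiff T w = T \ w := by
          ext x
          simp only [Finset.mem_sdiff, Finset.mem_symmDiff]
          have := @hwT x
          tauto
        rw [hsd]
        refine Finset.ssubset_iff_subset_ne.2 ⟨Finset.sdiff_subset, ?_⟩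
        intro h
        obtain ⟨a, ha⟩ := hne
        have : a ∈ T \ w := by rw [h]; exact hwT ha
        exact (Finset.mem_sdiff.1 this).2 ha
      obtain ⟨T', h1, h2⟩ := ih _ hs (h.add_even M hwe)
      exact ⟨T', h1.trans hs.subset, h2⟩

/-- every vertex of a path join is reachable from its end inside the join -/
lemma IsPathJoin.reach {x y v : V} {T : Finset E} (h : M.IsPathJoin x y T)
    (hv : v ∈ M.verts T) : M.Reach (↑T) x v := by
  set X : Set V := {v | ∃ a ∈ ({x} : Set V), M.Reach (↑T) a v} with hX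
  have hcut : ∀ e ∈ T, e ∉ M.cut Xᶜ := by
    intro e he hc
    rw [cut_compl] at hc
    exact M.cut_reach (↑T) {x} he hc
  have hxX : x ∈ X := ⟨x, rfl, Reach.refl M _ x⟩
  have hyX : y ∈ X := ⟨x, rfl, h.1.reach M⟩
  have hev : M.IsEven (M.inside T Xᶜ) := by
    rw [isEven_iff]
    intro u
    by_cases hu : u ∈ Xᶜ
    · rw [M.par_inside hu (fun e he _ => hcut e he)]
      exact h.1.par_other M (by rintro rfl; exact hu hxX) (by rintro rfl; exact hu hyX)
    · exact M.par_inside_of_not_mem hu
  have h0 := h.2 _ (M.inside_subset T _) hev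
  by_contra hcon
  have hvX : v ∈ Xᶜ := by
    rintro ⟨a, rfl, ha⟩
    exact hcon ha
  obtain ⟨e, he, hinc⟩ := hv
  have : e ∈ M.inside T Xᶜ := by
    refine (M.mem_inside).2 ⟨he, ?_⟩
    intro w hw
    by_contra hwX
    exact hcut e he ⟨v, w, hinc, hw, hvX, hwX⟩
  rw [h0] at this
  exact absurd this (Finset.notMem_empty e)

/-- splitting a path join at an inner vertex -/
lemma IsPathJoin.split {x y v : V} {T : Finset E} (h : M.IsPathJoin x y T)
    (hv : v ∈ M.verts T) (hvx : v ≠ x) (hvy : v ≠ y) (hxy : x ≠ y) :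
    ∃ T1 T2 : Finset E, M.IsPathJoin x v T1 ∧ M.IsPathJoin v y T2 ∧ Disjoint T1 T2 ∧
      T1 ⊆ T ∧ T2 ⊆ T ∧ ∀ e, e ∈ T ↔ (e ∈ T1 ∨ e ∈ T2) := by
  classical
  obtain ⟨T1, hT1, hJ⟩ := (h.reach M hv).exists_join M hvx.symm
  have hT1' : T1 ⊆ T := by exact_mod_cast hT1
  refine ⟨T1, T \ T1, ⟨hJ, fun w hw he => h.2 w (hw.trans hT1') he⟩,
    ⟨?_, fun w hw he => h.2 w (hw.trans Finset.sdiff_subset) he⟩, Finset.disjoint_sdiff, hT1',
    Finset.sdiff_subset, ?_⟩
  · have : T \ T1 = symmDiff T1 T := by
      ext e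
      simp only [Finset.mem_sdiff, Finset.mem_symmDiff]
      have := @hT1' e
      tauto
    rw [this]
    exact (hJ.symm M).trans M h.1 hvx hxy hvy
  · intro e
    rw [Finset.mem_sdiff]
    have := @hT1' e
    tauto

/-- A proper sub-join of a circuit is a path join. -/
lemma IsCircuit.pathJoin {C A : Finset E} (hC : M.IsCircuit C) {x y : V} (hA : M.IsJoin x y A)
    (hAC : A ⊆ C) : M.IsPathJoin x y A := by
  refine ⟨hA, fun w hw he => ?_⟩
  apply hC.no_even M _ hw he
  refine Finset.ssubset_iff_subset_ne.2 ⟨hAC, ?_⟩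
  rintro rfl
  have h1 := hA.par_left
  rw [(M.isEven_iff).1 hC.1 x] at h1
  exact absurd h1 (by decide)

/-- between two vertices of a circuit there are two complementary arcs -/
lemma IsCircuit.exists_arcs {C : Finset E} (hC : M.IsCircuit C) {x y : V}
    (hx : x ∈ M.verts C) (hy : y ∈ M.verts C) (hxy : x ≠ y) :
    ∃ A1 A2 : Finset E, M.IsPathJoin x y A1 ∧ M.IsPathJoin x y A2 ∧ Disjoint A1 A2 ∧
      A1 ⊆ C ∧ A2 ⊆ C ∧ ∀ e, e ∈ C ↔ (e ∈ A1 ∨ e ∈ A2) := by
  classical
  obtain ⟨A, hA, hJ⟩ := (hC.reach M hx hy).exists_join M hxy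
  have hA' : A ⊆ C := by exact_mod_cast hA
  have hsd : C \ A = symmDiff A C := by
    ext e
    simp only [Finset.mem_sdiff, Finset.mem_symmDiff]
    have := @hA' e
    tauto
  refine ⟨A, C \ A, hC.pathJoin M hJ hA', hC.pathJoin M ?_ Finset.sdiff_subset,
    Finset.disjoint_sdiff, hA', Finset.sdiff_subset, ?_⟩
  · rw [hsd]; exact hJ.add_even M hC.1
  · intro e
    rw [Finset.mem_sdiff]
    have := @hA' e
    tauto

end MG

end Pool.Agent.MP_57dfd7_co
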