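import Pool.Agent.MP_57dfd7_co.Defs

/-!
T1a, T1b, T1c for MP_57dfd7_co: elementary facts about the lamplighter graph.
-/

namespace Pool.Agent.MP_57dfd7_co

/-- the bijection `(A, n) ↦ ((A + m) ∆ B, n + m)` -/
def lampEquiv (B : Finset ℤ) (m : ℤ) : (Finset ℤ × ℤ) ≃ (Finset ℤ × ℤ) where
  toFun x := (symmDiff (x.1.map (Equiv.addRight m).toEmbedding) B, x.2 + m)
  invFun x := ((symmDiff x.1 B).map (Equiv.addRight (-m)).toEmbedding, x.2 - m)
  left_inv := by
    rintro ⟨A, n⟩
    ext z
    · simp only [symmDiff_symmDiff_cancel_right, Finset.mem_map_equiv]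
      simp
    · simp
  right_inv := by
    rintro ⟨A, n⟩
    ext z
    · simp only [Finset.mem_symmDiff, Finset.mem_map_equiv]
      simp
      tauto
    · simp

theorem lampEquiv_symmDiff (B : Finset ℤ) (m : ℤ) (x y : Finset ℤ × ℤ) :
    symmDiff (lampEquiv B m x).1 (lampEquiv B m y).1 =
      (symmDiff x.1 y.1).map (Equiv.addRight m).toEmbedding := by
  ext z
  simp only [lampEquiv, Equiv.coe_fn_mk, Finset.mem_symmDiff, Finset.mem_map_equiv]
  tauto

/-- automorphism of the lamplighter graph -/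
def lampIso (B : Finset ℤ) (m : ℤ) : lamplighter ≃g lamplighter where
  toEquiv := lampEquiv B m
  map_rel_iff' := by
    intro x y
    have h1 := lampEquiv_symmDiff B m x y
    have h2 : (lampEquiv B m x).2 = x.2 + m := rfl
    have h3 : (lampEquiv B m y).2 = y.2 + m := rfl
    simp only [lamplighter]
    rw [h1, h2, h3]
    have h4 : ((lampEquiv B m x).1 = (lampEquiv B m y).1) ↔ x.1 = y.1 := by
      rw [← symmDiff_eq_bot, h1, ← symmDiff_eq_bot (a := x.1)]
      simp
    rw [h4]
    have h5 : ((symmDiff x.1 y.1).map (Equiv.addRight m).toEmbedding = {x.2 + m}) ↔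
        symmDiff x.1 y.1 = {x.2} := by
      rw [show ({x.2 + m} : Finset ℤ) = ({x.2} : Finset ℤ).map (Equiv.addRight m).toEmbedding by
        simp]
      exact Finset.map_inj
    rw [h5]
    constructor
    · rintro (⟨a, b⟩ | ⟨a, b⟩)
      · exact Or.inl ⟨a, by omega⟩
      · exact Or.inr ⟨by omega, b⟩
    · rintro (⟨a, b⟩ | ⟨a, b⟩)
      · exact Or.inl ⟨a, by omega⟩
      · exact Or.inr ⟨by omega, b⟩

/-- T1a. Maps `(A, n) ↦ ((A + m) ∆ B, n + m)` are automorphisms; they act transitively. -/
theorem T1a_qt : QuasiTransitive lamplighter := by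
  refine ⟨{(∅, 0)}, Set.finite_singleton _, ?_⟩
  rintro ⟨A, n⟩
  refine ⟨(∅, 0), rfl, lampIso A n, ?_⟩
  show lampEquiv A n (∅, 0) = (A, n)
  simp [lampEquiv]

/-- T1b. In a connected set of vertices with positions in `[a, a+n]` only the lamps in `[a, a+n]`
can differ. -/
theorem T1b_slab (n : ℕ) (a : ℤ) (S : Finset (Finset ℤ × ℤ))
    (hc : (lamplighter.induce (S : Set (Finset ℤ × ℤ))).Connected)
    (hS : ∀ v ∈ S, a ≤ v.2 ∧ v.2 ≤ a + n) : S.card ≤ 2 ^ (n + 1) * (n + 1) := by
  classical
  obtain ⟨v0⟩ := hc.nonempty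
  have key : ∀ v : (S : Set (Finset ℤ × ℤ)),
      symmDiff v.1.1 v0.1.1 ⊆ Finset.Icc a (a + n) := by
    intro v
    have hr : (lamplighter.induce (S : Set (Finset ℤ × ℤ))).Reachable v0 v := hc.preconnected v0 v
    rw [SimpleGraph.reachable_iff_reflTransGen] at hr
    induction hr with
    | refl => simp
    | tail _ hbc ih =>
      rename_i b c _
      have hadj : lamplighter.Adj b.1 c.1 := hbc
      rcases hadj with ⟨h1, _⟩ | ⟨h1, h2⟩
      · rw [← h1]; exact ih
      · have hb := hS b.1 b.2
        have e : symmDiff c.1.1 v0.1.1 = symmDiff {b.1.2} (symmDiff b.1.1 v0.1.1) := by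
          rw [← h2]
          ext z
          simp only [Finset.mem_symmDiff]
          tauto
        rw [e]
        intro z hz
        simp only [Finset.mem_symmDiff, Finset.mem_singleton] at hz
        rcases hz with ⟨hz, _⟩ | ⟨hz, _⟩
        · subst hz
          exact Finset.mem_Icc.mpr hb
        · exact ih (by simpa only [Finset.mem_symmDiff] using hz)
  have hcard : (((Finset.Icc a (a + n)).powerset) ×ˢ (Finset.Icc a (a + n))).card =
      2 ^ (n + 1) * (n + 1) := by
    rw [Finset.card_product, Finset.card_powerset, Int.card_Icc]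
    have : (a + n + 1 - a).toNat = n + 1 := by omega
    rw [this]
  rw [← hcard]
  refine Finset.card_le_card_of_injOn (fun v => (symmDiff v.1 v0.1.1, v.2)) ?_ ?_
  · intro v hv
    have := key ⟨v, hv⟩
    simp only [Finset.coe_product, Set.mem_prod, Finset.mem_coe, Finset.mem_powerset]
    exact ⟨this, Finset.mem_Icc.mpr (hS v hv)⟩
  · intro v _ w _ h
    simp only [Prod.mk.injEq] at h
    have h1 : v.1 = w.1 := symmDiff_left_injective v0.1.1 h.1
    exact Prod.ext h1 h.2

/-- T1c. Degrees are (at most) three: neighbours of `(A, n)` are `(A, n+1)`, `(A, n-1)`,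
`(A ∆ {n}, n)`. -/
theorem T1c_deg (v : Finset ℤ × ℤ) : (lamplighter.neighborSet v).encard ≤ 3 := by
  have hsub : lamplighter.neighborSet v ⊆
      {(v.1, v.2 + 1), (v.1, v.2 - 1), (symmDiff v.1 {v.2}, v.2)} := by
    intro w hw
    have hadj : lamplighter.Adj v w := hw
    simp only [Set.mem_insert_iff, Set.mem_singleton_iff]
    rcases hadj with ⟨h1, h2 | h2⟩ | ⟨h1, h2⟩
    · left; exact Prod.ext h1.symm h2
    · right; left; exact Prod.ext h1.symm (by simp; omega)
    · right; right
      refine Prod.ext ?_ h1.symm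
      show w.1 = symmDiff v.1 {v.2}
      rw [← h2]
      simp
  refine (Set.encard_le_encard hsub).trans ?_
  refine (Set.encard_insert_le _ _).trans ?_
  refine (add_le_add (Set.encard_insert_le _ _) le_rfl).trans ?_
  rw [Set.encard_singleton]
  norm_num

end Pool.Agent.MP_57dfd7_co
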