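import Pool.Agent.MP_57dfd7_co.Defs

/-!
T1d for MP_57dfd7_co: the lamplighter graph has unbounded treewidth.
-/

namespace Pool.Agent.MP_57dfd7_co

open SimpleGraph

/-- a preconnected induced subgraph gives walks inside the set -/
theorem exists_walk_of_preconnected {ι : Type} {T : SimpleGraph ι} {S : Set ι}
    (h : (T.induce S).Preconnected) {s t : ι} (hs : s ∈ S) (ht : t ∈ S) :
    ∃ w : T.Walk s t, ∀ x ∈ w.support, x ∈ S := by
  have key : ∀ (u v : S) (w : (T.induce S).Walk u v),
      ∃ w' : T.Walk u.1 v.1, ∀ x ∈ w'.support, x ∈ S := by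
    intro u v w
    induction w with
    | nil =>
      rename_i u
      exact ⟨Walk.nil, fun x hx => by
        rw [Walk.support_nil, List.mem_singleton] at hx
        subst hx; exact u.2⟩
    | cons hadj _ ih =>
      rename_i a b c _
      obtain ⟨w', hw'⟩ := ih
      have hadj' : T.Adj a.1 b.1 := hadj
      refine ⟨Walk.cons hadj' w', fun x hx => ?_⟩
      rw [Walk.support_cons, List.mem_cons] at hx
      rcases hx with rfl | hx
      · exact a.2
      · exact hw' x hx
  obtain ⟨w⟩ := h ⟨s, hs⟩ ⟨t, ht⟩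
  exact key _ _ w

/-- In a tree, the vertex of a connected set nearest to the root lies on every walk from the root to
the set. -/
theorem mem_support_of_nearest {ι : Type} {T : SimpleGraph ι} (hT : T.IsTree) {S : Set ι}
    (hS : ∀ s ∈ S, ∀ t ∈ S, ∃ w : T.Walk s t, ∀ x ∈ w.support, x ∈ S)
    {r a : ι} (ha : a ∈ S) (hmin : ∀ x ∈ S, T.dist r a ≤ T.dist r x)
    {s : ι} (hs : s ∈ S) (w : T.Walk r s) : a ∈ w.support := by
  classical
  obtain ⟨p, hp⟩ := hT.connected.exists_walk_length_eq_dist r a
  have hpp : p.IsPath := Walk.isPath_of_length_eq_dist p hp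
  obtain ⟨q0, hq0⟩ := hS a ha s hs
  set q := q0.bypass with hq
  have hqp : q.IsPath := Walk.bypass_isPath q0
  have hqS : ∀ x ∈ q.support, x ∈ S := fun x hx => hq0 x (Walk.support_bypass_subset_support q0 hx)
  have hpath : (p.append q).IsPath := by
    rw [Walk.isPath_def, Walk.support_append, List.nodup_append]
    refine ⟨hpp.support_nodup, hqp.support_nodup.sublist (List.tail_sublist _), ?_⟩
    rintro x hx y hy rfl
    have hxS : x ∈ S := hqS x (List.mem_of_mem_tail hy)
    have h1 := hmin x hxS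
    have h2 : T.dist r x ≤ (p.takeUntil x hx).length := dist_le _
    have h3 : (p.takeUntil x hx).length + (p.dropUntil x hx).length = p.length := by
      rw [← Walk.length_append, Walk.take_spec]
    have h4 : (p.dropUntil x hx).length = 0 := by omega
    have h5 : x = a := Walk.eq_of_length_eq_zero h4
    subst h5
    have h6 := hqp.support_nodup
    rw [← Walk.cons_tail_support] at h6
    exact (List.nodup_cons.mp h6).1 hy
  have huniq := (hT.isAcyclic.subsingleton_path r s).elim ⟨_, hpath⟩ ⟨_, Walk.bypass_isPath w⟩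
  have huniq' : p.append q = w.bypass := congrArg Subtype.val huniq
  have : a ∈ (p.append q).support := by
    rw [Walk.mem_support_append_iff]
    exact Or.inl (Walk.end_mem_support p)
  rw [huniq'] at this
  exact Walk.support_bypass_subset_support w this

/-- `T1d`: the lamplighter graph has unbounded treewidth. -/
theorem T1d_tw (k : ℕ) : ¬ TreewidthLE lamplighter k := by
  classical
  rintro ⟨ι, T, bag, hT, hcov, hedge, hconn, hcard⟩
  -- the set of nodes whose bag meets the path `P_B`
  let n : ℕ := k + 1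
  let TT : Finset ℤ → Set ι := fun B => {t | ∃ i : ℕ, i ≤ n ∧ 1 ≤ i ∧ (B, (i : ℤ)) ∈ bag t}
  have hwalk1 : ∀ (B : Finset ℤ) (i : ℕ), 1 ≤ i → i ≤ n → ∀ s t : ι, (B, (i : ℤ)) ∈ bag s →
      (B, (i : ℤ)) ∈ bag t → ∃ w : T.Walk s t, ∀ x ∈ w.support, x ∈ TT B := by
    intro B i hi1 hi2 s t hs ht
    obtain ⟨w, hw⟩ := exists_walk_of_preconnected (hconn (B, (i : ℤ))) hs ht
    exact ⟨w, fun x hx => ⟨i, hi2, hi1, hw x hx⟩⟩
  have hstep : ∀ (B : Finset ℤ) (i : ℕ), 1 ≤ i → ∀ d : ℕ, i + d ≤ n → ∀ s t : ι,
      (B, (i : ℤ)) ∈ bag s → (B, ((i + d : ℕ) : ℤ)) ∈ bag t →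
      ∃ w : T.Walk s t, ∀ x ∈ w.support, x ∈ TT B := by
    intro B i hi1 d
    induction d with
    | zero =>
      intro hi2 s t hs ht
      exact hwalk1 B i hi1 hi2 s t hs ht
    | succ d ih =>
      intro hi2 s t hs ht
      have hadj : lamplighter.Adj (B, ((i + d : ℕ) : ℤ)) (B, ((i + (d + 1) : ℕ) : ℤ)) := by
        left
        refine ⟨rfl, Or.inl ?_⟩
        push_cast
        ring
      obtain ⟨m, hm1, hm2⟩ := hedge _ _ hadj
      obtain ⟨w1, hw1⟩ := ih (by omega) s m hs hm1
      obtain ⟨w2, hw2⟩ := hwalk1 B (i + (d + 1)) (by omega) hi2 m t hm2 ht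
      refine ⟨w1.append w2, fun x hx => ?_⟩
      rw [Walk.mem_support_append_iff] at hx
      rcases hx with hx | hx
      · exact hw1 x hx
      · exact hw2 x hx
  have hTT : ∀ B, ∀ s ∈ TT B, ∀ t ∈ TT B, ∃ w : T.Walk s t, ∀ x ∈ w.support, x ∈ TT B := by
    rintro B s ⟨i, hi2, hi1, hi⟩ t ⟨j, hj2, hj1, hj⟩
    rcases le_total i j with hij | hij
    · obtain ⟨d, rfl⟩ := Nat.exists_eq_add_of_le hij
      exact hstep B i hi1 d hj2 s t hi hj
    · obtain ⟨d, rfl⟩ := Nat.exists_eq_add_of_le hij
      obtain ⟨w, hw⟩ := hstep B j hj1 d hi2 t s hj hi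
      refine ⟨w.reverse, fun x hx => hw x ?_⟩
      rwa [Walk.support_reverse, List.mem_reverse] at hx
  have hne : ∀ B, (TT B).Nonempty := by
    intro B
    obtain ⟨t, ht⟩ := hcov (B, ((1 : ℕ) : ℤ))
    exact ⟨t, 1, by omega, le_rfl, ht⟩
  obtain ⟨r⟩ := hT.connected.nonempty
  have hmin : ∀ B, ∃ t ∈ TT B, ∀ t' ∈ TT B, T.dist r t ≤ T.dist r t' := by
    intro B
    have := WellFounded.has_min (measure (fun t => T.dist r t)).wf (TT B) (hne B)
    obtain ⟨t, ht, h⟩ := this
    exact ⟨t, ht, fun t' ht' => not_lt.mp (h t' ht')⟩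
  choose near hnear hnmin using hmin
  obtain ⟨A, hA, hAmax⟩ := Finset.exists_max_image ((Finset.Icc (1 : ℤ) n).powerset)
    (fun B => T.dist r (near B)) ⟨∅, Finset.empty_mem_powerset _⟩
  have hclaim : ∀ B ∈ (Finset.Icc (1 : ℤ) n).powerset, (∃ s, s ∈ TT A ∧ s ∈ TT B) →
      near A ∈ TT B := by
    rintro B hB ⟨s, hsA, hsB⟩
    by_contra hcon
    obtain ⟨p, hp⟩ := hT.connected.exists_walk_length_eq_dist r (near B)
    obtain ⟨q, hq⟩ := hTT B (near B) (hnear B) s hsB
    have h1 := mem_support_of_nearest hT (hTT A) (hnear A) (hnmin A) hsA (p.append q)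
    rw [Walk.mem_support_append_iff] at h1
    rcases h1 with h1 | h1
    · have h2 : T.dist r (near A) ≤ (p.takeUntil _ h1).length := dist_le _
      have h3 : (p.takeUntil _ h1).length + (p.dropUntil _ h1).length = p.length := by
        rw [← Walk.length_append, Walk.take_spec]
      have h4 := hAmax B hB
      have h5 : T.dist r (near B) ≤ T.dist r (near A) := h4
      have h6 : (p.dropUntil _ h1).length + T.dist r (near A) ≤ T.dist r (near B) := by omega
      have h7 : (p.dropUntil _ h1).length = 0 := by omega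
      have h8 : near A = near B := Walk.eq_of_length_eq_zero h7
      exact hcon (h8 ▸ hnear B)
    · exact hcon (hq _ h1)
  -- the bag of `near A` meets all neighbours
  have hbag : insert A ((Finset.Icc (1 : ℤ) n).image (fun i => symmDiff A {i})) ⊆
      (bag (near A)).image Prod.fst := by
    intro B hB
    rw [Finset.mem_insert] at hB
    have hmem : near A ∈ TT B := by
      rcases hB with rfl | hB
      · exact hnear B
      · rw [Finset.mem_image] at hB
        obtain ⟨i, hi, rfl⟩ := hB
        rw [Finset.mem_Icc] at hi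
        refine hclaim _ ?_ ?_
        · rw [Finset.mem_powerset] at hA ⊢
          intro z hz
          rw [Finset.mem_symmDiff, Finset.mem_singleton] at hz
          rcases hz with ⟨hz, _⟩ | ⟨hz, _⟩
          · exact hA hz
          · subst hz; exact Finset.mem_Icc.mpr hi
        · have hadj : lamplighter.Adj (A, i) (symmDiff A {i}, i) := by
            right
            refine ⟨rfl, ?_⟩
            simp
          obtain ⟨s, hs1, hs2⟩ := hedge _ _ hadj
          have hi' : ((i.toNat : ℕ) : ℤ) = i := by omega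
          refine ⟨s, ⟨i.toNat, by omega, by omega, ?_⟩, ⟨i.toNat, by omega, by omega, ?_⟩⟩
          · rw [hi']; exact hs1
          · rw [hi']; exact hs2
    obtain ⟨i, _, _, hi⟩ := hmem
    exact Finset.mem_image.mpr ⟨_, hi, rfl⟩
  have hc1 : (insert A ((Finset.Icc (1 : ℤ) n).image (fun i => symmDiff A {i}))).card = n + 1 := by
    rw [Finset.card_insert_of_notMem, Finset.card_image_of_injective, Int.card_Icc]
    · simp
    · intro i j hij
      have := symmDiff_right_injective A hij
      simpa using this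
    · intro h
      rw [Finset.mem_image] at h
      obtain ⟨i, _, hi⟩ := h
      have h2 : symmDiff A (symmDiff A {i}) = symmDiff A A := by rw [hi]
      simp at h2
  have hc2 := (Finset.card_le_card hbag).trans Finset.card_image_le
  have hc3 := hcard (near A)
  rw [hc1] at hc2
  omega

end Pool.Agent.MP_57dfd7_co
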