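import Mathlib
import Pool.Agent.MP_57dfd7_co.Defs

/-!
T2: a tree-decomposition of bounded width from a Lipschitz function with bounded slabs and a
cycle space generated by bounded even sets.
-/

namespace Pool.Agent.MP_57dfd7_co

namespace T2

open Finset

/-! ### Sums mod 2 -/

theorem sum_of_xor {E : Type} {z w t : Finset E} (h : ∀ e, e ∈ t ↔ Xor (e ∈ z) (e ∈ w))
    (φ : E → ZMod 2) : ∑ e ∈ t, φ e = ∑ e ∈ z, φ e + ∑ e ∈ w, φ e := by
  classical
  have key : ∀ s : Finset E, s ⊆ z ∪ w → ∑ e ∈ s, φ e = ∑ e ∈ z ∪ w, if e ∈ s then φ e else 0 := by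
    intro s hs
    rw [← Finset.sum_filter]
    congr 1
    ext e
    simp only [Finset.mem_filter]
    exact ⟨fun he => ⟨hs he, he⟩, fun he => he.2⟩
  have ht : t ⊆ z ∪ w := by
    intro e he
    rw [h] at he
    rcases he with he | he
    · exact Finset.mem_union_left _ he.1
    · exact Finset.mem_union_right _ he.1
  rw [key t ht, key z Finset.subset_union_left, key w Finset.subset_union_right,
    ← Finset.sum_add_distrib]
  refine Finset.sum_congr rfl fun e _ => ?_
  have h2 : ∀ a : ZMod 2, a + a = 0 := fun a => by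
    have : (2 : ZMod 2) = 0 := rfl
    rw [← two_mul, this, zero_mul]
  by_cases hz : e ∈ z <;> by_cases hw : e ∈ w <;> simp [h, hz, hw, Xor, h2]

theorem gen_sum {E : Type} {P : Finset E → Prop} {z : Finset E} (hz : MG.Gen P z)
    (φ : E → ZMod 2) (hP : ∀ w, P w → ∑ e ∈ w, φ e = 0) : ∑ e ∈ z, φ e = 0 := by
  induction hz with
  | zero => simp
  | add h1 _ h3 ih => rw [sum_of_xor h3, hP _ h1, ih, add_zero]

/-! ### Sums along walks -/

section Walks

variable {V : Type} {H : SimpleGraph V}

/-- sum of a function of the edges along a walk -/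
def csum (φ : Sym2 V → ZMod 2) {u v : V} (w : H.Walk u v) : ZMod 2 := (w.edges.map φ).sum

theorem csum_nil (φ : Sym2 V → ZMod 2) (u : V) : csum φ (SimpleGraph.Walk.nil : H.Walk u u) = 0 := by
  simp [csum]

theorem csum_cons (φ : Sym2 V → ZMod 2) {u v w : V} (h : H.Adj u v) (p : H.Walk v w) :
    csum φ (SimpleGraph.Walk.cons h p) = φ s(u, v) + csum φ p := by
  simp [csum]

theorem csum_append (φ : Sym2 V → ZMod 2) {u v w : V} (p : H.Walk u v) (q : H.Walk v w) :
    csum φ (p.append q) = csum φ p + csum φ q := by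
  simp [csum, SimpleGraph.Walk.edges_append]

theorem csum_reverse (φ : Sym2 V → ZMod 2) {u v : V} (p : H.Walk u v) :
    csum φ p.reverse = csum φ p := by
  simp [csum, SimpleGraph.Walk.edges_reverse]

theorem exists_finset_of_walk {u v : V} (p : H.Walk u v) :
    ∃ z : Finset H.edgeSet, ∀ φ : Sym2 V → ZMod 2, ∑ e ∈ z, φ e.1 = csum φ p := by
  classical
  induction p with
  | nil => exact ⟨∅, fun φ => by simp [csum_nil]⟩
  | @cons a b c h p ih =>
    obtain ⟨z, hz⟩ := ih
    refine ⟨symmDiff {⟨s(a, b), h⟩} z, fun φ => ?_⟩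
    rw [csum_cons, ← hz]
    have := sum_of_xor (z := ({⟨s(a, b), h⟩} : Finset H.edgeSet)) (w := z)
      (t := symmDiff {⟨s(a, b), h⟩} z) (fun e => by
        rw [Finset.mem_symmDiff]; rfl) (fun e => φ e.1)
    rw [this]
    simp

theorem csum_incident (x : V) {u v : V} (p : H.Walk u v) [DecidableEq V] :
    csum (fun e => if x ∈ e then 1 else 0) p = (if x = u then 1 else 0) + (if x = v then 1 else 0) := by
  have h2 : ∀ a : ZMod 2, a + a = 0 := fun a => by
    have : (2 : ZMod 2) = 0 := rfl
    rw [← two_mul, this, zero_mul]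
  induction p with
  | nil => rw [csum_nil, h2]
  | @cons a b c h p ih =>
    rw [csum_cons, ih]
    have hab : a ≠ b := h.ne
    by_cases h1 : x = a
    · subst h1
      simp [hab]
    · by_cases h3 : x = b
      · subst h3
        simp only [Sym2.mem_iff, h1, if_false, if_true, or_true, zero_add]
        rw [← add_assoc, h2, zero_add]
      · simp [h1, h3]

theorem deg_eq [DecidableEq V] (z : Finset H.edgeSet) (x : V) :
    (ofGraph H).deg z x = (z.filter fun e => x ∈ (e.1 : Sym2 V)).card := by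
  unfold MG.deg
  congr 1
  ext e
  simp [ofGraph]

theorem even_of_closed_walk {u : V} (p : H.Walk u u) (z : Finset H.edgeSet)
    (hz : ∀ φ : Sym2 V → ZMod 2, ∑ e ∈ z, φ e.1 = csum φ p) : (ofGraph H).IsEven z := by
  classical
  intro x
  have h1 := hz (fun e => if x ∈ e then 1 else 0)
  rw [csum_incident] at h1
  have h2 : ∀ a : ZMod 2, a + a = 0 := fun a => by
    have : (2 : ZMod 2) = 0 := rfl
    rw [← two_mul, this, zero_mul]
  rw [h2, ← Finset.sum_filter, Finset.sum_const, nsmul_eq_mul, mul_one] at h1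
  rw [ZMod.natCast_eq_zero_iff_even] at h1
  rw [deg_eq]
  exact h1

/-- Claim A: if all small even sets have sum zero, then so have all closed walks. -/
theorem csum_closed_eq_zero {L : ℕ} (hL : (ofGraph H).GenBy L) (φ : Sym2 V → ZMod 2)
    (hφ : ∀ z : Finset H.edgeSet, (ofGraph H).IsEven z → z.card ≤ L → ∑ e ∈ z, φ e.1 = 0)
    {u : V} (p : H.Walk u u) : csum φ p = 0 := by
  obtain ⟨z, hz⟩ := exists_finset_of_walk p
  rw [← hz]
  exact gen_sum (hL z (even_of_closed_walk p z hz)) (fun e => φ e.1) (fun w hw => hφ w hw.1 hw.2)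

/-- An even set on which `φ` is a coboundary has sum zero. -/
theorem sum_coboundary (z : Finset H.edgeSet) (hz : (ofGraph H).IsEven z) (φ : Sym2 V → ZMod 2)
    (s : V → ZMod 2) (hs : ∀ x y, ∀ h : H.Adj x y, (⟨s(x, y), h⟩ : H.edgeSet) ∈ z →
      φ s(x, y) = s x + s y) : ∑ e ∈ z, φ e.1 = 0 := by
  classical
  set W : Finset V := z.biUnion fun e => (e.1 : Sym2 V).toFinset with hW
  have h1 : ∀ e ∈ z, φ e.1 = ∑ x ∈ W, if x ∈ (e.1 : Sym2 V) then s x else 0 := by
    rintro ⟨e, he⟩ hez
    have hsub : (e : Sym2 V).toFinset ⊆ W := by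
      intro x hx
      rw [hW, Finset.mem_biUnion]
      exact ⟨⟨e, he⟩, hez, hx⟩
    induction e using Sym2.ind with
    | _ x y =>
      have hxy : H.Adj x y := he
      show φ s(x, y) = _
      rw [hs x y hxy hez, ← Finset.sum_filter]
      have : W.filter (fun v => v ∈ s(x, y)) = {x, y} := by
        ext v
        simp only [Finset.mem_filter, Sym2.mem_iff, Finset.mem_insert, Finset.mem_singleton]
        constructor
        · exact fun h => h.2
        · intro h
          refine ⟨hsub ?_, h⟩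
          rw [Sym2.mem_toFinset, Sym2.mem_iff]
          exact h
      rw [this, Finset.sum_pair hxy.ne]
  rw [Finset.sum_congr rfl h1, Finset.sum_comm]
  refine Finset.sum_eq_zero fun x _ => ?_
  rw [← Finset.sum_filter, Finset.sum_const, nsmul_eq_mul]
  have h3 : ((z.filter fun e => x ∈ (e.1 : Sym2 V)).card : ZMod 2) = 0 := by
    rw [ZMod.natCast_eq_zero_iff_even]
    have := hz x
    rw [deg_eq] at this
    exact this
  rw [h3, zero_mul]

end Walks

/-! ### Slabs -/

section Slabs

variable {V : Type} (H : SimpleGraph V) (h : V → ℤ)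

/-- the edges inside the slab `a ≤ h ≤ b` -/
def slabG (a b : ℤ) : SimpleGraph V where
  Adj x y := H.Adj x y ∧ (a ≤ h x ∧ h x ≤ b) ∧ (a ≤ h y ∧ h y ≤ b)
  symm := ⟨fun _ _ hxy => ⟨hxy.1.symm, hxy.2.2, hxy.2.1⟩⟩
  loopless := ⟨fun _ hx => H.irrefl hx.1⟩

variable {H h}

theorem slabG_le (a b : ℤ) : slabG H h a b ≤ H := fun _ _ hxy => hxy.1

theorem slabG_mono {a b a' b' : ℤ} (ha : a' ≤ a) (hb : b ≤ b') :
    slabG H h a b ≤ slabG H h a' b' := by
  intro x y hxy
  obtain ⟨h1, ⟨h2, h3⟩, h4, h5⟩ := hxy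
  exact ⟨h1, ⟨by linarith, by linarith⟩, by linarith, by linarith⟩

theorem slab_of_mem_support {a b : ℤ} {u v : V} (p : (slabG H h a b).Walk u v)
    (hu : a ≤ h u ∧ h u ≤ b) : ∀ x ∈ p.support, a ≤ h x ∧ h x ≤ b := by
  induction p with
  | nil => intro x hx; simp at hx; rw [hx]; exact hu
  | @cons u' v' w' hadj p ih =>
    intro x hx
    rw [SimpleGraph.Walk.support_cons, List.mem_cons] at hx
    rcases hx with rfl | hx
    · exact hu
    · exact ih hadj.2.2 x hx

/-- A set of vertices connected to `r` inside a slab is finite of bounded size. -/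
theorem bounded_of_reachable {N : ℕ} {a : ℤ} {n : ℕ}
    (hN : ∀ (S : Finset V), (H.induce (S : Set V)).Connected →
      (∀ v ∈ S, a ≤ h v ∧ h v ≤ a + n) → S.card ≤ N)
    (r : V) (hr : a ≤ h r ∧ h r ≤ a + n) (D : Finset V)
    (hD : ∀ v ∈ D, (slabG H h a (a + n)).Reachable r v) : D.card ≤ N := by
  classical
  let S : Finset V := insert r (D.attach.biUnion fun v => ((hD v.1 v.2).some).support.toFinset)
  have hDS : D ⊆ S := by
    intro v hv
    apply Finset.mem_insert_of_mem
    rw [Finset.mem_biUnion]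
    exact ⟨⟨v, hv⟩, Finset.mem_attach _ _, by simp⟩
  have hSslab : ∀ v ∈ S, a ≤ h v ∧ h v ≤ a + n := by
    intro v hv
    rcases Finset.mem_insert.1 hv with rfl | hv
    · exact hr
    · rw [Finset.mem_biUnion] at hv
      obtain ⟨x, -, hx⟩ := hv
      exact slab_of_mem_support _ hr v (List.mem_toFinset.1 hx)
  have hconn : (H.induce (S : Set V)).Connected := by
    apply SimpleGraph.induce_connected_of_patches r (by simp [S])
    intro v hv
    have hv' : v ∈ S := hv
    rcases Finset.mem_insert.1 hv' with rfl | hv'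
    · exact ⟨{v}, by simpa using hv, rfl, rfl, SimpleGraph.Reachable.refl _⟩
    · rw [Finset.mem_biUnion] at hv'
      obtain ⟨x, -, hx⟩ := hv'
      set p := (hD x.1 x.2).some with hp
      have hsup : (p.mapLe (slabG_le a (a + n))).support = p.support :=
        SimpleGraph.Walk.support_mapLe_eq_support _ _
      refine ⟨{y | y ∈ (p.mapLe (slabG_le a (a + n))).support}, ?_, ?_, ?_, ?_⟩
      · intro y hy
        rw [Set.mem_ofPred_eq, hsup] at hy
        show y ∈ S
        apply Finset.mem_insert_of_mem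
        rw [Finset.mem_biUnion]
        exact ⟨x, Finset.mem_attach _ _, List.mem_toFinset.2 hy⟩
      · simp
      · rw [Set.mem_ofPred_eq, hsup]; exact List.mem_toFinset.1 hx
      · exact (SimpleGraph.Walk.connected_induce_support _).preconnected _ _
  exact (Finset.card_le_card hDS).trans (hN S hconn hSslab)

end Slabs

/-! ### Pieces -/

section Pieces

variable {V : Type} (H : SimpleGraph V) (h : V → ℤ) (L : ℕ)

/-- slab index -/
def idx (v : V) : ℤ := h v / ((L : ℤ) + 1)

/-- the extended slab of index `k` -/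
def ext (k : ℤ) : SimpleGraph V :=
  slabG H h (k * ((L : ℤ) + 1) - L) ((k + 1) * ((L : ℤ) + 1) + L)

theorem idx_le (v : V) : idx h L v * ((L : ℤ) + 1) ≤ h v := Int.ediv_mul_le _ (by omega)

theorem lt_idx (v : V) : h v < (idx h L v + 1) * ((L : ℤ) + 1) :=
  Int.lt_ediv_add_one_mul_self _ (by omega)

theorem idx_eq {v : V} {k : ℤ} (h1 : k * ((L : ℤ) + 1) ≤ h v) (h2 : h v < (k + 1) * ((L : ℤ) + 1)) :
    idx h L v = k := by
  have h3 := idx_le h L v
  have h4 := lt_idx h L v
  have hL : (0 : ℤ) < (L : ℤ) + 1 := by omega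
  apply le_antisymm
  · by_contra hlt
    push Not at hlt
    have : (k + 1) * ((L : ℤ) + 1) ≤ idx h L v * ((L : ℤ) + 1) :=
      mul_le_mul_of_nonneg_right (by omega) hL.le
    omega
  · by_contra hlt
    push Not at hlt
    have : (idx h L v + 1) * ((L : ℤ) + 1) ≤ k * ((L : ℤ) + 1) :=
      mul_le_mul_of_nonneg_right (by omega) hL.le
    omega

/-- `u` and `v` are in the same piece -/
def pieceSetoid : Setoid V where
  r u v := idx h L u = idx h L v ∧ (ext H h L (idx h L u)).Reachable u v
  iseqv := by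
    refine ⟨fun u => ⟨rfl, SimpleGraph.Reachable.refl _⟩, ?_, ?_⟩
    · rintro u v ⟨h1, h2⟩
      refine ⟨h1.symm, ?_⟩
      rw [← h1]
      exact h2.symm
    · rintro u v w ⟨h1, h2⟩ ⟨h3, h4⟩
      refine ⟨h1.trans h3, h2.trans ?_⟩
      rw [h1]
      exact h4

/-- the type of pieces -/
abbrev Piece : Type := Quotient (pieceSetoid H h L)

/-- the piece of a vertex -/
def mk (v : V) : Piece H h L := Quotient.mk (pieceSetoid H h L) v

variable {H h L}

theorem mk_eq {u v : V} : mk H h L u = mk H h L v ↔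
    idx h L u = idx h L v ∧ (ext H h L (idx h L u)).Reachable u v := by
  unfold mk
  rw [Quotient.eq]
  exact Iff.rfl

theorem mk_eq_of_adj {u v : V} (hadj : H.Adj u v) (hidx : idx h L u = idx h L v) :
    mk H h L u = mk H h L v := by
  rw [mk_eq]
  refine ⟨hidx, SimpleGraph.Adj.reachable ?_⟩
  have h1 := idx_le h L u
  have h2 := lt_idx h L u
  have h3 := idx_le h L v
  have h4 := lt_idx h L v
  rw [← hidx] at h3 h4
  have hL : (0 : ℤ) ≤ L := by omega
  exact ⟨hadj, ⟨by linarith, by linarith⟩, by linarith, by linarith⟩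

variable (H h L)

open Classical in
/-- indicator of the edges between two pieces -/
noncomputable def phi (P P' : Piece H h L) (e : Sym2 V) : ZMod 2 :=
  if e.map (mk H h L) = s(P, P') then 1 else 0

open Classical in
/-- the potential of Claim B -/
noncomputable def pot (P P' : Piece H h L) (u : V) (x : V) : ZMod 2 :=
  if idx h L x = idx h L u then 0 else if s(mk H h L u, mk H h L x) = s(P, P') then 1 else 0

variable {H h L}

theorem two_eq_zero (a : ZMod 2) : a + a = 0 := by
  have : (2 : ZMod 2) = 0 := rfl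
  rw [← two_mul, this, zero_mul]

theorem phi_eq_pot (h1 : ∀ u v, H.Adj u v → |h u - h v| ≤ 1) {P P' : Piece H h L} (hP : P ≠ P')
    {u x y : V} (hx : (ext H h L (idx h L u)).Reachable u x)
    (hxy : (ext H h L (idx h L u)).Adj x y) :
    phi H h L P P' s(x, y) = pot H h L P P' u x + pot H h L P P' u y := by
  classical
  have hy : (ext H h L (idx h L u)).Reachable u y := hx.trans hxy.reachable
  unfold phi pot
  rw [Sym2.map_mk]
  have hne : ∀ Q : Piece H h L, s(Q, Q) ≠ s(P, P') := by
    intro Q hQ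
    rw [Sym2.eq_iff] at hQ
    rcases hQ with ⟨h2, h3⟩ | ⟨h2, h3⟩
    · exact hP (h2.symm.trans h3)
    · exact hP (h3.symm.trans h2)
  by_cases hxk : idx h L x = idx h L u
  · have hmx : mk H h L u = mk H h L x := mk_eq.2 ⟨hxk.symm, hx⟩
    by_cases hyk : idx h L y = idx h L u
    · have hmy : mk H h L u = mk H h L y := mk_eq.2 ⟨hyk.symm, hy⟩
      simp only [hxk, hyk, if_true, ← hmx, ← hmy, hne, if_false, add_zero]
    · simp only [hxk, hyk, if_true, ← hmx, if_false, zero_add]
  · by_cases hyk : idx h L y = idx h L u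
    · have hmy : mk H h L u = mk H h L y := mk_eq.2 ⟨hyk.symm, hy⟩
      simp only [hxk, hyk, if_true, ← hmy, if_false, add_zero]
      rw [Sym2.eq_swap]
    · -- both outside of the slab of `u`
      obtain ⟨hadj, ⟨a1, a2⟩, a3, a4⟩ := hxy
      have hd := abs_le.1 (h1 _ _ hadj)
      set k := idx h L u with hk
      have hL : (0 : ℤ) ≤ L := by omega
      have e1 : (k - 1) * ((L : ℤ) + 1) = k * ((L : ℤ) + 1) - (L + 1) := by ring
      have e2 : (k + 1) * ((L : ℤ) + 1) = k * ((L : ℤ) + 1) + (L + 1) := by ring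
      have e3 : (k + 1 + 1) * ((L : ℤ) + 1) = k * ((L : ℤ) + 1) + (L + 1) + (L + 1) := by ring
      have e4 : (k - 1 + 1) * ((L : ℤ) + 1) = k * ((L : ℤ) + 1) := by ring
      have hside : ∀ v : V, idx h L v ≠ k → k * ((L : ℤ) + 1) - L ≤ h v →
          h v ≤ (k + 1) * ((L : ℤ) + 1) + L →
          (idx h L v = k - 1 ∧ h v < k * ((L : ℤ) + 1)) ∨
          (idx h L v = k + 1 ∧ (k + 1) * ((L : ℤ) + 1) ≤ h v) := by
        intro v hv b1 b2
        by_cases c1 : h v < k * ((L : ℤ) + 1)
        · left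
          exact ⟨idx_eq h L (by rw [e1]; linarith) (by rw [e4]; exact c1), c1⟩
        · push Not at c1
          by_cases c2 : h v < (k + 1) * ((L : ℤ) + 1)
          · exact absurd (idx_eq h L c1 c2) hv
          · push Not at c2
            right
            exact ⟨idx_eq h L c2 (by rw [e3]; linarith), c2⟩
      have hxs := hside x hxk a1 a2
      have hys := hside y hyk a3 a4
      have hidx : idx h L x = idx h L y := by
        rcases hxs with ⟨c1, c2⟩ | ⟨c1, c2⟩ <;> rcases hys with ⟨d1, d2⟩ | ⟨d1, d2⟩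
        · rw [c1, d1]
        · exfalso
          rw [e2] at d2
          linarith
        · exfalso
          rw [e2] at c2
          linarith
        · rw [c1, d1]
      have hm := mk_eq_of_adj (h := h) (L := L) hadj hidx
      simp only [hxk, hyk, if_false, hm, hne, two_eq_zero]

/-- Claim B. -/
theorem exists_walk_of_mk_eq (h1 : ∀ u v, H.Adj u v → |h u - h v| ≤ 1) {P P' : Piece H h L}
    (hP : P ≠ P') {u v : V} (huv : mk H h L u = mk H h L v) :
    ∃ w : H.Walk u v, csum (phi H h L P P') w = 0 := by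
  obtain ⟨hidx, ⟨p⟩⟩ := mk_eq.1 huv
  have key : ∀ (x y : V) (p : (ext H h L (idx h L u)).Walk x y),
      (ext H h L (idx h L u)).Reachable u x →
      csum (phi H h L P P') p = pot H h L P P' u x + pot H h L P P' u y := by
    intro x y p
    induction p with
    | nil => intro _; rw [csum_nil, two_eq_zero]
    | @cons a b c hab p ih =>
      intro ha
      rw [csum_cons, ih (ha.trans hab.reachable), phi_eq_pot h1 hP ha hab]
      have := two_eq_zero (pot H h L P P' u b)
      linear_combination this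
  refine ⟨p.mapLe (slabG_le _ _), ?_⟩
  have h2 := key u v p (SimpleGraph.Reachable.refl _)
  have h3 : csum (phi H h L P P') (p.mapLe (slabG_le _ _)) = csum (phi H h L P P') p := by
    unfold csum
    rw [SimpleGraph.Walk.edges_mapLe_eq_edges]
    rfl
  rw [h3, h2]
  unfold pot
  simp [hidx]

/-- the graph of an edge set -/
def edgeG (z : Finset H.edgeSet) : SimpleGraph V where
  Adj x y := ∃ h : H.Adj x y, (⟨s(x, y), h⟩ : H.edgeSet) ∈ z
  symm := ⟨by
    rintro x y ⟨h1, h2⟩
    refine ⟨h1.symm, ?_⟩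
    have : (⟨s(y, x), h1.symm⟩ : H.edgeSet) = ⟨s(x, y), h1⟩ := Subtype.ext Sym2.eq_swap
    rw [this]
    exact h2⟩
  loopless := ⟨by
    rintro x ⟨h1, _⟩
    exact H.irrefl h1⟩

theorem reachable_slab (h1 : ∀ u v, H.Adj u v → |h u - h v| ≤ 1) {z : Finset H.edgeSet}
    (hz : z.card ≤ L) {x y : V} (hxy : (edgeG z).Reachable x y) :
    (slabG H h (h y - L) (h y + L)).Reachable x y := by
  classical
  obtain ⟨p, hp⟩ := hxy.symm.exists_isPath
  have hlen : p.length ≤ z.card := by
    rw [← SimpleGraph.Walk.length_edges, ← List.toFinset_card_of_nodup hp.isTrail.edges_nodup]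
    have : p.edges.toFinset ⊆ z.image (fun e => (e.1 : Sym2 V)) := by
      intro e he
      have he' := SimpleGraph.Walk.edges_subset_edgeSet p (List.mem_toFinset.1 he)
      induction e using Sym2.ind with
      | _ a b =>
        obtain ⟨hab, hmem⟩ := (SimpleGraph.mem_edgeSet _).1 he'
        exact Finset.mem_image.2 ⟨_, hmem, rfl⟩
    exact (Finset.card_le_card this).trans Finset.card_image_le
  have key : ∀ (a b : V) (p : (edgeG z).Walk a b) (m : ℕ), p.length ≤ m →
      (slabG H h (h a - m) (h a + m)).Reachable a b := by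
    intro a b p
    induction p with
    | nil => intro m _; exact SimpleGraph.Reachable.refl _
    | @cons a b c hab p ih =>
      intro m hm
      rw [SimpleGraph.Walk.length_cons] at hm
      have h2 := ih (m - 1) (by omega)
      have h3 := abs_le.1 (h1 _ _ hab.1)
      have hm1 : ((m - 1 : ℕ) : ℤ) = m - 1 := by omega
      have hm0 : (1 : ℤ) ≤ m := by omega
      refine SimpleGraph.Reachable.trans (SimpleGraph.Adj.reachable ?_) (h2.mono (slabG_mono ?_ ?_))
      · exact ⟨hab.1, ⟨by linarith, by linarith⟩, by linarith, by linarith⟩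
      · rw [hm1]; linarith
      · rw [hm1]; linarith
  exact (key y x p L (hlen.trans hz)).symm

/-- Claim A1: small even sets cross evenly between two adjacent pieces. -/
theorem small_even_sum (h1 : ∀ u v, H.Adj u v → |h u - h v| ≤ 1) {p₀ q₀ : V}
    (hidx : idx h L q₀ = idx h L p₀ + 1) (z : Finset H.edgeSet) (hz : (ofGraph H).IsEven z)
    (hcard : z.card ≤ L) :
    ∑ e ∈ z, phi H h L (mk H h L p₀) (mk H h L q₀) e.1 = 0 := by
  classical
  set k := idx h L p₀ with hk
  let X : V → Prop := fun x => h x < (k + 1) * ((L : ℤ) + 1) ∧ ∃ p q, (edgeG z).Adj p q ∧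
    mk H h L p = mk H h L p₀ ∧ mk H h L q = mk H h L q₀ ∧ (edgeG z).Reachable p x
  have c1 : ∀ x y, (edgeG z).Adj x y → mk H h L x = mk H h L p₀ → mk H h L y = mk H h L q₀ →
      X x ∧ ¬ X y := by
    intro x y hxy hx hy
    have hix : idx h L x = k := (mk_eq.1 hx).1
    have hiy : idx h L y = k + 1 := ((mk_eq.1 hy).1).trans hidx
    refine ⟨⟨?_, x, y, hxy, hx, hy, SimpleGraph.Reachable.refl _⟩, ?_⟩
    · have := lt_idx h L x
      rw [hix] at this
      exact this
    · rintro ⟨hlt, -⟩
      have := idx_le h L y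
      rw [hiy] at this
      linarith
  have c2 : ∀ x y, (edgeG z).Adj x y → X x → ¬ X y →
      mk H h L x = mk H h L p₀ ∧ mk H h L y = mk H h L q₀ := by
    rintro x y hxy ⟨hxlt, p, q, hpq, hp, hq, hpx⟩ hy
    have hpy : (edgeG z).Reachable p y := hpx.trans hxy.reachable
    have hqy : (edgeG z).Reachable q y := hpq.reachable.symm.trans hpy
    have hyge : (k + 1) * ((L : ℤ) + 1) ≤ h y := by
      by_contra hlt
      push Not at hlt
      exact hy ⟨hlt, p, q, hpq, hp, hq, hpy⟩
    have hd := abs_le.1 (h1 _ _ hxy.1)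
    have hL : (0 : ℤ) ≤ L := by omega
    have e2 : (k + 1) * ((L : ℤ) + 1) = k * ((L : ℤ) + 1) + (L + 1) := by ring
    have e3 : (k + 1 + 1) * ((L : ℤ) + 1) = (k + 1) * ((L : ℤ) + 1) + (L + 1) := by ring
    have hyeq : h y = (k + 1) * ((L : ℤ) + 1) := by omega
    have hxeq : h x = (k + 1) * ((L : ℤ) + 1) - 1 := by omega
    have hix : idx h L x = k := idx_eq h L (by rw [hxeq, e2]; linarith) (by rw [hxeq]; linarith)
    have hiy : idx h L y = k + 1 := idx_eq h L (by rw [hyeq]) (by rw [hyeq, e3]; linarith)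
    have hip : idx h L p = k := (mk_eq.1 hp).1
    have hiq : idx h L q = k + 1 := ((mk_eq.1 hq).1).trans hidx
    constructor
    · rw [← hp]
      symm
      rw [mk_eq]
      refine ⟨hip.trans hix.symm, ?_⟩
      rw [hip]
      refine (reachable_slab h1 hcard hpx).mono (slabG_mono ?_ ?_)
      · rw [hxeq, e2]; linarith
      · rw [hxeq]; linarith
    · rw [← hq]
      symm
      rw [mk_eq]
      refine ⟨hiq.trans hiy.symm, ?_⟩
      rw [hiq]
      refine (reachable_slab h1 hcard hqy).mono (slabG_mono ?_ ?_)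
      · rw [hyeq]
      · rw [hyeq, e3]; linarith
  refine sum_coboundary z hz _ (fun x => if X x then 1 else 0) ?_
  intro x y hxy hmem
  have hadj : (edgeG z).Adj x y := ⟨hxy, hmem⟩
  simp only [phi, Sym2.map_mk, Sym2.eq_iff]
  by_cases hx : X x <;> by_cases hy : X y
  · have : ¬ ((mk H h L x = mk H h L p₀ ∧ mk H h L y = mk H h L q₀) ∨
        (mk H h L x = mk H h L q₀ ∧ mk H h L y = mk H h L p₀)) := by
      rintro (⟨g1, g2⟩ | ⟨g1, g2⟩)
      · exact (c1 x y hadj g1 g2).2 hy
      · exact (c1 y x hadj.symm g2 g1).2 hx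
    simp only [this, hx, hy, if_true, if_false, two_eq_zero]
  · have := c2 x y hadj hx hy
    simp only [this, hx, hy, if_true, if_false, and_self, true_or, add_zero]
  · have := c2 y x hadj.symm hy hx
    simp only [this, hx, hy, if_true, if_false, and_self, or_true, zero_add]
  · have : ¬ ((mk H h L x = mk H h L p₀ ∧ mk H h L y = mk H h L q₀) ∨
        (mk H h L x = mk H h L q₀ ∧ mk H h L y = mk H h L p₀)) := by
      rintro (⟨g1, g2⟩ | ⟨g1, g2⟩)
      · exact hx (c1 x y hadj g1 g2).1
      · exact hy (c1 y x hadj.symm g2 g1).1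
    simp only [this, hx, hy, if_false, add_zero]

variable (H h L)

/-- the graph on the pieces -/
def pieceG : SimpleGraph (Piece H h L) where
  Adj P Q := P ≠ Q ∧ ∃ u v, mk H h L u = P ∧ mk H h L v = Q ∧ H.Adj u v
  symm := ⟨by
    rintro P Q ⟨hne, u, v, h2, h3, h4⟩
    exact ⟨hne.symm, v, u, h3, h2, h4.symm⟩⟩
  loopless := ⟨fun P hP => hP.1 rfl⟩

variable {H h L}

theorem bridge (h1 : ∀ u v, H.Adj u v → |h u - h v| ≤ 1) (hL : (ofGraph H).GenBy L) {p₀ q₀ : V}
    (hadj : H.Adj p₀ q₀) (hidx : idx h L q₀ = idx h L p₀ + 1) :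
    ¬ ((pieceG H h L).deleteEdges {s(mk H h L p₀, mk H h L q₀)}).Reachable
      (mk H h L p₀) (mk H h L q₀) := by
  classical
  set P := mk H h L p₀ with hP
  set P' := mk H h L q₀ with hP'
  have hne : P ≠ P' := by
    intro heq
    have := (mk_eq.1 heq).1
    omega
  let A : V → Prop := fun v => ∃ w : H.Walk p₀ v, csum (phi H h L P P') w = 0
  have ha : ∀ u v, mk H h L u = mk H h L v → A u → A v := by
    rintro u v huv ⟨w, hw⟩
    obtain ⟨w', hw'⟩ := exists_walk_of_mk_eq h1 hne huv
    exact ⟨w.append w', by rw [csum_append, hw, hw', add_zero]⟩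
  have hb : ∀ u v, H.Adj u v → phi H h L P P' s(u, v) = 0 → A u → A v := by
    rintro u v huv h0 ⟨w, hw⟩
    refine ⟨w.append (SimpleGraph.Walk.cons huv SimpleGraph.Walk.nil), ?_⟩
    rw [csum_append, csum_cons, csum_nil, hw, h0]
    simp
  have hc : ¬ A q₀ := by
    rintro ⟨w, hw⟩
    have h2 := csum_closed_eq_zero hL (phi H h L P P')
      (fun z hz hcard => small_even_sum h1 hidx z hz hcard)
      (w.append (SimpleGraph.Walk.cons hadj.symm SimpleGraph.Walk.nil))
    rw [csum_append, csum_cons, csum_nil, hw] at h2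
    have h3 : phi H h L P P' s(q₀, p₀) = 1 := by
      unfold phi
      rw [Sym2.map_mk, if_pos]
      exact Sym2.eq_swap
    rw [h3] at h2
    simp at h2
  rintro ⟨p⟩
  have key : ∀ (Q R : Piece H h L) (p : ((pieceG H h L).deleteEdges {s(P, P')}).Walk Q R),
      (∀ u, mk H h L u = Q → A u) → (∀ u, mk H h L u = R → A u) := by
    intro Q R p
    induction p with
    | nil => exact fun h => h
    | @cons Q Q' R hQ p ih =>
      intro hA
      apply ih
      rw [SimpleGraph.deleteEdges_adj] at hQ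
      obtain ⟨⟨-, u1, v1, hu1, hv1, hadj1⟩, hnot⟩ := hQ
      have hAv : A v1 := by
        apply hb u1 v1 hadj1 ?_ (hA u1 hu1)
        unfold phi
        rw [Sym2.map_mk, if_neg]
        rw [hu1, hv1]
        simpa using hnot
      intro u hu
      exact ha v1 u (hv1.trans hu.symm) hAv
  refine hc (key P P' p ?_ q₀ rfl)
  intro u hu
  exact ha p₀ u hu.symm ⟨SimpleGraph.Walk.nil, csum_nil _ _⟩

theorem pieceG_isAcyclic (h1 : ∀ u v, H.Adj u v → |h u - h v| ≤ 1)
    (hL : (ofGraph H).GenBy L) : (pieceG H h L).IsAcyclic := by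
  rw [SimpleGraph.isAcyclic_iff_forall_adj_isBridge]
  rintro P P' ⟨hne, p₀, q₀, rfl, rfl, hadj⟩
  rw [SimpleGraph.isBridge_iff]
  have hidx : idx h L p₀ ≠ idx h L q₀ := fun heq => hne (mk_eq_of_adj hadj heq)
  have hd := abs_le.1 (h1 _ _ hadj)
  have i1 := idx_le h L p₀
  have i2 := lt_idx h L p₀
  have i3 := idx_le h L q₀
  have i4 := lt_idx h L q₀
  have hLpos : (0 : ℤ) < (L : ℤ) + 1 := by omega
  have hor : idx h L q₀ = idx h L p₀ + 1 ∨ idx h L p₀ = idx h L q₀ + 1 := by
    rcases lt_or_gt_of_ne hidx with hlt | hlt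
    · left
      by_contra hcon
      have h3 : idx h L p₀ + 2 ≤ idx h L q₀ := by omega
      have h4 : (idx h L p₀ + 2) * ((L : ℤ) + 1) ≤ idx h L q₀ * ((L : ℤ) + 1) :=
        mul_le_mul_of_nonneg_right h3 hLpos.le
      have h5 : (idx h L p₀ + 2) * ((L : ℤ) + 1) = (idx h L p₀ + 1) * ((L : ℤ) + 1) + (L + 1) := by
        ring
      omega
    · right
      by_contra hcon
      have h3 : idx h L q₀ + 2 ≤ idx h L p₀ := by omega
      have h4 : (idx h L q₀ + 2) * ((L : ℤ) + 1) ≤ idx h L p₀ * ((L : ℤ) + 1) :=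
        mul_le_mul_of_nonneg_right h3 hLpos.le
      have h5 : (idx h L q₀ + 2) * ((L : ℤ) + 1) = (idx h L q₀ + 1) * ((L : ℤ) + 1) + (L + 1) := by
        ring
      omega
  rcases hor with h2 | h2
  · exact bridge h1 hL hadj h2
  · have := bridge h1 hL hadj.symm h2
    rw [Sym2.eq_swap]
    exact fun hr => this hr.symm

end Pieces

end T2

open T2 in
/-- T2. -/
theorem T2_treewidth_of_gen {V : Type} (H : SimpleGraph V) (h : V → ℤ)
    (h1 : ∀ u v, H.Adj u v → |h u - h v| ≤ 1)
    (slab : ∀ n : ℕ, ∃ N : ℕ, ∀ (a : ℤ) (S : Finset V), (H.induce (S : Set V)).Connected →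
      (∀ v ∈ S, a ≤ h v ∧ h v ≤ a + n) → S.card ≤ N)
    (L : ℕ) (hL : (ofGraph H).GenBy L) : ∃ k, TreewidthLE H k := by
  classical
  obtain ⟨N, hN⟩ := slab (3 * (L + 1))
  rcases isEmpty_or_nonempty V with hV | hV
  · refine ⟨0, Unit, ⊥, fun _ => ∅, ?_, fun v => (hV.false v).elim, fun v => (hV.false v).elim,
      fun v => (hV.false v).elim, fun _ => by simp⟩
    exact SimpleGraph.IsTree.of_subsingleton
  have : Nonempty (Piece H h L) := ⟨mk H h L hV.some⟩
  obtain ⟨F, hF1, -, hF⟩ := (SimpleGraph.connected_top (V := Piece H h L)).exists_isTree_le_of_le_of_isAcyclic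
    (le_top : pieceG H h L ≤ ⊤) (pieceG_isAcyclic h1 hL)
  -- bags
  let B : Piece H h L → Set V := fun P => {v | mk H h L v = P ∨ ∃ u, mk H h L u = P ∧ H.Adj u v}
  have hB : ∀ (P : Piece H h L) (D : Finset V), (D : Set V) ⊆ B P → D.card ≤ N := by
    intro P D hD
    induction P using Quotient.ind with
    | _ r =>
    change (D : Set V) ⊆ B (mk H h L r) at hD
    set k := idx h L r with hk
    have hL0 : (0 : ℤ) ≤ L := by omega
    have i1 := idx_le h L r
    have i2 := lt_idx h L r
    rw [← hk] at i1 i2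
    set a : ℤ := k * ((L : ℤ) + 1) - (L + 1) with ha
    have hb : a + ((3 * (L + 1) : ℕ) : ℤ) = (k + 1) * ((L : ℤ) + 1) + (L + 1) := by
      rw [ha]; push_cast; ring
    have e2 : (k + 1) * ((L : ℤ) + 1) = k * ((L : ℤ) + 1) + (L + 1) := by ring
    have hmono : ext H h L k ≤ slabG H h a (a + ((3 * (L + 1) : ℕ) : ℤ)) := by
      rw [hb]
      exact slabG_mono (by rw [ha]; linarith) (by linarith)
    refine bounded_of_reachable (h := h) (fun S => hN a S) r ⟨by rw [ha]; linarith,
      by rw [hb]; linarith⟩ D ?_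
    intro v hv
    rcases hD hv with hv1 | ⟨u, hu, huv⟩
    · exact ((mk_eq.1 hv1.symm).2).mono hmono
    · have hur := mk_eq.1 hu.symm
      refine SimpleGraph.Reachable.trans (hur.2.mono hmono) (SimpleGraph.Adj.reachable ?_)
      have hd := abs_le.1 (h1 _ _ huv)
      have j1 := idx_le h L u
      have j2 := lt_idx h L u
      rw [← hur.1, ← hk] at j1 j2
      refine ⟨huv, ⟨by rw [ha]; linarith, by rw [hb]; linarith⟩, by rw [ha]; linarith,
        by rw [hb]; linarith⟩
  have hfin : ∀ P, (B P).Finite := by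
    intro P
    by_contra hinf
    obtain ⟨D, hD1, hD2⟩ := (show (B P).Infinite from hinf).exists_subset_card_eq (N + 1)
    have := hB P D hD1
    omega
  refine ⟨N, Piece H h L, F, fun P => (hfin P).toFinset, hF, ?_, ?_, ?_, ?_⟩
  · intro v
    exact ⟨mk H h L v, by rw [Set.Finite.mem_toFinset]; exact Or.inl rfl⟩
  · intro u v huv
    refine ⟨mk H h L u, ?_, ?_⟩
    · rw [Set.Finite.mem_toFinset]; exact Or.inl rfl
    · rw [Set.Finite.mem_toFinset]; exact Or.inr ⟨u, rfl, huv⟩
  · intro v
    have hmem : mk H h L v ∈ {t | v ∈ (hfin t).toFinset} := by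
      show v ∈ (hfin _).toFinset
      rw [Set.Finite.mem_toFinset]; exact Or.inl rfl
    have key : ∀ t : {t | v ∈ (hfin t).toFinset},
        (F.induce {t | v ∈ (hfin t).toFinset}).Reachable t ⟨mk H h L v, hmem⟩ := by
      rintro ⟨t, ht⟩
      have ht' : v ∈ B t := by
        have : v ∈ (hfin t).toFinset := ht
        rwa [Set.Finite.mem_toFinset] at this
      by_cases heq : t = mk H h L v
      · subst heq
        exact SimpleGraph.Reachable.refl _
      · rcases ht' with h2 | ⟨u, hu, huv⟩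
        · exact absurd h2.symm heq
        · apply SimpleGraph.Adj.reachable
          show F.Adj t (mk H h L v)
          exact hF1 ⟨heq, u, v, hu, rfl, huv⟩
    intro s t
    exact (key s).trans (key t).symm
  · intro P
    have := hB P (hfin P).toFinset (by simp)
    show ((hfin P).toFinset).card ≤ N + 1
    omega

end Pool.Agent.MP_57dfd7_co
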