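import Pool.Agent.MP_57dfd7_co.Defs

/-!
T3: in a subcubic multigraph without `K33` the matching across an edge is unique.
-/

namespace Pool.Agent.MP_57dfd7_co

namespace MG

variable {V E : Type} (M : MG V E)

/-- walks as lists of edges -/
def Wk : V → List E → V → Prop
  | x, [], y => x = y
  | x, e :: l, y => ∃ z, x ≠ z ∧ (∀ u, M.inc u e ↔ (u = x ∨ u = z)) ∧ Wk z l y

open Classical in
/-- number of edges of the list `l` at `x` -/
noncomputable def cnt (x : V) (l : List E) : ℕ := l.countP (fun e => decide (M.inc x e))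

variable {M}

lemma wk_nil {x y : V} : M.Wk x [] y ↔ x = y := Iff.rfl

lemma wk_cons {x y : V} {e : E} {l : List E} : M.Wk x (e :: l) y ↔
    ∃ z, x ≠ z ∧ (∀ u, M.inc u e ↔ (u = x ∨ u = z)) ∧ M.Wk z l y := Iff.rfl

lemma wk_append {x y : V} {l₁ l₂ : List E} : M.Wk x (l₁ ++ l₂) y ↔
    ∃ z, M.Wk x l₁ z ∧ M.Wk z l₂ y := by
  induction l₁ generalizing x with
  | nil => simp [Wk]
  | cons e l ih =>
    rw [List.cons_append, wk_cons]
    constructor
    · rintro ⟨z, h1, h2, h3⟩
      obtain ⟨t, h4, h5⟩ := ih.mp h3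
      exact ⟨t, ⟨z, h1, h2, h4⟩, h5⟩
    · rintro ⟨t, ⟨z, h1, h2, h4⟩, h5⟩
      exact ⟨z, h1, h2, ih.mpr ⟨t, h4, h5⟩⟩

lemma Wk.unique {x y y' : V} {l : List E} (h : M.Wk x l y) (h' : M.Wk x l y') : y = y' := by
  induction l generalizing x with
  | nil => rw [wk_nil] at h h'; rw [← h, ← h']
  | cons e l ih =>
    obtain ⟨z, h1, h2, h3⟩ := h
    obtain ⟨z', h1', h2', h3'⟩ := h'
    have : z = z' := by
      rcases (h2' z).mp ((h2 z).mpr (Or.inr rfl)) with h | h
      · exact absurd h.symm h1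
      · exact h
    subst this
    exact ih h3 h3'

lemma cnt_nil (x : V) : M.cnt x [] = 0 := rfl

open Classical in
lemma cnt_cons (x : V) (e : E) (l : List E) :
    M.cnt x (e :: l) = (if M.inc x e then 1 else 0) + M.cnt x l := by
  unfold cnt
  rw [List.countP_cons, add_comm]
  simp

lemma cnt_append (x : V) (l₁ l₂ : List E) : M.cnt x (l₁ ++ l₂) = M.cnt x l₁ + M.cnt x l₂ := by
  unfold cnt
  exact List.countP_append

lemma cnt_pos {x : V} {e : E} {l : List E} (h : e ∈ l) (hx : M.inc x e) : 1 ≤ M.cnt x l := by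
  unfold cnt
  rw [Nat.one_le_iff_ne_zero, ← Nat.pos_iff_ne_zero, List.countP_pos_iff]
  exact ⟨e, h, by simpa using hx⟩

lemma exists_of_cnt {x : V} {l : List E} (h : 1 ≤ M.cnt x l) : ∃ e ∈ l, M.inc x e := by
  unfold cnt at h
  rw [Nat.one_le_iff_ne_zero, ← Nat.pos_iff_ne_zero, List.countP_pos_iff] at h
  obtain ⟨e, h1, h2⟩ := h
  exact ⟨e, h1, by simpa using h2⟩

lemma deg_toFinset [DecidableEq E] {x : V} {l : List E} (h : l.Nodup) :
    M.deg l.toFinset x = M.cnt x l := by
  classical
  unfold deg cnt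
  rw [List.countP_eq_length_filter, ← List.toFinset_card_of_nodup (h.filter _),
    List.toFinset_filter]
  congr 1
  ext e
  simp

lemma cnt_le_three (sub : M.Subcubic) {x : V} {l : List E} (h : l.Nodup) : M.cnt x l ≤ 3 := by
  classical
  unfold cnt
  rw [List.countP_eq_length_filter, ← List.toFinset_card_of_nodup (h.filter _)]
  have h1 : ((((l.filter (fun e => decide (M.inc x e))).toFinset : Finset E)) : Set E) ⊆
      {e | M.inc x e} := by
    intro e he
    simp at he
    exact he.2
  have h2 := (Set.encard_le_encard h1).trans (sub x)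
  rw [Set.encard_coe_eq_coe_finsetCard] at h2
  exact_mod_cast h2

open Classical in
/-- parity of the degrees of a walk -/
lemma Wk.parity {x y : V} {l : List E} (h : M.Wk x l y) (z : V) :
    M.cnt z l % 2 = ((if z = x then 1 else 0) + (if z = y then 1 else 0)) % 2 := by
  induction l generalizing x with
  | nil =>
    rw [wk_nil] at h
    subst h
    rw [cnt_nil]
    split_ifs <;> rfl
  | cons e l ih =>
    obtain ⟨t, h1, h2, h3⟩ := h
    have h5 := ih h3
    rw [cnt_cons]
    have h4 := h2 z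
    by_cases hx : z = x
    · have h6 : z ≠ t := by rw [hx]; exact h1
      have h7 : M.inc z e := h4.mpr (Or.inl hx)
      rw [if_neg h6] at h5
      rw [if_pos h7, if_pos hx]
      omega
    · by_cases ht : z = t
      · have h7 : M.inc z e := h4.mpr (Or.inr ht)
        rw [if_pos ht] at h5
        rw [if_pos h7, if_neg hx]
        omega
      · have h7 : ¬ M.inc z e := by
          rw [h4]; push Not; exact ⟨hx, ht⟩
        rw [if_neg ht] at h5
        rw [if_neg h7, if_neg hx]
        omega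

lemma Wk.odd_left {x y : V} {l : List E} (h : M.Wk x l y) (hxy : x ≠ y) :
    M.cnt x l % 2 = 1 := by
  classical
  have := h.parity x
  simpa [hxy] using this

lemma Wk.odd_right {x y : V} {l : List E} (h : M.Wk x l y) (hxy : x ≠ y) :
    M.cnt y l % 2 = 1 := by
  classical
  have := h.parity y
  simpa [hxy.symm] using this

lemma Wk.even_of_ne {x y z : V} {l : List E} (h : M.Wk x l y) (hx : z ≠ x) (hy : z ≠ y) :
    M.cnt z l % 2 = 0 := by
  classical
  have := h.parity z
  simpa [hx, hy] using this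

lemma Wk.even_closed {x z : V} {l : List E} (h : M.Wk x l x) :
    M.cnt z l % 2 = 0 := by
  classical
  have := h.parity z
  rw [this]
  split_ifs <;> rfl

lemma Wk.ne_nil {x y : V} {l : List E} (h : M.Wk x l y) (hxy : x ≠ y) : l ≠ [] := by
  rintro rfl
  exact hxy h

lemma Wk.cnt_left {x y : V} {l : List E} (h : M.Wk x l y) (hl : l ≠ []) : 1 ≤ M.cnt x l := by
  cases l with
  | nil => exact absurd rfl hl
  | cons e l =>
    obtain ⟨z, _, h2, _⟩ := h
    exact cnt_pos (List.mem_cons_self) ((h2 x).mpr (Or.inl rfl))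

/-- a vertex at which a walk has an edge is visited by the walk -/
lemma Wk.visit {x y z : V} {l : List E} (h : M.Wk x l y) (hz : 1 ≤ M.cnt z l) :
    ∃ l₁ l₂, l = l₁ ++ l₂ ∧ M.Wk x l₁ z ∧ M.Wk z l₂ y := by
  classical
  induction l generalizing x with
  | nil => rw [cnt_nil] at hz; omega
  | cons e l ih =>
    obtain ⟨t, h1, h2, h3⟩ := h
    by_cases hzx : z = x
    · subst hzx
      exact ⟨[], e :: l, rfl, rfl, ⟨t, h1, h2, h3⟩⟩
    · by_cases hzt : z = t
      · subst hzt
        exact ⟨[e], l, rfl, ⟨z, h1, h2, rfl⟩, h3⟩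
      · rw [cnt_cons, if_neg (by rw [h2]; push Not; exact ⟨hzx, hzt⟩)] at hz
        obtain ⟨l₁, l₂, e1, e2, e3⟩ := ih h3 (by omega)
        exact ⟨e :: l₁, l₂, by rw [e1]; rfl, ⟨t, h1, h2, e2⟩, e3⟩

/-- the first time a walk meets a set of vertices -/
lemma Wk.first_hit {On : V → Prop} {x y : V} {l : List E} (h : M.Wk x l y) (hl : l ≠ [])
    (hy : On y) : ∃ S r b, l = S ++ r ∧ S ≠ [] ∧ M.Wk x S b ∧ M.Wk b r y ∧ On b ∧
      ((∃ e, S = [e]) ∨ ∀ e ∈ S, ∃ u, ¬ On u ∧ M.inc u e) := by
  classical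
  induction l generalizing x with
  | nil => exact absurd rfl hl
  | cons e l ih =>
    obtain ⟨z, h1, h2, h3⟩ := h
    by_cases hz : On z
    · exact ⟨[e], l, z, rfl, by simp, ⟨z, h1, h2, rfl⟩, h3, hz, Or.inl ⟨e, rfl⟩⟩
    · have hl' : l ≠ [] := by
        rintro rfl
        rw [wk_nil] at h3
        exact hz (h3 ▸ hy)
      obtain ⟨S, r, b, e1, e2, e3, e4, e5, e6⟩ := ih h3 hl'
      refine ⟨e :: S, r, b, by rw [e1]; rfl, by simp, ⟨z, h1, h2, e3⟩, e4, e5, Or.inr ?_⟩
      intro x' hx'
      rcases List.mem_cons.mp hx' with rfl | hx'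
      · exact ⟨z, hz, (h2 z).mpr (Or.inr rfl)⟩
      · rcases e6 with ⟨e', rfl⟩ | e6
        · have : x' = e' := by simpa using hx'
          subst this
          obtain ⟨t, _, h5, _⟩ := e3
          exact ⟨z, hz, (h5 z).mpr (Or.inl rfl)⟩
        · exact e6 x' hx'

/-- trails from joins -/
lemma exists_trail [DecidableEq E] (y : V) : ∀ (n : ℕ) (T : Finset E) (x : V), T.card = n →
    x ≠ y → (∀ v, Odd (M.deg T v) ↔ (v = x ∨ v = y)) →
    ∃ l : List E, l.Nodup ∧ (∀ e ∈ l, e ∈ T) ∧ M.Wk x l y := by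
  classical
  intro n
  induction n with
  | zero =>
    intro T x hT hxy hodd
    exfalso
    have h1 := (hodd x).mpr (Or.inl rfl)
    rw [Finset.card_eq_zero] at hT
    subst hT
    simp [deg] at h1
  | succ n ih =>
    intro T x hT hxy hodd
    have h1 := (hodd x).mpr (Or.inl rfl)
    have h2 : (T.filter (fun e => M.inc x e)).Nonempty := by
      rw [← Finset.card_pos]
      exact h1.pos
    obtain ⟨e, he⟩ := h2
    rw [Finset.mem_filter] at he
    obtain ⟨u, v, huv, hends⟩ := M.two e
    obtain ⟨z, hxz, hz⟩ : ∃ z, x ≠ z ∧ ∀ t, M.inc t e ↔ (t = x ∨ t = z) := by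
      rcases (hends x).mp he.2 with h | h
      · subst h; exact ⟨v, huv, hends⟩
      · subst h; exact ⟨u, huv.symm, fun t => by rw [hends t]; exact or_comm⟩
    by_cases hzy : z = y
    · subst hzy
      exact ⟨[e], by simp, by simpa using he.1, ⟨z, hxz, hz, rfl⟩⟩
    · have hdeg : ∀ t, M.deg T t = M.deg (T.erase e) t + (if M.inc t e then 1 else 0) := by
        intro t
        unfold deg
        rw [Finset.filter_erase]
        by_cases ht : M.inc t e
        · have h3 := Finset.card_erase_add_one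
            (show e ∈ T.filter (fun e => M.inc t e) from Finset.mem_filter.mpr ⟨he.1, ht⟩)
          rw [if_pos ht]
          exact h3.symm
        · rw [if_neg ht, Finset.erase_eq_of_notMem (by simp [ht])]
          rfl
      have hodd' : ∀ t, Odd (M.deg (T.erase e) t) ↔ (t = z ∨ t = y) := by
        intro t
        have h3 := hodd t
        rw [hdeg t] at h3
        have h4 := hz t
        by_cases h5 : t = x
        · have h6 : t ≠ z := by rw [h5]; exact hxz
          have h7 : t ≠ y := by rw [h5]; exact hxy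
          rw [if_pos (h4.mpr (Or.inl h5)), Nat.odd_add_one] at h3
          simp only [h5, true_or, iff_true] at h3
          constructor
          · intro h; rw [h5] at h; exact absurd h h3
          · rintro (h | h)
            · exact absurd h h6
            · exact absurd h h7
        · by_cases h6 : t = z
          · have h7 : t ≠ y := by rw [h6]; exact hzy
            rw [if_pos (h4.mpr (Or.inr h6)), Nat.odd_add_one] at h3
            constructor
            · intro _; exact Or.inl h6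
            · intro _
              by_contra h8
              rcases h3.mp h8 with h | h
              · exact h5 h
              · exact h7 h
          · rw [if_neg (by rw [h4]; push Not; exact ⟨h5, h6⟩), add_zero] at h3
            rw [h3]
            simp [h5, h6]
      obtain ⟨l, hl1, hl2, hl3⟩ := ih (T.erase e) z (by rw [Finset.card_erase_of_mem he.1]; omega)
        hzy hodd'
      refine ⟨e :: l, ?_, ?_, ⟨z, hxz, hz, hl3⟩⟩
      · rw [List.nodup_cons]
        refine ⟨fun h => ?_, hl1⟩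
        have := hl2 e h
        simp at this
      · intro t ht
        rcases List.mem_cons.mp ht with rfl | ht
        · exact he.1
        · exact Finset.mem_of_mem_erase (hl2 t ht)

/-- neighbourhood of the edge `f` -/
structure Frame (M : MG V E) (v w : V) (f e e' g g' : E) : Prop where
  hvw : v ≠ w
  vf : M.inc v f
  wf : M.inc w f
  ve : ∀ x, M.inc v x → x = f ∨ x = e ∨ x = e'
  we : ∀ x, M.inc w x → x = f ∨ x = g ∨ x = g'

/-- two linkages of opposite type -/
structure Conf (M : MG V E) (v w : V) (f e e' g g' : E) (P P' R R' : List E) : Prop where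
  wP : M.Wk v P w
  wP' : M.Wk v P' w
  wR : M.Wk v R w
  wR' : M.Wk v R' w
  nP : (f :: (P ++ P')).Nodup
  nR : (f :: (R ++ R')).Nodup
  eP : e ∈ P
  gP : g ∈ P
  eP' : e' ∈ P'
  gP' : g' ∈ P'
  eR : e ∈ R
  gR : g' ∈ R
  eR' : e' ∈ R'
  gR' : g ∈ R'

section
variable {v w : V} {f e e' g g' : E}

lemma Frame.symm (fr : M.Frame v w f e e' g g') : M.Frame v w f e' e g' g :=
  ⟨fr.hvw, fr.vf, fr.wf, fun x hx => by rcases fr.ve x hx with h | h | h <;> simp [h],
    fun x hx => by rcases fr.we x hx with h | h | h <;> simp [h]⟩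

lemma nodup_swap {f : E} {A B : List E} (h : (f :: (A ++ B)).Nodup) : (f :: (B ++ A)).Nodup := by
  rw [List.nodup_cons] at h ⊢
  refine ⟨?_, ?_⟩
  · intro h'; exact h.1 (by rw [List.mem_append] at h' ⊢; exact h'.symm)
  · exact List.nodup_append_comm.mp h.2

lemma Conf.symm {P P' R R' : List E} (c : M.Conf v w f e e' g g' P P' R R') :
    M.Conf v w f e' e g' g P' P R' R :=
  ⟨c.wP', c.wP, c.wR', c.wR, nodup_swap c.nP, nodup_swap c.nR, c.eP', c.gP', c.eP, c.gP,
    c.eR', c.gR', c.eR, c.gR⟩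

/-- two positions on a path are distinct -/
lemma distinct (sub : M.Subcubic) (hvw : v ≠ w) (vf : M.inc v f) (wf : M.inc w f)
    {l₁ l₂ l₃ : List E} {x y : V} (hn : (f :: (l₁ ++ (l₂ ++ l₃))).Nodup)
    (h1 : M.Wk v l₁ x) (h2 : M.Wk x l₂ y) (h3 : M.Wk y l₃ w) (hl : l₂ ≠ []) : x ≠ y := by
  classical
  rintro rfl
  have hc := cnt_le_three sub (x := x) hn
  rw [cnt_cons, cnt_append, cnt_append] at hc
  have hf : M.inc x f → (if M.inc x f then 1 else 0 : ℕ) = 1 := fun h => if_pos h
  have e2 := h2.even_closed (z := x)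
  have e2' := h2.cnt_left hl
  by_cases hxv : x = v
  · subst hxv
    have := hf vf
    have := h3.odd_left hvw
    omega
  · by_cases hxw : x = w
    · subst hxw
      have := hf wf
      have := h1.odd_right hvw
      omega
    · have := h3.odd_left hxw
      have := h1.odd_right (Ne.symm hxv)
      omega

/-- positions on different paths are distinct -/
lemma distinct' (sub : M.Subcubic) {l₁ l₂ m₁ m₂ : List E} {x : V}
    (hn : ((l₁ ++ l₂) ++ (m₁ ++ m₂)).Nodup) (hv : x ≠ v) (hw : x ≠ w)
    (h1 : M.Wk v l₁ x) (h2 : M.Wk x l₂ w) (h3 : M.Wk v m₁ x) (h4 : M.Wk x m₂ w) : False := by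
  have hc := cnt_le_three sub (x := x) hn
  rw [cnt_append, cnt_append, cnt_append] at hc
  have := h1.odd_right hv.symm
  have := h2.odd_left hw
  have := h3.odd_right hv.symm
  have := h4.odd_left hw
  omega

/-- the third edge at an interior vertex of a path is not on the two paths -/
lemma fresh (sub : M.Subcubic) {A A' p q : List E} {a z : V} {s t : E}
    (hn : (f :: (A ++ A')).Nodup) (hA : A = p ++ s :: q)
    (h1 : M.Wk v p a) (haz : a ≠ z) (hs : ∀ u, M.inc u s ↔ (u = a ∨ u = z)) (h2 : M.Wk z q w)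
    (h3 : M.Wk v A' w) (hav : a ≠ v) (haw : a ≠ w) (ht : M.inc a t) (hts : t ≠ s) (htp : t ∉ p) :
    t ∉ A ∧ t ∉ A' := by
  classical
  have hn' := (List.nodup_cons.mp hn).2
  have hc := cnt_le_three sub (x := a) hn'
  rw [cnt_append, hA, cnt_append, cnt_cons, if_pos ((hs a).mpr (Or.inl rfl))] at hc
  have e1 := h1.odd_right hav.symm
  have e2 := h2.even_of_ne haz haw
  have e3 := h3.even_of_ne hav haw
  constructor
  · intro h
    rw [hA, List.mem_append, List.mem_cons] at h
    rcases h with h | h | h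
    · exact htp h
    · exact hts h
    · have := cnt_pos h ht
      omega
  · intro h
    have := cnt_pos h ht
    omega

lemma mem_of_parity (fr : M.Frame v w f e e' g g') {Q P' : List E}
    (hn : (f :: (Q ++ P')).Nodup) (hQ : M.Wk v Q w) (he' : e' ∈ P') (hg' : g' ∈ P') :
    e ∈ Q ∧ g ∈ Q := by
  have hf : f ∉ Q := fun h => (List.nodup_cons.mp hn).1 (List.mem_append_left _ h)
  have hd : ∀ x ∈ Q, x ∉ P' := fun x hx hx' =>
    (List.disjoint_of_nodup_append (List.nodup_cons.mp hn).2) hx hx'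
  constructor
  · have h1 := hQ.odd_left fr.hvw
    obtain ⟨x, hx, hx'⟩ := exists_of_cnt (show 1 ≤ M.cnt v Q by omega)
    rcases fr.ve x hx' with h | h | h
    · subst h; exact absurd hx hf
    · subst h; exact hx
    · subst h; exact absurd he' (hd x hx)
  · have h1 := hQ.odd_right fr.hvw
    obtain ⟨x, hx, hx'⟩ := exists_of_cnt (show 1 ≤ M.cnt w Q by omega)
    rcases fr.we x hx' with h | h | h
    · subst h; exact absurd hx hf
    · subst h; exact hx
    · subst h; exact absurd hg' (hd x hx)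

/-- splitting two lists after their longest common prefix -/
lemma exists_split (P R : List E) (h1 : ∃ x ∈ P, x ∉ R) (h2 : ∃ x ∈ R, x ∉ P) :
    ∃ p s t p₂ r₂, P = p ++ s :: p₂ ∧ R = p ++ t :: r₂ ∧ s ≠ t := by
  classical
  induction P generalizing R with
  | nil => obtain ⟨x, hx, _⟩ := h1; simp at hx
  | cons s P ih =>
    cases R with
    | nil => obtain ⟨x, hx, _⟩ := h2; simp at hx
    | cons t R =>
      by_cases hst : s = t
      · subst hst
        obtain ⟨x, hx1, hx2⟩ := h1
        obtain ⟨y, hy1, hy2⟩ := h2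
        rw [List.mem_cons] at hx1 hy1
        rw [List.mem_cons] at hx2 hy2
        push Not at hx2 hy2
        obtain ⟨p, s', t', p₂, r₂, e1, e2, e3⟩ := ih R
          ⟨x, hx1.resolve_left hx2.1, hx2.2⟩ ⟨y, hy1.resolve_left hy2.1, hy2.2⟩
        exact ⟨s :: p, s', t', p₂, r₂, by rw [e1]; rfl, by rw [e2]; rfl, e3⟩
      · exact ⟨[], s, t, P, R, rfl, rfl, hst⟩

/-- the main step: `R` leaves `P` and next meets `P'` -/
lemma exit [DecidableEq E] (sub : M.Subcubic) (fr : M.Frame v w f e e' g g') {P P' R R' : List E}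
    (c : M.Conf v w f e e' g g' P P' R R')
    (hmin : ∀ Q, M.Conf v w f e e' g g' Q P' R R' →
      (P ++ P' ++ R ++ R').toFinset.card ≤ (Q ++ P' ++ R ++ R').toFinset.card) :
    ∃ p₁ p₂ S r q₁ q₂ a b, P = p₁ ++ p₂ ∧ R = p₁ ++ (S ++ r) ∧ P' = q₁ ++ q₂ ∧
      M.Wk v p₁ a ∧ M.Wk a p₂ w ∧ M.Wk a S b ∧ M.Wk b r w ∧ M.Wk v q₁ b ∧ M.Wk b q₂ w ∧
      p₁ ≠ [] ∧ p₂ ≠ [] ∧ S ≠ [] ∧ b ≠ v ∧ b ≠ w ∧ (∀ x ∈ S, x ∉ P ∧ x ∉ P') := by
  have fP : f ∉ P := fun h => (List.nodup_cons.mp c.nP).1 (List.mem_append_left _ h)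
  have fP' : f ∉ P' := fun h => (List.nodup_cons.mp c.nP).1 (List.mem_append_right _ h)
  have fR : f ∉ R := fun h => (List.nodup_cons.mp c.nR).1 (List.mem_append_left _ h)
  have dP : ∀ x ∈ P, x ∉ P' := fun x hx hx' =>
    (List.disjoint_of_nodup_append (List.nodup_cons.mp c.nP).2) hx hx'
  have dR : ∀ x ∈ R, x ∉ R' := fun x hx hx' =>
    (List.disjoint_of_nodup_append (List.nodup_cons.mp c.nR).2) hx hx'
  have nP : P.Nodup := ((List.nodup_cons.mp c.nP).2).of_append_left
  have nR : R.Nodup := ((List.nodup_cons.mp c.nR).2).of_append_left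
  obtain ⟨p, s, t, p₂, r₂, hP, hR, hst⟩ := exists_split P R ⟨g, c.gP, fun h => dR g h c.gR'⟩
    ⟨g', c.gR, fun h => dP g' h c.gP'⟩
  have wP := c.wP
  rw [hP, wk_append] at wP
  obtain ⟨a, wp, ws⟩ := wP
  have wR := c.wR
  rw [hR, wk_append] at wR
  obtain ⟨a', wp', wt⟩ := wR
  have := wp.unique wp'
  subst this
  have hp : p ≠ [] := by
    rintro rfl
    rw [wk_nil] at wp
    subst wp
    obtain ⟨_, _, hs, _⟩ := ws
    obtain ⟨_, _, ht, _⟩ := wt
    have hs' : M.inc v s := (hs v).mpr (Or.inl rfl)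
    have ht' : M.inc v t := (ht v).mpr (Or.inl rfl)
    have hsP : s ∈ P := by rw [hP]; simp
    have htR : t ∈ R := by rw [hR]; simp
    have e1 : s = e := by
      rcases fr.ve s hs' with h | h | h
      · subst h; exact absurd hsP fP
      · exact h
      · subst h; exact absurd c.eP' (dP s hsP)
    have e2 : t = e := by
      rcases fr.ve t ht' with h | h | h
      · subst h; exact absurd htR fR
      · exact h
      · subst h; exact absurd c.eR' (dR t htR)
    exact hst (e1.trans e2.symm)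
  have hnP : (f :: P).Nodup := List.nodup_cons.mpr ⟨fP, nP⟩
  have hnR : (f :: R).Nodup := List.nodup_cons.mpr ⟨fR, nR⟩
  have hav : v ≠ a := distinct (l₁ := []) sub fr.hvw fr.vf fr.wf
    (by rw [List.nil_append, ← hP]; exact hnP) rfl wp ws hp
  have haw : a ≠ w := distinct (l₃ := []) sub fr.hvw fr.vf fr.wf
    (by rw [List.append_nil, ← hP]; exact hnP) wp ws rfl (by simp)
  have ws' := ws
  have wt' := wt
  obtain ⟨z, haz, hs, wz⟩ := ws'
  obtain ⟨z', haz', ht, wz'⟩ := wt'
  have sp : s ∉ p := by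
    intro h
    rw [hP] at nP
    exact (List.disjoint_of_nodup_append nP) h (by simp)
  have tp : t ∉ p := by
    intro h
    rw [hR] at nR
    exact (List.disjoint_of_nodup_append nR) h (by simp)
  obtain ⟨tP, tP'⟩ := fresh sub c.nP hP wp haz hs wz c.wP' hav.symm haw
    ((ht a).mpr (Or.inl rfl)) hst.symm tp
  obtain ⟨sR, sR'⟩ := fresh sub c.nR hR wp haz' ht wz' c.wR' hav.symm haw
    ((hs a).mpr (Or.inl rfl)) hst sp
  -- first hit
  obtain ⟨S, r, b, hSr, hS, wS, wr, hb, hSe⟩ := wt.first_hit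
    (On := fun x => 1 ≤ M.cnt x P ∨ 1 ≤ M.cnt x P') (by simp)
    (Or.inl (by have := c.wP.odd_right fr.hvw; omega))
  have hSR : ∀ x ∈ S, x ∈ R := by
    intro x hx
    rw [hR, hSr]
    simp [hx]
  have blue : ∀ x ∈ S, x ∉ P ∧ x ∉ P' := by
    intro x hx
    rcases hSe with ⟨x', rfl⟩ | h
    · have h1 : x = x' := by simpa using hx
      have h2 : t = x' := by simpa using (List.cons_eq_cons.mp hSr).1
      rw [h1, ← h2]
      exact ⟨tP, tP'⟩
    · obtain ⟨u, hu1, hu2⟩ := h x hx
      push Not at hu1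
      exact ⟨fun h => by have := cnt_pos h hu2; omega, fun h => by have := cnt_pos h hu2; omega⟩
  have hR' : R = p ++ (S ++ r) := by rw [hR, hSr]
  have hab : a ≠ b := distinct (l₁ := p) (l₃ := r) sub fr.hvw fr.vf fr.wf
    (by rw [← hR']; exact hnR) wp wS wr hS
  have hbw : b ≠ w := by
    rintro rfl
    have := wS.odd_right hab
    obtain ⟨x, hx, hx'⟩ := exists_of_cnt (show 1 ≤ M.cnt b S by omega)
    rcases fr.we x hx' with h | h | h
    · subst h; exact fR (hSR x hx)
    · subst h; exact (blue x hx).1 c.gP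
    · subst h; exact (blue x hx).2 c.gP'
  have hbv : v ≠ b := distinct (l₁ := []) (l₂ := p ++ S) (l₃ := r) sub fr.hvw fr.vf fr.wf
    (by rw [List.nil_append, List.append_assoc, ← hR']; exact hnR) rfl
    (wk_append.mpr ⟨a, wp, wS⟩) wr (by simp [hS])
  rcases hb with hb | hb
  · exfalso
    obtain ⟨l₁, l₂, hl, w1, w2⟩ := c.wP.visit hb
    have hl' := hl
    rw [hP] at hl'
    rcases List.append_eq_append_iff.mp hl' with ⟨m, hm1, hm2⟩ | ⟨m, hm1, hm2⟩
    · -- l₁ = p ++ m
      have hm : m ≠ [] := by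
        rintro rfl
        rw [List.append_nil] at hm1
        rw [hm1] at w1
        exact hab (wp.unique w1)
      obtain ⟨s', m', hm'⟩ := List.exists_cons_of_ne_nil hm
      rw [hm'] at hm2
      have hs' : s = s' := by simpa using (List.cons_eq_cons.mp hm2).1
      have hp₂ : p₂ = m' ++ l₂ := by simpa using (List.cons_eq_cons.mp hm2).2
      subst hs'
      have hPP : P = p ++ (s :: (m' ++ l₂)) := by rw [hP, hp₂]
      have nP2 := nP
      rw [hPP] at nP2
      have nP3 := nP2
      rw [List.nodup_append, List.nodup_cons] at nP3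
      obtain ⟨n1, ⟨n2, n3⟩, n4⟩ := nP3
      have n5 := List.nodup_append.mp n3
      have hpP : ∀ x ∈ p, x ∈ P := fun x hx => by rw [hPP]; simp [hx]
      have hlP : ∀ x ∈ l₂, x ∈ P := fun x hx => by rw [hPP]; simp [hx]
      have hsP : s ∈ P := by rw [hPP]; simp
      have nS : S.Nodup := by
        rw [hR'] at nR
        exact ((List.nodup_append.mp nR).2.1).of_append_left
      have nQ : (f :: ((p ++ (S ++ l₂)) ++ P')).Nodup := by
        rw [List.nodup_cons]
        constructor
        · simp only [List.mem_append, not_or]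
          exact ⟨⟨fun h => fP (hpP f h), fun h => fR (hSR f h), fun h => fP (hlP f h)⟩, fP'⟩
        · rw [List.nodup_append]
          refine ⟨?_, ((List.nodup_cons.mp c.nP).2).of_append_right, ?_⟩
          · rw [List.nodup_append]
            refine ⟨n1, ?_, ?_⟩
            · rw [List.nodup_append]
              refine ⟨nS, n5.2.1, ?_⟩
              intro x hx y hy hxy
              subst hxy
              exact (blue x hx).1 (hlP x hy)
            · intro x hx y hy hxy
              subst hxy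
              rcases List.mem_append.mp hy with h | h
              · exact (blue x h).1 (hpP x hx)
              · exact n4 x hx x (by simp [h]) rfl
          · intro x hx y hy hxy
            subst hxy
            rcases List.mem_append.mp hx with h | h
            · exact dP x (hpP x h) hy
            · rcases List.mem_append.mp h with h | h
              · exact (blue x h).2 hy
              · exact dP x (hlP x h) hy
      have wQ : M.Wk v (p ++ (S ++ l₂)) w := wk_append.mpr ⟨a, wp, wk_append.mpr ⟨b, wS, w2⟩⟩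
      obtain ⟨eQ, gQ⟩ := mem_of_parity fr nQ wQ c.eP' c.gP'
      have cQ : M.Conf v w f e e' g g' (p ++ (S ++ l₂)) P' R R' :=
        ⟨wQ, c.wP', c.wR, c.wR', nQ, c.nR, eQ, gQ, c.eP', c.gP', c.eR, c.gR, c.eR', c.gR'⟩
      have h1 := hmin _ cQ
      have h2 : ((p ++ (S ++ l₂)) ++ P' ++ R ++ R').toFinset ⊂ (P ++ P' ++ R ++ R').toFinset := by
        rw [Finset.ssubset_iff_of_subset]
        · refine ⟨s, by simp [hsP], ?_⟩
          simp only [List.mem_toFinset, List.mem_append, not_or]
          exact ⟨⟨⟨⟨sp, fun h => (blue s h).1 hsP, fun h => n2 (by simp [h])⟩, dP s hsP⟩, sR⟩, sR'⟩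
        · intro x hx
          simp only [List.mem_toFinset, List.mem_append] at hx ⊢
          rcases hx with ((h | h) | h) | h
          · rcases h with h | h | h
            · exact Or.inl (Or.inl (Or.inl (hpP x h)))
            · exact Or.inl (Or.inr (hSR x h))
            · exact Or.inl (Or.inl (Or.inl (hlP x h)))
          · exact Or.inl (Or.inl (Or.inr h))
          · exact Or.inl (Or.inr h)
          · exact Or.inr h
      exact absurd (Finset.card_lt_card h2) (not_lt.mpr h1)
    · -- p = l₁ ++ m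
      have hRR : R = l₁ ++ ((m ++ S) ++ r) := by rw [hR', hm1]; simp
      have wm : M.Wk b m a := by
        rw [hm1, wk_append] at wp
        obtain ⟨b', h1, h2⟩ := wp
        rw [w1.unique h1]; exact h2
      exact distinct sub fr.hvw fr.vf fr.wf (by rw [← hRR]; exact hnR) w1
        (wk_append.mpr ⟨a, wm, wS⟩) wr (by simp [hS]) rfl
  · obtain ⟨q₁, q₂, hq, w1, w2⟩ := c.wP'.visit hb
    exact ⟨p, s :: p₂, S, r, q₁, q₂, a, b, hP, hR', hq, wp, ws, wS, wr, w1, w2, hp, by simp, hS,
      hbv.symm, hbw, blue⟩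

lemma Wk.isJoin [DecidableEq E] {x y : V} {l : List E} (h : M.Wk x l y) (hl : l.Nodup)
    (hxy : x ≠ y) : M.IsJoin x y l.toFinset := by
  intro u
  rw [deg_toFinset hl, Nat.odd_iff]
  by_cases h1 : u = x
  · subst h1
    simp [h.odd_left hxy]
  · by_cases h2 : u = y
    · subst h2
      simp [h.odd_right hxy]
    · have := h.even_of_ne h1 h2
      simp only [h1, h2, or_self, iff_false]
      omega

lemma IsJoin.symm3 {x y : V} {T : Finset E} (h : M.IsJoin x y T) : M.IsJoin y x T := by
  intro u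
  rw [h u]
  exact or_comm

/-- a minimal configuration contains `K33` -/
lemma k33_of_conf [DecidableEq E] (sub : M.Subcubic) (fr : M.Frame v w f e e' g g')
    {P P' R R' : List E} (c : M.Conf v w f e e' g g' P P' R R')
    (hmin : ∀ Q Q' S S', M.Conf v w f e e' g g' Q Q' S S' →
      (P ++ P' ++ R ++ R').toFinset.card ≤ (Q ++ Q' ++ S ++ S').toFinset.card) : M.K33 := by
  obtain ⟨p₁, p₂, S, r, q₁, q₂, a, b, hP, hR, hP', w1, w2, w3, w4, w5, w6, n1, n2, n3, n4, n5,
    blue⟩ := exit sub fr c (fun Q hQ => hmin _ _ _ _ hQ)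
  have hmin' : ∀ Q, M.Conf v w f e' e g' g Q P R' R →
      (P' ++ P ++ R' ++ R).toFinset.card ≤ (Q ++ P ++ R' ++ R).toFinset.card := by
    intro Q hQ
    have h1 := hmin _ _ _ _ hQ.symm
    have e1 : (P' ++ P ++ R' ++ R).toFinset = (P ++ P' ++ R ++ R').toFinset := by
      ext x
      simp only [List.mem_toFinset, List.mem_append]
      tauto
    have e2 : (Q ++ P ++ R' ++ R).toFinset = (P ++ Q ++ R ++ R').toFinset := by
      ext x
      simp only [List.mem_toFinset, List.mem_append]
      tauto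
    rw [e1, e2]
    exact h1
  obtain ⟨p₁', p₂', S', r', q₁', q₂', b', a', hP'2, hR', hP2, w1', w2', w3', w4', w5', w6', n1',
    n2', n3', n4', n5', blue'⟩ := exit sub fr.symm c.symm hmin'
  have nPP := (List.nodup_cons.mp c.nP).2
  have nRR := (List.nodup_cons.mp c.nR).2
  have fP : f ∉ P := fun h => (List.nodup_cons.mp c.nP).1 (List.mem_append_left _ h)
  have fP' : f ∉ P' := fun h => (List.nodup_cons.mp c.nP).1 (List.mem_append_right _ h)
  have fR : f ∉ R := fun h => (List.nodup_cons.mp c.nR).1 (List.mem_append_left _ h)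
  have fR' : f ∉ R' := fun h => (List.nodup_cons.mp c.nR).1 (List.mem_append_right _ h)
  have hnP : (f :: P).Nodup := List.nodup_cons.mpr ⟨fP, nPP.of_append_left⟩
  have hnP' : (f :: P').Nodup := List.nodup_cons.mpr ⟨fP', nPP.of_append_right⟩
  -- position of `a'` on `P`
  obtain ⟨m, hm, hm2, hmne⟩ : ∃ m, q₁' = p₁ ++ m ∧ p₂ = m ++ q₂' ∧ m ≠ [] := by
    have key : ∀ m, p₁ = q₁' ++ m → False := by
      intro m hm
      have hRR : R = q₁' ++ (m ++ (S ++ r)) := by rw [hR, hm]; simp
      have wR := c.wR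
      rw [hRR, wk_append] at wR
      obtain ⟨z, h1, h2⟩ := wR
      have := w5'.unique h1
      subst this
      have hRR' : R' = (p₁' ++ S') ++ r' := by rw [hR']; simp
      exact distinct' sub (l₁ := q₁') (l₂ := m ++ (S ++ r)) (m₁ := p₁' ++ S') (m₂ := r')
        (by rw [← hRR, ← hRR']; exact nRR) n4' n5' w5' h2 (wk_append.mpr ⟨b', w1', w3'⟩) w4'
    rcases List.append_eq_append_iff.mp (hP.symm.trans hP2) with ⟨m, h1, h2⟩ | ⟨m, h1, h2⟩
    · refine ⟨m, h1, h2, ?_⟩
      rintro rfl
      exact key [] (by rw [h1]; simp)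
    · exact (key m h1).elim
  -- position of `b` on `P'`
  obtain ⟨m', hm', hm2', hmne'⟩ : ∃ m', q₁ = p₁' ++ m' ∧ p₂' = m' ++ q₂ ∧ m' ≠ [] := by
    have key : ∀ m, p₁' = q₁ ++ m → False := by
      intro m hm
      have hRR' : R' = q₁ ++ (m ++ (S' ++ r')) := by rw [hR', hm]; simp
      have wR' := c.wR'
      rw [hRR', wk_append] at wR'
      obtain ⟨z, h1, h2⟩ := wR'
      have := w5.unique h1
      subst this
      have hRR : R = (p₁ ++ S) ++ r := by rw [hR]; simp
      exact distinct' sub (l₁ := p₁ ++ S) (l₂ := r) (m₁ := q₁) (m₂ := m ++ (S' ++ r'))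
        (by rw [← hRR, ← hRR']; exact nRR) n4 n5 (wk_append.mpr ⟨a, w1, w3⟩) w4 w5 h2
    rcases List.append_eq_append_iff.mp (hP'2.symm.trans hP') with ⟨m, h1, h2⟩ | ⟨m, h1, h2⟩
    · refine ⟨m, h1, h2, ?_⟩
      rintro rfl
      exact key [] (by rw [h1]; simp)
    · exact (key m h1).elim
  have wm : M.Wk a m a' := by
    rw [hm, wk_append] at w5'
    obtain ⟨z, h1, h2⟩ := w5'
    rw [w1.unique h1]; exact h2
  have wm' : M.Wk b' m' b := by
    rw [hm', wk_append] at w5
    obtain ⟨z, h1, h2⟩ := w5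
    rw [w1'.unique h1]; exact h2
  have q2ne : q₂' ≠ [] := w6'.ne_nil n5'
  have q2ne' : q₂ ≠ [] := w6.ne_nil n5
  have hPd : P = p₁ ++ (m ++ q₂') := by rw [hP, hm2]
  have hPd' : P' = p₁' ++ (m' ++ q₂) := by rw [hP'2, hm2']
  -- distinctness
  have dva : v ≠ a := distinct (l₁ := []) (l₂ := p₁) (l₃ := m ++ q₂') sub fr.hvw fr.vf fr.wf
    (by rw [List.nil_append, ← hPd]; exact hnP) rfl w1 (wk_append.mpr ⟨a', wm, w6'⟩) n1
  have daa' : a ≠ a' := distinct (l₁ := p₁) (l₂ := m) (l₃ := q₂') sub fr.hvw fr.vf fr.wf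
    (by rw [← hPd]; exact hnP) w1 wm w6' hmne
  have daw : a ≠ w := distinct (l₁ := p₁) (l₂ := m ++ q₂') (l₃ := []) sub fr.hvw fr.vf fr.wf
    (by rw [List.append_nil, ← hPd]; exact hnP) w1 (wk_append.mpr ⟨a', wm, w6'⟩) rfl
    (by simp [hmne])
  have dvb' : v ≠ b' := distinct (l₁ := []) (l₂ := p₁') (l₃ := m' ++ q₂) sub fr.hvw fr.vf fr.wf
    (by rw [List.nil_append, ← hPd']; exact hnP') rfl w1' (wk_append.mpr ⟨b, wm', w6⟩) n1'
  have db'b : b' ≠ b := distinct (l₁ := p₁') (l₂ := m') (l₃ := q₂) sub fr.hvw fr.vf fr.wf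
    (by rw [← hPd']; exact hnP') w1' wm' w6 hmne'
  have db'w : b' ≠ w := distinct (l₁ := p₁') (l₂ := m' ++ q₂) (l₃ := []) sub fr.hvw fr.vf fr.wf
    (by rw [List.append_nil, ← hPd']; exact hnP') w1' (wk_append.mpr ⟨b, wm', w6⟩) rfl
    (by simp [hmne'])
  have nPP' : ((p₁ ++ (m ++ q₂')) ++ (p₁' ++ (m' ++ q₂))).Nodup := by
    rw [← hPd, ← hPd']; exact nPP
  have dab' : a ≠ b' := by
    rintro rfl
    exact distinct' sub (l₁ := p₁) (l₂ := m ++ q₂') (m₁ := p₁') (m₂ := m' ++ q₂) nPP' dva.symm daw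
      w1 (wk_append.mpr ⟨a', wm, w6'⟩) w1' (wk_append.mpr ⟨b, wm', w6⟩)
  have dab : a ≠ b := by
    rintro rfl
    exact distinct' sub (l₁ := p₁) (l₂ := m ++ q₂') (m₁ := p₁' ++ m') (m₂ := q₂)
      (by rw [List.append_assoc p₁' m']; exact nPP') dva.symm daw
      w1 (wk_append.mpr ⟨a', wm, w6'⟩) (wk_append.mpr ⟨b', w1', wm'⟩) w6
  have da'b' : a' ≠ b' := by
    rintro rfl
    exact distinct' sub (l₁ := p₁ ++ m) (l₂ := q₂') (m₁ := p₁') (m₂ := m' ++ q₂)
      (by rw [List.append_assoc p₁ m]; exact nPP') n4' n5'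
      (wk_append.mpr ⟨a, w1, wm⟩) w6' w1' (wk_append.mpr ⟨b, wm', w6⟩)
  have da'b : a' ≠ b := by
    rintro rfl
    exact distinct' sub (l₁ := p₁ ++ m) (l₂ := q₂') (m₁ := p₁' ++ m') (m₂ := q₂)
      (by rw [List.append_assoc p₁ m, List.append_assoc p₁' m']; exact nPP') n4' n5'
      (wk_append.mpr ⟨a, w1, wm⟩) w6' (wk_append.mpr ⟨b', w1', wm'⟩) w6
  -- the nine paths
  let L : List (List E) := [p₁, [f], p₁', m, q₂', S', S, q₂, m']
  have hSR : ∀ x ∈ S, x ∈ R := fun x hx => by rw [hR]; simp [hx]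
  have hSR' : ∀ x ∈ S', x ∈ R' := fun x hx => by rw [hR']; simp [hx]
  have nS : S.Nodup := by
    have := nRR.of_append_left
    rw [hR] at this
    exact ((List.nodup_append.mp this).2.1).of_append_left
  have nS' : S'.Nodup := by
    have := nRR.of_append_right
    rw [hR'] at this
    exact ((List.nodup_append.mp this).2.1).of_append_left
  have hbig : (([f] ++ ((p₁ ++ (m ++ q₂')) ++ (p₁' ++ (m' ++ q₂)))) ++ (S ++ S')).Nodup := by
    rw [List.nodup_append]
    refine ⟨?_, ?_, ?_⟩
    · rw [← hPd, ← hPd']; exact c.nP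
    · rw [List.nodup_append]
      refine ⟨nS, nS', ?_⟩
      intro x hx y hy hxy
      subst hxy
      exact (List.disjoint_of_nodup_append nRR) (hSR x hx) (hSR' x hy)
    · rw [← hPd, ← hPd']
      intro x hx y hy hxy
      subst hxy
      rw [List.mem_append] at hy
      simp only [List.cons_append, List.nil_append, List.mem_cons, List.mem_append] at hx
      rcases hy with hy | hy
      · rcases hx with rfl | hx | hx
        · exact fR (hSR _ hy)
        · exact (blue x hy).1 hx
        · exact (blue x hy).2 hx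
      · rcases hx with rfl | hx | hx
        · exact fR' (hSR' _ hy)
        · exact (blue' x hy).2 hx
        · exact (blue' x hy).1 hx
  have hflat : L.flatten.Nodup := by
    refine (List.Perm.nodup_iff ?_).mp hbig
    rw [List.perm_iff_count]
    intro x
    simp only [L, List.flatten_cons, List.flatten_nil, List.count_append, List.count_nil]
    omega
  have hpw := (List.nodup_flatten.mp hflat).2
  have hnd := (List.nodup_flatten.mp hflat).1
  have hdisj : ∀ i j : Fin 9, i ≠ j → List.Disjoint (L.get i) (L.get j) := by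
    intro i j hij
    rw [List.pairwise_iff_get] at hpw
    rcases lt_or_gt_of_ne hij with h | h
    · exact hpw i j h
    · exact (hpw j i h).symm
  let idx : Fin 3 → Fin 3 → Fin 9 := fun i j => ⟨3 * i.1 + j.1, by omega⟩
  refine ⟨![v, a', b], ![a, w, b'], fun i j => (L.get (idx i j)).toFinset, ?_, ?_, ?_, ?_, ?_⟩
  · intro i j hij
    fin_cases i <;> fin_cases j <;> first
      | rfl
      | exact absurd hij n4'.symm
      | exact absurd hij n4'
      | exact absurd hij n4.symm
      | exact absurd hij n4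
      | exact absurd hij da'b
      | exact absurd hij da'b.symm
  · intro i j hij
    fin_cases i <;> fin_cases j <;> first
      | rfl
      | exact absurd hij daw
      | exact absurd hij daw.symm
      | exact absurd hij dab'
      | exact absurd hij dab'.symm
      | exact absurd hij db'w
      | exact absurd hij db'w.symm
  · intro i j
    fin_cases i <;> fin_cases j
    · exact dva
    · exact fr.hvw
    · exact dvb'
    · exact daa'.symm
    · exact n5'
    · exact da'b'
    · exact dab.symm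
    · exact n5
    · exact db'b.symm
  · have wf : M.Wk v [f] w := by
      obtain ⟨u, u', huu, hu⟩ := M.two f
      refine ⟨w, fr.hvw, ?_, rfl⟩
      intro t
      have h1 := (hu v).mp fr.vf
      have h2 := (hu w).mp fr.wf
      rw [hu t]
      rcases h1 with h1 | h1 <;> rcases h2 with h2 | h2
      · exact absurd (h1.trans h2.symm) fr.hvw
      · rw [h1, h2]
      · rw [h1, h2]; exact or_comm
      · exact absurd (h1.trans h2.symm) fr.hvw
    intro i j
    fin_cases i <;> fin_cases j
    · exact w1.isJoin (hnd _ (by simp [L])) dva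
    · exact wf.isJoin (hnd _ (by simp [L])) fr.hvw
    · exact w1'.isJoin (hnd _ (by simp [L])) dvb'
    · exact (wm.isJoin (hnd _ (by simp [L])) daa').symm3
    · exact w6'.isJoin (hnd _ (by simp [L])) n5'
    · exact (w3'.isJoin (hnd _ (by simp [L])) da'b'.symm).symm3
    · exact (w3.isJoin (hnd _ (by simp [L])) dab).symm3
    · exact w6.isJoin (hnd _ (by simp [L])) n5
    · exact (wm'.isJoin (hnd _ (by simp [L])) db'b).symm3
  · intro i j i' j' hij
    rw [List.disjoint_toFinset_iff_disjoint]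
    apply hdisj
    intro h
    apply hij
    simp only [idx, Fin.mk.injEq] at h
    have h1 : i.1 = i'.1 := by omega
    have h2 : j.1 = j'.1 := by omega
    exact Prod.ext (Fin.ext h1) (Fin.ext h2)

lemma mem_trail (fr : M.Frame v w f e e' g g') {T : List E}
    (hT : M.Wk v T w) (hf : f ∉ T) (he' : e' ∉ T) (hg' : g' ∉ T) : e ∈ T ∧ g ∈ T := by
  constructor
  · have h1 := hT.odd_left fr.hvw
    obtain ⟨x, hx, hx'⟩ := exists_of_cnt (show 1 ≤ M.cnt v T by omega)
    rcases fr.ve x hx' with h | h | h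
    · subst h; exact absurd hx hf
    · subst h; exact hx
    · subst h; exact absurd hx he'
  · have h1 := hT.odd_right fr.hvw
    obtain ⟨x, hx, hx'⟩ := exists_of_cnt (show 1 ≤ M.cnt w T by omega)
    rcases fr.we x hx' with h | h | h
    · subst h; exact absurd hx hf
    · subst h; exact hx
    · subst h; exact absurd hx hg'

end

/-- removing the edge `f = vw` from an even set gives a trail from `v` to `w` -/
lemma exists_trail_erase [DecidableEq E] {v w : V} {f : E} (hvw : v ≠ w) (vf : M.inc v f)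
    (wf : M.inc w f) {C : Finset E} (hC : M.IsEven C) (hf : f ∈ C) :
    ∃ l : List E, l.Nodup ∧ (∀ e ∈ l, e ∈ C ∧ e ≠ f) ∧ M.Wk v l w := by
  classical
  have hends : ∀ t, M.inc t f ↔ (t = v ∨ t = w) := by
    obtain ⟨u, u', huu, hu⟩ := M.two f
    intro t
    have h1 := (hu v).mp vf
    have h2 := (hu w).mp wf
    rw [hu t]
    rcases h1 with h1 | h1 <;> rcases h2 with h2 | h2
    · exact absurd (h1.trans h2.symm) hvw
    · rw [h1, h2]
    · rw [h1, h2]; exact or_comm
    · exact absurd (h1.trans h2.symm) hvw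
  have hodd : ∀ t, Odd (M.deg (C.erase f) t) ↔ (t = v ∨ t = w) := by
    intro t
    rw [← hends t]
    have h1 := hC t
    by_cases ht : M.inc t f
    · have h3 := Finset.card_erase_add_one
        (show f ∈ C.filter (fun e => M.inc t e) from Finset.mem_filter.mpr ⟨hf, ht⟩)
      have h4 : M.deg (C.erase f) t + 1 = M.deg C t := by
        unfold deg
        rw [Finset.filter_erase]
        exact h3
      rw [← h4, Nat.even_add_one, Nat.not_even_iff_odd] at h1
      simp [h1, ht]
    · have h4 : M.deg (C.erase f) t = M.deg C t := by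
        unfold deg
        rw [Finset.filter_erase, Finset.erase_eq_of_notMem (by simp [ht])]
      rw [h4]
      simp only [ht, iff_false, Nat.not_odd_iff_even]
      exact h1
  obtain ⟨l, h1, h2, h3⟩ := exists_trail w _ (C.erase f) v rfl hvw hodd
  refine ⟨l, h1, ?_, h3⟩
  intro e he
  have := h2 e he
  rw [Finset.mem_erase] at this
  exact ⟨this.2, this.1⟩

/-- another edge of an even set at a vertex -/
lemma exists_other_mem {v : V} {f : E} (vf : M.inc v f) {C : Finset E} (hC : M.IsEven C)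
    (hf : f ∈ C) : ∃ e ∈ C, e ≠ f ∧ M.inc v e := by
  classical
  have h1 := hC v
  have h2 : f ∈ C.filter (fun e => M.inc v e) := Finset.mem_filter.mpr ⟨hf, vf⟩
  have h3 : 1 < (C.filter (fun e => M.inc v e)).card := by
    have h4 : 0 < (C.filter (fun e => M.inc v e)).card := Finset.card_pos.mpr ⟨f, h2⟩
    have h5 : Even (C.filter (fun e => M.inc v e)).card := h1
    rcases h5 with ⟨k, hk⟩
    omega
  obtain ⟨e, he, hef⟩ := Finset.exists_mem_ne h3 f
  rw [Finset.mem_filter] at he
  exact ⟨e, he.1, hef, he.2⟩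

/-- at most three edges at a vertex -/
lemma three_edges (sub : M.Subcubic) {v : V} {f e e' : E} (hf : M.inc v f) (he : M.inc v e)
    (he' : M.inc v e') (h1 : e ≠ f) (h2 : e' ≠ f) (h3 : e' ≠ e) (x : E) (hx : M.inc v x) :
    x = f ∨ x = e ∨ x = e' := by
  classical
  by_contra! hcon
  obtain ⟨c1, c2, c3⟩ := hcon
  have hn : ([x, f, e, e'] : List E).Nodup := by
    simp [c1, c2, c3, h1.symm, h2.symm, h3.symm]
  have := cnt_le_three sub (x := v) hn
  simp only [cnt_cons, cnt_nil, if_pos hf, if_pos he, if_pos he', if_pos hx] at this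
  omega

end MG

open MG in
/-- T3. -/
theorem T3_match_unique {V E : Type} (M : MG V E) (sub : M.Subcubic) (noK : ¬ M.K33) :
    M.H2 := by
  classical
  intro v w f e g g' hm hm'
  by_contra hgg
  apply noK
  obtain ⟨hvw, vf, wf, ve, hef, wg, hgf, C, D, hC, hD, hCD, heC, hgC⟩ := hm
  obtain ⟨-, -, -, -, -, wg', hgf', C', D', hC', hD', hCD', heC', hgC'⟩ := hm'
  have fC := (hCD f).mpr rfl
  have fC' := (hCD' f).mpr rfl
  obtain ⟨e', he'D, he'f, ve'⟩ := exists_other_mem vf hD fC.2
  have he'C : e' ∉ C := fun h => he'f ((hCD e').mp ⟨h, he'D⟩)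
  have hee' : e' ≠ e := fun h => he'C (h ▸ heC)
  obtain ⟨g2, hg2D, hg2f, wg2⟩ := exists_other_mem wf hD fC.2
  have hg2C : g2 ∉ C := fun h => hg2f ((hCD g2).mp ⟨h, hg2D⟩)
  have hgg2 : g2 ≠ g := fun h => hg2C (h ▸ hgC)
  have hve := three_edges sub vf ve ve' hef he'f hee'
  have hwe := three_edges sub wf wg wg2 hgf hg2f hgg2
  have hg2 : g' = g2 := by
    rcases hwe g' wg' with h | h | h
    · exact absurd h hgf'
    · exact absurd h.symm hgg
    · exact h
  subst hg2
  have fr : M.Frame v w f e e' g g' := ⟨hvw, vf, wf, hve, hwe⟩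
  obtain ⟨e3, he3D, he3f, ve3⟩ := exists_other_mem vf hD' fC'.2
  have he3C : e3 ∉ C' := fun h => he3f ((hCD' e3).mp ⟨h, he3D⟩)
  have he3 : e3 = e' := by
    rcases hve e3 ve3 with h | h | h
    · exact absurd h he3f
    · exact absurd (h ▸ heC') he3C
    · exact h
  subst he3
  obtain ⟨g3, hg3D, hg3f, wg3⟩ := exists_other_mem wf hD' fC'.2
  have hg3C : g3 ∉ C' := fun h => hg3f ((hCD' g3).mp ⟨h, hg3D⟩)
  have hg3 : g3 = g := by
    rcases hwe g3 wg3 with h | h | h
    · exact absurd h hg3f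
    · exact h
    · exact absurd (h ▸ hgC') hg3C
  subst hg3
  obtain ⟨P, nP, sP, wP⟩ := exists_trail_erase hvw vf wf hC fC.1
  obtain ⟨P', nP', sP', wP'⟩ := exists_trail_erase hvw vf wf hD fC.2
  obtain ⟨R, nR, sR, wR⟩ := exists_trail_erase hvw vf wf hC' fC'.1
  obtain ⟨R', nR', sR', wR'⟩ := exists_trail_erase hvw vf wf hD' fC'.2
  have mP := mem_trail fr wP (fun h => (sP _ h).2 rfl) (fun h => he'C (sP _ h).1)
    (fun h => hg2C (sP _ h).1)
  have mP' := mem_trail fr.symm wP' (fun h => (sP' _ h).2 rfl)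
    (fun h => hef ((hCD e).mp ⟨heC, (sP' _ h).1⟩)) (fun h => hgf ((hCD g3).mp ⟨hgC, (sP' _ h).1⟩))
  have fr2 : M.Frame v w f e e3 g' g3 :=
    ⟨hvw, vf, wf, hve, fun x hx => by rcases hwe x hx with h | h | h <;> simp [h]⟩
  have mR := mem_trail fr2 wR (fun h => (sR _ h).2 rfl) (fun h => he3C (sR _ h).1)
    (fun h => hg3C (sR _ h).1)
  have mR' := mem_trail fr2.symm wR' (fun h => (sR' _ h).2 rfl)
    (fun h => hef ((hCD' e).mp ⟨heC', (sR' _ h).1⟩))
    (fun h => hgf' ((hCD' g').mp ⟨hgC', (sR' _ h).1⟩))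
  have c0 : M.Conf v w f e e3 g3 g' P P' R R' := by
    refine ⟨wP, wP', wR, wR', ?_, ?_, mP.1, mP.2, mP'.1, mP'.2, mR.1, mR.2, mR'.1, mR'.2⟩
    · rw [List.nodup_cons, List.nodup_append, List.mem_append]
      refine ⟨?_, nP, nP', ?_⟩
      · rintro (h | h)
        · exact (sP _ h).2 rfl
        · exact (sP' _ h).2 rfl
      · intro x hx y hy hxy
        subst hxy
        exact (sP x hx).2 ((hCD x).mp ⟨(sP x hx).1, (sP' x hy).1⟩)
    · rw [List.nodup_cons, List.nodup_append, List.mem_append]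
      refine ⟨?_, nR, nR', ?_⟩
      · rintro (h | h)
        · exact (sR _ h).2 rfl
        · exact (sR' _ h).2 rfl
      · intro x hx y hy hxy
        subst hxy
        exact (sR x hx).2 ((hCD' x).mp ⟨(sR x hx).1, (sR' x hy).1⟩)
  have hex : ∃ n, ∃ Q Q' S S', M.Conf v w f e e3 g3 g' Q Q' S S' ∧
      (Q ++ Q' ++ S ++ S').toFinset.card = n := ⟨_, P, P', R, R', c0, rfl⟩
  obtain ⟨Q, Q', S, S', cc, hcard⟩ := Nat.find_spec hex
  exact k33_of_conf sub fr cc (fun A A' B B' cA => by
    rw [hcard]; exact Nat.find_min' hex ⟨A, A', B, B', cA, rfl⟩)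

end Pool.Agent.MP_57dfd7_co
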