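import Pool.Agent.MP_57dfd7_co.T0

/-! T4: in a cubic 3-edge-connected multigraph matchings exist, and (if they are unique) every
circuit bounds a region. -/

namespace Pool.Agent.MP_57dfd7_co

namespace MG

variable {V E : Type} (M : MG V E)

namespace T4

/-! ### generalised joins -/

open Classical in
/-- indicator in `ZMod 2` -/
noncomputable def ind (z : Finset E) (e : E) : ZMod 2 := if e ∈ z then 1 else 0

lemma ind_of_mem {z : Finset E} {e : E} (h : e ∈ z) : ind z e = 1 := by simp [ind, h]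

lemma ind_of_not_mem {z : Finset E} {e : E} (h : e ∉ z) : ind z e = 0 := by simp [ind, h]

lemma mem_of_ind {z : Finset E} {e : E} (h : ind z e = 1) : e ∈ z := by
  by_contra hc
  rw [ind_of_not_mem hc] at h
  exact absurd h (by decide)

lemma not_mem_of_ind {z : Finset E} {e : E} (h : ind z e = 0) : e ∉ z := by
  intro hc
  rw [ind_of_mem hc] at h
  exact absurd h (by decide)

lemma zmod2 (a : ZMod 2) : a = 0 ∨ a = 1 := by
  revert a; decide

open Classical in
/-- generalised join, the ends may agree -/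
def GJ (x y : V) (T : Finset E) : Prop :=
  ∀ v, M.par T v = (if v = x then 1 else 0) + (if v = y then 1 else 0)

lemma GJ.nil (x : V) : GJ M x x ∅ := by
  classical
  intro v
  rw [par_empty]
  exact (CharTwo.add_self_eq_zero _).symm

lemma GJ.trans [DecidableEq E] {x y u : V} {T T' : Finset E} (h : GJ M x y T)
    (h' : GJ M y u T') : GJ M x u (symmDiff T T') := by
  classical
  intro v
  rw [par_symmDiff, h v, h' v]
  have : (if v = y then (1 : ZMod 2) else 0) + (if v = y then 1 else 0) = 0 :=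
    CharTwo.add_self_eq_zero _
  linear_combination this

lemma GJ.symm {x y : V} {T : Finset E} (h : GJ M x y T) : GJ M y x T := by
  intro v
  rw [h v, add_comm]

lemma GJ.isJoin {x y : V} {T : Finset E} (h : GJ M x y T) (hxy : x ≠ y) : M.IsJoin x y T := by
  classical
  refine M.isJoin_of_par ?_ ?_ ?_
  · rw [h x]; simp [hxy]
  · rw [h y]; simp [hxy.symm]
  · intro v hx hy
    rw [h v]; simp [hx, hy]

lemma gj_of_isJoin {x y : V} {T : Finset E} (h : M.IsJoin x y T) (hxy : x ≠ y) :
    GJ M x y T := by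
  classical
  intro v
  by_cases hx : v = x
  · subst hx; rw [h.par_left]; simp [hxy]
  by_cases hy : v = y
  · subst hy; rw [h.par_right]; simp [hxy.symm]
  rw [h.par_other _ hx hy]; simp [hx, hy]

lemma GJ.isEven {x : V} {T : Finset E} (h : GJ M x x T) : M.IsEven T := by
  rw [isEven_iff]
  intro v
  rw [h v]
  exact CharTwo.add_self_eq_zero _

lemma Reach.exists_GJ {S : Set E} {x y : V} (h : M.Reach S x y) :
    ∃ T : Finset E, (↑T ⊆ S) ∧ GJ M x y T := by
  classical
  by_cases hxy : x = y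
  · subst hxy
    exact ⟨∅, by simp, GJ.nil M x⟩
  · obtain ⟨T, h1, h2⟩ := h.exists_join M hxy
    exact ⟨T, h1, gj_of_isJoin M h2 hxy⟩

lemma gj_singleton {u v : V} {e : E} (hu : M.inc u e) (hv : M.inc v e) (huv : u ≠ v) :
    GJ M u v {e} := gj_of_isJoin M (M.isJoin_singleton hu hv huv) huv

/-! ### the star of a vertex in a cubic multigraph -/

lemma par_star {v : V} {p q r : E} (hp : M.inc v p) (hq : M.inc v q) (hr : M.inc v r)
    (hpq : p ≠ q) (hpr : p ≠ r) (hqr : q ≠ r) (hall : ∀ e, M.inc v e → e = p ∨ e = q ∨ e = r)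
    (z : Finset E) : M.par z v = ind z p + ind z q + ind z r := by
  classical
  rw [par_eq_sum]
  have h1 : ∑ e ∈ z, (if M.inc v e then (1 : ZMod 2) else 0) =
      ∑ e ∈ z, ((if e = p then 1 else 0) + (if e = q then 1 else 0) + (if e = r then 1 else 0)) := by
    refine Finset.sum_congr rfl (fun e _ => ?_)
    by_cases h : M.inc v e
    · rcases hall e h with rfl | rfl | rfl
      · simp [h, hpq, hpr]
      · simp [h, hpq.symm, hqr]
      · simp [h, hpr.symm, hqr.symm]
    · have h1 : e ≠ p := by rintro rfl; exact h hp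
      have h2 : e ≠ q := by rintro rfl; exact h hq
      have h3 : e ≠ r := by rintro rfl; exact h hr
      simp [h, h1, h2, h3]
  rw [h1, Finset.sum_add_distrib, Finset.sum_add_distrib]
  simp only [Finset.sum_ite_eq', ind]

variable {M}

/-- the third edge at a vertex -/
lemma exists_third (cub : M.Cubic) {v : V} {f e : E} (hf : M.inc v f) (he : M.inc v e)
    (hne : e ≠ f) : ∃ r, M.inc v r ∧ r ≠ f ∧ r ≠ e ∧
      (∀ g, M.inc v g → g = f ∨ g = e ∨ g = r) ∧
      ∀ z, M.par z v = ind z f + ind z e + ind z r := by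
  have h3 := cub v
  obtain ⟨p, q, r, hpq, hpr, hqr, hs⟩ := Set.encard_eq_three.1 h3
  have hall : ∀ g, M.inc v g ↔ g = p ∨ g = q ∨ g = r := by
    intro g
    have : g ∈ {e | M.inc v e} ↔ g ∈ ({p, q, r} : Set E) := by rw [hs]
    simpa using this
  have hp : M.inc v p := (hall p).2 (Or.inl rfl)
  have hq : M.inc v q := (hall q).2 (Or.inr (Or.inl rfl))
  have hr : M.inc v r := (hall r).2 (Or.inr (Or.inr rfl))
  have key : ∀ a b c : E, M.inc v a → M.inc v b → M.inc v c → a ≠ b → a ≠ c → b ≠ c →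
      (∀ g, M.inc v g → g = a ∨ g = b ∨ g = c) → a = f → b = e →
      ∃ r, M.inc v r ∧ r ≠ f ∧ r ≠ e ∧ (∀ g, M.inc v g → g = f ∨ g = e ∨ g = r) ∧
      ∀ z, M.par z v = ind z f + ind z e + ind z r := by
    intro a b c ha hb hc hab hac hbc hg hf' he'
    subst hf' he'
    exact ⟨c, hc, hac.symm, hbc.symm, hg, fun z => par_star M ha hb hc hab hac hbc hg z⟩
  rcases (hall f).1 hf with h1 | h1 | h1 <;> rcases (hall e).1 he with h2 | h2 | h2
  · exact absurd (h2.trans h1.symm) hne
  · exact key p q r hp hq hr hpq hpr hqr (fun g hg => (hall g).1 hg) h1.symm h2.symm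
  · exact key p r q hp hr hq hpr hpq hqr.symm (fun g hg => by have := (hall g).1 hg; tauto)
      h1.symm h2.symm
  · exact key q p r hq hp hr hpq.symm hqr hpr (fun g hg => by have := (hall g).1 hg; tauto)
      h1.symm h2.symm
  · exact absurd (h2.trans h1.symm) hne
  · exact key q r p hq hr hp hqr hpq.symm hpr.symm (fun g hg => by have := (hall g).1 hg; tauto)
      h1.symm h2.symm
  · exact key r p q hr hp hq hpr.symm hqr.symm hpq (fun g hg => by have := (hall g).1 hg; tauto)
      h1.symm h2.symm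
  · exact key r q p hr hq hp hqr.symm hpr.symm hpq.symm
      (fun g hg => by have := (hall g).1 hg; tauto) h1.symm h2.symm
  · exact absurd (h2.trans h1.symm) hne

/-- another edge at a vertex -/
lemma exists_second (cub : M.Cubic) {v : V} {f : E} (_hf : M.inc v f) :
    ∃ e, M.inc v e ∧ e ≠ f := by
  have h3 := cub v
  have : 1 < {e | M.inc v e}.encard := by rw [h3]; norm_num
  obtain ⟨e, he, hne⟩ := Set.exists_ne_of_one_lt_encard this f
  exact ⟨e, he, hne⟩

lemma encard_pair_le' (a b : E) : ({a, b} : Set E).encard ≤ 2 := by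
  refine (Set.encard_insert_le {b} a).trans ?_
  rw [Set.encard_singleton]
  norm_num

/-! ### T4a -/

lemma two_joins (conn : M.Conn) (c3 : M.Conn3) (v w : V) (f : E) :
    ∃ T1 T2 : Finset E, Disjoint T1 T2 ∧ f ∉ T1 ∧ f ∉ T2 ∧ GJ M v w T1 ∧ GJ M v w T2 := by
  classical
  set S : Set V := {x | ∃ T1 T2 : Finset E, Disjoint T1 T2 ∧ f ∉ T1 ∧ f ∉ T2 ∧ GJ M v x T1 ∧
    GJ M v x T2} with hS
  have hvS : v ∈ S := ⟨∅, ∅, by simp, by simp, by simp, GJ.nil M v, GJ.nil M v⟩
  by_contra hcon
  have hwS : w ∉ S := hcon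
  have hne := conn S ⟨v, hvS⟩ ⟨w, hwS⟩
  have h3 := c3 S hne
  have h1 : 1 < (M.cut S).encard := lt_of_lt_of_le (by norm_num) h3
  obtain ⟨c, hc, hcf⟩ := Set.exists_ne_of_one_lt_encard h1 f
  obtain ⟨y, x, hyc, hxc, hyS, hxS⟩ := hc
  have hyx : y ≠ x := by rintro rfl; exact hxS hyS
  have hvx : v ≠ x := by rintro rfl; exact hxS hvS
  -- path joins from v to y
  have hpath : ∃ T1 T2 : Finset E, Disjoint T1 T2 ∧ f ∉ T1 ∧ f ∉ T2 ∧ GJ M v y T1 ∧ GJ M v y T2 ∧
      (∀ q ∈ M.verts T1, M.Reach (↑T1) v q) ∧ (∀ q ∈ M.verts T2, M.Reach (↑T2) v q) := by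
    by_cases hvy : v = y
    · subst hvy
      refine ⟨∅, ∅, by simp, by simp, by simp, GJ.nil M v, GJ.nil M v, ?_, ?_⟩ <;>
      · rintro q ⟨e, he, _⟩
        exact absurd he (Finset.notMem_empty e)
    · obtain ⟨T1, T2, hd, hf1, hf2, hj1, hj2⟩ := hyS
      obtain ⟨T1', hs1, hp1⟩ := (hj1.isJoin M hvy).exists_path M
      obtain ⟨T2', hs2, hp2⟩ := (hj2.isJoin M hvy).exists_path M
      refine ⟨T1', T2', Finset.disjoint_of_subset_left hs1 (Finset.disjoint_of_subset_right hs2 hd),
        fun h => hf1 (hs1 h), fun h => hf2 (hs2 h), gj_of_isJoin M hp1.1 hvy,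
        gj_of_isJoin M hp2.1 hvy, fun q hq => hp1.reach M hq, fun q hq => hp2.reach M hq⟩
  obtain ⟨T1, T2, hd, hf1, hf2, hj1, hj2, hr1, hr2⟩ := hpath
  have hcyx : GJ M y x {c} := gj_singleton M hyc hxc hyx
  have hdis : ∀ {A B : Finset E}, Disjoint A B → ∀ e, e ∈ A → e ∉ B :=
    fun h e h1 h2 => Finset.disjoint_left.1 h h1 h2
  by_cases hc1 : c ∈ T1
  · apply hxS
    refine ⟨symmDiff T1 {c}, symmDiff T2 {c}, ?_, ?_, ?_, hj1.trans M hcyx, hj2.trans M hcyx⟩
    · rw [Finset.disjoint_left]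
      intro e h1 h2
      rw [Finset.mem_symmDiff, Finset.mem_singleton] at h1 h2
      have := hdis hd e
      rcases h1 with ⟨h1, h1'⟩ | ⟨h1, h1'⟩
      · rcases h2 with ⟨h2, h2'⟩ | ⟨h2, h2'⟩
        · exact this h1 h2
        · exact h1' h2
      · subst h1; exact h1' hc1
    · rw [Finset.mem_symmDiff, Finset.mem_singleton]
      rintro (⟨h, _⟩ | ⟨h, _⟩)
      · exact hf1 h
      · exact hcf h.symm
    · rw [Finset.mem_symmDiff, Finset.mem_singleton]
      rintro (⟨h, _⟩ | ⟨h, _⟩)
      · exact hf2 h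
      · exact hcf h.symm
  by_cases hc2 : c ∈ T2
  · apply hxS
    refine ⟨symmDiff T1 {c}, symmDiff T2 {c}, ?_, ?_, ?_, hj1.trans M hcyx, hj2.trans M hcyx⟩
    · rw [Finset.disjoint_left]
      intro e h1 h2
      rw [Finset.mem_symmDiff, Finset.mem_singleton] at h1 h2
      have := hdis hd e
      rcases h2 with ⟨h2, h2'⟩ | ⟨h2, h2'⟩
      · rcases h1 with ⟨h1, h1'⟩ | ⟨h1, h1'⟩
        · exact this h1 h2
        · exact h2' h1
      · subst h2; exact h2' hc2
    · rw [Finset.mem_symmDiff, Finset.mem_singleton]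
      rintro (⟨h, _⟩ | ⟨h, _⟩)
      · exact hf1 h
      · exact hcf h.symm
    · rw [Finset.mem_symmDiff, Finset.mem_singleton]
      rintro (⟨h, _⟩ | ⟨h, _⟩)
      · exact hf2 h
      · exact hcf h.symm
  -- c outside T1 ∪ T2
  set O : Set E := {e | e ∉ T1 ∧ e ∉ T2 ∧ e ≠ c ∧ e ≠ f} with hO
  set Z : Set V := {q | ∃ a ∈ ({x} : Set V), M.Reach O a q} with hZ
  have hxZ : x ∈ Z := ⟨x, rfl, Reach.refl M _ x⟩
  have hq : ∃ q ∈ Z, q = v ∨ q ∈ M.verts T1 ∨ q ∈ M.verts T2 := by
    by_contra hcon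
    push Not at hcon
    have hvZ : v ∉ Z := fun h => (hcon v h).1 rfl
    have hne := conn Z ⟨x, hxZ⟩ ⟨v, hvZ⟩
    have h3 := c3 Z hne
    have hsub : M.cut Z ⊆ {c, f} := by
      intro e he
      by_contra hcf'
      have hcf'' : e ≠ c ∧ e ≠ f := by
        simpa [not_or] using hcf'
      by_cases heO : e ∈ O
      · exact M.cut_reach O {x} heO he
      · have : e ∈ T1 ∨ e ∈ T2 := by
          by_contra h
          push Not at h
          exact heO ⟨h.1, h.2, hcf''.1, hcf''.2⟩
        obtain ⟨a, b, ha, hb, haZ, _⟩ := he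
        rcases this with h | h
        · exact (hcon a haZ).2.1 ⟨e, h, ha⟩
        · exact (hcon a haZ).2.2 ⟨e, h, ha⟩
    have h2 : (M.cut Z).encard ≤ 2 := (Set.encard_le_encard hsub).trans (encard_pair_le' c f)
    exact absurd (h3.trans h2) (by norm_num)
  obtain ⟨q, hqZ, hq⟩ := hq
  obtain ⟨x', rfl, hxq⟩ := hqZ
  obtain ⟨Q, hQO, hQ⟩ := Reach.exists_GJ M hxq
  have hQ1 : ∀ e ∈ Q, e ∉ T1 ∧ e ∉ T2 ∧ e ≠ c ∧ e ≠ f := fun e he => hQO he
  have main : ∀ T1 T2 : Finset E, Disjoint T1 T2 → f ∉ T1 → f ∉ T2 → GJ M v y T2 → c ∉ T1 →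
      (∀ e ∈ Q, e ∉ T1 ∧ e ∉ T2 ∧ e ≠ c ∧ e ≠ f) → M.Reach (↑T1) v q → x' ∈ S := by
    intro T1 T2 hd hf1 hf2 hj2 hc1 hQ1 hr
    obtain ⟨T, hT, hJ⟩ := Reach.exists_GJ M hr
    have hT' : T ⊆ T1 := by exact_mod_cast hT
    refine ⟨symmDiff T Q, symmDiff T2 {c}, ?_, ?_, ?_, hJ.trans M (hQ.symm M), hj2.trans M hcyx⟩
    · rw [Finset.disjoint_left]
      intro e h1 h2
      rw [Finset.mem_symmDiff] at h1
      rw [Finset.mem_symmDiff, Finset.mem_singleton] at h2
      have := hdis hd e
      rcases h1 with ⟨h1, _⟩ | ⟨h1, _⟩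
      · rcases h2 with ⟨h2, _⟩ | ⟨h2, _⟩
        · exact this (hT' h1) h2
        · subst h2; exact hc1 (hT' h1)
      · rcases h2 with ⟨h2, _⟩ | ⟨h2, _⟩
        · exact (hQ1 e h1).2.1 h2
        · exact (hQ1 e h1).2.2.1 h2
    · rw [Finset.mem_symmDiff]
      rintro (⟨h, _⟩ | ⟨h, _⟩)
      · exact hf1 (hT' h)
      · exact (hQ1 f h).2.2.2 rfl
    · rw [Finset.mem_symmDiff, Finset.mem_singleton]
      rintro (⟨h, _⟩ | ⟨h, _⟩)
      · exact hf2 h
      · exact hcf h.symm
  rcases hq with hq | hq | hq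
  · subst hq
    exact hxS (main T1 T2 hd hf1 hf2 hj2 hc1 hQ1 (Reach.refl M _ _))
  · exact hxS (main T1 T2 hd hf1 hf2 hj2 hc1 hQ1 (hr1 q hq))
  · exact hxS (main T2 T1 hd.symm hf2 hf1 hj1 hc2
      (fun e he => ⟨(hQ1 e he).2.1, (hQ1 e he).1, (hQ1 e he).2.2⟩) (hr2 q hq))

end T4

end MG

open MG MG.T4

/-- T4a. Existence of matchings. -/
theorem T4a_match_exists {V E : Type} (M : MG V E) (cub : M.Cubic) (conn : M.Conn)
    (c3 : M.Conn3) : M.H1 := by
  classical
  intro v w f e hvw hvf hwf hve hef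
  obtain ⟨T1, T2, hd, hf1, hf2, hj1, hj2⟩ := two_joins conn c3 v w f
  have hfj : GJ M w v {f} := gj_singleton M hwf hvf hvw.symm
  have hC : M.IsEven (symmDiff T1 {f}) := (hj1.trans M hfj).isEven
  have hD : M.IsEven (symmDiff T2 {f}) := (hj2.trans M hfj).isEven
  have hCD : ∀ x, (x ∈ symmDiff T1 {f} ∧ x ∈ symmDiff T2 {f}) ↔ x = f := by
    intro x
    rw [Finset.mem_symmDiff, Finset.mem_symmDiff, Finset.mem_singleton]
    constructor
    · rintro ⟨h1 | h1, h2 | h2⟩
      · exact absurd h2.1 (Finset.disjoint_left.1 hd h1.1)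
      · exact h2.1
      · exact h1.1
      · exact h1.1
    · rintro rfl
      exact ⟨Or.inr ⟨rfl, hf1⟩, Or.inr ⟨rfl, hf2⟩⟩
  have key : ∀ C D : Finset E, M.IsEven C → M.IsEven D → (∀ x, (x ∈ C ∧ x ∈ D) ↔ x = f) → e ∈ C →
      ∃ g, M.Match v w f e g := by
    intro C D hC hD hCD heC
    have hfC : f ∈ C := ((hCD f).2 rfl).1
    obtain ⟨p, hwp, hpf⟩ := exists_second cub hwf
    obtain ⟨r, hwr, hrf, hrp, -, hpar⟩ := exists_third cub hwf hwp hpf
    have h0 := (M.isEven_iff).1 hC w
    rw [hpar C, ind_of_mem hfC] at h0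
    by_cases hpC : p ∈ C
    · exact ⟨p, hvw, hvf, hwf, hve, hef, hwp, hpf, C, D, hC, hD, hCD, heC, hpC⟩
    · rw [ind_of_not_mem hpC] at h0
      have hr : ind C r = 1 := by
        rcases zmod2 (ind C r) with h | h
        · rw [h] at h0; exact absurd h0 (by decide)
        · exact h
      exact ⟨r, hvw, hvf, hwf, hve, hef, hwr, hrf, C, D, hC, hD, hCD, heC, mem_of_ind hr⟩
  by_cases heC : e ∈ symmDiff T1 {f}
  · exact key _ _ hC hD hCD heC
  · by_cases heD : e ∈ symmDiff T2 {f}
    · exact key _ _ hD hC (fun x => by rw [← hCD x]; tauto) heD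
    · exfalso
      obtain ⟨r, hvr, hrf, hre, -, hpar⟩ := exists_third cub hvf hve hef
      have h1 := (M.isEven_iff).1 hC v
      have h2 := (M.isEven_iff).1 hD v
      rw [hpar, ind_of_mem ((hCD f).2 rfl).1, ind_of_not_mem heC] at h1
      rw [hpar, ind_of_mem ((hCD f).2 rfl).2, ind_of_not_mem heD] at h2
      have hr1 : ind (symmDiff T1 {f}) r = 1 := by
        rcases zmod2 (ind (symmDiff T1 {f}) r) with h | h
        · rw [h] at h1; exact absurd h1 (by decide)
        · exact h
      have hr2 : ind (symmDiff T2 {f}) r = 1 := by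
        rcases zmod2 (ind (symmDiff T2 {f}) r) with h | h
        · rw [h] at h2; exact absurd h2 (by decide)
        · exact h
      exact hrf ((hCD r).1 ⟨mem_of_ind hr1, mem_of_ind hr2⟩)

namespace MG

variable {V E : Type} (M : MG V E)

namespace T4

/-! ### sides -/

lemma Match.symm' {v w : V} {f e g : E} (h : M.Match v w f e g) : M.Match w v f g e := by
  obtain ⟨h1, h2, h3, h4, h5, h6, h7, C, D, h8, h9, h10, h11, h12⟩ := h
  exact ⟨h1.symm, h3, h2, h6, h7, h4, h5, C, D, h8, h9, h10, h12, h11⟩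

variable {M}

lemma exists_match (cub : M.Cubic) (h1 : M.H1) (f : E) : ∃ v w e g, M.Match v w f e g := by
  obtain ⟨v, w, hvw, hv, hw, -⟩ := M.exists_ends f
  obtain ⟨e, hve, hef⟩ := exists_second cub hv
  obtain ⟨g, hg⟩ := h1 v w f e hvw hv hw hve hef
  exact ⟨v, w, e, g, hg⟩

lemma ind_add_of_even (cub : M.Cubic) {C : Finset E} (hC : M.IsEven C) {v : V} {f e e' : E}
    (hf : f ∈ C) (hvf : M.inc v f) (hve : M.inc v e) (hve' : M.inc v e') (hef : e ≠ f)
    (hef' : e' ≠ f) (hee : e ≠ e') : ind C e + ind C e' = 1 := by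
  obtain ⟨r, _, _, _, hall, hpar⟩ := exists_third cub hvf hve hef
  have hr : e' = r := by
    rcases hall e' hve' with h | h | h
    · exact absurd h hef'
    · exact absurd h.symm hee
    · exact h
  subst hr
  have h0 := (M.isEven_iff).1 hC v
  rw [hpar, ind_of_mem hf] at h0
  have : ind C e + ind C e' = (1 + ind C e + ind C e') + 1 := by
    have h2 : (1 : ZMod 2) + 1 = 0 := by decide
    linear_combination (-1 : ZMod 2) * h2
  rw [this, h0, zero_add]

lemma exists_second_mem (cub : M.Cubic) {C : Finset E} (hC : M.IsEven C) {v : V} {f : E}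
    (hf : f ∈ C) (hvf : M.inc v f) : ∃ c ∈ C, c ≠ f ∧ M.inc v c := by
  obtain ⟨e, hve, hef⟩ := exists_second cub hvf
  obtain ⟨r, hvr, hrf, hre, _, _⟩ := exists_third cub hvf hve hef
  have h := ind_add_of_even cub hC hf hvf hve hvr hef hrf hre.symm
  by_cases he : e ∈ C
  · exact ⟨e, he, hef, hve⟩
  · rw [ind_of_not_mem he, zero_add] at h
    exact ⟨r, mem_of_ind h, hrf, hvr⟩

/-- the defining property of the side function -/
def SgProp (M : MG V E) (σ : Finset E → E → ZMod 2) : Prop :=
  ∀ C f v w e g, M.IsEven C → f ∈ C → M.Match v w f e g → σ C f = ind C e + ind C g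

lemma exists_sg (cub : M.Cubic) (h1 : M.H1) (h2 : M.H2) : ∃ σ, SgProp M σ := by
  choose v0 w0 e0 g0 hm using exists_match cub h1
  have key : ∀ (C : Finset E) f v w e g e' g', M.IsEven C → f ∈ C → M.Match v w f e g →
      M.Match v w f e' g' → ind C e + ind C g = ind C e' + ind C g' := by
    intro C f v w e g e' g' hC hf hM hM'
    by_cases hee : e = e'
    · subst hee
      rw [h2 v w f e g g' hM hM']
    · have hgg : g ≠ g' := by
        rintro rfl
        exact hee (h2 w v f g e e' (Match.symm' M hM) (Match.symm' M hM'))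
      obtain ⟨-, a1, a2, a3, a4, a5, a6, -⟩ := hM
      obtain ⟨-, -, -, b3, b4, b5, b6, -⟩ := hM'
      have h1 := ind_add_of_even cub hC hf a1 a3 b3 a4 b4 hee
      have h2 := ind_add_of_even cub hC hf a2 a5 b5 a6 b6 hgg
      have h3 : ind C e' + ind C e' = 0 := CharTwo.add_self_eq_zero _
      have h4 : ind C g + ind C g = 0 := CharTwo.add_self_eq_zero _
      linear_combination h1 - h2 - h3 + h4
  refine ⟨fun C f => ind C (e0 f) + ind C (g0 f), ?_⟩
  intro C f v w e g hC hf hM
  have hends : (v = v0 f ∧ w = w0 f) ∨ (v = w0 f ∧ w = v0 f) := by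
    have h := hm f
    obtain ⟨hne, a1, a2, -⟩ := h
    obtain ⟨hne', b1, b2, -⟩ := hM
    rcases M.inc_eq a1 a2 hne b1 with h | h <;> rcases M.inc_eq a1 a2 hne b2 with h' | h'
    · exact absurd (h.trans h'.symm) hne'
    · exact Or.inl ⟨h, h'⟩
    · exact Or.inr ⟨h, h'⟩
    · exact absurd (h.trans h'.symm) hne'
  rcases hends with ⟨rfl, rfl⟩ | ⟨rfl, rfl⟩
  · exact key C f _ _ _ _ _ _ hC hf (hm f) hM
  · have := key C f _ _ _ _ _ _ hC hf (hm f) (Match.symm' M hM)
    show ind C (e0 f) + ind C (g0 f) = _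
    rw [this, add_comm]

lemma sg_single (cub : M.Cubic) {σ : Finset E → E → ZMod 2} (hσ : SgProp M σ)
    {C D : Finset E} (hC : M.IsEven C) (hD : M.IsEven D) {f : E}
    (hCD : ∀ x, (x ∈ C ∧ x ∈ D) ↔ x = f) : σ C f = 0 := by
  have hf : f ∈ C := ((hCD f).2 rfl).1
  obtain ⟨v, w, hvw, hv, hw, -⟩ := M.exists_ends f
  obtain ⟨c, hc, hcf, hvc⟩ := exists_second_mem cub hC hf hv
  obtain ⟨c', hc', hcf', hwc'⟩ := exists_second_mem cub hC hf hw
  rw [hσ C f v w c c' hC hf ⟨hvw, hv, hw, hvc, hcf, hwc', hcf', C, D, hC, hD, hCD, hc, hc'⟩,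
    ind_of_mem hc, ind_of_mem hc']
  decide

lemma ind_add_eq_par (cub : M.Cubic) {C D A : Finset E} (hC : M.IsEven C) (hD : M.IsEven D)
    (hA : ∀ e, e ∈ A ↔ (e ∈ C ∧ e ∈ D)) {f : E} (hf : f ∈ A) {v : V} (hvf : M.inc v f) {e : E}
    (hve : M.inc v e) (hef : e ≠ f) : ind C e + ind D e = M.par A v := by
  obtain ⟨r, hvr, hrf, hre, _, hpar⟩ := exists_third cub hvf hve hef
  have h1 := ind_add_of_even cub hC ((hA f).1 hf).1 hvf hve hvr hef hrf hre.symm
  have h2 := ind_add_of_even cub hD ((hA f).1 hf).2 hvf hve hvr hef hrf hre.symm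
  have hmul : ∀ g, ind A g = ind C g * ind D g := by
    intro g
    by_cases hg1 : g ∈ C <;> by_cases hg2 : g ∈ D <;>
      simp [ind, hg1, hg2, hA]
  rw [hpar, ind_of_mem hf, hmul e, hmul r]
  generalize ind C e = a at *
  generalize ind D e = b at *
  generalize ind C r = a' at *
  generalize ind D r = b' at *
  revert a b a' b'
  decide

open Classical in
lemma sg_add (cub : M.Cubic) (h1 : M.H1) {σ : Finset E → E → ZMod 2} (hσ : SgProp M σ)
    {C D A : Finset E} (hC : M.IsEven C) (hD : M.IsEven D)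
    (hA : ∀ e, e ∈ A ↔ (e ∈ C ∧ e ∈ D)) {x y : V} (hxy : x ≠ y) (hJ : M.IsJoin x y A)
    {f : E} (hf : f ∈ A) :
    σ C f + σ D f = (if M.inc x f then 1 else 0) + (if M.inc y f then 1 else 0) := by
  obtain ⟨v, w, e, g, hm⟩ := exists_match cub h1 f
  have hfC := ((hA f).1 hf).1
  have hfD := ((hA f).1 hf).2
  rw [hσ C f v w e g hC hfC hm, hσ D f v w e g hD hfD hm]
  obtain ⟨hvw, a1, a2, a3, a4, a5, a6, -⟩ := hm
  have e1 := ind_add_eq_par cub hC hD hA hf a1 a3 a4
  have e2 := ind_add_eq_par cub hC hD hA hf a2 a5 a6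
  have g1 := gj_of_isJoin M hJ hxy
  rw [g1 v] at e1
  rw [g1 w] at e2
  have hinc : ∀ u, M.inc u f ↔ (v = u ∨ w = u) := by
    intro u
    constructor
    · intro hu
      rcases M.inc_eq a1 a2 hvw hu with h | h
      · exact Or.inl h.symm
      · exact Or.inr h.symm
    · rintro (rfl | rfl) <;> assumption
  have hind : ∀ u, (if M.inc u f then (1 : ZMod 2) else 0) =
      (if v = u then 1 else 0) + (if w = u then 1 else 0) := by
    intro u
    by_cases hu : v = u
    · have : w ≠ u := by rintro rfl; exact hvw hu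
      simp [hinc, hu, this]
    · simp [hinc, hu]
  rw [hind x, hind y]
  linear_combination e1 + e2

lemma sum_sg_add (cub : M.Cubic) (h1 : M.H1) {σ : Finset E → E → ZMod 2} (hσ : SgProp M σ)
    {C D A : Finset E} (hC : M.IsEven C) (hD : M.IsEven D)
    (hA : ∀ e, e ∈ A ↔ (e ∈ C ∧ e ∈ D)) {x y : V} (hxy : x ≠ y) (hJ : M.IsJoin x y A) :
    ∑ f ∈ A, σ C f = ∑ f ∈ A, σ D f := by
  classical
  have h : ∑ f ∈ A, (σ C f + σ D f) = 0 := by
    rw [Finset.sum_congr rfl (fun f hf => sg_add cub h1 hσ hC hD hA hxy hJ hf),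
      Finset.sum_add_distrib, ← M.par_eq_sum, ← M.par_eq_sum, hJ.par_left, hJ.par_right]
    decide
  rw [Finset.sum_add_distrib] at h
  generalize ∑ f ∈ A, σ C f = a at *
  generalize ∑ f ∈ A, σ D f = b at *
  revert a b
  decide

variable (M) in
/-- handshake lemma for two vertices -/
lemma par_pair (z : Finset E) {x y : V} (hxy : x ≠ y)
    (h : ∀ v, v ≠ x → v ≠ y → M.par z v = 0) : M.par z x = M.par z y := by
  classical
  obtain ⟨W, hW, hsum⟩ := M.card_inter_cut_parity z Set.univ
  have h0 : (z.filter (fun e => e ∈ M.cut Set.univ)) = ∅ := by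
    rw [Finset.filter_eq_empty_iff]
    rintro e _ ⟨u, v, _, _, _, hv⟩
    exact hv (Set.mem_univ v)
  rw [h0] at hsum
  simp only [Finset.card_empty, Nat.cast_zero, Set.mem_univ, if_true] at hsum
  have h1 : ∑ v ∈ W, M.par z v = ∑ v ∈ insert x (insert y W), M.par z v := by
    apply Finset.sum_subset
    · intro a ha; simp [ha]
    · intro a _ ha
      by_contra hc
      exact ha (hW a hc)
  have h2 : ∑ v ∈ insert x (insert y W), M.par z v = ∑ v ∈ ({x, y} : Finset V), M.par z v := by
    symm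
    apply Finset.sum_subset
    · intro a ha
      simp only [Finset.mem_insert, Finset.mem_singleton] at ha ⊢
      tauto
    · intro a _ ha
      simp only [Finset.mem_insert, Finset.mem_singleton, not_or] at ha
      exact h a ha.1 ha.2
  rw [h1, h2, Finset.sum_pair hxy] at hsum
  generalize M.par z x = a at *
  generalize M.par z y = b at *
  revert a b
  decide

variable (M) in
/-- two internally disjoint paths with the same ends form a circuit -/
lemma circuit_of_paths [DecidableEq E] {x y : V} (hxy : x ≠ y) {R A : Finset E}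
    (hR : M.IsPathJoin x y R)
    (hA : M.IsPathJoin x y A) (hd : Disjoint R A)
    (hv : ∀ u ∈ M.verts R, u ≠ x → u ≠ y → u ∉ M.verts A) : M.IsCircuit (R ∪ A) := by
  classical
  have hpar : ∀ (w : Finset E) u, M.par w u = M.par (w \ A) u + M.par (w ∩ A) u := by
    intro w u
    conv_lhs => rw [← Finset.sdiff_union_inter w A]
    exact M.par_union (Finset.disjoint_sdiff_inter w A) u
  refine ⟨?_, ?_, ?_⟩
  · rw [isEven_iff]
    intro u
    rw [M.par_union hd, gj_of_isJoin M hR.1 hxy u, gj_of_isJoin M hA.1 hxy u]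
    exact CharTwo.add_self_eq_zero _
  · obtain ⟨e, he, _⟩ := hR.1.exists_mem M
    exact ⟨e, Finset.mem_union_left _ he⟩
  · intro w hw hev hne
    have hwR : w \ A ⊆ R := by
      intro e he
      rw [Finset.mem_sdiff] at he
      rcases Finset.mem_union.1 (hw he.1) with h | h
      · exact h
      · exact absurd h he.2
    have hwA : w ∩ A ⊆ A := Finset.inter_subset_right
    have hev' := (M.isEven_iff).1 hev
    have h0 : ∀ u, u ≠ x → u ≠ y → M.par (w \ A) u = 0 ∧ M.par (w ∩ A) u = 0 := by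
      intro u hux huy
      have hs := hpar w u
      rw [hev' u] at hs
      by_cases huR : u ∈ M.verts R
      · have huA := hv u huR hux huy
        have : M.par (w ∩ A) u = 0 := by
          apply M.par_eq_zero_of_not_mem_verts
          rintro ⟨e, he, hinc⟩
          exact huA ⟨e, hwA he, hinc⟩
        rw [this, add_zero] at hs
        exact ⟨hs.symm, this⟩
      · have : M.par (w \ A) u = 0 := by
          apply M.par_eq_zero_of_not_mem_verts
          rintro ⟨e, he, hinc⟩
          exact huR ⟨e, hwR he, hinc⟩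
        rw [this, zero_add] at hs
        exact ⟨this, hs.symm⟩
    have hR2 := par_pair M (w \ A) hxy (fun v h1 h2 => (h0 v h1 h2).1)
    have hA2 := par_pair M (w ∩ A) hxy (fun v h1 h2 => (h0 v h1 h2).2)
    have hx := hpar w x
    rw [hev' x] at hx
    have hfull : ∀ (T S : Finset E), M.IsPathJoin x y T → S ⊆ T → M.IsJoin x y S → S = T := by
      intro T S hT hST hS
      have h1 := hT.2 (symmDiff S T) (by
        intro e he
        rw [Finset.mem_symmDiff] at he
        rcases he with h | h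
        · exact hST h.1
        · exact h.1) (hS.even_symmDiff M hT.1)
      rw [← Finset.bot_eq_empty, symmDiff_eq_bot] at h1
      exact h1
    rcases zmod2 (M.par (w \ A) x) with h | h
    · -- both even
      have e1 : w \ A = ∅ := by
        apply hR.2 _ hwR
        rw [isEven_iff]
        intro u
        by_cases hux : u = x
        · rw [hux]; exact h
        by_cases huy : u = y
        · rw [huy, ← hR2]; exact h
        exact (h0 u hux huy).1
      have e2 : w ∩ A = ∅ := by
        apply hA.2 _ hwA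
        have : w ∩ A = w := by
          ext e
          rw [Finset.mem_inter]
          constructor
          · exact fun h => h.1
          · intro he
            refine ⟨he, ?_⟩
            by_contra hc
            have : e ∈ w \ A := Finset.mem_sdiff.2 ⟨he, hc⟩
            rw [e1] at this
            exact absurd this (Finset.notMem_empty e)
        rw [this]; exact hev
      exfalso
      obtain ⟨e, he⟩ := hne
      by_cases heA : e ∈ A
      · have : e ∈ w ∩ A := Finset.mem_inter.2 ⟨he, heA⟩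
        rw [e2] at this
        exact absurd this (Finset.notMem_empty e)
      · have : e ∈ w \ A := Finset.mem_sdiff.2 ⟨he, heA⟩
        rw [e1] at this
        exact absurd this (Finset.notMem_empty e)
    · have e1 := hfull R (w \ A) hR hwR
        (M.isJoin_of_par h (hR2 ▸ h) (fun v h1 h2 => (h0 v h1 h2).1))
      have hAx : M.par (w ∩ A) x = 1 := by
        rw [h] at hx
        have hz : ∀ a : ZMod 2, 0 = 1 + a → a = 1 := by decide
        exact hz _ hx
      have e2 := hfull A (w ∩ A) hA hwA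
        (M.isJoin_of_par hAx (hA2 ▸ hAx) (fun v h1 h2 => (h0 v h1 h2).2))
      rw [← Finset.sdiff_union_inter w A, e1, e2]

/-- at an end of an arc of an even set there is only one edge of the arc -/
lemma unique_at_end (cub : M.Cubic) {C A : Finset E} (hC : M.IsEven C) (hAC : A ⊆ C) {x : V}
    (hx : M.par A x = 1) {f e : E} (hf : f ∈ A) (he : e ∈ A) (hxf : M.inc x f)
    (hxe : M.inc x e) : e = f := by
  by_contra hne
  obtain ⟨r, hvr, hrf, hre, _, hpar⟩ := exists_third cub hxf hxe hne
  have h1 := (M.isEven_iff).1 hC x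
  rw [hpar] at hx h1
  rw [ind_of_mem hf, ind_of_mem he] at hx
  rw [ind_of_mem (hAC hf), ind_of_mem (hAC he)] at h1
  have hr : ind A r = 1 := by
    generalize ind A r = a at *
    revert a; decide
  rw [ind_of_mem (hAC (mem_of_ind hr))] at h1
  exact absurd h1 (by decide)

/-- THETA LEMMA -/
theorem theta (cub : M.Cubic) (conn : M.Conn) (c3 : M.Conn3) (h1 : M.H1)
    {σ : Finset E → E → ZMod 2} (hσ : SgProp M σ) (n : ℕ) :
    ∀ (C A : Finset E) (x y : V), M.IsCircuit C → A ⊆ C → A.card ≤ n → x ≠ y → M.IsJoin x y A →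
      M.Reach {e | e ∉ C} x y → ∑ f ∈ A, σ C f = 0 := by
  classical
  induction n with
  | zero =>
    intro C A x y hC hAC hcard hxy hA _
    have : A = ∅ := Finset.card_eq_zero.1 (Nat.le_zero.1 hcard)
    rw [this]; simp
  | succ n ih =>
    intro C A x y hC hAC hcard hxy hA hxyR
    obtain ⟨T, hTC, hT⟩ := hxyR.exists_join M hxy
    obtain ⟨R, hRT, hR⟩ := hT.exists_path M
    have hRC : ∀ e ∈ R, e ∉ C := fun e he => hTC (hRT he)
    have hAp : M.IsPathJoin x y A := hC.pathJoin M hA hAC
    have hRv : ∀ u ∈ M.verts R, u ≠ x → u ≠ y → u ∉ M.verts C := by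
      rintro u ⟨e, heR, hue⟩ hux huy ⟨f, hfC, huf⟩
      have hne : e ≠ f := by rintro rfl; exact hRC e heR hfC
      obtain ⟨r, hvr, hrf, hre, _, hpar⟩ := exists_third cub huf hue hne
      have p1 := hR.1.par_other M hux huy
      have p2 := (M.isEven_iff).1 hC.1 u
      rw [hpar, ind_of_mem heR, ind_of_not_mem (fun h => hRC f h hfC)] at p1
      rw [hpar, ind_of_mem hfC, ind_of_not_mem (hRC e heR)] at p2
      have r1 : ind R r = 1 := by
        generalize ind R r = a at *
        revert a; decide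
      have r2 : ind C r = 1 := by
        generalize ind C r = a at *
        revert a; decide
      exact hRC r (mem_of_ind r1) (mem_of_ind r2)
    have hRA : Disjoint R A := by
      rw [Finset.disjoint_left]
      intro e he heA
      exact hRC e he (hAC heA)
    have hD : M.IsCircuit (R ∪ A) := by
      refine circuit_of_paths M hxy hR hAp hRA ?_
      rintro u hu hux huy ⟨e, he, hinc⟩
      exact hRv u hu hux huy ⟨e, hAC he, hinc⟩
    have hCD : ∀ e, e ∈ A ↔ (e ∈ C ∧ e ∈ R ∪ A) := by
      intro e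
      constructor
      · intro he; exact ⟨hAC he, Finset.mem_union_right _ he⟩
      · rintro ⟨h1, h2⟩
        rcases Finset.mem_union.1 h2 with h | h
        · exact absurd h1 (hRC e h)
        · exact h
    set I : Set V := {u | u ∈ M.verts A ∧ u ≠ x ∧ u ≠ y} with hI
    obtain ⟨a, haA, hxa⟩ := hA.exists_mem M
    obtain ⟨b, hbA, hyb⟩ := (hA.symm M).exists_mem M
    by_cases hInt : I.Nonempty
    · -- inner vertices exist
      set O : Set E := {e | e ∉ C ∧ e ∉ R} with hO
      set W : Set V := {v | ∃ u ∈ I, M.Reach O u v} with hW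
      have hy' : ∃ y' ∈ W, y' ∈ M.verts (C \ A) ∨ y' ∈ M.verts R := by
        by_contra hcon
        push Not at hcon
        have hxW : x ∉ W := by
          intro h
          obtain ⟨e, he, hinc⟩ := hR.1.exists_mem M
          exact (hcon x h).2 ⟨e, he, hinc⟩
        have hWne : W.Nonempty := by
          obtain ⟨u, hu⟩ := hInt
          exact ⟨u, u, hu, Reach.refl M _ u⟩
        have hne := conn W hWne ⟨x, hxW⟩
        have h3 := c3 W hne
        have hsub : M.cut W ⊆ {a, b} := by
          intro e he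
          have heO : e ∉ O := fun h => M.cut_reach O I h he
          obtain ⟨u, v, hu, hv, huW, hvW⟩ := he
          have heR : e ∉ R := fun h => (hcon u huW).2 ⟨e, h, hu⟩
          have heC : e ∈ C := by
            by_contra h
            exact heO ⟨h, heR⟩
          have heA : e ∈ A := by
            by_contra h
            exact (hcon u huW).1 ⟨e, Finset.mem_sdiff.2 ⟨heC, h⟩, hu⟩
          have hvI : v = x ∨ v = y := by
            by_contra h
            push Not at h
            exact hvW ⟨v, ⟨⟨e, heA, hv⟩, h.1, h.2⟩, Reach.refl M _ v⟩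
          rcases hvI with h | h
          · left
            exact unique_at_end cub hC.1 hAC hA.par_left haA heA hxa (h ▸ hv)
          · right
            exact unique_at_end cub hC.1 hAC hA.par_right hbA heA hyb (h ▸ hv)
        have h2 : (M.cut W).encard ≤ 2 :=
          (Set.encard_le_encard hsub).trans (encard_pair_le' a b)
        exact absurd (h3.trans h2) (by norm_num)
      obtain ⟨y', ⟨u, ⟨huA, hux, huy⟩, huy'⟩, hy'⟩ := hy'
      obtain ⟨A1, A2, hA1, hA2, hd, hs1, hs2, hu⟩ := hAp.split M huA hux huy hxy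
      have hAeq : A = A1 ∪ A2 := by
        ext e; rw [Finset.mem_union]; exact hu e
      have hc : A.card = A1.card + A2.card := by
        rw [hAeq, Finset.card_union_of_disjoint hd]
      have hn1 : 0 < A1.card := by
        obtain ⟨e, he, _⟩ := hA1.1.exists_mem M
        exact Finset.card_pos.2 ⟨e, he⟩
      have hn2 : 0 < A2.card := by
        obtain ⟨e, he, _⟩ := hA2.1.exists_mem M
        exact Finset.card_pos.2 ⟨e, he⟩
      rcases hy' with hy' | hy'
      · -- the other side of the circuit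
        have hJ2 : M.IsPathJoin x y (C \ A) := by
          refine hC.pathJoin M ?_ Finset.sdiff_subset
          have : C \ A = symmDiff A C := by
            ext e
            simp only [Finset.mem_sdiff, Finset.mem_symmDiff]
            have := @hAC e
            tauto
          rw [this]
          exact hA.add_even M hC.1
        have hxy' : M.Reach (↑(C \ A)) x y' := hJ2.reach M hy'
        have hyx' : M.Reach (↑(C \ A)) y y' := by
          have h := hJ2
          have h' : M.IsPathJoin y x (C \ A) := ⟨h.1.symm M, h.2⟩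
          exact h'.reach M hy'
        have hO1 : O ⊆ {e | e ∉ R ∪ A} := by
          rintro e ⟨h1, h2⟩
          simp only [Set.mem_ofPred_eq, Finset.mem_union, not_or]
          exact ⟨h2, fun h => h1 (hAC h)⟩
        have hO2 : (↑(C \ A) : Set E) ⊆ {e | e ∉ R ∪ A} := by
          intro e he
          rw [Finset.mem_coe, Finset.mem_sdiff] at he
          simp only [Set.mem_ofPred_eq, Finset.mem_union, not_or]
          exact ⟨fun h => hRC e h he.1, he.2⟩
        have r1 : M.Reach {e | e ∉ R ∪ A} x u :=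
          (hxy'.mono M hO2).trans M ((huy'.mono M hO1).symm M)
        have r2 : M.Reach {e | e ∉ R ∪ A} u y :=
          (huy'.mono M hO1).trans M ((hyx'.mono M hO2).symm M)
        have s1 := ih (R ∪ A) A1 x u hD (hs1.trans Finset.subset_union_right) (by omega)
          hux.symm hA1.1 r1
        have s2 := ih (R ∪ A) A2 u y hD (hs2.trans Finset.subset_union_right) (by omega)
          huy hA2.1 r2
        rw [sum_sg_add cub h1 hσ hC.1 hD.1 hCD hxy hA]
        conv_lhs => rw [hAeq]
        rw [Finset.sum_union hd, ← hAeq, s1, s2, add_zero]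
      · have hxy' : M.Reach (↑R) x y' := hR.reach M hy'
        have hyx' : M.Reach (↑R) y y' := by
          have h' : M.IsPathJoin y x R := ⟨hR.1.symm M, hR.2⟩
          exact h'.reach M hy'
        have hO1 : O ⊆ {e | e ∉ C} := fun e h => h.1
        have hO2 : (↑R : Set E) ⊆ {e | e ∉ C} := fun e h => hRC e h
        have r1 : M.Reach {e | e ∉ C} x u :=
          (hxy'.mono M hO2).trans M ((huy'.mono M hO1).symm M)
        have r2 : M.Reach {e | e ∉ C} u y :=
          (huy'.mono M hO1).trans M ((hyx'.mono M hO2).symm M)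
        have s1 := ih C A1 x u hC (hs1.trans hAC) (by omega) hux.symm hA1.1 r1
        have s2 := ih C A2 u y hC (hs2.trans hAC) (by omega) huy hA2.1 r2
        conv_lhs => rw [hAeq]
        rw [Finset.sum_union hd, s1, s2, add_zero]
    · -- A is a single edge
      have hall : ∀ e ∈ A, e = a := by
        intro e he
        obtain ⟨p, q, hpq, hp, hq, -⟩ := M.exists_ends e
        have hend : ∀ u, M.inc u e → u = x ∨ u = y := by
          intro u hu
          by_contra h
          push Not at h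
          exact hInt ⟨u, ⟨e, he, hu⟩, h.1, h.2⟩
        have hxe : M.inc x e := by
          rcases hend p hp with h | h
          · exact h ▸ hp
          · rcases hend q hq with h' | h'
            · exact h' ▸ hq
            · exact absurd (h.trans h'.symm) hpq
        exact unique_at_end cub hC.1 hAC hA.par_left haA he hxa hxe
      have hAa : A = {a} := by
        ext e
        rw [Finset.mem_singleton]
        exact ⟨hall e, by rintro rfl; exact haA⟩
      have : σ C a = 0 := by
        apply sg_single cub hσ hC.1 hD.1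
        intro e
        rw [← hCD e, hAa, Finset.mem_singleton]
      rw [hAa, Finset.sum_singleton, this]

lemma sum_symmDiff' [DecidableEq E] (A B : Finset E) (φ : E → ZMod 2) :
    ∑ f ∈ symmDiff A B, φ f = ∑ f ∈ A, φ f + ∑ f ∈ B, φ f := by
  have h2 : symmDiff A B = (A \ B) ∪ (B \ A) := rfl
  have e1 := Finset.sum_inter_add_sum_sdiff A B φ
  have e2 := Finset.sum_inter_add_sum_sdiff B A φ
  rw [h2, Finset.sum_union disjoint_sdiff_sdiff, ← e1, ← e2, Finset.inter_comm B A]
  have h : ∑ x ∈ A ∩ B, φ x + ∑ x ∈ A ∩ B, φ x = 0 := CharTwo.add_self_eq_zero _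
  linear_combination -h

/-- the sides sum to zero over the whole circuit -/
lemma total (cub : M.Cubic) (conn : M.Conn) (c3 : M.Conn3) (h1 : M.H1)
    {σ : Finset E → E → ZMod 2} (hσ : SgProp M σ) {C : Finset E} (hC : M.IsCircuit C) :
    ∑ f ∈ C, σ C f = 0 := by
  classical
  obtain ⟨f, hf⟩ := hC.2.1
  obtain ⟨x, w, hxw, hx, hw, -⟩ := M.exists_ends f
  obtain ⟨c, hc, hcf, hxc⟩ := exists_second_mem cub hC.1 hf hx
  set O : Set E := {e | e ∉ C} with hO
  set Z : Set V := {v | ∃ a ∈ ({x} : Set V), M.Reach O a v} with hZ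
  have hxZ : x ∈ Z := ⟨x, rfl, Reach.refl M _ x⟩
  have hy : ∃ y ∈ Z, y ∈ M.verts C ∧ y ≠ x := by
    by_contra hcon
    push Not at hcon
    have hwZ : w ∉ Z := fun h => hxw (hcon w h ⟨f, hf, hw⟩).symm
    have hne := conn Z ⟨x, hxZ⟩ ⟨w, hwZ⟩
    have h3 := c3 Z hne
    have hsub : M.cut Z ⊆ {f, c} := by
      intro e he
      have heC : e ∈ C := by
        by_contra h
        exact M.cut_reach O {x} h he
      obtain ⟨u, v, hu, hv, huZ, hvZ⟩ := he
      have hux : u = x := hcon u huZ ⟨e, heC, hu⟩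
      subst hux
      by_contra hne
      have hne' : e ≠ f ∧ e ≠ c := by simpa [not_or] using hne
      have h := ind_add_of_even cub hC.1 hf hx hxc hu hcf hne'.1 hne'.2.symm
      rw [ind_of_mem hc, ind_of_mem heC] at h
      exact absurd h (by decide)
    have h2 : (M.cut Z).encard ≤ 2 :=
      (Set.encard_le_encard hsub).trans (encard_pair_le' f c)
    exact absurd (h3.trans h2) (by norm_num)
  obtain ⟨y, ⟨x', hx', hxy⟩, hyC, hyx⟩ := hy
  rw [Set.mem_singleton_iff] at hx'
  subst hx'
  obtain ⟨A1, A2, hA1, hA2, hd, hs1, hs2, hu⟩ := hC.exists_arcs M ⟨f, hf, hx⟩ hyC hyx.symm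
  have hCeq : C = A1 ∪ A2 := by
    ext e; rw [Finset.mem_union]; exact hu e
  conv_lhs => rw [hCeq]
  rw [Finset.sum_union hd, ← hCeq,
    theta cub conn c3 h1 hσ _ C A1 x' y hC hs1 le_rfl hyx.symm hA1.1 hxy,
    theta cub conn c3 h1 hσ _ C A2 x' y hC hs2 le_rfl hyx.symm hA2.1 hxy, add_zero]

lemma well_def (cub : M.Cubic) (conn : M.Conn) (c3 : M.Conn3) (h1 : M.H1)
    {σ : Finset E → E → ZMod 2} (hσ : SgProp M σ) {C : Finset E} (hC : M.IsCircuit C)
    {v0 x y : V} (hxy : M.Reach {e | e ∉ C} x y) {A A' : Finset E} (hA : A ⊆ C) (hA' : A' ⊆ C)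
    (hJ : GJ M v0 x A) (hJ' : GJ M v0 y A') : ∑ f ∈ A, σ C f = ∑ f ∈ A', σ C f := by
  classical
  have hsub : symmDiff A A' ⊆ C := by
    intro e he
    rw [Finset.mem_symmDiff] at he
    rcases he with h | h
    · exact hA h.1
    · exact hA' h.1
  have hB : GJ M x y (symmDiff A A') := (hJ.symm M).trans M hJ'
  have h0 : ∑ f ∈ symmDiff A A', σ C f = 0 := by
    by_cases hne : x = y
    · subst hne
      have hev := hB.isEven
      rcases (symmDiff A A').eq_empty_or_nonempty with h | h
      · rw [h]; simp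
      · rw [hC.2.2 _ hsub hev h]
        exact total cub conn c3 h1 hσ hC
    · exact theta cub conn c3 h1 hσ _ C _ x y hC hsub le_rfl hne (hB.isJoin M hne) hxy
  rw [sum_symmDiff'] at h0
  generalize ∑ f ∈ A, σ C f = a at *
  generalize ∑ f ∈ A', σ C f = b at *
  clear hσ
  revert a b
  decide

lemma exists_s (cub : M.Cubic) (conn : M.Conn) (c3 : M.Conn3) (h1 : M.H1)
    {σ : Finset E → E → ZMod 2} (hσ : SgProp M σ) {C : Finset E} (hC : M.IsCircuit C) :
    ∃ s : V → ZMod 2, (∀ f v w, f ∉ C → M.inc v f → M.inc w f → s v = s w) ∧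
      (∀ f v w, f ∈ C → v ≠ w → M.inc v f → M.inc w f → s v + s w = σ C f) := by
  classical
  obtain ⟨f0, hf0⟩ := hC.2.1
  obtain ⟨v0, w0, -, hv0, -, -⟩ := M.exists_ends f0
  have hv0C : v0 ∈ M.verts C := ⟨f0, hf0, hv0⟩
  have hex : ∀ u : V, ∃ (x : V) (A : Finset E), M.Reach {e | e ∉ C} u x ∧ A ⊆ C ∧ GJ M v0 x A := by
    intro u
    have hx : ∃ x ∈ M.verts C, M.Reach {e | e ∉ C} u x := by
      by_contra hcon
      push Not at hcon
      set Z : Set V := {v | ∃ a ∈ ({u} : Set V), M.Reach {e | e ∉ C} a v} with hZ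
      have huZ : u ∈ Z := ⟨u, rfl, Reach.refl M _ u⟩
      have hv0Z : v0 ∉ Z := by
        rintro ⟨a, ha, h⟩
        rw [Set.mem_singleton_iff] at ha
        subst ha
        exact hcon v0 hv0C h
      obtain ⟨e, he⟩ := conn Z ⟨u, huZ⟩ ⟨v0, hv0Z⟩
      have heC : e ∈ C := by
        by_contra h
        exact M.cut_reach {e | e ∉ C} {u} h he
      obtain ⟨p, q, hp, hq, ⟨a, ha, hap⟩, hqZ⟩ := he
      rw [Set.mem_singleton_iff] at ha
      subst ha
      exact hcon p ⟨e, heC, hp⟩ hap
    obtain ⟨x, hxC, hux⟩ := hx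
    obtain ⟨A, hA, hJ⟩ := Reach.exists_GJ M (hC.reach M hv0C hxC)
    exact ⟨x, A, hux, by exact_mod_cast hA, hJ⟩
  choose X A hX hA hJ using hex
  refine ⟨fun u => ∑ f ∈ A u, σ C f, ?_, ?_⟩
  · intro f v w hf hv hw
    exact well_def cub conn c3 h1 hσ hC
      ((((hX v).symm M).trans M (M.reach_of_mem hf hv hw)).trans M (hX w)) (hA v) (hA w)
      (hJ v) (hJ w)
  · intro f v w hf hvw hv hw
    have hvC : v ∈ M.verts C := ⟨f, hf, hv⟩
    obtain ⟨B, hB, hBJ⟩ := Reach.exists_GJ M (hC.reach M hv0C hvC)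
    have hB' : B ⊆ C := by exact_mod_cast hB
    have hB2 : symmDiff B {f} ⊆ C := by
      intro e he
      rw [Finset.mem_symmDiff, Finset.mem_singleton] at he
      rcases he with h | h
      · exact hB' h.1
      · rw [h.1]; exact hf
    have hBJ2 : GJ M v0 w (symmDiff B {f}) := hBJ.trans M (gj_singleton M hv hw hvw)
    have e1 := well_def cub conn c3 h1 hσ hC ((hX v).symm M) (hA v) hB' (hJ v) hBJ
    have e2 := well_def cub conn c3 h1 hσ hC ((hX w).symm M) (hA w) hB2 (hJ w) hBJ2
    show ∑ f ∈ A v, σ C f + ∑ f ∈ A w, σ C f = σ C f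
    rw [e1, e2, sum_symmDiff', Finset.sum_singleton]
    have : ∑ f ∈ B, σ C f + ∑ f ∈ B, σ C f = 0 := CharTwo.add_self_eq_zero _
    linear_combination this

lemma mem_of_verts (cub : M.Cubic) {C : Finset E} (hC : M.IsEven C) {v : V} {f e : E}
    (hf : f ∉ C) (hvf : M.inc v f) (hve : M.inc v e) (hef : e ≠ f) (hv : v ∈ M.verts C) :
    e ∈ C := by
  by_contra he
  obtain ⟨r, hvr, hrf, hre, hall, hpar⟩ := exists_third cub hvf hve hef
  have h0 := (M.isEven_iff).1 hC v
  rw [hpar, ind_of_not_mem hf, ind_of_not_mem he] at h0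
  have hr : r ∉ C := by
    apply not_mem_of_ind
    simpa using h0
  obtain ⟨g, hg, hvg⟩ := hv
  rcases hall g hvg with h | h | h
  · exact hf (h ▸ hg)
  · exact he (h ▸ hg)
  · exact hr (h ▸ hg)

end T4

end MG

/-- T4b. Every circuit bounds a region. -/
theorem T4b_regions {V E : Type} (M : MG V E) (cub : M.Cubic) (conn : M.Conn)
    (c3 : M.Conn3) (h1 : M.H1) (h2 : M.H2) : M.H3 := by
  classical
  intro C hC
  obtain ⟨σ, hσ⟩ := exists_sg cub h1 h2
  obtain ⟨s, hs1, hs2⟩ := exists_s cub conn c3 h1 hσ hC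
  have one_add : ∀ a : ZMod 2, a + 1 = 1 ↔ a = 0 := by decide
  refine ⟨fun v e => s v + (if v ∈ M.verts C ∧ e ∉ C then 1 else 0) = 1, ?_, ?_⟩
  · intro v w f e g hM
    obtain ⟨hvw, a1, a2, a3, a4, a5, a6, -⟩ := id hM
    show (s v + (if v ∈ M.verts C ∧ e ∉ C then 1 else 0) = 1) ↔
      (s w + (if w ∈ M.verts C ∧ g ∉ C then 1 else 0) = 1)
    by_cases hf : f ∈ C
    · have hvC : v ∈ M.verts C := ⟨f, hf, a1⟩
      have hwC : w ∈ M.verts C := ⟨f, hf, a2⟩
      have e1 := hs2 f v w hf hvw a1 a2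
      rw [hσ C f v w e g hC.1 hf hM] at e1
      have i1 : (if v ∈ M.verts C ∧ e ∉ C then (1 : ZMod 2) else 0) = 1 + ind C e := by
        by_cases he : e ∈ C
        · simp only [he, ind_of_mem he, not_true, and_false, if_false]; decide
        · simp [he, hvC, ind_of_not_mem he]
      have i2 : (if w ∈ M.verts C ∧ g ∉ C then (1 : ZMod 2) else 0) = 1 + ind C g := by
        by_cases he : g ∈ C
        · simp only [he, ind_of_mem he, not_true, and_false, if_false]; decide
        · simp [he, hwC, ind_of_not_mem he]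
      rw [i1, i2]
      have key : ∀ a b c d : ZMod 2, a + b = c + d → (a + (1 + c) = 1 ↔ b + (1 + d) = 1) := by
        decide
      exact key _ _ _ _ e1
    · have e1 := hs1 f v w hf a1 a2
      have i1 : ¬ (v ∈ M.verts C ∧ e ∉ C) := fun h =>
        h.2 (mem_of_verts cub hC.1 hf a1 a3 a4 h.1)
      have i2 : ¬ (w ∈ M.verts C ∧ g ∉ C) := fun h =>
        h.2 (mem_of_verts cub hC.1 hf a2 a5 a6 h.1)
      rw [if_neg i1, if_neg i2, e1]
  · intro f
    constructor
    · rintro ⟨v, e, e', hvf, hve, hve', hef, hef', hU, hU'⟩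
      by_contra hf
      have i1 : ¬ (v ∈ M.verts C ∧ e ∉ C) := fun h =>
        h.2 (mem_of_verts cub hC.1 hf hvf hve hef h.1)
      have i2 : ¬ (v ∈ M.verts C ∧ e' ∉ C) := fun h =>
        h.2 (mem_of_verts cub hC.1 hf hvf hve' hef' h.1)
      simp only [if_neg i1] at hU
      simp only [if_neg i2] at hU'
      exact hU' hU
    · intro hf
      obtain ⟨v, w, hvw, hv, hw, -⟩ := M.exists_ends f
      have hvC : v ∈ M.verts C := ⟨f, hf, hv⟩
      obtain ⟨c, hc, hcf, hvc⟩ := exists_second_mem cub hC.1 hf hv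
      obtain ⟨t, hvt, htf, htc, -, hpar⟩ := exists_third cub hv hvc hcf
      have htC : t ∉ C := by
        intro h
        have := ind_add_of_even cub hC.1 hf hv hvc hvt hcf htf htc.symm
        rw [ind_of_mem hc, ind_of_mem h] at this
        exact absurd this (by decide)
      have i1 : ¬ (v ∈ M.verts C ∧ c ∉ C) := fun h => h.2 hc
      have i2 : (v ∈ M.verts C ∧ t ∉ C) := ⟨hvC, htC⟩
      rcases zmod2 (s v) with h | h
      · refine ⟨v, t, c, hv, hvt, hvc, htf, hcf, ?_, ?_⟩
        · simp only [if_pos i2, h, zero_add]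
        · simp only [if_neg i1, h, add_zero]; decide
      · refine ⟨v, c, t, hv, hvc, hvt, hcf, htf, ?_, ?_⟩
        · simp only [if_neg i1, h, add_zero]
        · simp only [if_pos i2, h]; decide

end Pool.Agent.MP_57dfd7_co
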