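import Pool.Agent.MP_57dfd7_co.T0

/-! T5, part a: regions, boundaries, uncrossing of essential circuits. -/

namespace Pool.Agent.MP_57dfd7_co

namespace MG

variable {V E : Type} (M : MG V E)

/-- the three edges at a vertex -/
def Tri (v : V) (a b c : E) : Prop :=
  a ≠ b ∧ a ≠ c ∧ b ≠ c ∧ ∀ e, M.inc v e ↔ (e = a ∨ e = b ∨ e = c)

variable {M}

lemma Cubic.tri (cub : M.Cubic) (v : V) : ∃ a b c, M.Tri v a b c := by
  obtain ⟨a, b, c, h1, h2, h3, h4⟩ := Set.encard_eq_three.1 (cub v)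
  refine ⟨a, b, c, h1, h2, h3, fun e => ?_⟩
  have : e ∈ {e | M.inc v e} ↔ e ∈ ({a, b, c} : Set E) := by rw [h4]
  simpa using this

/-- with a prescribed first edge -/
lemma Cubic.tri' (cub : M.Cubic) {v : V} {f : E} (hf : M.inc v f) : ∃ b c, M.Tri v f b c := by
  obtain ⟨a, b, c, h1, h2, h3, h4⟩ := cub.tri v
  rcases (h4 f).1 hf with rfl | rfl | rfl
  · exact ⟨b, c, h1, h2, h3, h4⟩
  · exact ⟨a, c, h1.symm, h3, h2, fun e => by rw [h4]; tauto⟩
  · exact ⟨a, b, h2.symm, h3.symm, h1, fun e => by rw [h4]; tauto⟩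

lemma Tri.rot {v : V} {a b c : E} (h : M.Tri v a b c) : M.Tri v b c a :=
  ⟨h.2.2.1, h.1.symm, h.2.1.symm, fun e => by rw [h.2.2.2]; tauto⟩

lemma Tri.swap {v : V} {a b c : E} (h : M.Tri v a b c) : M.Tri v b a c :=
  ⟨h.1.symm, h.2.2.1, h.2.1, fun e => by rw [h.2.2.2]; tauto⟩

lemma Tri.inc1 {v : V} {a b c : E} (h : M.Tri v a b c) : M.inc v a := (h.2.2.2 a).2 (Or.inl rfl)
lemma Tri.inc2 {v : V} {a b c : E} (h : M.Tri v a b c) : M.inc v b :=
  (h.2.2.2 b).2 (Or.inr (Or.inl rfl))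
lemma Tri.inc3 {v : V} {a b c : E} (h : M.Tri v a b c) : M.inc v c :=
  (h.2.2.2 c).2 (Or.inr (Or.inr rfl))

/-- uniqueness of the other two edges -/
lemma Tri.others {v : V} {a b c : E} (h : M.Tri v a b c) {e e' : E} (he : M.inc v e)
    (he' : M.inc v e') (hea : e ≠ a) (hea' : e' ≠ a) (hne : e ≠ e') :
    (e = b ∧ e' = c) ∨ (e = c ∧ e' = b) := by
  rcases (h.2.2.2 e).1 he with h1 | h1 | h1 <;> rcases (h.2.2.2 e').1 he' with h2 | h2 | h2
  · exact absurd h1 hea
  · exact absurd h1 hea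
  · exact absurd h1 hea
  · exact absurd h2 hea'
  · exact absurd (h1.trans h2.symm) hne
  · exact Or.inl ⟨h1, h2⟩
  · exact absurd h2 hea'
  · exact Or.inr ⟨h1, h2⟩
  · exact absurd (h1.trans h2.symm) hne

lemma Tri.par {v : V} {a b c : E} (h : M.Tri v a b c) (z : Finset E) [DecidableEq E] :
    M.par z v = (if a ∈ z then 1 else 0) + (if b ∈ z then 1 else 0) + (if c ∈ z then 1 else 0) := by
  classical
  rw [par_eq_sum]
  have e1 : ∑ e ∈ z, (if M.inc v e then (1 : ZMod 2) else 0) =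
      ∑ e ∈ ({a, b, c} : Finset E), if e ∈ z then (1 : ZMod 2) else 0 := by
    rw [← Finset.sum_filter, ← Finset.sum_filter]
    congr 1
    ext e
    simp only [Finset.mem_filter, Finset.mem_insert, Finset.mem_singleton, h.2.2.2 e]
    tauto
  rw [e1, Finset.sum_insert, Finset.sum_insert, Finset.sum_singleton, add_assoc]
  · simpa using h.2.2.1
  · simp only [Finset.mem_insert, Finset.mem_singleton, not_or]
    exact ⟨h.1, h.2.1⟩

/-- evenness at a cubic vertex -/
lemma Tri.par_eq_zero_iff {v : V} {a b c : E} (h : M.Tri v a b c) (z : Finset E) :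
    M.par z v = 0 ↔ (c ∈ z ↔ ¬ (a ∈ z ↔ b ∈ z)) := by
  classical
  rw [h.par]
  by_cases h1 : a ∈ z <;> by_cases h2 : b ∈ z <;> by_cases h3 : c ∈ z <;>
    simp only [h1, h2, h3, if_true, if_false] <;> decide

lemma Tri.even {v : V} {a b c : E} (h : M.Tri v a b c) {z : Finset E} (hz : M.IsEven z) :
    c ∈ z ↔ ¬ (a ∈ z ↔ b ∈ z) :=
  (h.par_eq_zero_iff z).1 ((M.isEven_iff).1 hz v)

lemma Tri.mem_verts {v : V} {a b c : E} (h : M.Tri v a b c) {z : Finset E} :
    v ∈ M.verts z ↔ (a ∈ z ∨ b ∈ z ∨ c ∈ z) := by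
  constructor
  · rintro ⟨e, he, hinc⟩
    rcases (h.2.2.2 e).1 hinc with rfl | rfl | rfl
    · exact Or.inl he
    · exact Or.inr (Or.inl he)
    · exact Or.inr (Or.inr he)
  · rintro (he | he | he)
    · exact ⟨a, he, h.inc1⟩
    · exact ⟨b, he, h.inc2⟩
    · exact ⟨c, he, h.inc3⟩

/-! ### matchings -/

lemma Match.symm {v w : V} {f e g : E} (h : M.Match v w f e g) : M.Match w v f g e := by
  obtain ⟨h1, h2, h3, h4, h5, h6, h7, C, D, h8, h9, h10, h11, h12⟩ := h
  exact ⟨h1.symm, h3, h2, h6, h7, h4, h5, C, D, h8, h9, h10, h12, h11⟩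

/-- the complementary matching -/
lemma Match.compl {v w : V} {f e g e' g' : E} (h : M.Match v w f e g) (hv : M.Tri v f e e')
    (hw : M.Tri w f g g') : M.Match v w f e' g' := by
  obtain ⟨h1, h2, h3, h4, h5, h6, h7, C, D, h8, h9, h10, h11, h12⟩ := h
  have hfC : f ∈ C := ((h10 f).2 rfl).1
  have hfD : f ∈ D := ((h10 f).2 rfl).2
  have heD : e ∉ D := fun h => h5 ((h10 e).1 ⟨h11, h⟩)
  have hgD : g ∉ D := fun h => h7 ((h10 g).1 ⟨h12, h⟩)
  have he'D : e' ∈ D := (hv.even h9).2 (by simp [hfD, heD])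
  have hg'D : g' ∈ D := (hw.even h9).2 (by simp [hfD, hgD])
  refine ⟨h1, h2, h3, hv.inc3, hv.2.1.symm, hw.inc3, hw.2.1.symm, D, C, h9, h8, ?_, he'D, hg'D⟩
  intro x
  rw [and_comm]
  exact h10 x

/-! ### regions -/

lemma IsRegion.not {U : V → E → Prop} (hU : M.IsRegion U) : M.IsRegion (fun v e => ¬ U v e) :=
  fun v w f e g h => not_congr (hU v w f e g h)

lemma IsRegion.and {U W : V → E → Prop} (hU : M.IsRegion U) (hW : M.IsRegion W) :
    M.IsRegion (fun v e => U v e ∧ W v e) :=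
  fun v w f e g h => and_congr (hU v w f e g h) (hW v w f e g h)

lemma IsRegion.or {U W : V → E → Prop} (hU : M.IsRegion U) (hW : M.IsRegion W) :
    M.IsRegion (fun v e => U v e ∨ W v e) :=
  fun v w f e g h => or_congr (hU v w f e g h) (hW v w f e g h)

lemma IsRegion.xor {U W : V → E → Prop} (hU : M.IsRegion U) (hW : M.IsRegion W) :
    M.IsRegion (fun v e => ¬ (U v e ↔ W v e)) :=
  fun v w f e g h => not_congr (iff_congr (hU v w f e g h) (hW v w f e g h))

/-- the boundary can be computed at any end -/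
lemma bd_iff (cub : M.Cubic) (h1 : M.H1) {U : V → E → Prop} (hU : M.IsRegion U) {v : V}
    {f e e' : E} (ht : M.Tri v f e e') : M.bd U f ↔ ¬ (U v e ↔ U v e') := by
  constructor
  · rintro ⟨v1, e1, e1', hf, he, he', hne, hne', hUe, hUe'⟩
    have hne1 : e1 ≠ e1' := by rintro rfl; exact hUe' hUe
    by_cases hv : v1 = v
    · subst hv
      rcases ht.others he he' hne hne' hne1 with ⟨rfl, rfl⟩ | ⟨rfl, rfl⟩
      · tauto
      · tauto
    · obtain ⟨g, hg⟩ := h1 v v1 f e (Ne.symm hv) ht.inc1 hf ht.inc2 ht.1.symm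
      have hgf : g ≠ f := hg.2.2.2.2.2.2.1
      have hgi : M.inc v1 g := hg.2.2.2.2.2.1
      obtain ⟨x, y, hxy⟩ := cub.tri' hf
      obtain ⟨g', hg'⟩ : ∃ g', M.Tri v1 f g g' := by
        rcases (hxy.2.2.2 g).1 hgi with h | h | h
        · exact absurd h hgf
        · subst h; exact ⟨y, hxy⟩
        · subst h; exact ⟨x, hxy.rot.rot.swap⟩
      have hm := hg.compl ht hg'
      have r1 := hU _ _ _ _ _ hg
      have r2 := hU _ _ _ _ _ hm
      rcases hg'.others he he' hne hne' hne1 with ⟨rfl, rfl⟩ | ⟨rfl, rfl⟩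
      · tauto
      · tauto
  · intro h
    by_cases hU1 : U v e
    · exact ⟨v, e, e', ht.inc1, ht.inc2, ht.inc3, ht.1.symm, ht.2.1.symm, hU1, by tauto⟩
    · exact ⟨v, e', e, ht.inc1, ht.inc3, ht.inc2, ht.2.1.symm, ht.1.symm, by tauto, hU1⟩

/-- `z` is the (finite) boundary of `U` -/
def Bd (M : MG V E) (U : V → E → Prop) (z : Finset E) : Prop :=
  M.IsRegion U ∧ ∀ f, M.bd U f ↔ f ∈ z

lemma Bd.even (cub : M.Cubic) (h1 : M.H1) {U : V → E → Prop} {z : Finset E} (h : M.Bd U z) :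
    M.IsEven z := by
  rw [isEven_iff]
  intro v
  obtain ⟨a, b, c, ht⟩ := cub.tri v
  rw [ht.par_eq_zero_iff, ← h.2, ← h.2, ← h.2, bd_iff cub h1 h.1 ht, bd_iff cub h1 h.1 ht.rot,
    bd_iff cub h1 h.1 ht.rot.rot]
  tauto

lemma Bd.not (cub : M.Cubic) (h1 : M.H1) {U : V → E → Prop} {z : Finset E} (h : M.Bd U z) :
    M.Bd (fun v e => ¬ U v e) z := by
  refine ⟨h.1.not, fun f => ?_⟩
  obtain ⟨u, v, _, hu, _, _⟩ := M.exists_ends f
  obtain ⟨b, c, ht⟩ := cub.tri' hu
  rw [← h.2, bd_iff cub h1 h.1 ht, bd_iff cub h1 h.1.not ht]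
  tauto

/-- if two regions agree on incident pairs they have the same boundary -/
lemma Bd.congr (cub : M.Cubic) (h1 : M.H1) {U W : V → E → Prop} {z : Finset E} (h : M.Bd U z)
    (hUW : ∀ v e, M.inc v e → (U v e ↔ W v e)) : M.Bd W z := by
  have hW : M.IsRegion W := by
    intro v w f e g hm
    rw [← hUW v e hm.2.2.2.1, ← hUW w g hm.2.2.2.2.2.1]
    exact h.1 v w f e g hm
  refine ⟨hW, fun f => ?_⟩
  obtain ⟨u, v, _, hu, _, _⟩ := M.exists_ends f
  obtain ⟨b, c, ht⟩ := cub.tri' hu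
  rw [← h.2, bd_iff cub h1 h.1 ht, bd_iff cub h1 hW ht, hUW u b ht.inc2, hUW u c ht.inc3]

lemma Bd.xor [DecidableEq E] (cub : M.Cubic) (h1 : M.H1) {U W : V → E → Prop} {z w : Finset E}
    (h : M.Bd U z) (h' : M.Bd W w) : M.Bd (fun v e => ¬ (U v e ↔ W v e)) (symmDiff z w) := by
  refine ⟨h.1.xor h'.1, fun f => ?_⟩
  obtain ⟨u, v, _, hu, _, _⟩ := M.exists_ends f
  obtain ⟨b, c, ht⟩ := cub.tri' hu
  rw [Finset.mem_symmDiff, ← h.2, ← h'.2, bd_iff cub h1 h.1 ht, bd_iff cub h1 h'.1 ht,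
    bd_iff cub h1 (h.1.xor h'.1) ht]
  tauto

/-- boundaries of intersections exist as finite sets -/
lemma Bd.exists_and [DecidableEq E] (cub : M.Cubic) (h1 : M.H1) {U W : V → E → Prop}
    {z w : Finset E} (h : M.Bd U z) (h' : M.Bd W w) :
    ∃ t, M.Bd (fun v e => U v e ∧ W v e) t ∧ t ⊆ z ∪ w := by
  classical
  refine ⟨(z ∪ w).filter (fun f => M.bd (fun v e => U v e ∧ W v e) f),
    ⟨h.1.and h'.1, fun f => ?_⟩, Finset.filter_subset _ _⟩
  rw [Finset.mem_filter]
  refine ⟨fun hb => ⟨?_, hb⟩, fun hb => hb.2⟩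
  obtain ⟨u, v, _, hu, _, _⟩ := M.exists_ends f
  obtain ⟨b, c, ht⟩ := cub.tri' hu
  rw [Finset.mem_union, ← h.2, ← h'.2, bd_iff cub h1 h.1 ht, bd_iff cub h1 h'.1 ht]
  rw [bd_iff cub h1 (h.1.and h'.1) ht] at hb
  tauto

/-- submodularity of the boundary size -/
lemma Bd.submod [DecidableEq E] (cub : M.Cubic) (h1 : M.H1) {U W : V → E → Prop}
    {z w s t : Finset E} (h : M.Bd U z) (h' : M.Bd W w)
    (hs : M.Bd (fun v e => U v e ∧ W v e) s) (ht : M.Bd (fun v e => ¬ U v e ∧ ¬ W v e) t) :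
    s.card + t.card ≤ z.card + w.card := by
  have hun : s ∪ t ⊆ z ∪ w ∧ s ∩ t ⊆ z ∩ w := by
    constructor
    · intro f hf
      obtain ⟨u, v, _, hu, _, _⟩ := M.exists_ends f
      obtain ⟨b, c, htr⟩ := cub.tri' hu
      rw [Finset.mem_union, ← h.2, ← h'.2, bd_iff cub h1 h.1 htr, bd_iff cub h1 h'.1 htr]
      rw [Finset.mem_union, ← hs.2, ← ht.2, bd_iff cub h1 hs.1 htr, bd_iff cub h1 ht.1 htr] at hf
      tauto
    · intro f hf
      obtain ⟨u, v, _, hu, _, _⟩ := M.exists_ends f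
      obtain ⟨b, c, htr⟩ := cub.tri' hu
      rw [Finset.mem_inter, ← h.2, ← h'.2, bd_iff cub h1 h.1 htr, bd_iff cub h1 h'.1 htr]
      rw [Finset.mem_inter, ← hs.2, ← ht.2, bd_iff cub h1 hs.1 htr, bd_iff cub h1 ht.1 htr] at hf
      tauto
  have e1 := Finset.card_union_add_card_inter s t
  have e2 := Finset.card_union_add_card_inter z w
  have e3 := Finset.card_le_card hun.1
  have e4 := Finset.card_le_card hun.2
  omega

/-- a region without boundary is constant -/
lemma region_const (cub : M.Cubic) (conn : M.Conn) (h1 : M.H1) {U : V → E → Prop}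
    (h : M.Bd U ∅) :
    (∀ v e, M.inc v e → U v e) ∨ (∀ v e, M.inc v e → ¬ U v e) := by
  have hloc : ∀ v, (∀ e, M.inc v e → U v e) ∨ (∀ e, M.inc v e → ¬ U v e) := by
    intro v
    obtain ⟨a, b, c, ht⟩ := cub.tri v
    have ha := (bd_iff cub h1 h.1 ht).not.1 (by rw [h.2]; simp)
    have hb := (bd_iff cub h1 h.1 ht.rot).not.1 (by rw [h.2]; simp)
    by_cases hU : U v a
    · left
      intro e he
      rcases (ht.2.2.2 e).1 he with rfl | rfl | rfl <;> tauto
    · right
      intro e he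
      rcases (ht.2.2.2 e).1 he with rfl | rfl | rfl <;> tauto
  set X : Set V := {v | ∀ e, M.inc v e → U v e} with hX
  have hcut : ¬ (M.cut X).Nonempty := by
    rintro ⟨f, v, w, hvf, hwf, hvX, hwX⟩
    have hw : ∀ e, M.inc w e → ¬ U w e := by
      rcases hloc w with h | h
      · exact absurd h hwX
      · exact h
    have hne : v ≠ w := by rintro rfl; exact hwX hvX
    obtain ⟨b, c, ht⟩ := cub.tri' hvf
    obtain ⟨g, hg⟩ := h1 v w f b hne hvf hwf ht.inc2 ht.1.symm
    exact hw g hg.2.2.2.2.2.1 ((h.1 _ _ _ _ _ hg).1 (hvX b ht.inc2))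
  by_cases hne : X.Nonempty
  · by_cases hne' : Xᶜ.Nonempty
    · exact absurd (conn X hne hne') hcut
    · left
      intro v
      by_contra hcon
      exact hne' ⟨v, hcon⟩
  · right
    intro v
    rcases hloc v with h | h
    · exact absurd ⟨v, h⟩ hne
    · exact h

/-- the regions bounded by `z` are unique up to complement -/
lemma Bd.unique (cub : M.Cubic) (conn : M.Conn) (h1 : M.H1) {U W : V → E → Prop}
    {z : Finset E} (h : M.Bd U z) (h' : M.Bd W z) :
    (∀ v e, M.inc v e → (U v e ↔ W v e)) ∨ (∀ v e, M.inc v e → (U v e ↔ ¬ W v e)) := by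
  classical
  have hx := h.xor cub h1 h'
  rw [symmDiff_self] at hx
  rcases region_const cub conn h1 hx with hc | hc
  · right
    intro v e he
    have := hc v e he
    tauto
  · left
    intro v e he
    have := hc v e he
    tauto

/-! ### spans -/

lemma Gen.of {P : Finset E → Prop} {z : Finset E} (h : P z) : Gen P z := by
  refine Gen.add h Gen.zero (fun e => ?_)
  simp [Xor]

lemma Gen.mono {P Q : Finset E → Prop} (hPQ : ∀ z, P z → Q z) {z : Finset E} (h : Gen P z) :
    Gen Q z := by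
  induction h with
  | zero => exact Gen.zero
  | add h1 _ h3 ih => exact Gen.add (hPQ _ h1) ih h3

lemma Gen.symmDiff [DecidableEq E] {P : Finset E → Prop} {z w : Finset E} (hz : Gen P z)
    (hw : Gen P w) : Gen P (symmDiff z w) := by
  induction hz with
  | zero => rw [← Finset.bot_eq_empty, bot_symmDiff]; exact hw
  | @add a b t h1 _ h3 ih =>
    refine Gen.add h1 ih (fun e => ?_)
    rw [Finset.mem_symmDiff, Finset.mem_symmDiff, h3]
    simp only [Xor]
    tauto

/-- sums of even sets with fewer than `n` edges -/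
def Low (M : MG V E) (n : ℕ) (z : Finset E) : Prop := Gen (fun w => M.IsEven w ∧ w.card < n) z

lemma Low.mono {n m : ℕ} (h : n ≤ m) {z : Finset E} (hz : M.Low n z) : M.Low m z :=
  Gen.mono (fun _ hw => ⟨hw.1, hw.2.trans_le h⟩) hz

lemma low_of_card {n : ℕ} {z : Finset E} (hz : M.IsEven z) (h : z.card < n) : M.Low n z :=
  Gen.of ⟨hz, h⟩

lemma Low.symmDiff [DecidableEq E] {n : ℕ} {z w : Finset E} (hz : M.Low n z) (hw : M.Low n w) :
    M.Low n (symmDiff z w) := Gen.symmDiff hz hw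

lemma Essential.circuit {z : Finset E} (h : M.Essential z) : M.IsCircuit z := by
  classical
  have hne : z.Nonempty := by
    rw [Finset.nonempty_iff_ne_empty]
    rintro rfl
    exact h.2 Gen.zero
  refine ⟨h.1, hne, fun w hw hwe hwn => ?_⟩
  by_contra hcon
  apply h.2
  have h1 : w.card < z.card := Finset.card_lt_card (Finset.ssubset_iff_subset_ne.2 ⟨hw, hcon⟩)
  have h2 : (z \ w).card < z.card := by
    rw [Finset.card_sdiff_of_subset hw]
    have := hwn.card_pos
    omega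
  have h3 : symmDiff w (z \ w) = z := by
    ext x
    simp only [Finset.mem_sdiff, Finset.mem_symmDiff]
    have := @hw x
    tauto
  have h4 : Gen (fun w => M.IsEven w ∧ w.card < z.card) (symmDiff w (z \ w)) :=
    Gen.symmDiff (Gen.of ⟨hwe, h1⟩) (Gen.of ⟨IsEven.sdiff M h.1 hwe hw, h2⟩)
  rwa [h3] at h4

/-- Uncrossing of two essential even sets. -/
lemma uncross [DecidableEq E] (cub : M.Cubic) (h1 : M.H1) {A B : V → E → Prop}
    {C D c1 c2 c3 c4 : Finset E} (hA : M.Bd A C) (hB : M.Bd B D) (hC : M.Essential C)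
    (hD : M.Essential D) (hCD : C.card ≤ D.card)
    (b1 : M.Bd (fun v e => A v e ∧ B v e) c1) (b2 : M.Bd (fun v e => A v e ∧ ¬ B v e) c2)
    (b3 : M.Bd (fun v e => ¬ A v e ∧ B v e) c3) (b4 : M.Bd (fun v e => ¬ A v e ∧ ¬ B v e) c4) :
    ((M.Essential c1 ∧ M.Essential c4) ∧
      ((c1.card = C.card ∧ c4.card = D.card) ∨ (c1.card = D.card ∧ c4.card = C.card))) ∨
    ((M.Essential c2 ∧ M.Essential c3) ∧
      ((c2.card = C.card ∧ c3.card = D.card) ∨ (c2.card = D.card ∧ c3.card = C.card))) := by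
  have ev1 := b1.even cub h1
  have ev2 := b2.even cub h1
  have ev3 := b3.even cub h1
  have ev4 := b4.even cub h1
  have s14 : c1.card + c4.card ≤ C.card + D.card := Bd.submod cub h1 hA hB b1 b4
  have s23 : c2.card + c3.card ≤ C.card + D.card := by
    refine Bd.submod cub h1 hA (hB.not cub h1) b2 (b3.congr cub h1 ?_)
    intro v e _
    tauto
  -- sums
  have uniq : ∀ {U W : V → E → Prop} {z w : Finset E}, M.Bd U z → M.Bd W w →
      (∀ v e, U v e ↔ W v e) → z = w := by
    intro U W z w hz hw h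
    have : U = W := by
      funext v e
      exact propext (h v e)
    subst this
    ext f
    rw [← hz.2, ← hw.2]
  have C12 : C = symmDiff c1 c2 := uniq hA (b1.xor cub h1 b2) (fun v e => by tauto)
  have C34 : C = symmDiff c3 c4 := uniq (hA.not cub h1) (b3.xor cub h1 b4) (fun v e => by tauto)
  have D13 : D = symmDiff c1 c3 := uniq hB (b1.xor cub h1 b3) (fun v e => by tauto)
  have D24 : D = symmDiff c2 c4 := uniq (hB.not cub h1) (b2.xor cub h1 b4) (fun v e => by tauto)
  have nC : ¬ M.Low C.card C := hC.2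
  have nD : ¬ M.Low D.card D := hD.2
  have big : ∀ {z : Finset E} {n : ℕ}, M.IsEven z → ¬ M.Low n z → n ≤ z.card := by
    intro z n hz hn
    by_contra hcon
    exact hn (low_of_card hz (by omega))
  have ess : ∀ {z : Finset E} {n : ℕ}, M.IsEven z → ¬ M.Low n z → z.card = n → M.Essential z := by
    intro z n hz hn hc
    subst hc
    exact ⟨hz, hn⟩
  by_cases l1 : M.Low D.card c1
  · -- then c3 is not low
    have l3 : ¬ M.Low D.card c3 := by
      intro l3
      apply nD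
      conv_rhs => rw [D13]
      exact l1.symmDiff l3
    have g3 := big ev3 l3
    by_cases l2 : M.Low C.card c2
    · have l1' : ¬ M.Low C.card c1 := by
        intro l
        apply nC
        conv_rhs => rw [C12]
        exact l.symmDiff l2
      have l4 : ¬ M.Low D.card c4 := by
        intro l
        apply nD
        conv_rhs => rw [D24]
        exact (l2.mono hCD).symmDiff l
      have g1 := big ev1 l1'
      have g4 := big ev4 l4
      left
      exact ⟨⟨ess ev1 l1' (by omega), ess ev4 l4 (by omega)⟩, Or.inl ⟨by omega, by omega⟩⟩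
    · have g2 := big ev2 l2
      right
      exact ⟨⟨ess ev2 l2 (by omega), ess ev3 l3 (by omega)⟩, Or.inl ⟨by omega, by omega⟩⟩
  · have g1 := big ev1 l1
    by_cases l4 : M.Low C.card c4
    · have l3 : ¬ M.Low C.card c3 := by
        intro l
        apply nC
        conv_rhs => rw [C34]
        exact l.symmDiff l4
      have l2 : ¬ M.Low D.card c2 := by
        intro l
        apply nD
        conv_rhs => rw [D24]
        exact l.symmDiff (l4.mono hCD)
      have g3 := big ev3 l3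
      have g2 := big ev2 l2
      right
      exact ⟨⟨ess ev2 l2 (by omega), ess ev3 l3 (by omega)⟩, Or.inr ⟨by omega, by omega⟩⟩
    · have g4 := big ev4 l4
      left
      exact ⟨⟨ess ev1 l1 (by omega), ess ev4 l4 (by omega)⟩, Or.inr ⟨by omega, by omega⟩⟩

end MG

end Pool.Agent.MP_57dfd7_co
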