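import Pool.Agent.MP_57dfd7_co.T5a

/-! T5, part b: nested families of circuits. -/

namespace Pool.Agent.MP_57dfd7_co

namespace MG

variable {V E : Type} {M : MG V E}

/-- `C` and `D` bound disjoint regions -/
def Nested (M : MG V E) (C D : Finset E) : Prop :=
  ∃ A B : V → E → Prop, M.Bd A C ∧ M.Bd B D ∧ ∀ v e, M.inc v e → ¬ (A v e ∧ B v e)

lemma Nested.symm {C D : Finset E} (h : M.Nested C D) : M.Nested D C := by
  obtain ⟨A, B, h1, h2, h3⟩ := h
  exact ⟨B, A, h2, h1, fun v e he h => h3 v e he ⟨h.2, h.1⟩⟩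

lemma nested_iff (cub : M.Cubic) (conn : M.Conn) (h1 : M.H1) {A B : V → E → Prop}
    {C D : Finset E} (hA : M.Bd A C) (hB : M.Bd B D) :
    M.Nested C D ↔ ((∀ v e, M.inc v e → ¬ (A v e ∧ B v e)) ∨
      (∀ v e, M.inc v e → ¬ (A v e ∧ ¬ B v e)) ∨
      (∀ v e, M.inc v e → ¬ (¬ A v e ∧ B v e)) ∨
      (∀ v e, M.inc v e → ¬ (¬ A v e ∧ ¬ B v e))) := by
  constructor
  · rintro ⟨A', B', hA', hB', h⟩
    rcases Bd.unique cub conn h1 hA hA' with ha | ha <;>
      rcases Bd.unique cub conn h1 hB hB' with hb | hb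
    · left
      intro v e he
      rw [ha v e he, hb v e he]
      exact h v e he
    · right; left
      intro v e he
      rw [ha v e he, hb v e he, not_not]
      exact h v e he
    · right; right; left
      intro v e he
      rw [ha v e he, hb v e he, not_not]
      exact h v e he
    · right; right; right
      intro v e he
      rw [ha v e he, hb v e he, not_not, not_not]
      exact h v e he
  · rintro (h | h | h | h)
    · exact ⟨A, B, hA, hB, h⟩
    · exact ⟨A, _, hA, hB.not cub h1, h⟩
    · exact ⟨_, B, hA.not cub h1, hB, h⟩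
    · exact ⟨_, _, hA.not cub h1, hB.not cub h1, h⟩

/-- corners at a vertex outside `C` agree -/
lemma Bd.agree (cub : M.Cubic) (h1 : M.H1) {A : V → E → Prop} {C : Finset E} (hA : M.Bd A C)
    {v : V} (hv : v ∉ M.verts C) {e e' : E} (he : M.inc v e) (he' : M.inc v e') :
    A v e ↔ A v e' := by
  obtain ⟨b, c, ht⟩ := cub.tri' he
  have hb : b ∉ C := fun h => hv ⟨b, h, ht.inc2⟩
  have hc : c ∉ C := fun h => hv ⟨c, h, ht.inc3⟩
  rw [← hA.2, bd_iff cub h1 hA.1 ht.rot] at hb
  rw [← hA.2, bd_iff cub h1 hA.1 ht.rot.rot] at hc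
  rcases (ht.2.2.2 e').1 he' with rfl | rfl | rfl <;> tauto

/-- a region bounded by a circuit is constant on the vertices of a disjoint circuit -/
lemma const_on_disjoint (cub : M.Cubic) (h1 : M.H1) {A : V → E → Prop} {C D : Finset E}
    (hA : M.Bd A C) (hD : M.IsCircuit D) (hdis : ∀ v ∈ M.verts D, v ∉ M.verts C) :
    (∀ v ∈ M.verts D, ∀ e, M.inc v e → A v e) ∨ (∀ v ∈ M.verts D, ∀ e, M.inc v e → ¬ A v e) := by
  set X : Set V := {v | v ∈ M.verts D ∧ ∀ e, M.inc v e → A v e} with hX
  have hcut : ∀ f ∈ D, f ∉ M.cut X := by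
    rintro f hf ⟨v, w, hv, hw, hvX, hwX⟩
    have hwD : w ∈ M.verts D := ⟨f, hf, hw⟩
    have hne : v ≠ w := by rintro rfl; exact hwX hvX
    obtain ⟨b, c, ht⟩ := cub.tri' hv
    obtain ⟨g, hg⟩ := h1 v w f b hne hv hw ht.inc2 ht.1.symm
    have hgi := hg.2.2.2.2.2.1
    have : A w g := (hA.1 _ _ _ _ _ hg).1 (hvX.2 b ht.inc2)
    apply hwX
    refine ⟨hwD, fun e he => ?_⟩
    exact (hA.agree cub h1 (hdis w hwD) hgi he).1 this
  rcases hD.subset_or M hcut with h | h
  · left
    intro v hv e he
    exact (h hv).2 e he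
  · right
    intro v hv e he hAe
    apply h v hv
    exact ⟨hv, fun e' he' => (hA.agree cub h1 (hdis v hv) he he').1 hAe⟩

/-- vertex-disjoint circuits are nested -/
lemma nested_of_disjoint (cub : M.Cubic) (conn : M.Conn) (h1 : M.H1) (h3 : M.H3)
    {C D : Finset E} (hC : M.IsCircuit C) (hD : M.IsCircuit D)
    (hdis : ∀ v ∈ M.verts D, v ∉ M.verts C) : M.Nested C D := by
  classical
  obtain ⟨A0, hA0⟩ := h3 C hC
  obtain ⟨B0, hB0⟩ := h3 D hD
  have hA0 : M.Bd A0 C := hA0
  have hB0 : M.Bd B0 D := hB0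
  obtain ⟨A, hA, hAD⟩ : ∃ A, M.Bd A C ∧ ∀ v ∈ M.verts D, ∀ e, M.inc v e → ¬ A v e := by
    rcases const_on_disjoint cub h1 hA0 hD hdis with h | h
    · exact ⟨_, hA0.not cub h1, fun v hv e he hn => hn (h v hv e he)⟩
    · exact ⟨A0, hA0, h⟩
  obtain ⟨B, hB, hBC⟩ : ∃ B, M.Bd B D ∧ ∀ v ∈ M.verts C, ∀ e, M.inc v e → ¬ B v e := by
    rcases const_on_disjoint cub h1 hB0 hC (fun v hv hv' => hdis v hv' hv) with h | h
    · exact ⟨_, hB0.not cub h1, fun v hv e he hn => hn (h v hv e he)⟩
    · exact ⟨B0, hB0, h⟩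
  have hbd : M.Bd (fun v e => A v e ∧ B v e) ∅ := by
    refine ⟨hA.1.and hB.1, fun f => ?_⟩
    simp only [Finset.notMem_empty, iff_false]
    intro hf
    obtain ⟨u, v, _, hu, _, _⟩ := M.exists_ends f
    obtain ⟨b, c, ht⟩ := cub.tri' hu
    have hf' := (bd_iff cub h1 (hA.1.and hB.1) ht).1 hf
    by_cases hfC : f ∈ C
    · have huC : u ∈ M.verts C := ⟨f, hfC, hu⟩
      have := hBC u huC b ht.inc2
      have := hBC u huC c ht.inc3
      tauto
    by_cases hfD : f ∈ D
    · have huD : u ∈ M.verts D := ⟨f, hfD, hu⟩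
      have := hAD u huD b ht.inc2
      have := hAD u huD c ht.inc3
      tauto
    rw [← hA.2, bd_iff cub h1 hA.1 ht] at hfC
    rw [← hB.2, bd_iff cub h1 hB.1 ht] at hfD
    tauto
  rcases region_const cub conn h1 hbd with h | h
  · exfalso
    obtain ⟨e, he⟩ := hD.2.1
    obtain ⟨u, v, _, hu, _, _⟩ := M.exists_ends e
    exact hAD u ⟨e, he, hu⟩ e hu (h u e hu).1
  · exact ⟨A, B, hA, hB, h⟩

/-! ### finiteness -/

/-- balls of edges -/
def ball (M : MG V E) (v : V) : ℕ → Set E
  | 0 => {e | M.inc v e}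
  | k + 1 => {e | ∃ e' ∈ ball M v k, ∃ u, M.inc u e' ∧ M.inc u e}

lemma Cubic.finite_at (cub : M.Cubic) (v : V) : {e | M.inc v e}.Finite := by
  apply Set.finite_of_encard_le_coe (k := 3)
  rw [cub v]
  norm_num

lemma finite_ball (cub : M.Cubic) (v : V) (k : ℕ) : (ball M v k).Finite := by
  induction k with
  | zero => exact cub.finite_at v
  | succ k ih =>
    have : ball M v (k + 1) ⊆ ⋃ e' ∈ ball M v k, ⋃ u ∈ {u | M.inc u e'}, {e | M.inc u e} := by
      rintro e ⟨e', he', u, hu, hu'⟩
      simp only [Set.mem_iUnion]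
      exact ⟨e', he', u, hu, hu'⟩
    refine Set.Finite.subset ?_ this
    refine ih.biUnion (fun e' _ => ?_)
    refine Set.Finite.biUnion ?_ (fun u _ => cub.finite_at u)
    obtain ⟨a, b, _, h⟩ := M.two e'
    refine Set.Finite.subset (Set.toFinite {a, b}) ?_
    intro u hu
    exact (h u).1 hu

lemma ball_succ {v : V} {k : ℕ} {e : E} (he : e ∈ ball M v k) : e ∈ ball M v (k + 1) := by
  obtain ⟨a, b, _, ha, _, _⟩ := M.exists_ends e
  exact ⟨e, he, a, ha, ha⟩

open Classical in
lemma circuit_subset_ball {C : Finset E} (hC : M.IsCircuit C) {v : V} (hv : v ∈ M.verts C)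
    (k : ℕ) : (∀ e ∈ C, e ∈ ball M v k) ∨ k + 1 ≤ (C.filter (fun e => e ∈ ball M v k)).card := by
  induction k with
  | zero =>
    right
    obtain ⟨e, he, hinc⟩ := hv
    rw [zero_add, Nat.one_le_iff_ne_zero, ← Nat.pos_iff_ne_zero, Finset.card_pos]
    exact ⟨e, Finset.mem_filter.2 ⟨he, hinc⟩⟩
  | succ k ih =>
    rcases ih with ih | ih
    · left
      intro e he
      exact ball_succ (ih e he)
    · by_cases hall : ∀ e ∈ C, e ∈ ball M v k
      · left
        intro e he
        exact ball_succ (hall e he)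
      right
      have hsub : C.filter (fun e => e ∈ ball M v k) ⊆ C.filter (fun e => e ∈ ball M v (k + 1)) := by
        intro e he
        rw [Finset.mem_filter] at he ⊢
        exact ⟨he.1, ball_succ he.2⟩
      have hne : C.filter (fun e => e ∈ ball M v k) ≠ C.filter (fun e => e ∈ ball M v (k + 1)) := by
        intro heq
        set X : Set V := M.verts (C.filter (fun e => e ∈ ball M v k)) with hX
        have key : ∀ e ∈ C, ∀ u, M.inc u e → u ∈ X → e ∈ C.filter (fun e => e ∈ ball M v k) := by
          rintro e he u hu ⟨e', he', hu'⟩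
          rw [heq, Finset.mem_filter]
          rw [Finset.mem_filter] at he'
          exact ⟨he, e', he'.2, u, hu', hu⟩
        have hcut : ∀ e ∈ C, e ∉ M.cut X := by
          rintro e he ⟨u, w, hu, hw, huX, hwX⟩
          exact hwX ⟨e, key e he u hu huX, hw⟩
        obtain ⟨e0, he0, hinc0⟩ := hv
        have h0 : e0 ∈ C.filter (fun e => e ∈ ball M v k) := by
          rw [Finset.mem_filter]
          refine ⟨he0, ?_⟩
          clear ih hall hsub heq hX key hcut
          clear X
          induction k with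
          | zero => exact hinc0
          | succ k ih => exact ball_succ ih
        rcases hC.subset_or M hcut with h | h
        · apply hall
          intro e he
          obtain ⟨a, b, _, ha, _, _⟩ := M.exists_ends e
          exact (Finset.mem_filter.1 (key e he a ha (h ⟨e, he, ha⟩))).2
        · exact h v ⟨e0, he0, hinc0⟩ ⟨e0, h0, hinc0⟩
      have := Finset.card_lt_card (Finset.ssubset_iff_subset_ne.2 ⟨hsub, hne⟩)
      omega

lemma finite_circuits (cub : M.Cubic) (v : V) (n : ℕ) :
    {C : Finset E | M.IsCircuit C ∧ C.card ≤ n ∧ v ∈ M.verts C}.Finite := by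
  classical
  refine Set.Finite.subset ((finite_ball cub v n).toFinset.powerset.finite_toSet) ?_
  rintro C ⟨hC, hn, hv⟩
  rw [Finset.mem_coe, Finset.mem_powerset]
  intro e he
  rw [Set.Finite.mem_toFinset]
  rcases circuit_subset_ball hC hv n with h | h
  · exact h e he
  · have := Finset.card_filter_le C (fun e => e ∈ ball M v n)
    omega

lemma finite_verts (C : Finset E) : (M.verts C).Finite := by
  have : M.verts C = ⋃ e ∈ (C : Set E), {v | M.inc v e} := by
    ext v
    simp [verts]
  rw [this]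
  refine C.finite_toSet.biUnion (fun e _ => ?_)
  obtain ⟨a, b, _, h⟩ := M.two e
  refine Set.Finite.subset (Set.toFinite {a, b}) ?_
  intro u hu
  exact (h u).1 hu

/-- essential circuits of size at most `n` crossing `C` -/
def Cr (M : MG V E) (n : ℕ) (C : Finset E) : Set (Finset E) :=
  {D | M.Essential D ∧ D.card ≤ n ∧ ¬ M.Nested C D}

lemma finite_Cr (cub : M.Cubic) (conn : M.Conn) (h1 : M.H1) (h3 : M.H3) (n : ℕ)
    {C : Finset E} (hC : M.IsCircuit C) : (M.Cr n C).Finite := by
  refine Set.Finite.subset ((finite_verts (M := M) C).biUnion (fun v _ => finite_circuits cub v n)) ?_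
  rintro D ⟨hD, hn, hcr⟩
  have : ∃ v ∈ M.verts C, v ∈ M.verts D := by
    by_contra hcon
    push Not at hcon
    exact hcr (nested_of_disjoint cub conn h1 h3 hC hD.circuit (fun v hv hv' => hcon v hv' hv))
  obtain ⟨v, hv, hv'⟩ := this
  simp only [Set.mem_iUnion]
  exact ⟨v, hv, hD.circuit, hn, hv'⟩

/-- crossing number -/
noncomputable def mu (M : MG V E) (n : ℕ) (C : Finset E) : ℕ := (M.Cr n C).ncard

/-- strict decrease of crossing numbers under uncrossing -/
lemma mu_uncross (cub : M.Cubic) (conn : M.Conn) (h1 : M.H1) (h3 : M.H3) (n : ℕ)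
    {A B : V → E → Prop} {C D c1 c4 : Finset E} (hA : M.Bd A C) (hB : M.Bd B D)
    (hC : M.Essential C) (hD : M.Essential D) (hCn : C.card ≤ n)
    (hcr : ¬ M.Nested C D) (b1 : M.Bd (fun v e => A v e ∧ B v e) c1)
    (b4 : M.Bd (fun v e => ¬ A v e ∧ ¬ B v e) c4) :
    M.mu n c1 + M.mu n c4 < M.mu n C + M.mu n D := by
  classical
  have hcr' := hcr
  rw [nested_iff cub conn h1 hA hB] at hcr
  push Not at hcr
  obtain ⟨⟨v1, e1, i1, p1, q1⟩, ⟨v2, e2, i2, p2, q2⟩, ⟨v3, e3, i3, p3, q3⟩,
    ⟨v4, e4, i4, p4, q4⟩⟩ := hcr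
  have both : ∀ F D', M.Bd F D' → M.Nested C D' → M.Nested D D' →
      M.Nested c1 D' ∧ M.Nested c4 D' := by
    intro F D' hF hC' hD'
    rw [nested_iff cub conn h1 hA hF] at hC'
    rw [nested_iff cub conn h1 hB hF] at hD'
    rw [nested_iff cub conn h1 b1 hF, nested_iff cub conn h1 b4 hF]
    constructor
    · rcases hC' with h | h | h | h
      · left; intro v e he; have := h v e he; tauto
      · right; left; intro v e he; have := h v e he; tauto
      · rcases hD' with h' | h' | h' | h'
        · left; intro v e he; have := h' v e he; tauto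
        · right; left; intro v e he; have := h' v e he; tauto
        · right; right; left; intro v e he; have := h v e he; have := h' v e he; tauto
        · exfalso
          have := h v4 e4 i4; have := h' v4 e4 i4; tauto
      · rcases hD' with h' | h' | h' | h'
        · left; intro v e he; have := h' v e he; tauto
        · right; left; intro v e he; have := h' v e he; tauto
        · exfalso
          have := h v4 e4 i4; have := h' v4 e4 i4; tauto
        · right; right; right; intro v e he; have := h v e he; have := h' v e he; tauto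
    · rcases hC' with h | h | h | h
      · rcases hD' with h' | h' | h' | h'
        · right; right; left; intro v e he; have := h v e he; have := h' v e he; tauto
        · exfalso
          have := h v1 e1 i1; have := h' v1 e1 i1; tauto
        · left; intro v e he; have := h' v e he; tauto
        · right; left; intro v e he; have := h' v e he; tauto
      · rcases hD' with h' | h' | h' | h'
        · exfalso
          have := h v1 e1 i1; have := h' v1 e1 i1; tauto
        · right; right; right; intro v e he; have := h v e he; have := h' v e he; tauto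
        · left; intro v e he; have := h' v e he; tauto
        · right; left; intro v e he; have := h' v e he; tauto
      · left; intro v e he; have := h v e he; tauto
      · right; left; intro v e he; have := h v e he; tauto
  have one : ∀ F D', M.Bd F D' → (M.Nested C D' ∨ M.Nested D D') →
      (M.Nested c1 D' ∨ M.Nested c4 D') := by
    intro F D' hF h
    rw [nested_iff cub conn h1 b1 hF, nested_iff cub conn h1 b4 hF]
    rcases h with h | h
    · rw [nested_iff cub conn h1 hA hF] at h
      rcases h with h | h | h | h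
      · left; left; intro v e he; have := h v e he; tauto
      · left; right; left; intro v e he; have := h v e he; tauto
      · right; left; intro v e he; have := h v e he; tauto
      · right; right; left; intro v e he; have := h v e he; tauto
    · rw [nested_iff cub conn h1 hB hF] at h
      rcases h with h | h | h | h
      · left; left; intro v e he; have := h v e he; tauto
      · left; right; left; intro v e he; have := h v e he; tauto
      · right; left; intro v e he; have := h v e he; tauto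
      · right; right; left; intro v e he; have := h v e he; tauto
  have fC := finite_Cr cub conn h1 h3 n hC.circuit
  have fD := finite_Cr cub conn h1 h3 n hD.circuit
  have reg : ∀ D', M.Essential D' → ∃ F, M.Bd F D' := fun D' h => h3 D' h.circuit
  have hun : M.Cr n c1 ∪ M.Cr n c4 ⊆ M.Cr n C ∪ M.Cr n D := by
    intro D' hD'
    by_contra hcon
    rw [Set.mem_union, not_or] at hcon
    have hD'1 : M.Essential D' ∧ D'.card ≤ n := by
      rcases hD' with h | h <;> exact ⟨h.1, h.2.1⟩
    obtain ⟨F, hF⟩ := reg D' hD'1.1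
    have hc1 : M.Nested C D' := by
      by_contra h
      exact hcon.1 ⟨hD'1.1, hD'1.2, h⟩
    have hc2 : M.Nested D D' := by
      by_contra h
      exact hcon.2 ⟨hD'1.1, hD'1.2, h⟩
    have := both F D' hF hc1 hc2
    rcases hD' with h | h
    · exact h.2.2 this.1
    · exact h.2.2 this.2
  have hin : M.Cr n c1 ∩ M.Cr n c4 ⊆ M.Cr n C ∩ M.Cr n D := by
    rintro D' ⟨h, h'⟩
    obtain ⟨F, hF⟩ := reg D' h.1
    refine ⟨⟨h.1, h.2.1, fun hn => ?_⟩, ⟨h.1, h.2.1, fun hn => ?_⟩⟩
    · rcases one F D' hF (Or.inl hn) with hh | hh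
      · exact h.2.2 hh
      · exact h'.2.2 hh
    · rcases one F D' hF (Or.inr hn) with hh | hh
      · exact h.2.2 hh
      · exact h'.2.2 hh
  -- `C` itself witnesses strictness
  have hCmem : C ∈ M.Cr n C ∪ M.Cr n D := Or.inr ⟨hC, hCn, fun h => hcr' h.symm⟩
  have hCnot : C ∉ M.Cr n c1 ∪ M.Cr n c4 := by
    rintro (h | h)
    · apply h.2.2
      rw [nested_iff cub conn h1 b1 hA]
      right; left; intro v e he; tauto
    · apply h.2.2
      rw [nested_iff cub conn h1 b4 hA]
      left; intro v e he; tauto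
  have fin : (M.Cr n C ∪ M.Cr n D).Finite := fC.union fD
  have f14 : (M.Cr n c1 ∪ M.Cr n c4).Finite := fin.subset hun
  have f1 : (M.Cr n c1).Finite := f14.subset Set.subset_union_left
  have f4 : (M.Cr n c4).Finite := f14.subset Set.subset_union_right
  have e1' := Set.ncard_union_add_ncard_inter (M.Cr n c1) (M.Cr n c4) f1 f4
  have e2' := Set.ncard_union_add_ncard_inter (M.Cr n C) (M.Cr n D) fC fD
  have lt : (M.Cr n c1 ∪ M.Cr n c4).ncard < (M.Cr n C ∪ M.Cr n D).ncard := by
    apply Set.ncard_lt_ncard _ fin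
    exact ⟨hun, fun h => hCnot (h hCmem)⟩
  have le : (M.Cr n c1 ∩ M.Cr n c4).ncard ≤ (M.Cr n C ∩ M.Cr n D).ncard :=
    Set.ncard_le_ncard hin (fC.inter_of_left _)
  unfold mu
  omega

/-- the optimally nested essential circuits -/
def Opt (M : MG V E) (n : ℕ) (C : Finset E) : Prop :=
  M.Essential C ∧ C.card ≤ n ∧ ∀ D, M.Essential D → D.card = C.card → M.mu n C ≤ M.mu n D

lemma exists_opt {n : ℕ} {D : Finset E} (hD : M.Essential D) (hn : D.card ≤ n) :
    ∃ C, M.Opt n C ∧ C.card = D.card := by
  classical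
  have hne : {m | ∃ C, M.Essential C ∧ C.card = D.card ∧ M.mu n C = m}.Nonempty :=
    ⟨_, D, hD, rfl, rfl⟩
  obtain ⟨C, hC, hcard, hmu⟩ := Nat.sInf_mem hne
  refine ⟨C, ⟨hC, by omega, fun D' hD' hc => ?_⟩, hcard⟩
  rw [hmu]
  exact Nat.sInf_le ⟨D', hD', by omega, rfl⟩

lemma opt_nested (cub : M.Cubic) (conn : M.Conn) (h1 : M.H1) (h3 : M.H3) {n : ℕ}
    {C D : Finset E} (hC : M.Opt n C) (hD : M.Opt n D) : M.Nested C D := by
  classical
  -- WLOG `C.card ≤ D.card`
  have main : ∀ C D : Finset E, M.Opt n C → M.Opt n D → C.card ≤ D.card → M.Nested C D := by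
    intro C D hC hD hCD
    by_contra hcr
    obtain ⟨A, hA⟩ := h3 C hC.1.circuit
    obtain ⟨B, hB⟩ := h3 D hD.1.circuit
    have hA : M.Bd A C := hA
    have hB : M.Bd B D := hB
    obtain ⟨c1, b1, _⟩ := Bd.exists_and cub h1 hA hB
    obtain ⟨c2, b2, _⟩ := Bd.exists_and cub h1 hA (hB.not cub h1)
    obtain ⟨c3, b3, _⟩ := Bd.exists_and cub h1 (hA.not cub h1) hB
    obtain ⟨c4, b4, _⟩ := Bd.exists_and cub h1 (hA.not cub h1) (hB.not cub h1)
    have m14 := mu_uncross cub conn h1 h3 n hA hB hC.1 hD.1 hC.2.1 hcr b1 b4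
    have m23 := mu_uncross cub conn h1 h3 n hA (hB.not cub h1) hC.1 hD.1 hC.2.1 hcr b2
      (b3.congr cub h1 (fun v e _ => by tauto))
    rcases uncross cub h1 hA hB hC.1 hD.1 hCD b1 b2 b3 b4 with
      ⟨⟨e1, e4⟩, h | h⟩ | ⟨⟨e2, e3⟩, h | h⟩
    · have := hC.2.2 c1 e1 h.1
      have := hD.2.2 c4 e4 h.2
      omega
    · have := hD.2.2 c1 e1 h.1
      have := hC.2.2 c4 e4 h.2
      omega
    · have := hC.2.2 c2 e2 h.1
      have := hD.2.2 c3 e3 h.2
      omega
    · have := hD.2.2 c2 e2 h.1
      have := hC.2.2 c3 e3 h.2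
      omega
  rcases le_total C.card D.card with h | h
  · exact main C D hC hD h
  · exact (main D C hD hC h).symm

end MG

end Pool.Agent.MP_57dfd7_co
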