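import Pool.Agent.MP_57dfd7_co.T5b

/-! T5, part c: separating vertices by members of a nested family. -/

namespace Pool.Agent.MP_57dfd7_co

namespace MG

variable {V E : Type} {M : MG V E}

/-- at least two of the three corners at `v` are in `U` -/
def Maj (M : MG V E) (U : V → E → Prop) (v : V) : Prop :=
  ∃ e e', M.inc v e ∧ M.inc v e' ∧ e ≠ e' ∧ U v e ∧ U v e'

lemma Tri.maj {v : V} {a b c : E} (h : M.Tri v a b c) (U : V → E → Prop) :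
    M.Maj U v ↔ ((U v a ∧ U v b) ∨ (U v a ∧ U v c) ∨ (U v b ∧ U v c)) := by
  constructor
  · rintro ⟨e, e', he, he', hne, hU, hU'⟩
    rcases (h.2.2.2 e).1 he with rfl | rfl | rfl <;> rcases (h.2.2.2 e').1 he' with rfl | rfl | rfl
    · exact absurd rfl hne
    · exact Or.inl ⟨hU, hU'⟩
    · exact Or.inr (Or.inl ⟨hU, hU'⟩)
    · exact Or.inl ⟨hU', hU⟩
    · exact absurd rfl hne
    · exact Or.inr (Or.inr ⟨hU, hU'⟩)
    · exact Or.inr (Or.inl ⟨hU', hU⟩)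
    · exact Or.inr (Or.inr ⟨hU', hU⟩)
    · exact absurd rfl hne
  · rintro (h' | h' | h')
    · exact ⟨a, b, h.inc1, h.inc2, h.1, h'.1, h'.2⟩
    · exact ⟨a, c, h.inc1, h.inc3, h.2.1, h'.1, h'.2⟩
    · exact ⟨b, c, h.inc2, h.inc3, h.2.2.1, h'.1, h'.2⟩

lemma maj_not (cub : M.Cubic) (U : V → E → Prop) (v : V) :
    M.Maj (fun v e => ¬ U v e) v ↔ ¬ M.Maj U v := by
  obtain ⟨a, b, c, ht⟩ := cub.tri v
  rw [ht.maj, ht.maj]
  tauto

lemma maj_congr {U W : V → E → Prop} (h : ∀ v e, M.inc v e → (U v e ↔ W v e)) (v : V) :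
    M.Maj U v ↔ M.Maj W v := by
  constructor
  · rintro ⟨e, e', he, he', hne, hU, hU'⟩
    exact ⟨e, e', he, he', hne, (h v e he).1 hU, (h v e' he').1 hU'⟩
  · rintro ⟨e, e', he, he', hne, hU, hU'⟩
    exact ⟨e, e', he, he', hne, (h v e he).2 hU, (h v e' he').2 hU'⟩

lemma maj_mono {U W : V → E → Prop} (h : ∀ v e, M.inc v e → U v e → W v e) {v : V}
    (hU : M.Maj U v) : M.Maj W v := by
  obtain ⟨e, e', he, he', hne, h1, h2⟩ := hU
  exact ⟨e, e', he, he', hne, h v e he h1, h v e' he' h2⟩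

/-- the majority is constant along edges outside the boundary -/
lemma Bd.maj_edge (cub : M.Cubic) (h1 : M.H1) {A : V → E → Prop} {C : Finset E}
    (hA : M.Bd A C) {v w : V} {f : E} (hne : v ≠ w) (hv : M.inc v f) (hw : M.inc w f)
    (hf : f ∉ C) : M.Maj A v ↔ M.Maj A w := by
  obtain ⟨b, c, ht⟩ := cub.tri' hv
  obtain ⟨g, hg⟩ := h1 v w f b hne hv hw ht.inc2 ht.1.symm
  have hgf : g ≠ f := hg.2.2.2.2.2.2.1
  have hgi : M.inc w g := hg.2.2.2.2.2.1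
  obtain ⟨x, y, hxy⟩ := cub.tri' hw
  obtain ⟨g', hg'⟩ : ∃ g', M.Tri w f g g' := by
    rcases (hxy.2.2.2 g).1 hgi with h | h | h
    · exact absurd h hgf
    · subst h; exact ⟨y, hxy⟩
    · subst h; exact ⟨x, hxy.rot.rot.swap⟩
  have r1 := hA.1 _ _ _ _ _ hg
  have hv' := hf
  rw [← hA.2, bd_iff cub h1 hA.1 ht] at hv'
  rw [← hA.2, bd_iff cub h1 hA.1 hg'] at hf
  rw [ht.maj, hg'.maj]
  tauto

/-- if some vertex has majority in `A` then so does some vertex of the circuit -/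
lemma exists_maj_on (cub : M.Cubic) (conn : M.Conn) (h1 : M.H1) {A : V → E → Prop}
    {C : Finset E} (hA : M.Bd A C) (hC : M.IsCircuit C) (h : ∃ u, M.Maj A u) :
    ∃ v ∈ M.verts C, M.Maj A v := by
  by_contra hcon
  push Not at hcon
  set X : Set V := {u | M.Maj A u} with hX
  have hne : Xᶜ.Nonempty := by
    obtain ⟨e, he⟩ := hC.2.1
    obtain ⟨u, v, _, hu, _, _⟩ := M.exists_ends e
    exact ⟨u, hcon u ⟨e, he, hu⟩⟩
  obtain ⟨f, u, w, hu, hw, huX, hwX⟩ := conn X h hne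
  have hne' : u ≠ w := by rintro rfl; exact hwX huX
  by_cases hf : f ∈ C
  · exact hcon u ⟨f, hf, hu⟩ huX
  · exact hwX ((hA.maj_edge cub h1 hne' hu hw hf).1 huX)

lemma diverge_aux (a1 a2 b1 b2 c1 c2 : Prop) (e1 : c1 ↔ ¬ (a1 ↔ b1)) (e2 : c2 ↔ ¬ (a2 ↔ b2))
    (hx : ¬ ((c1 ∧ c2) ↔ ¬ ((a1 ∧ a2) ↔ (b1 ∧ b2)))) :
    (a1 ∧ a2 ∧ b1 ∧ ¬ b2 ∧ c2 ∧ ¬ c1) ∨ (a1 ∧ a2 ∧ c1 ∧ ¬ c2 ∧ b2 ∧ ¬ b1) ∨
    (b1 ∧ b2 ∧ a1 ∧ ¬ a2 ∧ c2 ∧ ¬ c1) ∨ (b1 ∧ b2 ∧ c1 ∧ ¬ c2 ∧ a2 ∧ ¬ a1) ∨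
    (c1 ∧ c2 ∧ a1 ∧ ¬ a2 ∧ b2 ∧ ¬ b1) ∨ (c1 ∧ c2 ∧ b1 ∧ ¬ b2 ∧ a2 ∧ ¬ a1) := by
  by_cases h1 : a1 <;> by_cases h2 : a2 <;> by_cases h3 : b1 <;> by_cases h4 : b2 <;>
    simp [h1, h2, h3, h4] at e1 e2 hx ⊢ <;> simp_all

/-- two different circuits sharing an edge diverge somewhere -/
lemma exists_diverge (cub : M.Cubic) {C D : Finset E} (hC : M.IsCircuit C)
    (hD : M.IsCircuit D) (hne : C ≠ D) {f : E} (hf : f ∈ C) (hf' : f ∈ D) :
    ∃ x a b c, M.Tri x a b c ∧ a ∈ C ∧ a ∈ D ∧ b ∈ C ∧ b ∉ D ∧ c ∈ D ∧ c ∉ C := by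
  classical
  have hnot : ¬ M.IsEven (C ∩ D) := by
    intro hev
    have h1 := hC.2.2 _ Finset.inter_subset_left hev ⟨f, Finset.mem_inter.2 ⟨hf, hf'⟩⟩
    have h2 := hD.2.2 _ Finset.inter_subset_right hev ⟨f, Finset.mem_inter.2 ⟨hf, hf'⟩⟩
    exact hne (h1.symm.trans h2)
  rw [isEven_iff] at hnot
  push Not at hnot
  obtain ⟨x, hx⟩ := hnot
  obtain ⟨a, b, c, ht⟩ := cub.tri x
  rw [ne_eq, ht.par_eq_zero_iff] at hx
  simp only [Finset.mem_inter] at hx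
  rcases diverge_aux _ _ _ _ _ _ (ht.even hC.1) (ht.even hD.1) hx with
    h | h | h | h | h | h
  · exact ⟨x, a, b, c, ht, h⟩
  · exact ⟨x, a, c, b, ht.rot.rot.swap, h⟩
  · exact ⟨x, b, a, c, ht.swap, h⟩
  · exact ⟨x, b, c, a, ht.rot, h⟩
  · exact ⟨x, c, a, b, ht.rot.rot, h⟩
  · exact ⟨x, c, b, a, ht.rot.swap, h⟩

lemma side_aux (Ap Aq Ar Bp Bq : Prop) (s1 : ¬ (Aq ↔ Ar)) (s2 : ¬ (Ar ↔ Ap))
    (t3 : ¬ (Bp ↔ Bq)) (u1 : Bp → Ap) (u2 : Bq → Aq) : ¬ Ar ∧ Aq ∧ Ap := by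
  by_cases h : Ar
  · simp [h] at s1 s2
    simp [s1, s2] at u1 u2
    simp [u1, u2] at t3
  · simp [h] at s1 s2
    exact ⟨h, s1, s2⟩

lemma side_aux' (Ar Bp Bq Br : Prop) (t1 : ¬ (Bq ↔ Br)) (t2 : ¬ ¬ (Br ↔ Bp))
    (u3 : Br → Ar) (h : ¬ Ar) : ¬ Br ∧ Bq ∧ ¬ Bp := by
  have h3 : ¬ Br := fun hb => h (u3 hb)
  simp [h3] at t1 t2
  exact ⟨h3, t1, t2⟩

lemma side_aux2 (Aa Ab Ac : Prop) (r1 : ¬ (Ac ↔ Aa)) (r2 : ¬ (Aa ↔ Ab))
    (hm : (Aa ∧ Ab) ∨ (Aa ∧ Ac) ∨ (Ab ∧ Ac)) : ¬ Aa ∧ Ab ∧ Ac := by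
  by_cases h : Aa
  · simp [h] at r1 r2
    simp [r1, r2] at hm
  · simp [h] at r1 r2
    exact ⟨h, r2, r1⟩

/-- the side lemma -/
lemma side (cub : M.Cubic) (conn : M.Conn) (h1 : M.H1) (n : ℕ) (F : Set (Finset E))
    (hcirc : ∀ C ∈ F, M.IsCircuit C ∧ C.card ≤ n) (hnest : ∀ C ∈ F, ∀ D ∈ F, M.Nested C D)
    {C : Finset E} (hC : C ∈ F) {A : V → E → Prop} (hA : M.Bd A C) {v0 : V}
    (hv0 : v0 ∈ M.verts C) (hmaj : M.Maj A v0) :
    ∃ x, M.Maj A x ∧ ∀ D ∈ F, D ≠ C → ∀ B, M.Bd B D →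
      (∀ v e, M.inc v e → B v e → A v e) → ¬ M.Maj B x := by
  classical
  set K : Set (Finset E) := {D | D ∈ F ∧ D ≠ C ∧ ∃ B, M.Bd B D ∧
    (∀ v e, M.inc v e → B v e → A v e) ∧ M.Maj B v0} with hK
  by_cases hKe : K.Nonempty
  swap
  · refine ⟨v0, hmaj, fun D hD hne B hB hBA hm => hKe ⟨D, hD, hne, B, hB, hBA, hm⟩⟩
  -- at `v0`
  obtain ⟨a, b, c, ht, ha, hb, hc⟩ : ∃ a b c, M.Tri v0 a b c ∧ a ∉ C ∧ b ∈ C ∧ c ∈ C := by
    obtain ⟨a, b, c, ht⟩ := cub.tri v0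
    have e1 := ht.even (hcirc C hC).1.1
    rw [ht.mem_verts] at hv0
    clear hK hKe K
    by_cases a1 : a ∈ C <;> by_cases b1 : b ∈ C <;> by_cases c1 : c ∈ C
    · simp [a1, b1, c1] at e1
    · exact ⟨c, a, b, ht.rot.rot, c1, a1, b1⟩
    · exact ⟨b, c, a, ht.rot, b1, c1, a1⟩
    · simp [a1, b1, c1] at e1
    · exact ⟨a, b, c, ht, a1, b1, c1⟩
    · simp [a1, b1, c1] at e1
    · simp [a1, b1, c1] at e1
    · simp [a1, b1, c1] at hv0
  -- corners at v0 : `A v0 b`, `A v0 c` true, `A v0 a` false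
  have hAv : ¬ A v0 a ∧ A v0 b ∧ A v0 c := by
    have r1 := (hA.2 b).2 hb
    have r2 := (hA.2 c).2 hc
    rw [bd_iff cub h1 hA.1 ht.rot] at r1
    rw [bd_iff cub h1 hA.1 ht.rot.rot] at r2
    rw [ht.maj] at hmaj
    exact side_aux2 _ _ _ r1 r2 hmaj
  have hKb : ∀ D B, M.Bd B D → (∀ v e, M.inc v e → B v e → A v e) → M.Maj B v0 →
      b ∈ D ∧ c ∈ D ∧ B v0 b ∧ B v0 c := by
    intro D B hB hBA hm
    have hn : ¬ B v0 a := fun h => hAv.1 (hBA _ _ ht.inc1 h)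
    rw [ht.maj] at hm
    rw [← hB.2, ← hB.2, bd_iff cub h1 hB.1 ht.rot, bd_iff cub h1 hB.1 ht.rot.rot]
    clear hK hKe hnest hcirc hA hmaj hb hc ha
    simp only [hn, false_and, false_or] at hm
    exact ⟨by simp [hn, hm.2], by simp [hn, hm.1], hm.1, hm.2⟩
  have hKfin : K.Finite := by
    refine (finite_circuits cub v0 n).subset ?_
    rintro D ⟨hD, _, B, hB, hBA, hm⟩
    have := (hKb D B hB hBA hm).1
    exact ⟨(hcirc D hD).1, (hcirc D hD).2, ⟨b, this, ht.inc2⟩⟩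
  have hch : ∀ D : K, ∃ B, M.Bd B D ∧ (∀ v e, M.inc v e → B v e → A v e) ∧ M.Maj B v0 :=
    fun D => D.2.2.2
  choose reg hreg1 hreg2 hreg3 using hch
  let φ : Finset E → Set (V × E) := fun D => if h : D ∈ K then
    {p | M.inc p.1 p.2 ∧ reg ⟨D, h⟩ p.1 p.2} else ∅
  obtain ⟨D0, hD0⟩ := hKfin.exists_maximalFor φ K hKe
  obtain ⟨hD0K, hmax⟩ := hD0
  have hD0F : D0 ∈ F := hD0K.1
  have hD0C : D0 ≠ C := hD0K.2.1
  set B0 := reg ⟨D0, hD0K⟩ with hB0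
  have hB0bd : M.Bd B0 D0 := hreg1 ⟨D0, hD0K⟩
  have hB0A : ∀ v e, M.inc v e → B0 v e → A v e := hreg2 ⟨D0, hD0K⟩
  have hB0m : M.Maj B0 v0 := hreg3 ⟨D0, hD0K⟩
  have hφ0 : φ D0 = {p | M.inc p.1 p.2 ∧ B0 p.1 p.2} := by
    simp only [φ]
    rw [dif_pos hD0K]
  obtain ⟨x, p, q, r, htx, p1, p2, q1, q2, r1, r2⟩ :=
    exists_diverge cub (hcirc C hC).1 (hcirc D0 hD0F).1 (Ne.symm hD0C) hb
      (hKb D0 B0 hB0bd hB0A hB0m).1
  -- `C = {p, q}`, `D0 = {p, r}` at `x`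
  have hAx : ¬ A x r ∧ A x q ∧ A x p := by
    have s1 := (hA.2 p).2 p1
    have s2 := (hA.2 q).2 q1
    have t3 := (hB0bd.2 r).2 r1
    rw [bd_iff cub h1 hA.1 htx] at s1
    rw [bd_iff cub h1 hA.1 htx.rot] at s2
    rw [bd_iff cub h1 hB0bd.1 htx.rot.rot] at t3
    have u1 := hB0A x p htx.inc1
    have u2 := hB0A x q htx.inc2
    exact side_aux _ _ _ _ _ s1 s2 t3 u1 u2
  have hBx : ¬ B0 x r ∧ B0 x q ∧ ¬ B0 x p := by
    have t1 := (hB0bd.2 p).2 p2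
    have t2 : ¬ M.bd B0 q := fun h => q2 ((hB0bd.2 q).1 h)
    rw [bd_iff cub h1 hB0bd.1 htx] at t1
    rw [bd_iff cub h1 hB0bd.1 htx.rot] at t2
    have u3 := hB0A x r htx.inc3
    exact side_aux' _ _ _ _ t1 t2 u3 hAx.1
  refine ⟨x, ?_, ?_⟩
  · rw [htx.maj]; exact Or.inl ⟨hAx.2.2, hAx.2.1⟩
  · intro D hD hDC B hB hBA hm
    have hBr : ¬ B x r := fun h => hAx.1 (hBA _ _ htx.inc3 h)
    have hBpq : B x p ∧ B x q := by
      rw [htx.maj] at hm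
      simp only [hBr, and_false, or_false] at hm
      exact hm
    have hsub : ∀ v e, M.inc v e → B0 v e → B v e := by
      rcases (nested_iff cub conn h1 hB hB0bd).1 (hnest D hD D0 hD0F) with h | h | h | h
      · exact absurd ⟨hBpq.2, hBx.2.1⟩ (h x q htx.inc2)
      · exact absurd ⟨hBpq.1, hBx.2.2⟩ (h x p htx.inc1)
      · intro v e he hb
        by_contra hcon
        exact h v e he ⟨hcon, hb⟩
      · exact absurd ⟨hBr, hBx.1⟩ (h x r htx.inc3)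
    have hBm : M.Maj B v0 := maj_mono hsub hB0m
    have hDK : D ∈ K := ⟨hD, hDC, B, hB, hBA, hBm⟩
    -- the chosen region of `D` agrees with `B`
    have hagree : ∀ v e, M.inc v e → (B v e ↔ reg ⟨D, hDK⟩ v e) := by
      rcases Bd.unique cub conn h1 hB (hreg1 ⟨D, hDK⟩) with h | h
      · exact h
      · exfalso
        -- then `A` is everything
        have hall : ∀ v e, M.inc v e → A v e := by
          intro v e he
          by_cases hb : B v e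
          · exact hBA v e he hb
          · have := (h v e he).not.1 hb
            exact hreg2 ⟨D, hDK⟩ v e he (not_not.1 this)
        exact hAx.1 (hall x r htx.inc3)
    have hle : φ D0 ≤ φ D := by
      rw [hφ0]
      simp only [φ]
      rw [dif_pos hDK]
      rintro ⟨v, e⟩ ⟨he, hb⟩
      exact ⟨he, (hagree v e he).1 (hsub v e he hb)⟩
    have hge := hmax hDK hle
    have hmem : (x, p) ∈ φ D := by
      simp only [φ]
      rw [dif_pos hDK]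
      exact ⟨htx.inc1, (hagree x p htx.inc1).1 hBpq.1⟩
    have := hge hmem
    rw [hφ0] at this
    exact hBx.2.2 this.2

/-- `C` separates `v` from `w` -/
def Sep (M : MG V E) (C : Finset E) (v w : V) : Prop :=
  ∃ A, M.Bd A C ∧ M.Maj A v ∧ ¬ M.Maj A w

lemma sep_iff (cub : M.Cubic) (conn : M.Conn) (h1 : M.H1) {A : V → E → Prop} {C : Finset E}
    (hA : M.Bd A C) (v w : V) : M.Sep C v w ↔ ¬ (M.Maj A v ↔ M.Maj A w) := by
  constructor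
  · rintro ⟨A', hA', h, h'⟩
    rcases Bd.unique cub conn h1 hA hA' with ha | ha
    · rw [maj_congr ha v, maj_congr ha w]; tauto
    · rw [maj_congr ha v, maj_congr ha w, maj_not cub, maj_not cub]; tauto
  · intro h
    by_cases hv : M.Maj A v
    · exact ⟨A, hA, hv, by tauto⟩
    · refine ⟨_, hA.not cub h1, (maj_not cub A v).2 hv, ?_⟩
      rw [maj_not cub]
      tauto

/-- both sides are non-trivial -/
def NonFacial (M : MG V E) (C : Finset E) : Prop := ∃ v w, M.Sep C v w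

/-- in a nested family every non-facial member is the only one separating some pair -/
lemma exists_only_sep (cub : M.Cubic) (conn : M.Conn) (h1 : M.H1) (h3 : M.H3) (n : ℕ)
    (F : Set (Finset E))
    (hcirc : ∀ C ∈ F, M.IsCircuit C ∧ C.card ≤ n) (hnest : ∀ C ∈ F, ∀ D ∈ F, M.Nested C D)
    {C : Finset E} (hC : C ∈ F) (hnf : M.NonFacial C) :
    ∃ x y, M.Sep C x y ∧ ∀ D ∈ F, D ≠ C → ¬ M.Sep D x y := by
  obtain ⟨v, w, A, hA, hv, hw⟩ := hnf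
  have hCc := (hcirc C hC).1
  obtain ⟨v0, hv0, hm0⟩ := exists_maj_on cub conn h1 hA hCc ⟨v, hv⟩
  obtain ⟨w0, hw0, hm0'⟩ := exists_maj_on cub conn h1 (hA.not cub h1) hCc
    ⟨w, (maj_not cub A w).2 hw⟩
  obtain ⟨x, hx, hx'⟩ := side cub conn h1 n F hcirc hnest hC hA hv0 hm0
  obtain ⟨y, hy, hy'⟩ := side cub conn h1 n F hcirc hnest hC (hA.not cub h1) hw0 hm0'
  refine ⟨x, y, ⟨A, hA, hx, (maj_not cub A y).1 hy⟩, ?_⟩
  intro D hD hDC hsep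
  obtain ⟨B, hB⟩ := h3 D (hcirc D hD).1
  have hB : M.Bd B D := hB
  -- choose the region of `D` inside `A` or inside the complement of `A`
  have hcase : ∃ B, M.Bd B D ∧ ((∀ v e, M.inc v e → B v e → A v e) ∨
      (∀ v e, M.inc v e → B v e → ¬ A v e)) := by
    rcases (nested_iff cub conn h1 hA hB).1 (hnest C hC D hD) with h | h | h | h
    · exact ⟨B, hB, Or.inr (fun v e he hb ha => h v e he ⟨ha, hb⟩)⟩
    · exact ⟨_, hB.not cub h1, Or.inr (fun v e he hb ha => h v e he ⟨ha, hb⟩)⟩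
    · refine ⟨B, hB, Or.inl (fun v e he hb => ?_)⟩
      by_contra ha
      exact h v e he ⟨ha, hb⟩
    · refine ⟨_, hB.not cub h1, Or.inl (fun v e he hb => ?_)⟩
      by_contra ha
      exact h v e he ⟨ha, hb⟩
  obtain ⟨B, hB, hcase⟩ := hcase
  rw [sep_iff cub conn h1 hB] at hsep
  apply hsep
  rcases hcase with h | h
  · have hBx : ¬ M.Maj B x := hx' D hD hDC B hB h
    have hBy : ¬ M.Maj B y := by
      intro hm
      have h2 : M.Maj A y := maj_mono h hm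
      exact ((maj_not cub A y).1 hy) h2
    tauto
  · have hBy : ¬ M.Maj B y := hy' D hD hDC B hB h
    have hBx : ¬ M.Maj B x := by
      intro hm
      have h2 : M.Maj (fun v e => ¬ A v e) x := maj_mono h hm
      exact ((maj_not cub A x).1 h2) hx
    tauto

end MG

end Pool.Agent.MP_57dfd7_co
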