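import Pool.Agent.MP_57dfd7_co.T5c

/-! T5, part d: automorphisms and counting. -/

namespace Pool.Agent.MP_57dfd7_co

namespace MG

variable {V E : Type} {M : MG V E}

/-! ### automorphisms -/

/-- inverse automorphism -/
def Auto.symm (φ : M.Auto) : M.Auto where
  v := φ.v.symm
  e := φ.e.symm
  inc_iff := fun x f => by
    have := φ.inc_iff (φ.v.symm x) (φ.e.symm f)
    rw [Equiv.apply_symm_apply, Equiv.apply_symm_apply] at this
    exact this.symm

/-- action on edge sets -/
def Auto.act (φ : M.Auto) (z : Finset E) : Finset E := z.map φ.e.toEmbedding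

lemma Auto.mem_act (φ : M.Auto) {z : Finset E} {e : E} : e ∈ φ.act z ↔ φ.e.symm e ∈ z := by
  unfold Auto.act
  rw [Finset.mem_map_equiv]

lemma Auto.act_symm_act (φ : M.Auto) (z : Finset E) : φ.act (φ.symm.act z) = z := by
  ext e
  rw [φ.mem_act, φ.symm.mem_act]
  simp [Auto.symm]

lemma Auto.symm_act_act (φ : M.Auto) (z : Finset E) : φ.symm.act (φ.act z) = z := by
  ext e
  rw [φ.symm.mem_act, φ.mem_act]
  simp [Auto.symm]

lemma Auto.card_act (φ : M.Auto) (z : Finset E) : (φ.act z).card = z.card :=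
  Finset.card_map _

lemma Auto.inc_symm (φ : M.Auto) (x : V) (f : E) :
    M.inc (φ.v.symm x) (φ.e.symm f) ↔ M.inc x f := φ.symm.inc_iff x f

lemma Auto.deg_act (φ : M.Auto) (z : Finset E) (x : V) : M.deg (φ.act z) (φ.v x) = M.deg z x := by
  classical
  unfold deg Auto.act
  rw [Finset.filter_map, Finset.card_map]
  congr 1
  apply Finset.filter_congr
  intro e _
  exact φ.inc_iff x e

lemma Auto.even_act (φ : M.Auto) {z : Finset E} (hz : M.IsEven z) : M.IsEven (φ.act z) := by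
  intro v
  have := φ.deg_act z (φ.v.symm v)
  rw [Equiv.apply_symm_apply] at this
  rw [this]
  exact hz _

lemma Auto.gen_act (φ : M.Auto) {P Q : Finset E → Prop} (h : ∀ z, P z → Q (φ.act z))
    {z : Finset E} (hz : Gen P z) : Gen Q (φ.act z) := by
  induction hz with
  | zero => simpa [Auto.act] using (Gen.zero : Gen Q ∅)
  | @add a b t h1 _ h3 ih =>
    refine Gen.add (h _ h1) ih (fun e => ?_)
    rw [φ.mem_act, φ.mem_act, φ.mem_act]
    exact h3 _

lemma Auto.essential_act (φ : M.Auto) {z : Finset E} (hz : M.Essential z) :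
    M.Essential (φ.act z) := by
  refine ⟨φ.even_act hz.1, fun h => hz.2 ?_⟩
  have := φ.symm.gen_act (Q := fun w => M.IsEven w ∧ w.card < z.card) (fun w hw => ?_) h
  · rwa [φ.symm_act_act] at this
  · refine ⟨φ.symm.even_act hw.1, ?_⟩
    rw [Auto.card_act]
    have := hw.2
    rwa [Auto.card_act] at this

lemma Auto.match_act (φ : M.Auto) {v w : V} {f e g : E} (h : M.Match v w f e g) :
    M.Match (φ.v v) (φ.v w) (φ.e f) (φ.e e) (φ.e g) := by
  obtain ⟨h1, h2, h3, h4, h5, h6, h7, C, D, h8, h9, h10, h11, h12⟩ := h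
  refine ⟨φ.v.injective.ne h1, (φ.inc_iff _ _).2 h2, (φ.inc_iff _ _).2 h3, (φ.inc_iff _ _).2 h4,
    φ.e.injective.ne h5, (φ.inc_iff _ _).2 h6, φ.e.injective.ne h7, φ.act C, φ.act D,
    φ.even_act h8, φ.even_act h9, ?_, ?_, ?_⟩
  · intro x
    rw [φ.mem_act, φ.mem_act, h10, Equiv.symm_apply_eq]
  · rw [φ.mem_act, Equiv.symm_apply_apply]; exact h11
  · rw [φ.mem_act, Equiv.symm_apply_apply]; exact h12

/-- action on corner sets -/
def Auto.reg (φ : M.Auto) (U : V → E → Prop) : V → E → Prop :=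
  fun v e => U (φ.v.symm v) (φ.e.symm e)

lemma Auto.region (φ : M.Auto) {U : V → E → Prop} (hU : M.IsRegion U) : M.IsRegion (φ.reg U) := by
  intro v w f e g h
  exact hU _ _ _ _ _ (φ.symm.match_act h)

lemma Auto.bd_reg (φ : M.Auto) {U : V → E → Prop} {f : E} :
    M.bd (φ.reg U) f ↔ M.bd U (φ.e.symm f) := by
  constructor
  · rintro ⟨v, e, e', h1, h2, h3, h4, h5, h6, h7⟩
    exact ⟨φ.v.symm v, φ.e.symm e, φ.e.symm e', (φ.inc_symm _ _).2 h1, (φ.inc_symm _ _).2 h2,
      (φ.inc_symm _ _).2 h3, φ.e.symm.injective.ne h4, φ.e.symm.injective.ne h5, h6, h7⟩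
  · rintro ⟨v, e, e', h1, h2, h3, h4, h5, h6, h7⟩
    refine ⟨φ.v v, φ.e e, φ.e e', ?_, (φ.inc_iff _ _).2 h2, (φ.inc_iff _ _).2 h3, ?_, ?_, ?_, ?_⟩
    · have := (φ.inc_iff v (φ.e.symm f)).2 h1
      rwa [Equiv.apply_symm_apply] at this
    · rintro rfl
      rw [Equiv.symm_apply_apply] at h4
      exact h4 rfl
    · rintro rfl
      rw [Equiv.symm_apply_apply] at h5
      exact h5 rfl
    · simpa [Auto.reg] using h6
    · simpa [Auto.reg] using h7

lemma Auto.bd_act (φ : M.Auto) {U : V → E → Prop} {z : Finset E} (h : M.Bd U z) :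
    M.Bd (φ.reg U) (φ.act z) := by
  refine ⟨φ.region h.1, fun f => ?_⟩
  rw [φ.bd_reg, φ.mem_act, h.2]

lemma Auto.maj_act (φ : M.Auto) {U : V → E → Prop} {v : V} :
    M.Maj (φ.reg U) (φ.v v) ↔ M.Maj U v := by
  constructor
  · rintro ⟨e, e', h1, h2, h3, h4, h5⟩
    refine ⟨φ.e.symm e, φ.e.symm e', ?_, ?_, φ.e.symm.injective.ne h3, ?_, ?_⟩
    · have := (φ.inc_symm _ _).2 h1
      rwa [Equiv.symm_apply_apply] at this
    · have := (φ.inc_symm _ _).2 h2
      rwa [Equiv.symm_apply_apply] at this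
    · simpa [Auto.reg] using h4
    · simpa [Auto.reg] using h5
  · rintro ⟨e, e', h1, h2, h3, h4, h5⟩
    refine ⟨φ.e e, φ.e e', (φ.inc_iff _ _).2 h1, (φ.inc_iff _ _).2 h2, φ.e.injective.ne h3, ?_, ?_⟩
    · simpa [Auto.reg] using h4
    · simpa [Auto.reg] using h5

lemma Auto.sep_act (φ : M.Auto) {C : Finset E} {v w : V} (h : M.Sep C v w) :
    M.Sep (φ.act C) (φ.v v) (φ.v w) := by
  obtain ⟨A, hA, h1, h2⟩ := h
  exact ⟨φ.reg A, φ.bd_act hA, φ.maj_act.2 h1, fun h => h2 (φ.maj_act.1 h)⟩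

lemma Auto.sep_iff (φ : M.Auto) {C : Finset E} {v w : V} :
    M.Sep (φ.act C) (φ.v v) (φ.v w) ↔ M.Sep C v w := by
  refine ⟨fun h => ?_, φ.sep_act⟩
  have := φ.symm.sep_act h
  rw [φ.symm_act_act] at this
  simpa [Auto.symm] using this

lemma Auto.nonFacial_act (φ : M.Auto) {C : Finset E} (h : M.NonFacial C) :
    M.NonFacial (φ.act C) := by
  obtain ⟨v, w, h⟩ := h
  exact ⟨_, _, φ.sep_act h⟩

lemma Auto.nested_act (φ : M.Auto) {C D : Finset E} (h : M.Nested C D) :
    M.Nested (φ.act C) (φ.act D) := by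
  obtain ⟨A, B, hA, hB, h⟩ := h
  exact ⟨φ.reg A, φ.reg B, φ.bd_act hA, φ.bd_act hB,
    fun v e he hab => h _ _ ((φ.inc_symm v e).2 he) hab⟩

lemma Auto.mu_act (φ : M.Auto) (n : ℕ) (C : Finset E) : M.mu n (φ.act C) = M.mu n C := by
  unfold mu
  have : M.Cr n (φ.act C) = φ.act '' M.Cr n C := by
    ext D
    constructor
    · rintro ⟨h1, h2, h3⟩
      refine ⟨φ.symm.act D, ⟨φ.symm.essential_act h1, ?_, fun hn => h3 ?_⟩, φ.act_symm_act D⟩
      · rw [Auto.card_act]; exact h2
      · have := φ.nested_act hn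
        rwa [φ.act_symm_act] at this
    · rintro ⟨D, ⟨h1, h2, h3⟩, rfl⟩
      refine ⟨φ.essential_act h1, ?_, fun hn => h3 ?_⟩
      · rw [Auto.card_act]; exact h2
      · have := φ.symm.nested_act hn
        rwa [φ.symm_act_act, φ.symm_act_act] at this
  rw [this, Set.ncard_image_of_injective]
  exact Function.LeftInverse.injective φ.symm_act_act

lemma Auto.opt_act (φ : M.Auto) {n : ℕ} {C : Finset E} (h : M.Opt n C) : M.Opt n (φ.act C) := by
  refine ⟨φ.essential_act h.1, by rw [Auto.card_act]; exact h.2.1, fun D hD hc => ?_⟩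
  rw [φ.mu_act]
  rw [Auto.card_act] at hc
  exact h.2.2 D hD hc

/-! ### counting -/

/-- a property of vertices that spreads along edges holds everywhere -/
lemma Conn.forall (conn : M.Conn) {P : V → Prop} {v0 : V} (h0 : P v0)
    (h : ∀ v w f, v ≠ w → M.inc v f → M.inc w f → P v → P w) : ∀ v, P v := by
  by_contra hcon
  push Not at hcon
  obtain ⟨w, hw⟩ := hcon
  obtain ⟨f, u, x, hu, hx, huX, hxX⟩ := conn {v | P v} ⟨v0, h0⟩ ⟨w, hw⟩
  have hne : u ≠ x := by rintro rfl; exact hxX huX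
  exact hxX (h u x f hne hu hx huX)

/-- the non-facial members of size `p` of the nested family -/
def Fam (M : MG V E) (n p : ℕ) : Set (Finset E) := {C | M.Opt n C ∧ M.NonFacial C ∧ C.card = p}

lemma Auto.fam_act (φ : M.Auto) {n p : ℕ} {C : Finset E} (h : C ∈ M.Fam n p) :
    φ.act C ∈ M.Fam n p :=
  ⟨φ.opt_act h.1, φ.nonFacial_act h.2.1, by rw [Auto.card_act]; exact h.2.2⟩

lemma Auto.fam_iff (φ : M.Auto) {n p : ℕ} {C : Finset E} :
    φ.act C ∈ M.Fam n p ↔ C ∈ M.Fam n p := by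
  refine ⟨fun h => ?_, φ.fam_act⟩
  have := φ.symm.fam_act h
  rwa [φ.symm_act_act] at this

open Classical in
/-- indicator -/
noncomputable def sepInd (M : MG V E) (n p : ℕ) (v w : V) (C : Finset E) : ZMod 2 :=
  if C ∈ M.Fam n p ∧ M.Sep C v w then 1 else 0

/-- number (mod 2) of the members of the family separating `v` from `w` -/
noncomputable def sepNum (M : MG V E) (n p : ℕ) (v w : V) : ZMod 2 :=
  ∑ᶠ C, M.sepInd n p v w C

lemma sepInd_add (cub : M.Cubic) (conn : M.Conn) (h1 : M.H1) (h3 : M.H3) (n p : ℕ)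
    (u v w : V) (C : Finset E) :
    M.sepInd n p u w C = M.sepInd n p u v C + M.sepInd n p v w C := by
  unfold sepInd
  by_cases hC : C ∈ M.Fam n p
  · obtain ⟨A, hA⟩ := h3 C hC.1.1.circuit
    have hA : M.Bd A C := hA
    rw [MG.sep_iff cub conn h1 hA, MG.sep_iff cub conn h1 hA, MG.sep_iff cub conn h1 hA]
    by_cases a : M.Maj A u <;> by_cases b : M.Maj A v <;> by_cases c : M.Maj A w <;>
      simp only [hC, a, b, c, true_and, iff_true, iff_false, not_true,
        not_false_iff, if_true, if_false] <;> decide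
  · simp [hC]

lemma finite_sepInd (cub : M.Cubic) (conn : M.Conn) (h1 : M.H1) (h3 : M.H3) (n p : ℕ)
    (u v : V) : (Function.support (M.sepInd n p u v)).Finite := by
  classical
  refine conn.forall (P := fun v => (Function.support (M.sepInd n p u v)).Finite) (v0 := u) ?_ ?_ v
  · have : Function.support (M.sepInd n p u u) = ∅ := by
      ext C
      simp only [Function.mem_support, Set.mem_empty_iff_false, iff_false, not_not]
      unfold sepInd
      rw [if_neg]
      rintro ⟨_, A, _, h, h'⟩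
      exact h' h
    rw [this]
    exact Set.finite_empty
  · intro v w f hne hv hw hfin
    have hsub : Function.support (M.sepInd n p u w) ⊆
        Function.support (M.sepInd n p u v) ∪
          {C : Finset E | M.IsCircuit C ∧ C.card ≤ n ∧ v ∈ M.verts C} := by
      intro C hC
      by_contra hcon
      rw [Set.mem_union, not_or, Function.notMem_support] at hcon
      rw [Function.mem_support, sepInd_add cub conn h1 h3 n p u v w C, hcon.1, zero_add] at hC
      unfold sepInd at hC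
      have hC' : C ∈ M.Fam n p ∧ M.Sep C v w := by
        by_contra h
        exact hC (if_neg h)
      apply hcon.2
      refine ⟨hC'.1.1.1.circuit, hC'.1.1.2.1, ?_⟩
      by_contra hvC
      have hfC : f ∉ C := fun h => hvC ⟨f, h, hv⟩
      obtain ⟨A, hA, h, h'⟩ := hC'.2
      exact h' ((hA.maj_edge cub h1 hne hv hw hfC).1 h)
    exact (hfin.union (finite_circuits cub v n)).subset hsub

lemma sepNum_add (cub : M.Cubic) (conn : M.Conn) (h1 : M.H1) (h3 : M.H3) (n p : ℕ)
    (u v w : V) : M.sepNum n p u w = M.sepNum n p u v + M.sepNum n p v w := by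
  unfold sepNum
  rw [← finsum_add_distrib (finite_sepInd cub conn h1 h3 n p u v)
    (finite_sepInd cub conn h1 h3 n p v w)]
  exact finsum_congr (sepInd_add cub conn h1 h3 n p u v w)

lemma Auto.sepNum (φ : M.Auto) (n p : ℕ) (u v : V) :
    M.sepNum n p (φ.v u) (φ.v v) = M.sepNum n p u v := by
  unfold MG.sepNum
  let f : Finset E ≃ Finset E := ⟨φ.act, φ.symm.act, φ.symm_act_act, φ.act_symm_act⟩
  rw [← finsum_comp_equiv f]
  apply finsum_congr
  intro C
  unfold sepInd
  have : (f C ∈ M.Fam n p ∧ M.Sep (f C) (φ.v u) (φ.v v)) ↔ (C ∈ M.Fam n p ∧ M.Sep C u v) :=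
    and_congr φ.fam_iff φ.sep_iff
  by_cases h : C ∈ M.Fam n p ∧ M.Sep C u v
  · rw [if_pos h, if_pos (this.2 h)]
  · rw [if_neg h, if_neg (fun h' => h (this.1 h'))]

end MG

end Pool.Agent.MP_57dfd7_co
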