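import Pool.Agent.MP_57dfd7_co.T5d

/-! T5, part e: essential circuits have bounded size. -/

namespace Pool.Agent.MP_57dfd7_co

namespace MG

variable {V E : Type} {M : MG V E}

lemma sepNum_self (cub : M.Cubic) (conn : M.Conn) (h1 : M.H1) (h3 : M.H3) (n p : ℕ)
    (u : V) : M.sepNum n p u u = 0 := by
  have := sepNum_add cub conn h1 h3 n p u u u
  exact left_eq_add.1 this

/-- counting the sizes of the non-facial members -/
lemma count1 (cub : M.Cubic) (conn : M.Conn) (h1 : M.H1) (h3 : M.H3) (n : ℕ)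
    {T : Type} [Fintype T] (pr : T → V × V)
    (hT : ∀ v w f, v ≠ w → M.inc v f → M.inc w f → ∃ (φ : M.Auto) (t : T),
      pr t = (φ.v v, φ.v w))
    (P : Finset ℕ) (hP : ∀ p ∈ P, ∃ C, C ∈ M.Fam n p) : P.card ≤ Fintype.card T := by
  classical
  have hli : LinearIndependent (ZMod 2)
      (fun p : P => fun t : T => M.sepNum n (p : ℕ) (pr t).1 (pr t).2) := by
    rw [Fintype.linearIndependent_iff]
    intro g hg
    by_contra hcon
    push Not at hcon
    obtain ⟨p0, hp0⟩ := hcon
    set Q : V → V → ZMod 2 := fun u v => ∑ p : P, g p * M.sepNum n (p : ℕ) u v with hQ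
    have hadd : ∀ u v w, Q u w = Q u v + Q v w := by
      intro u v w
      simp only [hQ]
      rw [← Finset.sum_add_distrib]
      apply Finset.sum_congr rfl
      intro p _
      rw [sepNum_add cub conn h1 h3 n p u v w, mul_add]
    have hself : ∀ u, Q u u = 0 := by
      intro u
      exact left_eq_add.1 (hadd u u u)
    have hedge : ∀ v w f, v ≠ w → M.inc v f → M.inc w f → Q v w = 0 := by
      intro v w f hne hv hw
      obtain ⟨φ, t, ht⟩ := hT v w f hne hv hw
      have h0 := congrFun hg t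
      simp only [Finset.sum_apply, Pi.smul_apply, smul_eq_mul, Pi.zero_apply, ht] at h0
      rw [← h0]
      simp only [hQ]
      apply Finset.sum_congr rfl
      intro p _
      rw [φ.sepNum]
    have hall : ∀ u v, Q u v = 0 := by
      intro u
      refine conn.forall (P := fun v => Q u v = 0) (v0 := u) (hself u) ?_
      intro v w f hne hv hw h
      show Q u w = 0
      rw [hadd u v w, h, hedge v w f hne hv hw, add_zero]
    obtain ⟨C, hC⟩ := hP p0 p0.2
    set F : Set (Finset E) := {C | ∃ p : P, g p ≠ 0 ∧ C ∈ M.Fam n p} with hF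
    have hCF : C ∈ F := ⟨p0, hp0, hC⟩
    obtain ⟨x, y, hxy, honly⟩ := exists_only_sep cub conn h1 h3 n F
      (by rintro D ⟨p, _, hD⟩; exact ⟨hD.1.1.circuit, hD.1.2.1⟩)
      (by rintro D ⟨p, _, hD⟩ D' ⟨p', _, hD'⟩; exact opt_nested cub conn h1 h3 hD.1 hD'.1)
      hCF hC.2.1
    have hQxy := hall x y
    have hval : Q x y = g p0 := by
      simp only [hQ]
      rw [Finset.sum_eq_single p0]
      · have : M.sepNum n p0 x y = 1 := by
          unfold sepNum
          rw [finsum_eq_single _ C]
          · unfold sepInd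
            rw [if_pos ⟨hC, hxy⟩]
          · intro D hD
            unfold sepInd
            rw [if_neg]
            rintro ⟨hDF, hDs⟩
            exact honly D ⟨p0, hp0, hDF⟩ hD hDs
        rw [this, mul_one]
      · intro p _ hp
        by_cases hgp : g p = 0
        · rw [hgp, zero_mul]
        have : M.sepNum n p x y = 0 := by
          unfold sepNum
          rw [← finsum_zero (α := Finset E)]
          apply finsum_congr
          intro D
          unfold sepInd
          rw [if_neg]
          rintro ⟨hDF, hDs⟩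
          refine honly D ⟨p, hgp, hDF⟩ ?_ hDs
          rintro rfl
          exact hp (Subtype.ext (hDF.2.2.symm.trans hC.2.2))
        rw [this, mul_zero]
      · intro h
        exact absurd (Finset.mem_univ _) h
    exact hp0 (hval.symm.trans hQxy)
  have := hli.fintype_card_le_finrank
  rw [Module.finrank_fintype_fun_eq_card, Fintype.card_coe] at this
  exact this

/-- two facial circuits sharing a corner are equal -/
lemma facial_unique (cub : M.Cubic) (conn : M.Conn) (h1 : M.H1) {A B : V → E → Prop}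
    {C D : Finset E} (hA : M.Bd A C) (hB : M.Bd B D) (hC : M.IsCircuit C) (hD : M.IsCircuit D)
    (hAm : ∀ v, ¬ M.Maj A v) (hBm : ∀ v, ¬ M.Maj B v) {v : V} {e : E} (he : M.inc v e)
    (hAv : A v e) (hBv : B v e) : C = D := by
  classical
  obtain ⟨t, ht, _⟩ := Bd.exists_and cub h1 hA hB
  have hte : M.IsEven t := ht.even cub h1
  have htn : t.Nonempty := by
    rw [Finset.nonempty_iff_ne_empty]
    rintro rfl
    rcases region_const cub conn h1 ht with h | h
    · apply hAm v
      obtain ⟨a, b, c, htr⟩ := cub.tri v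
      exact ⟨a, b, htr.inc1, htr.inc2, htr.1, (h v a htr.inc1).1, (h v b htr.inc2).1⟩
    · exact h v e he ⟨hAv, hBv⟩
  have sub : ∀ {A B : V → E → Prop} {C : Finset E}, M.Bd A C → M.IsRegion B →
      (∀ v, ¬ M.Maj A v) → M.Bd (fun v e => A v e ∧ B v e) t → t ⊆ C := by
    intro A B C hA _ hAm ht f hf
    obtain ⟨u, w, _, hu, _, _⟩ := M.exists_ends f
    obtain ⟨b, c, htr⟩ := cub.tri' hu
    rw [← ht.2, bd_iff cub h1 ht.1 htr] at hf
    rw [← hA.2, bd_iff cub h1 hA.1 htr]
    have := hAm u
    rw [htr.maj] at this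
    tauto
  have s1 : t ⊆ C := sub hA hB.1 hAm ht
  have s2 : t ⊆ D := sub hB hA.1 hBm (ht.congr cub h1 (fun v e _ => and_comm))
  exact (hC.2.2 t s1 hte htn).symm.trans (hD.2.2 t s2 hte htn)

/-- counting the sizes of the facial circuits -/
lemma count2 (cub : M.Cubic) (conn : M.Conn) (h1 : M.H1)
    {T : Type} [Fintype T] (cr : T → V × E)
    (hT : ∀ v e, M.inc v e → ∃ (φ : M.Auto) (t : T), cr t = (φ.v v, φ.e e))
    (P : Finset ℕ) (hP : ∀ p ∈ P, ∃ C A, M.Essential C ∧ C.card = p ∧ M.Bd A C ∧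
      ∀ v, ¬ M.Maj A v) : P.card ≤ Fintype.card T := by
  classical
  have key : ∀ p : P, ∃ t : T, ∃ C A, M.Essential C ∧ C.card = p ∧ M.Bd A C ∧
      (∀ v, ¬ M.Maj A v) ∧ M.inc (cr t).1 (cr t).2 ∧ A (cr t).1 (cr t).2 := by
    intro p
    obtain ⟨C, A, hC, hc, hA, hm⟩ := hP p p.2
    obtain ⟨f, hf⟩ := hC.circuit.2.1
    obtain ⟨v, e, e', i1, i2, i3, h4, h5, h6, h7⟩ := (hA.2 f).2 hf
    obtain ⟨φ, t, ht⟩ := hT v e i2
    refine ⟨t, φ.act C, φ.reg A, φ.essential_act hC, by rw [Auto.card_act, hc], φ.bd_act hA,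
      ?_, ?_, ?_⟩
    · intro u hu
      apply hm (φ.v.symm u)
      rw [← φ.maj_act, Equiv.apply_symm_apply]
      exact hu
    · rw [ht]
      exact (φ.inc_iff v e).2 i2
    · rw [ht]
      simpa [Auto.reg] using h6
  choose t C A hC hc hA hm hi hcor using key
  have hinj : Function.Injective t := by
    intro p q hpq
    have : C p = C q := by
      refine facial_unique cub conn h1 (hA p) (hA q) (hC p).circuit (hC q).circuit (hm p) (hm q)
        (hi p) (hcor p) ?_
      rw [hpq]
      exact hcor q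
    apply Subtype.ext
    rw [← hc p, ← hc q, this]
  have := Fintype.card_le_of_injective t hinj
  rwa [Fintype.card_coe] at this

/-- T5: essential even sets have bounded size. -/
theorem T5_essential_bounded (cub : M.Cubic) (conn : M.Conn) (qt : M.QT) (h1 : M.H1)
    (h3 : M.H3) : ∃ L, ∀ z, M.Essential z → z.card ≤ L := by
  classical
  obtain ⟨S, hS, hqt⟩ := qt
  set T : Set (V × E) := {p | p.1 ∈ S ∧ M.inc p.1 p.2} with hT
  have hTfin : T.Finite := by
    have : T ⊆ ⋃ s ∈ S, (fun e => (s, e)) '' {e | M.inc s e} := by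
      rintro ⟨s, e⟩ ⟨hs, he⟩
      simp only [Set.mem_iUnion]
      exact ⟨s, hs, e, he, rfl⟩
    exact (hS.biUnion (fun s _ => (cub.finite_at s).image _)).subset this
  have : Fintype T := hTfin.fintype
  have hoth : ∀ t : T, ∃ w, w ≠ t.1.1 ∧ M.inc w t.1.2 := by
    intro t
    obtain ⟨w, h, h', _⟩ := M.exists_other t.2.2
    exact ⟨w, h, h'⟩
  choose oth hoth1 hoth2 using hoth
  by_contra hcon
  push Not at hcon
  have hinf : {p | ∃ z, M.Essential z ∧ z.card = p}.Infinite := by
    intro hfin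
    obtain ⟨L, hL⟩ := hfin.bddAbove
    obtain ⟨z, hz, hlt⟩ := hcon L
    have := hL ⟨z, hz, rfl⟩
    omega
  obtain ⟨P, hPsub, hPcard⟩ := hinf.exists_subset_card_eq (2 * Fintype.card T + 1)
  set n := P.sup id with hn
  have hle : ∀ p ∈ P, p ≤ n := fun p hp => Finset.le_sup (f := id) hp
  set P1 := P.filter (fun p => ∃ C, C ∈ M.Fam n p) with hP1
  set P2 := P.filter (fun p => ¬ ∃ C, C ∈ M.Fam n p) with hP2
  have hsum : P1.card + P2.card = P.card := Finset.card_filter_add_card_filter_not _
  have c1 : P1.card ≤ Fintype.card T := by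
    refine count1 cub conn h1 h3 n (fun t : T => (t.1.1, oth t)) ?_ P1 ?_
    · intro v w f hne hv hw
      obtain ⟨φ, hφ⟩ := hqt v
      have hi : M.inc (φ.v v) (φ.e f) := (φ.inc_iff v f).2 hv
      refine ⟨φ, ⟨(φ.v v, φ.e f), hφ, hi⟩, ?_⟩
      have hi' : M.inc (φ.v w) (φ.e f) := (φ.inc_iff w f).2 hw
      have e1 := hoth1 ⟨(φ.v v, φ.e f), hφ, hi⟩
      have e2 := hoth2 ⟨(φ.v v, φ.e f), hφ, hi⟩
      obtain ⟨a, b, hab, h⟩ := M.two (φ.e f)
      have hne' : φ.v v ≠ φ.v w := φ.v.injective.ne hne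
      have r1 := (h _).1 hi
      have r2 := (h _).1 hi'
      have r3 := (h _).1 e2
      have : oth ⟨(φ.v v, φ.e f), hφ, hi⟩ = φ.v w := by
        rcases r1 with r1 | r1 <;> rcases r2 with r2 | r2 <;> rcases r3 with r3 | r3
        · exact r3.trans r2.symm
        · exact absurd (r1.trans r2.symm) hne'
        · exact absurd (r3.trans r1.symm) e1
        · exact r3.trans r2.symm
        · exact r3.trans r2.symm
        · exact absurd (r3.trans r1.symm) e1
        · exact absurd (r1.trans r2.symm) hne'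
        · exact r3.trans r2.symm
      simp only [this]
    · intro p hp
      exact (Finset.mem_filter.1 hp).2
  have c2 : P2.card ≤ Fintype.card T := by
    refine count2 cub conn h1 (fun t : T => t.1) ?_ P2 ?_
    · intro v e hve
      obtain ⟨φ, hφ⟩ := hqt v
      exact ⟨φ, ⟨(φ.v v, φ.e e), hφ, (φ.inc_iff v e).2 hve⟩, rfl⟩
    · intro p hp
      obtain ⟨hpP, hno⟩ := Finset.mem_filter.1 hp
      obtain ⟨z, hz, hzc⟩ := hPsub hpP
      obtain ⟨C, hC, hCc⟩ := exists_opt (n := n) hz (by rw [hzc]; exact hle p hpP)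
      obtain ⟨A, hA⟩ := h3 C hC.1.circuit
      have hA : M.Bd A C := hA
      have hnf : ∀ v w, M.Maj A v ↔ M.Maj A w := by
        intro v w
        by_contra hvw
        exact hno ⟨C, hC, ⟨v, w, (MG.sep_iff cub conn h1 hA v w).2 hvw⟩, by rw [hCc, hzc]⟩
      by_cases hex : ∃ v, M.Maj A v
      · obtain ⟨v, hv⟩ := hex
        refine ⟨C, _, hC.1, by rw [hCc, hzc], hA.not cub h1, fun w => ?_⟩
        rw [maj_not cub, not_not]
        exact (hnf v w).1 hv
      · push Not at hex
        exact ⟨C, A, hC.1, by rw [hCc, hzc], hA, hex⟩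
  omega

lemma Gen.bind {P Q : Finset E → Prop} (h : ∀ z, P z → Gen Q z) {z : Finset E}
    (hz : Gen P z) : Gen Q z := by
  classical
  induction hz with
  | zero => exact Gen.zero
  | @add a b t h1 _ h3 ih =>
    have := Gen.symmDiff (h _ h1) ih
    have ht : t = _root_.symmDiff a b := by
      ext e
      rw [h3, Finset.mem_symmDiff]
      rfl
    rwa [ht]

lemma genBy_of_bounded {L : ℕ} (hL : ∀ z, M.Essential z → z.card ≤ L) : M.GenBy L := by
  intro z hz
  induction hk : z.card using Nat.strong_induction_on generalizing z with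
  | _ k ih =>
    by_cases hess : M.Essential z
    · exact Gen.of ⟨hz, hL z hess⟩
    · have hg : Gen (fun w => M.IsEven w ∧ w.card < z.card) z := by
        by_contra hcon
        exact hess ⟨hz, hcon⟩
      refine Gen.bind (fun w hw => ?_) hg
      exact ih w.card (by omega) w hw.1 rfl

theorem T5_genBy (cub : M.Cubic) (conn : M.Conn) (qt : M.QT) (h1 : M.H1)
    (h3 : M.H3) : ∃ L, M.GenBy L := by
  obtain ⟨L, hL⟩ := T5_essential_bounded cub conn qt h1 h3
  exact ⟨L, genBy_of_bounded hL⟩

end MG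

end Pool.Agent.MP_57dfd7_co
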