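import Pool.Agent.MP_57dfd7_co.T0

/-! Torso of a class of vertices not separated by small cuts. -/

namespace Pool.Agent.MP_57dfd7_co

namespace MG

namespace Torso

variable {V E : Type} (M : MG V E)

/-! ### small cuts -/

lemma three_le {α : Type} {A : Set α} {a b c : α} (ha : a ∈ A) (hb : b ∈ A) (hc : c ∈ A)
    (hab : a ≠ b) (hac : a ≠ c) (hbc : b ≠ c) (h : A.encard ≤ 2) : False := by
  have h1 : ({a, b, c} : Set α) ⊆ A := by
    rintro x (rfl | rfl | rfl) <;> assumption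
  have h2 : ({a, b, c} : Set α).encard = 3 :=
    Set.encard_eq_three.2 ⟨a, b, c, hab, hac, hbc, rfl⟩
  have h3 := (Set.encard_le_encard h1).trans h
  rw [h2] at h3
  exact absurd h3 (by decide)

lemma two_le_cut (br : M.Bridgeless) {X : Set V} (h : (M.cut X).Nonempty) :
    2 ≤ (M.cut X).encard := by
  obtain ⟨e, he⟩ := h
  obtain ⟨z, hz, hez⟩ := br e
  obtain ⟨e', _, he', hne⟩ := IsEven.exists_ne_mem_cut M hz hez he
  have h1 : ({e, e'} : Set E) ⊆ M.cut X := by
    rintro x (rfl | rfl) <;> assumption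
  calc (2 : ℕ∞) = ({e, e'} : Set E).encard := (Set.encard_pair hne.symm).symm
    _ ≤ _ := Set.encard_le_encard h1

lemma submod (X Y : Set V) : (M.cut (X ∩ Y)).encard + (M.cut (X ∪ Y)).encard ≤
    (M.cut X).encard + (M.cut Y).encard := by
  rw [← Set.encard_union_add_encard_inter (M.cut (X ∩ Y)) (M.cut (X ∪ Y)),
    ← Set.encard_union_add_encard_inter (M.cut X) (M.cut Y)]
  refine add_le_add (Set.encard_le_encard ?_) (Set.encard_le_encard ?_)
  · rintro e (⟨u, v, hu, hv, huX, hvX⟩ | ⟨u, v, hu, hv, huX, hvX⟩)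
    · by_cases h : v ∈ X
      · exact Or.inr ⟨u, v, hu, hv, huX.2, fun h' => hvX ⟨h, h'⟩⟩
      · exact Or.inl ⟨u, v, hu, hv, huX.1, h⟩
    · rcases huX with h | h
      · exact Or.inl ⟨u, v, hu, hv, h, fun h' => hvX (Or.inl h')⟩
      · exact Or.inr ⟨u, v, hu, hv, h, fun h' => hvX (Or.inr h')⟩
  · rintro e ⟨⟨u, v, hu, hv, huX, hvX⟩, ⟨u', v', hu', hv', huX', hvX'⟩⟩
    have huv : u ≠ v := by rintro rfl; exact hvX huX
    have hv'2 : v' = v := by
      rcases M.inc_eq hu hv huv hv' with h | h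
      · exact absurd (Or.inl (h ▸ huX.1)) hvX'
      · exact h
    subst hv'2
    exact ⟨⟨u, v', hu, hv', huX.1, fun h => hvX' (Or.inl h)⟩,
      ⟨u, v', hu, hv', huX.2, fun h => hvX' (Or.inr h)⟩⟩

lemma union_small {X Y : Set V} (hX : (M.cut X).encard ≤ 2) (hY : (M.cut Y).encard ≤ 2)
    (h : 2 ≤ (M.cut (X ∩ Y)).encard) : (M.cut (X ∪ Y)).encard ≤ 2 := by
  have h1 := (submod M X Y).trans (add_le_add hX hY)
  have h2 : (2 : ℕ∞) + (M.cut (X ∪ Y)).encard ≤ 2 + 2 :=
    (add_le_add h le_rfl).trans h1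
  exact (ENat.add_le_add_iff_left (by decide)).1 h2

lemma diff_small {α : Type} {A : Set α} {a : α} (ha : a ∈ A) (h : A.encard ≤ 2) :
    (A \ {a}).encard ≤ 1 := by
  have h1 := Set.encard_sdiff_singleton_add_one ha
  rw [← h1] at h
  have h2 : (A \ {a}).encard + 1 ≤ 1 + 1 := h
  exact (ENat.add_le_add_iff_right (by decide)).1 h2

lemma union_small' {X Y : Set V} (hX : (M.cut X).encard ≤ 2) (hY : (M.cut Y).encard ≤ 2)
    (hd : ∀ v ∈ X, v ∉ Y) {x y : V} {d : E} (hx : x ∈ X) (hy : y ∈ Y) (hxd : M.inc x d)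
    (hyd : M.inc y d) : (M.cut (X ∪ Y)).encard ≤ 2 := by
  have hyX : y ∉ X := fun h => hd y h hy
  have hxY : x ∉ Y := hd x hx
  have hxy : x ≠ y := by rintro rfl; exact hyX hx
  have h1 : d ∈ M.cut X := ⟨x, y, hxd, hyd, hx, hyX⟩
  have h2 : d ∈ M.cut Y := ⟨y, x, hyd, hxd, hy, hxY⟩
  have h3 : M.cut (X ∪ Y) ⊆ (M.cut X \ {d}) ∪ (M.cut Y \ {d}) := by
    rintro e ⟨u, v, hu, hv, huX, hvX⟩
    have hed : e ≠ d := by
      rintro rfl
      rcases M.inc_eq hxd hyd hxy hv with rfl | rfl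
      · exact hvX (Or.inl hx)
      · exact hvX (Or.inr hy)
    rcases huX with h | h
    · exact Or.inl ⟨⟨u, v, hu, hv, h, fun h' => hvX (Or.inl h')⟩, hed⟩
    · exact Or.inr ⟨⟨u, v, hu, hv, h, fun h' => hvX (Or.inr h')⟩, hed⟩
  calc (M.cut (X ∪ Y)).encard ≤ ((M.cut X \ {d}) ∪ (M.cut Y \ {d})).encard :=
        Set.encard_le_encard h3
    _ ≤ (M.cut X \ {d}).encard + (M.cut Y \ {d}).encard := Set.encard_union_le _ _
    _ ≤ 1 + 1 := add_le_add (diff_small h1 hX) (diff_small h2 hY)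
    _ = 2 := by norm_num

/-! ### the class -/

section cls

variable {M} {s : V} {B : Set V}

lemma s_mem (hB : ∀ v, v ∈ B ↔ ∀ X : Set V, (M.cut X).encard ≤ 2 → (s ∈ X ↔ v ∈ X)) : s ∈ B :=
  (hB s).2 fun _ _ => Iff.rfl

lemma cls_iff (hB : ∀ v, v ∈ B ↔ ∀ X : Set V, (M.cut X).encard ≤ 2 → (s ∈ X ↔ v ∈ X))
    {b b' : V} (hb : b ∈ B) (hb' : b' ∈ B) {X : Set V} (hX : (M.cut X).encard ≤ 2) :
    b ∈ X ↔ b' ∈ X :=
  ((hB b).1 hb X hX).symm.trans ((hB b').1 hb' X hX)

/-- a vertex outside the class lies in a small set disjoint from the class -/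
lemma exists_small (hB : ∀ v, v ∈ B ↔ ∀ X : Set V, (M.cut X).encard ≤ 2 → (s ∈ X ↔ v ∈ X))
    {v : V} (hv : v ∉ B) : ∃ X : Set V, (M.cut X).encard ≤ 2 ∧ v ∈ X ∧ ∀ b ∈ B, b ∉ X := by
  rw [hB] at hv
  push Not at hv
  obtain ⟨X, hX, h⟩ := hv
  rcases h with ⟨h1, h2⟩ | ⟨h1, h2⟩
  · refine ⟨Xᶜ, by rw [cut_compl]; exact hX, h2, ?_⟩
    intro b hb hbX
    exact hbX ((cls_iff hB (s_mem hB) hb hX).1 h1)
  · refine ⟨X, hX, h2, ?_⟩
    intro b hb hbX
    exact h1 ((cls_iff hB (s_mem hB) hb hX).2 hbX)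

/-- elements of the class are in the component of `s` -/
lemma cls_reach (hB : ∀ v, v ∈ B ↔ ∀ X : Set V, (M.cut X).encard ≤ 2 → (s ∈ X ↔ v ∈ X))
    {b : V} (hb : b ∈ B) : M.Reach Set.univ s b := by
  have h : M.cut {y | ∃ x ∈ ({s} : Set V), M.Reach Set.univ x y} = ∅ := by
    rw [Set.eq_empty_iff_forall_notMem]
    intro e he
    exact M.cut_reach Set.univ {s} (Set.mem_univ e) he
  have h1 := (hB b).1 hb {y | ∃ x ∈ ({s} : Set V), M.Reach Set.univ x y} (by rw [h]; simp)
  obtain ⟨x, rfl, hx⟩ := h1.1 ⟨s, rfl, Reach.refl M _ s⟩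
  exact hx

/-- degree three in the class -/
lemma deg_three (sub : M.Subcubic) (hs : {e | M.inc s e}.encard = 3)
    (hB : ∀ v, v ∈ B ↔ ∀ X : Set V, (M.cut X).encard ≤ 2 → (s ∈ X ↔ v ∈ X))
    {b : V} (hb : b ∈ B) : {e | M.inc b e}.encard = 3 := by
  by_contra hne
  have h1 : {e | M.inc b e}.encard < 3 := lt_of_le_of_ne (sub b) hne
  have h2 : {e | M.inc b e}.encard ≤ 2 := by
    have h3 : {e | M.inc b e}.encard < 2 + 1 := h1
    exact (ENat.lt_add_one_iff (by decide)).1 h3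
  have hcut : M.cut {b} ⊆ {e | M.inc b e} := by
    rintro e ⟨u, v, hu, hv, hub, _⟩
    rw [Set.mem_singleton_iff] at hub
    subst hub
    exact hu
  have h4 := (hB b).1 hb {b} ((Set.encard_le_encard hcut).trans h2)
  have h5 : s = b := h4.2 rfl
  subst h5
  exact hne hs

/-- the edges with both ends outside `B` -/
def outE (M : MG V E) (B : Set V) : Set E := {e | ∀ v, M.inc v e → v ∉ B}

/-- small connected sets around the component of a vertex outside the class -/
lemma small_around (br : M.Bridgeless)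
    (hB : ∀ v, v ∈ B ↔ ∀ X : Set V, (M.cut X).encard ≤ 2 → (s ∈ X ↔ v ∈ X))
    {v : V} (hv : v ∉ B) (hvK : M.Reach Set.univ s v) {x : V} (hx : M.Reach (outE M B) v x) :
    ∃ X : Set V, (M.cut X).encard ≤ 2 ∧ v ∈ X ∧ x ∈ X ∧ (∀ b ∈ B, b ∉ X) ∧
      ∀ y ∈ X, M.Reach Set.univ s y := by
  -- restriction to the component
  have hrestr : ∀ X : Set V, (M.cut X).encard ≤ 2 →
      (M.cut (X ∩ {y | M.Reach Set.univ s y})).encard ≤ 2 := by
    intro X hX
    refine (Set.encard_le_encard ?_).trans hX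
    rintro e ⟨u, w, hu, hw, ⟨huX, huK⟩, hwX⟩
    refine ⟨u, w, hu, hw, huX, fun h => hwX ⟨h, ?_⟩⟩
    exact Reach.trans M huK (M.reach_of_mem (Set.mem_univ e) hu hw)
  induction hx with
  | refl =>
    obtain ⟨X, hX, hvX, hXB⟩ := exists_small hB hv
    exact ⟨X ∩ {y | M.Reach Set.univ s y}, hrestr X hX, ⟨hvX, hvK⟩, ⟨hvX, hvK⟩,
      fun b hb h => hXB b hb h.1, fun y hy => hy.2⟩
  | @tail x x' hvx hxx' ih =>
    obtain ⟨X, hX, hvX, hxX, hXB, hXK⟩ := ih
    obtain ⟨d, hd, hxd, hx'd⟩ := hxx'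
    have hx'B : x' ∉ B := hd x' hx'd
    have hx'K : M.Reach Set.univ s x' :=
      Reach.trans M (hXK x hxX) (M.reach_of_mem (Set.mem_univ d) hxd hx'd)
    obtain ⟨Y0, hY0, hx'Y0, hY0B⟩ := exists_small hB hx'B
    set Y := Y0 ∩ {y | M.Reach Set.univ s y} with hYdef
    have hY : (M.cut Y).encard ≤ 2 := hrestr Y0 hY0
    have hx'Y : x' ∈ Y := ⟨hx'Y0, hx'K⟩
    have hYB : ∀ b ∈ B, b ∉ Y := fun b hb h => hY0B b hb h.1
    refine ⟨X ∪ Y, ?_, Or.inl hvX, Or.inr hx'Y, ?_, ?_⟩
    · by_cases hd' : ∀ z ∈ X, z ∉ Y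
      · exact union_small' M hX hY hd' hxX hx'Y hxd hx'd
      · push Not at hd'
        obtain ⟨z, hzX, hzY⟩ := hd'
        apply union_small M hX hY
        apply two_le_cut M br
        by_contra hcon
        rw [Set.not_nonempty_iff_eq_empty] at hcon
        have h1 : s ∈ X ∩ Y := by
          refine Reach.mem_of_cut M (S := Set.univ) (X := X ∩ Y) (x := z) ?_
            (Reach.symm M (hXK z hzX)) ⟨hzX, hzY⟩
          intro e _ he
          rw [hcon] at he
          exact he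
        exact hXB s (s_mem hB) h1.1
    · rintro b hb (h | h)
      · exact hXB b hb h
      · exact hYB b hb h
    · rintro y (h | h)
      · exact hXK y h
      · exact h.2

lemma around_union (br : M.Bridgeless)
    (hB : ∀ v, v ∈ B ↔ ∀ X : Set V, (M.cut X).encard ≤ 2 → (s ∈ X ↔ v ∈ X)) {v : V}
    {X Y : Set V} (hX : (M.cut X).encard ≤ 2) (hvX : v ∈ X) (hXB : ∀ b ∈ B, b ∉ X)
    (hXK : ∀ y ∈ X, M.Reach Set.univ s y) (hY : (M.cut Y).encard ≤ 2) (hvY : v ∈ Y) :
    (M.cut (X ∪ Y)).encard ≤ 2 := by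
  apply union_small M hX hY
  apply two_le_cut M br
  by_contra hcon
  rw [Set.not_nonempty_iff_eq_empty] at hcon
  have h1 : s ∈ X ∩ Y := by
    refine Reach.mem_of_cut M (S := Set.univ) (X := X ∩ Y) (x := v) ?_
      (Reach.symm M (hXK v hvX)) ⟨hvX, hvY⟩
    intro e _ he
    rw [hcon] at he
    exact he
  exact hXB s (s_mem hB) h1.1

/-! ### links -/

/-- edges sharing a vertex outside `B` -/
def rel (M : MG V E) (B : Set V) (e e' : E) : Prop := ∃ v, v ∉ B ∧ M.inc v e ∧ M.inc v e'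

/-- the class of an edge -/
def link (M : MG V E) (B : Set V) (e : E) : Set E := {e' | Relation.ReflTransGen (rel M B) e e'}

lemma mem_link_self (M : MG V E) (B : Set V) (e : E) : e ∈ link M B e :=
  Relation.ReflTransGen.refl

lemma link_symm {e e' : E} (h : e' ∈ link M B e) : e ∈ link M B e' := by
  have h' : Relation.ReflTransGen (rel M B) e e' := h
  change Relation.ReflTransGen (rel M B) e' e
  induction h' with
  | refl => exact Relation.ReflTransGen.refl
  | tail _ hbc ih =>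
    obtain ⟨v, hv, h1, h2⟩ := hbc
    exact Relation.ReflTransGen.head ⟨v, hv, h2, h1⟩ (ih ‹_›)

lemma link_eq {e e' : E} (h : e' ∈ link M B e) : link M B e' = link M B e := by
  ext x
  constructor
  · intro hx; exact Relation.ReflTransGen.trans h hx
  · intro hx; exact Relation.ReflTransGen.trans (link_symm h) hx

lemma link_closed {e₀ e e' : E} {v : V} (hv : v ∉ B) (he : e ∈ link M B e₀) (h1 : M.inc v e)
    (h2 : M.inc v e') : e' ∈ link M B e₀ :=
  Relation.ReflTransGen.tail he ⟨v, hv, h1, h2⟩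

lemma link_key (sub : M.Subcubic) (br : M.Bridgeless) (hs : {e | M.inc s e}.encard = 3)
    (hB : ∀ v, v ∈ B ↔ ∀ X : Set V, (M.cut X).encard ≤ 2 → (s ∈ X ↔ v ∈ X))
    {b : V} (hb : b ∈ B) {e : E} (he : M.inc b e) :
    ∃ b' ∈ B, b' ≠ b ∧ (∀ w ∈ B, (∃ e' ∈ link M B e, M.inc w e') ↔ w = b ∨ w = b') ∧
      (∀ w ∈ B, ∀ e1 ∈ link M B e, ∀ e2 ∈ link M B e, M.inc w e1 → M.inc w e2 → e1 = e2) ∧
      M.Reach (link M B e) b b' := by
  obtain ⟨v, hvb, hve, hends⟩ := M.exists_other he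
  by_cases hv : v ∈ B
  · -- both ends in B
    have hlink : ∀ e' ∈ link M B e, e' = e := by
      intro e' he'
      have h' : Relation.ReflTransGen (rel M B) e e' := he'
      induction h' with
      | refl => rfl
      | @tail x y hx hxy ih =>
        have hxe : x = e := ih hx
        obtain ⟨w, hw, h1, _⟩ := hxy
        rw [hxe] at h1
        rcases hends w h1 with rfl | rfl
        · exact absurd hb hw
        · exact absurd hv hw
    refine ⟨v, hv, hvb, ?_, ?_, M.reach_of_mem (mem_link_self M B e) he hve⟩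
    · intro w _
      constructor
      · rintro ⟨e', he', hwe'⟩
        rw [hlink e' he'] at hwe'
        exact hends w hwe'
      · rintro (rfl | rfl)
        · exact ⟨e, mem_link_self M B e, he⟩
        · exact ⟨e, mem_link_self M B e, hve⟩
    · intro w _ e1 he1 e2 he2 _ _
      rw [hlink e1 he1, hlink e2 he2]
  · -- one end outside B
    set W : Set V := {x | M.Reach (outE M B) v x} with hW
    have hvW : v ∈ W := Reach.refl M _ v
    have hWB : ∀ x ∈ W, x ∉ B := by
      intro x hx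
      have hx' : Relation.ReflTransGen (M.Step (outE M B)) v x := hx
      induction hx' with
      | refl => exact hv
      | tail _ hbc _ =>
        obtain ⟨d, hd, _, h2⟩ := hbc
        exact hd _ h2
    have hWstep : ∀ x ∈ W, ∀ d, M.inc x d → ∀ y, M.inc y d → y ∉ B → y ∈ W := by
      intro x hx d hxd y hyd hyB
      by_cases hxy : x = y
      · exact hxy ▸ hx
      · refine Relation.ReflTransGen.tail hx ⟨d, ?_, hxd, hyd⟩
        intro z hz
        rcases M.inc_eq hxd hyd hxy hz with rfl | rfl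
        · exact hWB _ hx
        · exact hyB
    have hlinkW : ∀ e', e' ∈ link M B e ↔ ∃ w ∈ W, M.inc w e' := by
      intro e'
      constructor
      · intro he'
        have h' : Relation.ReflTransGen (rel M B) e e' := he'
        induction h' with
        | refl => exact ⟨v, hvW, hve⟩
        | @tail x y hx hxy ih =>
          obtain ⟨w, hw, hwx⟩ := ih hx
          obtain ⟨z, hz, hzx, hzy⟩ := hxy
          exact ⟨z, hWstep w hw x hwx z hzx hz, hzy⟩
      · rintro ⟨w, hw, hwe'⟩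
        have hw' : Relation.ReflTransGen (M.Step (outE M B)) v w := hw
        induction hw' generalizing e' with
        | refl => exact Relation.ReflTransGen.single ⟨v, hv, hve, hwe'⟩
        | @tail x y hx hxy ih =>
          obtain ⟨d, hd, hxd, hyd⟩ := hxy
          have h1 := ih d hx hxd
          exact Relation.ReflTransGen.tail h1 ⟨y, hWB y hw, hyd, hwe'⟩
    have hcutW : ∀ e', e' ∈ M.cut W ↔ e' ∈ link M B e ∧ ∃ c ∈ B, M.inc c e' := by
      intro e'
      constructor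
      · rintro ⟨x, y, hx, hy, hxW, hyW⟩
        refine ⟨(hlinkW e').2 ⟨x, hxW, hx⟩, y, ?_, hy⟩
        by_contra hyB
        exact hyW (hWstep x hxW e' hx y hy hyB)
      · rintro ⟨h1, c, hc, hce'⟩
        obtain ⟨w, hw, hwe'⟩ := (hlinkW e').1 h1
        exact ⟨w, c, hwe', hce', hw, fun h => hWB c h hc⟩
    have hvK : M.Reach Set.univ s v :=
      Reach.trans M (cls_reach hB hb) (M.reach_of_mem (Set.mem_univ e) he hve)
    have hcutB : ∀ e' ∈ M.cut W, ∃ x ∈ W, ∃ y ∈ B, M.inc x e' ∧ M.inc y e' := by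
      intro e' he'
      obtain ⟨h1, c, hc, hce'⟩ := (hcutW e').1 he'
      obtain ⟨w, hw, hwe'⟩ := (hlinkW e').1 h1
      exact ⟨w, hw, c, hc, hwe', hce'⟩
    have hthree : ∀ e1 e2 e3, e1 ∈ M.cut W → e2 ∈ M.cut W → e3 ∈ M.cut W → e1 ≠ e2 →
        e1 ≠ e3 → e2 ≠ e3 → False := by
      intro e1 e2 e3 h1 h2 h3 h12 h13 h23
      obtain ⟨x1, hx1, y1, hy1, hx1e, hy1e⟩ := hcutB e1 h1
      obtain ⟨x2, hx2, y2, hy2, hx2e, hy2e⟩ := hcutB e2 h2
      obtain ⟨x3, hx3, y3, hy3, hx3e, hy3e⟩ := hcutB e3 h3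
      obtain ⟨X1, s1, v1, m1, d1, k1⟩ := small_around br hB hv hvK hx1
      obtain ⟨X2, s2, v2, m2, d2, k2⟩ := small_around br hB hv hvK hx2
      obtain ⟨X3, s3, v3, m3, d3, k3⟩ := small_around br hB hv hvK hx3
      have s12 := around_union br hB s1 v1 d1 k1 s2 v2
      have d12 : ∀ c ∈ B, c ∉ X1 ∪ X2 := by
        rintro c hc (h | h)
        · exact d1 c hc h
        · exact d2 c hc h
      have k12 : ∀ y ∈ X1 ∪ X2, M.Reach Set.univ s y := by
        rintro y (h | h)
        · exact k1 y h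
        · exact k2 y h
      have s123 := around_union br hB s12 (Or.inl v1) d12 k12 s3 v3
      have d123 : ∀ c ∈ B, c ∉ (X1 ∪ X2) ∪ X3 := by
        rintro c hc (h | h)
        · exact d12 c hc h
        · exact d3 c hc h
      refine three_le (A := M.cut ((X1 ∪ X2) ∪ X3)) (a := e1) (b := e2) (c := e3) ?_ ?_ ?_
        h12 h13 h23 s123
      · exact ⟨x1, y1, hx1e, hy1e, Or.inl (Or.inl m1), d123 y1 hy1⟩
      · exact ⟨x2, y2, hx2e, hy2e, Or.inl (Or.inr m2), d123 y2 hy2⟩
      · exact ⟨x3, y3, hx3e, hy3e, Or.inr m3, d123 y3 hy3⟩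
    have hecut : e ∈ M.cut W := ⟨v, b, hve, he, hvW, fun h => hWB b h hb⟩
    obtain ⟨z, hz, hez⟩ := br e
    obtain ⟨e', _, he'cut, he'e⟩ := IsEven.exists_ne_mem_cut M hz hez hecut
    have hall : ∀ e'' ∈ M.cut W, e'' = e ∨ e'' = e' := by
      intro e'' h''
      by_contra hcon
      push Not at hcon
      exact hthree e e' e'' hecut he'cut h'' he'e.symm hcon.1.symm hcon.2.symm
    obtain ⟨w', hw'W, b', hb'B, hw'e', hb'e'⟩ := hcutB e' he'cut
    have hb'W : b' ∉ W := fun h => hWB b' h hb'B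
    have hbW : b ∉ W := fun h => hWB b h hb
    have hne : b' ≠ b := by
      rintro rfl
      -- the third edge at `b`
      have h3 := deg_three sub hs hB hb
      obtain ⟨e3, he3, he3e, he3e'⟩ : ∃ e3, M.inc b' e3 ∧ e3 ≠ e ∧ e3 ≠ e' := by
        by_contra hcon
        push Not at hcon
        have hsub : {f | M.inc b' f} ⊆ ({e, e'} : Set E) := by
          intro f hf
          by_cases hfe : f = e
          · exact Or.inl hfe
          · exact Or.inr (hcon f hf hfe)
        have h4 := Set.encard_le_encard hsub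
        rw [h3, Set.encard_pair he'e.symm] at h4
        exact absurd h4 (by decide)
      obtain ⟨y3, hy3b, hy3e3, hends3⟩ := M.exists_other he3
      have hy3W : y3 ∉ W := by
        intro h
        have : e3 ∈ M.cut W := ⟨y3, b', hy3e3, he3, h, hbW⟩
        rcases hall e3 this with h | h
        · exact he3e h
        · exact he3e' h
      have he3cut : e3 ∈ M.cut (W ∪ {b'}) := by
        refine ⟨b', y3, he3, hy3e3, Or.inr rfl, ?_⟩
        rintro (h | h)
        · exact hy3W h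
        · exact hy3b h
      obtain ⟨z3, hz3, hez3⟩ := br e3
      obtain ⟨e4, _, he4cut, he4e3⟩ := IsEven.exists_ne_mem_cut M hz3 hez3 he3cut
      obtain ⟨u, u', hu, hu', huW, hu'W⟩ := he4cut
      have he4e : e4 ≠ e := by
        rintro rfl
        rcases hends u' hu' with rfl | rfl
        · exact hu'W (Or.inr rfl)
        · exact hu'W (Or.inl hvW)
      have he4e' : e4 ≠ e' := by
        rintro rfl
        have hbw' : b' ≠ w' := by rintro rfl; exact hbW hw'W
        rcases M.inc_eq hb'e' hw'e' hbw' hu' with rfl | rfl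
        · exact hu'W (Or.inr rfl)
        · exact hu'W (Or.inl hw'W)
      rcases huW with huW | huW
      · have : e4 ∈ M.cut W := ⟨u, u', hu, hu', huW, fun h => hu'W (Or.inl h)⟩
        rcases hall e4 this with h | h
        · exact he4e h
        · exact he4e' h
      · rw [Set.mem_singleton_iff] at huW
        subst huW
        -- four edges at `b'`
        have hsub : ({e4, e3, e, e'} : Set E) ⊆ {f | M.inc u f} := by
          rintro f (rfl | rfl | rfl | rfl) <;> assumption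
        have h5 := Set.encard_le_encard hsub
        rw [h3, Set.encard_insert_of_notMem (by
          rintro (h | h | h)
          · exact he4e3 h
          · exact he4e h
          · exact he4e' h), Set.encard_insert_of_notMem (by
          rintro (h | h)
          · exact he3e h
          · exact he3e' h), Set.encard_pair he'e.symm] at h5
        exact absurd h5 (by decide)
    have hinccut : ∀ w ∈ B, ∀ f ∈ link M B e, M.inc w f → f ∈ M.cut W := fun w hw f hf hwf =>
      (hcutW f).2 ⟨hf, w, hw, hwf⟩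
    have hbe' : ¬ M.inc b e' := by
      intro h
      have hbw' : b' ≠ w' := by rintro rfl; exact hb'W hw'W
      rcases M.inc_eq hb'e' hw'e' hbw' h with h | h
      · exact hne h.symm
      · exact hbW (h ▸ hw'W)
    have hb'e : ¬ M.inc b' e := by
      intro h
      rcases hends b' h with h | h
      · exact hne h
      · exact hb'W (h ▸ hvW)
    refine ⟨b', hb'B, hne, ?_, ?_, ?_⟩
    · intro w hw
      constructor
      · rintro ⟨f, hf, hwf⟩
        rcases hall f (hinccut w hw f hf hwf) with rfl | rfl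
        · left
          rcases hends w hwf with h | h
          · exact h
          · exact absurd (h ▸ hvW) (fun h' => hWB w h' hw)
        · right
          have hbw' : b' ≠ w' := by rintro rfl; exact hb'W hw'W
          rcases M.inc_eq hb'e' hw'e' hbw' hwf with h | h
          · exact h
          · exact absurd (h ▸ hw'W) (fun h' => hWB w h' hw)
      · rintro (rfl | rfl)
        · exact ⟨e, mem_link_self M B e, he⟩
        · exact ⟨e', (hlinkW e').2 ⟨w', hw'W, hw'e'⟩, hb'e'⟩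
    · intro w hw e1 he1 e2 he2 h1 h2
      rcases hall e1 (hinccut w hw e1 he1 h1) with rfl | rfl <;>
        rcases hall e2 (hinccut w hw e2 he2 h2) with rfl | rfl
      · rfl
      · exfalso
        rcases hends w h1 with h | h
        · exact hbe' (h ▸ h2)
        · exact hWB w (h ▸ hvW) hw
      · exfalso
        rcases hends w h2 with h | h
        · exact hbe' (h ▸ h1)
        · exact hWB w (h ▸ hvW) hw
      · rfl
    · have r1 : M.Reach (link M B e) b v := M.reach_of_mem (mem_link_self M B e) he hve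
      have r2 : ∀ x ∈ W, M.Reach (link M B e) v x := by
        intro x hx
        have hx' : Relation.ReflTransGen (M.Step (outE M B)) v x := hx
        induction hx' with
        | refl => exact Reach.refl M _ v
        | @tail x y hvx hxy ih =>
          obtain ⟨d, hd, hxd, hyd⟩ := hxy
          exact Reach.trans M (ih hvx)
            (M.reach_of_mem ((hlinkW d).2 ⟨x, hvx, hxd⟩) hxd hyd)
      have r3 : M.Reach (link M B e) w' b' :=
        M.reach_of_mem ((hlinkW e').2 ⟨w', hw'W, hw'e'⟩) hw'e' hb'e'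
      exact Reach.trans M r1 (Reach.trans M (r2 w' hw'W) r3)

/-! ### the torso -/

/-- the links -/
def LIdx (M : MG V E) (B : Set V) : Type :=
  {q : Set E // ∃ e, (∃ b ∈ B, M.inc b e) ∧ q = link M B e}

lemma idx_disjoint {q q' : LIdx M B} {e : E} (h : e ∈ q.1) (h' : e ∈ q'.1) : q = q' := by
  obtain ⟨q, e₀, _, rfl⟩ := q
  obtain ⟨q', e₀', _, rfl⟩ := q'
  apply Subtype.ext
  change link M B e₀ = link M B e₀'
  rw [← link_eq h, ← link_eq h']

lemma idx_closed {q : LIdx M B} {v : V} {e e' : E} (hv : v ∉ B) (he : e ∈ q.1)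
    (h1 : M.inc v e) (h2 : M.inc v e') : e' ∈ q.1 := by
  obtain ⟨q, e₀, _, rfl⟩ := q
  exact link_closed hv he h1 h2

lemma idx_key (sub : M.Subcubic) (br : M.Bridgeless) (hs : {e | M.inc s e}.encard = 3)
    (hB : ∀ v, v ∈ B ↔ ∀ X : Set V, (M.cut X).encard ≤ 2 → (s ∈ X ↔ v ∈ X))
    (q : LIdx M B) : ∃ b b' : B, b ≠ b' ∧
      (∀ w : B, (∃ e ∈ q.1, M.inc w e) ↔ w = b ∨ w = b') ∧
      (∀ w : B, ∀ e1 ∈ q.1, ∀ e2 ∈ q.1, M.inc w e1 → M.inc w e2 → e1 = e2) ∧
      M.Reach q.1 b b' := by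
  obtain ⟨q, e, ⟨b, hb, he⟩, rfl⟩ := q
  obtain ⟨b', hb', hne, h1, h2, h3⟩ := link_key sub br hs hB hb he
  refine ⟨⟨b, hb⟩, ⟨b', hb'⟩, fun h => hne (congrArg Subtype.val h).symm, ?_,
    fun w => h2 w w.2, h3⟩
  rintro ⟨w, hw⟩
  have := h1 w hw
  simp only [Subtype.mk.injEq]
  exact this

/-- the torso -/
def torso (sub : M.Subcubic) (br : M.Bridgeless) (hs : {e | M.inc s e}.encard = 3)
    (hB : ∀ v, v ∈ B ↔ ∀ X : Set V, (M.cut X).encard ≤ 2 → (s ∈ X ↔ v ∈ X)) :
    MG B (LIdx M B) where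
  inc b q := ∃ e ∈ q.1, M.inc b e
  two q := by
    obtain ⟨b, b', hne, h, _⟩ := idx_key sub br hs hB q
    exact ⟨b, b', hne, h⟩

/-- the link of an edge at a vertex of the class -/
def mkIdx (M : MG V E) {B : Set V} (b : B) (e : E) (he : M.inc b e) : LIdx M B :=
  ⟨link M B e, e, ⟨b, b.2, he⟩, rfl⟩

lemma mem_mkIdx (b : B) (e : E) (he : M.inc b e) : e ∈ (mkIdx M b e he).1 :=
  mem_link_self M B e

section main

variable (sub : M.Subcubic) (br : M.Bridgeless) (hs : {e | M.inc s e}.encard = 3)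
    (hB : ∀ v, v ∈ B ↔ ∀ X : Set V, (M.cut X).encard ≤ 2 → (s ∈ X ↔ v ∈ X))

lemma torso_inc (b : B) (q : LIdx M B) :
    (torso sub br hs hB).inc b q ↔ ∃ e ∈ q.1, M.inc b e := Iff.rfl

lemma exists_edge (sub : M.Subcubic) (hs : {e | M.inc s e}.encard = 3)
    (hB : ∀ v, v ∈ B ↔ ∀ X : Set V, (M.cut X).encard ≤ 2 → (s ∈ X ↔ v ∈ X)) (b : B) :
    ∃ e, M.inc b e := by
  have h := deg_three sub hs hB b.2
  have h2 : {e | M.inc b e}.Nonempty := by
    rw [← Set.encard_pos, h]
    decide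
  exact h2

lemma torso_cubic : (torso sub br hs hB).Cubic := by
  classical
  intro b
  obtain ⟨eb, heb⟩ := exists_edge sub hs hB b
  let g : LIdx M B → E := fun q => if h : ∃ e ∈ q.1, M.inc b e then h.choose else eb
  have hg : ∀ q, (torso sub br hs hB).inc b q → g q ∈ q.1 ∧ M.inc b (g q) := by
    intro q hq
    have hq' : ∃ e ∈ q.1, M.inc b e := hq
    simp only [g, hq', dite_true]
    exact hq'.choose_spec
  have himg : {e | M.inc b e} = g '' {q | (torso sub br hs hB).inc b q} := by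
    ext e
    constructor
    · intro he
      have he' : M.inc b e := he
      have hinc : (torso sub br hs hB).inc b (mkIdx M b e he') := ⟨e, mem_mkIdx b e he', he'⟩
      refine ⟨mkIdx M b e he', hinc, ?_⟩
      obtain ⟨h1, h2⟩ := hg _ hinc
      obtain ⟨_, _, _, _, huniq, _⟩ := idx_key sub br hs hB (mkIdx M b e he')
      exact huniq b _ h1 _ (mem_mkIdx b e he') h2 he'
    · rintro ⟨q, hq, rfl⟩
      exact (hg q hq).2
  have hinj : Set.InjOn g {q | (torso sub br hs hB).inc b q} := by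
    intro q hq q' hq' h
    exact idx_disjoint (hg q hq).1 (h ▸ (hg q' hq').1)
  rw [← hinj.encard_image, ← himg]
  exact deg_three sub hs hB b.2

lemma torso_cut (Y : Set B) (h1 : Y.Nonempty) (h2 : Yᶜ.Nonempty) :
    3 ≤ ((torso sub br hs hB).cut Y).encard := by
  classical
  set J := torso sub br hs hB with hJ
  obtain ⟨b, hbY⟩ := h1
  obtain ⟨c, hcY⟩ := h2
  by_contra hcon
  rw [not_le] at hcon
  have hle : (J.cut Y).encard ≤ 2 := by
    have h3 : (J.cut Y).encard < 2 + 1 := hcon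
    exact (ENat.lt_add_one_iff (by decide)).1 h3
  let X : Set V := {x | (∃ h : x ∈ B, (⟨x, h⟩ : B) ∈ Y) ∨
    (x ∉ B ∧ ∃ q : LIdx M B, ∃ e ∈ q.1, M.inc x e ∧ ∃ b : B, b ∈ Y ∧ J.inc b q)}
  have hXB : ∀ w : B, (w : V) ∈ X ↔ w ∈ Y := by
    intro w
    constructor
    · rintro (⟨_, h⟩ | ⟨h, _⟩)
      · exact h
      · exact absurd w.2 h
    · intro h
      exact Or.inl ⟨w.2, h⟩
  have claim : ∀ e ∈ M.cut X, (∃ y : B, y ∉ Y ∧ M.inc y e) ∧ ∃ q ∈ J.cut Y, e ∈ q.1 := by
    rintro e ⟨x, y, hx, hy, hxX, hyX⟩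
    rcases hxX with ⟨hxB, hxY⟩ | ⟨hxB, q, e', he'q, hxe', b', hb'Y, hb'q⟩
    · have hq : e ∈ (mkIdx M ⟨x, hxB⟩ e hx).1 := mem_mkIdx _ e hx
      have hincx : J.inc ⟨x, hxB⟩ (mkIdx M ⟨x, hxB⟩ e hx) := ⟨e, hq, hx⟩
      by_cases hyB : y ∈ B
      · have hyY : (⟨y, hyB⟩ : B) ∉ Y := fun h => hyX (Or.inl ⟨hyB, h⟩)
        exact ⟨⟨⟨y, hyB⟩, hyY, hy⟩, _, ⟨⟨x, hxB⟩, ⟨y, hyB⟩, hincx, ⟨e, hq, hy⟩, hxY, hyY⟩, hq⟩
      · exact absurd (Or.inr ⟨hyB, _, e, hq, hy, ⟨x, hxB⟩, hxY, hincx⟩) hyX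
    · have heq : e ∈ q.1 := idx_closed hxB he'q hxe' hx
      by_cases hyB : y ∈ B
      · have hyY : (⟨y, hyB⟩ : B) ∉ Y := fun h => hyX (Or.inl ⟨hyB, h⟩)
        exact ⟨⟨⟨y, hyB⟩, hyY, hy⟩, q, ⟨b', ⟨y, hyB⟩, hb'q, ⟨e, heq, hy⟩, hb'Y, hyY⟩, heq⟩
      · exact absurd (Or.inr ⟨hyB, q, e, heq, hy, b', hb'Y, hb'q⟩) hyX
  obtain ⟨eb, heb⟩ := exists_edge sub hs hB b
  have hk : ∀ e, ∃ q : LIdx M B, e ∈ M.cut X → q ∈ J.cut Y ∧ e ∈ q.1 := by
    intro e
    by_cases he : e ∈ M.cut X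
    · obtain ⟨_, q, hq, heq⟩ := claim e he
      exact ⟨q, fun _ => ⟨hq, heq⟩⟩
    · exact ⟨mkIdx M b eb heb, fun h => absurd h he⟩
  choose k hk using hk
  have hinj : Set.InjOn k (M.cut X) := by
    intro e1 he1 e2 he2 h12
    obtain ⟨⟨y1, hy1, hy1e⟩, _⟩ := claim e1 he1
    obtain ⟨⟨y2, hy2, hy2e⟩, _⟩ := claim e2 he2
    obtain ⟨hq1, hm1⟩ := hk e1 he1
    obtain ⟨hq2, hm2⟩ := hk e2 he2
    rw [← h12] at hm2
    obtain ⟨a, a', haa', hends, huniq, _⟩ := idx_key sub br hs hB (k e1)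
    obtain ⟨u, u', hu, hu', huY, hu'Y⟩ := hq1
    have hyy : y1 = y2 := by
      have e1' := (hends y1).1 ⟨e1, hm1, hy1e⟩
      have e2' := (hends y2).1 ⟨e2, hm2, hy2e⟩
      have e3' := (hends u).1 hu
      rcases e1' with rfl | rfl <;> rcases e2' with rfl | rfl <;> rcases e3' with rfl | rfl <;>
        first | rfl | exact absurd huY hy1 | exact absurd huY hy2
    subst hyy
    exact huniq y1 e1 hm1 e2 hm2 hy1e hy2e
  have hMle : (M.cut X).encard ≤ (J.cut Y).encard :=
    Set.encard_le_encard_of_injOn (fun e he => (hk e he).1) hinj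
  have h5 := cls_iff hB b.2 c.2 (hMle.trans hle)
  rw [hXB, hXB] at h5
  exact hcY (h5.1 hbY)

lemma torso_conn : (torso sub br hs hB).Conn := by
  intro Y h1 h2
  have h := torso_cut sub br hs hB Y h1 h2
  rw [← Set.encard_pos]
  exact lt_of_lt_of_le (by decide) h

lemma torso_conn3 : (torso sub br hs hB).Conn3 := by
  intro Y h
  obtain ⟨e, u, v, _, _, hu, hv⟩ := h
  exact torso_cut sub br hs hB Y ⟨u, hu⟩ ⟨v, hv⟩

/-! ### automorphisms -/

/-- inverse automorphism -/
def autoSymm (φ : M.Auto) : M.Auto where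
  v := φ.v.symm
  e := φ.e.symm
  inc_iff x f := by
    rw [← φ.inc_iff]
    simp

/-- composition -/
def autoTrans (φ ψ : M.Auto) : M.Auto where
  v := φ.v.trans ψ.v
  e := φ.e.trans ψ.e
  inc_iff x f := by
    simp only [Equiv.trans_apply]
    rw [ψ.inc_iff, φ.inc_iff]

lemma cut_preimage (φ : M.Auto) (X : Set V) : M.cut (φ.v ⁻¹' X) = φ.e ⁻¹' (M.cut X) := by
  ext e
  constructor
  · rintro ⟨u, v, hu, hv, huX, hvX⟩
    exact ⟨φ.v u, φ.v v, (φ.inc_iff u e).2 hu, (φ.inc_iff v e).2 hv, huX, hvX⟩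
  · rintro ⟨u, v, hu, hv, huX, hvX⟩
    refine ⟨φ.v.symm u, φ.v.symm v, ?_, ?_, ?_, ?_⟩
    · rw [← φ.inc_iff]; simpa using hu
    · rw [← φ.inc_iff]; simpa using hv
    · simpa using huX
    · simpa using hvX

lemma encard_cut_preimage (φ : M.Auto) (X : Set V) :
    (M.cut (φ.v ⁻¹' X)).encard = (M.cut X).encard := by
  rw [cut_preimage, Set.encard_preimage_of_bijective φ.e.bijective]

include hB in
lemma auto_pres (φ : M.Auto) {b : V} (hb : b ∈ B) (hφb : φ.v b ∈ B) (x : V) :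
    x ∈ B ↔ φ.v x ∈ B := by
  have hchar : ∀ b ∈ B, ∀ v, v ∈ B ↔ ∀ X : Set V, (M.cut X).encard ≤ 2 → (b ∈ X ↔ v ∈ X) := by
    intro b hb v
    constructor
    · intro hv X hX
      exact cls_iff hB hb hv hX
    · intro h
      rw [hB]
      intro X hX
      exact (cls_iff hB (s_mem hB) hb hX).trans (h X hX)
  rw [hchar b hb x, hchar _ hφb (φ.v x)]
  constructor
  · intro h X hX
    exact h (φ.v ⁻¹' X) (by rw [encard_cut_preimage]; exact hX)
  · intro h X hX
    have h1 := h (φ.v.symm ⁻¹' X) (by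
      have := encard_cut_preimage (autoSymm φ) X
      change (M.cut ((autoSymm φ).v ⁻¹' X)).encard ≤ 2
      rw [this]; exact hX)
    simpa using h1

lemma link_map (φ : M.Auto) (hφ : ∀ x, x ∈ B ↔ φ.v x ∈ B) (e : E) :
    φ.e '' link M B e = link M B (φ.e e) := by
  ext f
  constructor
  · rintro ⟨e', he', rfl⟩
    have h' : Relation.ReflTransGen (rel M B) e e' := he'
    change Relation.ReflTransGen (rel M B) (φ.e e) (φ.e e')
    refine Relation.ReflTransGen.lift (r := rel M B) (p := rel M B) φ.e ?_ _ _ h'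
    rintro a c ⟨v, hv, h1, h2⟩
    exact ⟨φ.v v, fun h => hv ((hφ v).2 h), (φ.inc_iff v a).2 h1, (φ.inc_iff v c).2 h2⟩
  · intro hf
    refine ⟨φ.e.symm f, ?_, by simp⟩
    have h' : Relation.ReflTransGen (rel M B) (φ.e e) f := hf
    have h3 : ∀ a c, rel M B a c → rel M B (φ.e.symm a) (φ.e.symm c) := by
      rintro a c ⟨v, hv, h1, h2⟩
      refine ⟨φ.v.symm v, fun h => hv ?_, ?_, ?_⟩
      · have := (hφ (φ.v.symm v)).1 h
        simpa using this
      · rw [← φ.inc_iff]; simpa using h1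
      · rw [← φ.inc_iff]; simpa using h2
    have h2 : Relation.ReflTransGen (rel M B) (φ.e.symm (φ.e e)) (φ.e.symm f) :=
      Relation.ReflTransGen.lift (r := rel M B) (p := rel M B) φ.e.symm h3 _ _ h'
    rw [Equiv.symm_apply_apply] at h2
    exact h2

/-- the action on links -/
def idxMap (φ : M.Auto) (hφ : ∀ x, x ∈ B ↔ φ.v x ∈ B) (q : LIdx M B) : LIdx M B :=
  ⟨φ.e '' q.1, by
    obtain ⟨q, e, ⟨b, hb, he⟩, rfl⟩ := q
    exact ⟨φ.e e, ⟨φ.v b, (hφ b).1 hb, (φ.inc_iff b e).2 he⟩, link_map φ hφ e⟩⟩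

lemma symm_pres (φ : M.Auto) (hφ : ∀ x, x ∈ B ↔ φ.v x ∈ B) (x : V) :
    x ∈ B ↔ (autoSymm φ).v x ∈ B := by
  rw [hφ ((autoSymm φ).v x)]
  change x ∈ B ↔ φ.v (φ.v.symm x) ∈ B
  rw [Equiv.apply_symm_apply]

/-- the induced automorphism of the torso -/
def induced (φ : M.Auto) (hφ : ∀ x, x ∈ B ↔ φ.v x ∈ B) : (torso sub br hs hB).Auto where
  v := φ.v.subtypeEquiv hφ
  e :=
    { toFun := idxMap φ hφ
      invFun := idxMap (autoSymm φ) (symm_pres φ hφ)
      left_inv := by
        intro q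
        apply Subtype.ext
        change φ.e.symm '' (φ.e '' q.1) = q.1
        rw [Set.image_image]
        simp
      right_inv := by
        intro q
        apply Subtype.ext
        change φ.e '' (φ.e.symm '' q.1) = q.1
        rw [Set.image_image]
        simp }
  inc_iff x q := by
    change (∃ e ∈ φ.e '' q.1, M.inc (φ.v x) e) ↔ ∃ e ∈ q.1, M.inc x e
    constructor
    · rintro ⟨_, ⟨e, he, rfl⟩, h⟩
      exact ⟨e, he, (φ.inc_iff x e).1 h⟩
    · rintro ⟨e, he, h⟩
      exact ⟨φ.e e, ⟨e, he, rfl⟩, (φ.inc_iff x e).2 h⟩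

lemma torso_qt (qt : M.QT) : (torso sub br hs hB).QT := by
  classical
  obtain ⟨S, hS, hφ⟩ := qt
  let f : V → B := fun x => if h : ∃ b : B, ∃ φ : M.Auto, φ.v b = x then h.choose
    else ⟨s, s_mem hB⟩
  refine ⟨f '' S, hS.image f, ?_⟩
  intro x
  obtain ⟨φ, hφS⟩ := hφ x
  have h : ∃ b : B, ∃ ψ : M.Auto, ψ.v b = φ.v x := ⟨x, φ, rfl⟩
  have hf : f (φ.v x) = h.choose := by simp only [f, h, dite_true]
  obtain ⟨ψ, hψ⟩ := h.choose_spec
  rw [← hf] at hψ
  let χ : M.Auto := autoTrans φ (autoSymm ψ)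
  have hχ : χ.v x = f (φ.v x) := by
    change ψ.v.symm (φ.v x) = _
    rw [Equiv.symm_apply_eq]
    exact hψ.symm
  have hpres := auto_pres hB χ x.2 (by rw [hχ]; exact (f (φ.v x)).2)
  refine ⟨induced sub br hs hB χ hpres, φ.v x, hφS, ?_⟩
  apply Subtype.ext
  exact hχ.symm

/-! ### Kuratowski subgraphs -/

lemma torso_noK33 (noK : ¬ M.K33) : ¬ (torso sub br hs hB).K33 := by
  classical
  rintro ⟨a, c, P, ha, hc, hac, hP, hdis⟩
  apply noK
  choose b b' hne hends huniq hreach using fun q : LIdx M B => idx_key sub br hs hB q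
  have hp : ∀ q : LIdx M B, ∃ T : Finset E, (↑T ⊆ q.1) ∧ M.IsJoin (b q) (b' q) T := fun q =>
    (hreach q).exists_join M (fun h => hne q (Subtype.ext h))
  choose p hpsub hpj using hp
  have hpar : ∀ q v, M.par (p q) v =
      if (∃ h : v ∈ B, (torso sub br hs hB).inc ⟨v, h⟩ q) then 1 else 0 := by
    intro q v
    by_cases h : ∃ h : v ∈ B, (torso sub br hs hB).inc ⟨v, h⟩ q
    · rw [if_pos h]
      obtain ⟨hv, hinc⟩ := h
      rcases (hends q ⟨v, hv⟩).1 hinc with h | h
      · have : v = (b q : V) := congrArg Subtype.val h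
        rw [this]; exact (hpj q).par_left
      · have : v = (b' q : V) := congrArg Subtype.val h
        rw [this]; exact (hpj q).par_right
    · rw [if_neg h]
      apply (hpj q).par_other
      · intro e1
        exact h ⟨e1 ▸ (b q).2, (hends q ⟨v, e1 ▸ (b q).2⟩).2 (Or.inl (Subtype.ext e1))⟩
      · intro e1
        exact h ⟨e1 ▸ (b' q).2, (hends q ⟨v, e1 ▸ (b' q).2⟩).2 (Or.inr (Subtype.ext e1))⟩
  have hsum : ∀ (T : Finset (LIdx M B)) (v : V),
      M.par (T.biUnion p) v = ∑ q ∈ T, M.par (p q) v := by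
    intro T v
    induction T using Finset.induction_on with
    | empty => rw [Finset.biUnion_empty, Finset.sum_empty]; exact M.par_empty v
    | insert q T hq ih =>
      rw [Finset.biUnion_insert, Finset.sum_insert hq, ← ih]
      apply M.par_union
      rw [Finset.disjoint_left]
      intro e he he'
      rw [Finset.mem_biUnion] at he'
      obtain ⟨q', hq', he'⟩ := he'
      have : q = q' := idx_disjoint (hpsub q he) (hpsub q' he')
      exact hq (this ▸ hq')
  have hjoin : ∀ (x y : B) (T : Finset (LIdx M B)), (torso sub br hs hB).IsJoin x y T →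
      M.IsJoin x y (T.biUnion p) := by
    intro x y T hT
    rw [isJoin_iff]
    intro v
    rw [hsum]
    by_cases hv : v ∈ B
    · have h1 : ∑ q ∈ T, M.par (p q) v = (torso sub br hs hB).par T ⟨v, hv⟩ := by
        rw [par_eq_sum]
        refine Finset.sum_congr rfl (fun q _ => ?_)
        rw [hpar]
        by_cases h : (torso sub br hs hB).inc ⟨v, hv⟩ q
        · rw [if_pos ⟨hv, h⟩, if_pos h]
        · rw [if_neg (fun h' => h h'.2), if_neg h]
      rw [h1, ((torso sub br hs hB).isJoin_iff).1 hT ⟨v, hv⟩]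
      constructor
      · rintro (h | h)
        · exact Or.inl (congrArg Subtype.val h)
        · exact Or.inr (congrArg Subtype.val h)
      · rintro (h | h)
        · exact Or.inl (Subtype.ext h)
        · exact Or.inr (Subtype.ext h)
    · have h1 : ∑ q ∈ T, M.par (p q) v = 0 := by
        apply Finset.sum_eq_zero
        intro q _
        rw [hpar, if_neg (fun h' => hv h'.1)]
      rw [h1]
      constructor
      · intro h; exact absurd h (by decide)
      · rintro (rfl | rfl)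
        · exact absurd x.2 hv
        · exact absurd y.2 hv
  refine ⟨fun i => (a i : V), fun i => (c i : V), fun i j => (P i j).biUnion p, ?_, ?_, ?_, ?_, ?_⟩
  · intro i j h
    exact ha (Subtype.ext h)
  · intro i j h
    exact hc (Subtype.ext h)
  · intro i j h
    exact hac i j (Subtype.ext h)
  · intro i j
    exact hjoin _ _ _ (hP i j)
  · intro i j i' j' hne'
    rw [Finset.disjoint_left]
    intro e he he'
    rw [Finset.mem_biUnion] at he he'
    obtain ⟨q, hq, heq⟩ := he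
    obtain ⟨q', hq', heq'⟩ := he'
    have : q = q' := idx_disjoint (hpsub q heq) (hpsub q' heq')
    subst this
    exact (Finset.disjoint_left.1 (hdis i j i' j' hne')) hq hq'

end main

end cls

end Torso

end MG

open MG.Torso in
theorem T6a_torso {V E : Type} (M : MG V E) (sub : M.Subcubic) (br : M.Bridgeless) (qt : M.QT)
    (noK : ¬ M.K33) (s : V) (hs : {e | M.inc s e}.encard = 3) (B : Set V)
    (hB : ∀ v, v ∈ B ↔ ∀ X : Set V, (M.cut X).encard ≤ 2 → (s ∈ X ↔ v ∈ X)) :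
    ∃ (E' : Type) (J : MG B E') (lk : E' → Set E),
      J.Cubic ∧ J.Conn ∧ J.Conn3 ∧ J.QT ∧ ¬ J.K33 ∧
      (∀ q q' e, e ∈ lk q → e ∈ lk q' → q = q') ∧
      (∀ (b : B) e, M.inc b e → ∃ q, e ∈ lk q) ∧
      (∀ (b : B) q, J.inc b q ↔ ∃ e ∈ lk q, M.inc b e) ∧
      (∀ (b : B) q e e', e ∈ lk q → e' ∈ lk q → M.inc b e → M.inc b e' → e = e') ∧
      (∀ q v e e', v ∉ B → e ∈ lk q → M.inc v e → M.inc v e' → e' ∈ lk q) := by
  refine ⟨LIdx M B, torso sub br hs hB, fun q => q.1, torso_cubic sub br hs hB,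
    torso_conn sub br hs hB, torso_conn3 sub br hs hB, torso_qt sub br hs hB qt,
    torso_noK33 sub br hs hB noK, ?_, ?_, ?_, ?_, ?_⟩
  · intro q q' e h h'
    exact idx_disjoint h h'
  · intro b e he
    exact ⟨mkIdx M b e he, mem_mkIdx b e he⟩
  · intro b q
    exact Iff.rfl
  · intro b q e e' h1 h2 h3 h4
    obtain ⟨_, _, _, _, huniq, _⟩ := idx_key sub br hs hB q
    exact huniq b e h1 e' h2 h3 h4
  · intro q v e e' hv he h1 h2
    exact idx_closed hv he h1 h2

end Pool.Agent.MP_57dfd7_co
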