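import Pool.Agent.MP_57dfd7_co.T0

/-!
T6b: bounded generation of the cycle space for subcubic bridgeless quasi-transitive multigraphs
without `K33`, from the statement about torsos.
-/

namespace Pool.Agent.MP_57dfd7_co

/-- The statement of `T6a_torso` (to be proved separately). -/
def TorsoStatement : Prop :=
  ∀ {V E : Type} (M : MG V E), M.Subcubic → M.Bridgeless → M.QT → ¬ M.K33 →
    ∀ s : V, {e | M.inc s e}.encard = 3 → ∀ B : Set V,
    (∀ v, v ∈ B ↔ ∀ X : Set V, (M.cut X).encard ≤ 2 → (s ∈ X ↔ v ∈ X)) →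
    ∃ (E' : Type) (J : MG B E') (lk : E' → Set E),
      J.Cubic ∧ J.Conn ∧ J.Conn3 ∧ J.QT ∧ ¬ J.K33 ∧
      (∀ q q' e, e ∈ lk q → e ∈ lk q' → q = q') ∧
      (∀ (b : B) e, M.inc b e → ∃ q, e ∈ lk q) ∧
      (∀ (b : B) q, J.inc b q ↔ ∃ e ∈ lk q, M.inc b e) ∧
      (∀ (b : B) q e e', e ∈ lk q → e' ∈ lk q → M.inc b e → M.inc b e' → e = e') ∧
      (∀ q v e e', v ∉ B → e ∈ lk q → M.inc v e → M.inc v e' → e' ∈ lk q)

namespace T6b

open MG

variable {V E : Type}

/-! ### Generation -/

theorem gen_mono {P Q : Finset E → Prop} (h : ∀ z, P z → Q z) {z : Finset E} (hz : Gen P z) :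
    Gen Q z := by
  induction hz with
  | zero => exact Gen.zero
  | add h1 _ h3 ih => exact Gen.add (h _ h1) ih h3

theorem gen_single {P : Finset E → Prop} {z : Finset E} (hz : P z) : Gen P z :=
  Gen.add hz Gen.zero (by intro e; simp [Xor])

theorem gen_add {P : Finset E → Prop} {z w : Finset E} (hz : Gen P z) (hw : Gen P w) :
    ∀ t : Finset E, (∀ e, e ∈ t ↔ Xor (e ∈ z) (e ∈ w)) → Gen P t := by
  classical
  induction hz with
  | zero =>
    intro t ht
    have : t = w := by
      ext e
      rw [ht]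
      simp [Xor]
    rw [this]
    exact hw
  | @add z₀ w₀ t₀ h1 _ h3 ih =>
    intro t ht
    refine Gen.add h1 (ih (symmDiff w₀ w) (fun e => by rw [Finset.mem_symmDiff]; rfl)) ?_
    intro e
    rw [ht, h3, Finset.mem_symmDiff]
    unfold Xor
    tauto

theorem gen_symmDiff [DecidableEq E] {P : Finset E → Prop} {z w : Finset E} (hz : Gen P z)
    (hw : Gen P w) : Gen P (symmDiff z w) :=
  gen_add hz hw _ (fun e => by rw [Finset.mem_symmDiff]; rfl)

variable {M : MG V E}

/-! ### Automorphisms -/

/-- image of an edge set -/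
def img (φ : M.Auto) (z : Finset E) : Finset E := z.map φ.e.toEmbedding

theorem mem_img {φ : M.Auto} {z : Finset E} {e : E} : e ∈ img φ z ↔ φ.e.symm e ∈ z := by
  unfold img
  rw [Finset.mem_map]
  constructor
  · rintro ⟨a, ha, rfl⟩
    simpa using ha
  · intro h
    exact ⟨φ.e.symm e, h, by simp⟩

theorem apply_mem_img {φ : M.Auto} {z : Finset E} {e : E} : φ.e e ∈ img φ z ↔ e ∈ z := by
  rw [mem_img]; simp

theorem card_img (φ : M.Auto) (z : Finset E) : (img φ z).card = z.card := Finset.card_map _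

/-- the inverse automorphism -/
def inv (φ : M.Auto) : M.Auto where
  v := φ.v.symm
  e := φ.e.symm
  inc_iff := by
    intro x f
    have := φ.inc_iff (φ.v.symm x) (φ.e.symm f)
    simpa using this.symm

theorem inv_img (φ : M.Auto) (z : Finset E) : img (inv φ) (img φ z) = z := by
  ext e
  rw [mem_img, mem_img]
  simp [inv]

theorem deg_img (φ : M.Auto) (z : Finset E) (x : V) : M.deg (img φ z) (φ.v x) = M.deg z x := by
  classical
  rw [deg_def, deg_def, img, Finset.filter_map, Finset.card_map]
  congr 1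
  ext e
  simp only [Finset.mem_filter, Function.comp]
  have := φ.inc_iff x e
  simp only [Equiv.coe_toEmbedding, this]

theorem isEven_img (φ : M.Auto) {z : Finset E} (hz : M.IsEven z) : M.IsEven (img φ z) := by
  intro x
  have := deg_img φ z (φ.v.symm x)
  rw [Equiv.apply_symm_apply] at this
  rw [this]
  exact hz _

theorem gen_img (φ : M.Auto) {L : ℕ} {z : Finset E}
    (hz : Gen (fun w => M.IsEven w ∧ w.card ≤ L) z) :
    Gen (fun w => M.IsEven w ∧ w.card ≤ L) (img φ z) := by
  induction hz with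
  | zero => exact Gen.zero
  | @add z w t h1 _ h3 ih =>
    refine Gen.add (z := img φ z) ⟨isEven_img φ h1.1, by rw [card_img]; exact h1.2⟩ ih ?_
    intro e
    rw [mem_img, mem_img, mem_img, h3]

/-! ### Bad sets -/

variable (M)

/-- smallest even sets that are not sums of even sets of size at most `L` -/
def Bad (L : ℕ) (C : Finset E) : Prop :=
  M.IsEven C ∧ ¬ Gen (fun w => M.IsEven w ∧ w.card ≤ L) C ∧
    ∀ w, M.IsEven w → w.card < C.card → Gen (fun w => M.IsEven w ∧ w.card ≤ L) w

variable {M}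

theorem bad_img (φ : M.Auto) {L : ℕ} {C : Finset E} (h : Bad M L C) : Bad M L (img φ C) := by
  refine ⟨isEven_img φ h.1, ?_, ?_⟩
  · intro hg
    have := gen_img (inv φ) hg
    rw [inv_img] at this
    exact h.2.1 this
  · intro w hw hc
    rw [card_img] at hc
    exact h.2.2 w hw hc

theorem Bad.lt_card {L : ℕ} {C : Finset E} (h : Bad M L C) : L < C.card := by
  by_contra hlt
  push Not at hlt
  exact h.2.1 (gen_single ⟨h.1, hlt⟩)

theorem Bad.isCircuit {L : ℕ} {C : Finset E} (h : Bad M L C) : M.IsCircuit C := by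
  classical
  refine ⟨h.1, ?_, ?_⟩
  · rw [← Finset.card_pos]
    exact (Nat.zero_le L).trans_lt h.lt_card
  · intro w hwC hw hne
    by_contra hcon
    have hss : w ⊂ C := Finset.ssubset_iff_subset_ne.2 ⟨hwC, hcon⟩
    have h1 := h.2.2 w hw (Finset.card_lt_card hss)
    have h2 := h.2.2 (C \ w) (IsEven.sdiff M h.1 hw hwC) (by
      rw [Finset.card_sdiff_of_subset hwC]
      have := Finset.card_pos.2 hne
      have := Finset.card_le_card hwC
      omega)
    apply h.2.1
    refine gen_add h1 h2 C ?_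
    intro e
    rw [Finset.mem_sdiff]
    have := @hwC e
    unfold Xor
    tauto

/-- The three parts of an edge set. -/
theorem card_le_inside (z : Finset E) (X : Set V) [DecidablePred (· ∈ M.cut X)] :
    z.card ≤ (M.inside z X).card + (M.inside z Xᶜ).card + (z.filter (· ∈ M.cut X)).card := by
  classical
  have hsub : z ⊆ (M.inside z X ∪ M.inside z Xᶜ) ∪ z.filter (· ∈ M.cut X) := by
    intro e he
    obtain ⟨u, v, huv, hu, hv, hw⟩ := M.exists_ends e
    by_cases hX : e ∈ M.cut X
    · exact Finset.mem_union_right _ (Finset.mem_filter.2 ⟨he, hX⟩)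
    · apply Finset.mem_union_left
      by_cases huX : u ∈ X
      · apply Finset.mem_union_left
        rw [mem_inside]
        refine ⟨he, fun w hwe => ?_⟩
        by_contra hwX
        exact hX ⟨u, w, hu, hwe, huX, hwX⟩
      · apply Finset.mem_union_right
        rw [mem_inside]
        refine ⟨he, fun w hwe hwX => ?_⟩
        exact hX ⟨w, u, hwe, hu, hwX, huX⟩
  calc z.card ≤ _ := Finset.card_le_card hsub
    _ ≤ (M.inside z X ∪ M.inside z Xᶜ).card + (z.filter (· ∈ M.cut X)).card :=
        Finset.card_union_le _ _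
    _ ≤ _ := by
        have := Finset.card_union_le (M.inside z X) (M.inside z Xᶜ)
        omega

theorem disjoint_inside (z : Finset E) (X : Set V) :
    Disjoint (M.inside z X) (M.inside z Xᶜ) := by
  rw [Finset.disjoint_left]
  intro e h1 h2
  obtain ⟨u, v, huv, hu, hv, hw⟩ := M.exists_ends e
  exact ((M.mem_inside).1 h2).2 u hu (((M.mem_inside).1 h1).2 u hu)

/-- par only depends on the edges at the vertex -/
theorem par_congr {z w : Finset E} {v : V} (h : ∀ e, M.inc v e → (e ∈ z ↔ e ∈ w)) :
    M.par z v = M.par w v := by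
  classical
  rw [par, par, deg_def, deg_def]
  congr 2
  ext e
  rw [Finset.mem_filter, Finset.mem_filter]
  constructor
  · rintro ⟨h1, h2⟩; exact ⟨(h e h2).1 h1, h2⟩
  · rintro ⟨h1, h2⟩; exact ⟨(h e h2).2 h1, h2⟩

/-- Step (4). -/
theorem dichotomy {L g : ℕ} {C : Finset E} (h : Bad M L C) (hg : g ≤ L)
    (hO : ∀ e, ∃ O : Finset E, M.IsEven O ∧ e ∈ O ∧ O.card ≤ g)
    {X : Set V} {a b : E} (hab : a ≠ b) (hcut : M.cut X = {a, b}) (ha : a ∈ C) (hb : b ∈ C) :
    (M.inside C X).card ≤ g ∨ (M.inside C Xᶜ).card ≤ g := by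
  classical
  by_contra hcon
  push Not at hcon
  obtain ⟨hc1, hc2⟩ := hcon
  obtain ⟨O, hOe, haO, hOc⟩ := hO a
  have hacut : a ∈ M.cut X := by rw [hcut]; exact Or.inl rfl
  have hbO : b ∈ O := by
    obtain ⟨e', he', hc', hne⟩ := hOe.exists_ne_mem_cut M haO hacut
    rw [hcut] at hc'
    rcases hc' with rfl | rfl
    · exact absurd rfl hne
    · exact he'
  let ins : E → Prop := fun e => ∀ v, M.inc v e → v ∈ X
  have hinsC : M.inside C X = C.filter ins := by
    ext e; rw [mem_inside, Finset.mem_filter]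
  set Z1 : Finset E := C.filter ins ∪ O.filter (fun e => ¬ ins e) with hZ1
  set Z2 : Finset E := O.filter ins ∪ C.filter (fun e => ¬ ins e) with hZ2
  have hcutins : ∀ e v, M.inc v e → v ∈ X → ¬ ins e → e ∈ M.cut X := by
    intro e v hv hvX hni
    have : ∃ w, M.inc w e ∧ w ∉ X := by
      by_contra hcon
      push Not at hcon
      exact hni hcon
    obtain ⟨w, hw, hwX⟩ := this
    exact ⟨v, w, hv, hw, hvX, hwX⟩
  have both : ∀ e, e ∈ M.cut X → e ∈ C ∧ e ∈ O := by
    intro e he
    rw [hcut] at he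
    rcases he with rfl | rfl
    · exact ⟨ha, haO⟩
    · exact ⟨hb, hbO⟩
  have hZ1e : M.IsEven Z1 := by
    rw [isEven_iff]
    intro v
    by_cases hv : v ∈ X
    · rw [par_congr (w := C)]
      · exact (M.isEven_iff).1 h.1 v
      · intro e he
        rw [hZ1, Finset.mem_union, Finset.mem_filter, Finset.mem_filter]
        by_cases hi : ins e
        · simp [hi]
        · have := both e (hcutins e v he hv hi)
          simp [hi, this.1, this.2]
    · rw [par_congr (w := O)]
      · exact (M.isEven_iff).1 hOe v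
      · intro e he
        have hi : ¬ ins e := fun hi => hv (hi v he)
        rw [hZ1, Finset.mem_union, Finset.mem_filter, Finset.mem_filter]
        simp [hi]
  have hZ2e : M.IsEven Z2 := by
    rw [isEven_iff]
    intro v
    by_cases hv : v ∈ X
    · rw [par_congr (w := O)]
      · exact (M.isEven_iff).1 hOe v
      · intro e he
        rw [hZ2, Finset.mem_union, Finset.mem_filter, Finset.mem_filter]
        by_cases hi : ins e
        · simp [hi]
        · have := both e (hcutins e v he hv hi)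
          simp [hi, this.1, this.2]
    · rw [par_congr (w := C)]
      · exact (M.isEven_iff).1 h.1 v
      · intro e he
        have hi : ¬ ins e := fun hi => hv (hi v he)
        rw [hZ2, Finset.mem_union, Finset.mem_filter, Finset.mem_filter]
        simp [hi]
  have hcardC : (C.filter ins).card + (C.filter (fun e => ¬ ins e)).card = C.card :=
    Finset.card_filter_add_card_filter_not _
  have hsub2 : M.inside C Xᶜ ⊆ C.filter (fun e => ¬ ins e) := by
    intro e he
    rw [mem_inside] at he
    rw [Finset.mem_filter]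
    refine ⟨he.1, fun hi => ?_⟩
    obtain ⟨u, v, huv, hu, hv, hw⟩ := M.exists_ends e
    exact he.2 u hu (hi u hu)
  have h2 := Finset.card_le_card hsub2
  rw [hinsC] at hc1
  have hZ1c : Z1.card < C.card := by
    have h3 := Finset.card_union_le (C.filter ins) (O.filter (fun e => ¬ ins e))
    have h4 : (O.filter (fun e => ¬ ins e)).card ≤ O.card := Finset.card_filter_le _ _
    rw [hZ1]
    omega
  have hZ2c : Z2.card < C.card := by
    have h3 := Finset.card_union_le (O.filter ins) (C.filter (fun e => ¬ ins e))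
    have h4 : (O.filter ins).card ≤ O.card := Finset.card_filter_le _ _
    rw [hZ2]
    omega
  have hOc' : O.card < C.card := by
    have := h.lt_card
    omega
  have g1 := h.2.2 Z1 hZ1e hZ1c
  have g2 := h.2.2 Z2 hZ2e hZ2c
  have g3 := h.2.2 O hOe hOc'
  apply h.2.1
  refine gen_add (gen_symmDiff g1 g2) g3 C ?_
  intro e
  rw [Finset.mem_symmDiff, hZ1, hZ2, Finset.mem_union, Finset.mem_union, Finset.mem_filter,
    Finset.mem_filter, Finset.mem_filter, Finset.mem_filter]
  unfold Xor
  by_cases hi : ins e <;> simp only [hi, not_true, not_false_eq_true, and_true, and_false,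
    or_false, false_or] <;> tauto

/-! ### Parity tools -/

/-- handshake lemma for a set with at most two odd vertices -/
theorem par_eq_of_handshake {z : Finset E} {b b' : V} (hbb : b ≠ b')
    (h : ∀ v, v ≠ b → v ≠ b' → M.par z v = 0) : M.par z b = M.par z b' := by
  classical
  obtain ⟨W, hW, hsum⟩ := M.card_inter_cut_parity z Set.univ
  have h0 : (z.filter (fun e => e ∈ M.cut Set.univ)) = ∅ := by
    ext e
    simp only [Finset.mem_filter, Finset.notMem_empty, iff_false, not_and]
    rintro _ ⟨u, v, _, _, _, hv⟩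
    exact hv (Set.mem_univ v)
  rw [h0, Finset.card_empty, Nat.cast_zero] at hsum
  simp only [Set.mem_univ, if_true] at hsum
  have h1 : ∑ v ∈ W, M.par z v = ∑ v ∈ ({b, b'} : Finset V), M.par z v := by
    have e1 : ∑ v ∈ W, M.par z v = ∑ v ∈ W ∪ {b, b'}, M.par z v := by
      apply Finset.sum_subset Finset.subset_union_left
      intro v _ hv
      by_contra hcon
      exact hv (hW v hcon)
    rw [e1]
    symm
    apply Finset.sum_subset Finset.subset_union_right
    intro v _ hv
    rw [Finset.mem_insert, Finset.mem_singleton] at hv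
    push Not at hv
    exact h v hv.1 hv.2
  rw [h1, Finset.sum_pair hbb] at hsum
  have h2 : ∀ x y : ZMod 2, 0 = x + y → x = y := by decide
  exact h2 _ _ hsum

theorem par_biUnion {ι : Type} [DecidableEq E] (s : Finset ι) (f : ι → Finset E)
    (hd : ∀ i ∈ s, ∀ j ∈ s, ∀ e, e ∈ f i → e ∈ f j → i = j) (v : V) :
    M.par (s.biUnion f) v = ∑ i ∈ s, M.par (f i) v := by
  classical
  rw [par_eq_sum, Finset.sum_biUnion]
  · exact Finset.sum_congr rfl fun i _ => (M.par_eq_sum _ _).symm
  · intro i hi j hj hij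
    rw [Function.onFun, Finset.disjoint_left]
    intro e he he'
    exact hij (hd i hi j hj e he he')

theorem par_singleton {e : E} {v : V} [Decidable (M.inc v e)] :
    M.par {e} v = if M.inc v e then 1 else 0 := by
  classical
  rw [par_eq_sum, Finset.sum_singleton]
  by_cases h : M.inc v e <;> simp [h]

/-! ### The torso at a vertex of degree three -/

/-- The torso data at `s` with `GenBy` constant `Ls`. -/
def TorsoData (M : MG V E) (s : V) (Ls : ℕ) : Prop :=
  ∃ (B : Set V) (E' : Type) (J : MG B E') (lk : E' → Set E), s ∈ B ∧ J.GenBy Ls ∧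
      (∀ q q' e, e ∈ lk q → e ∈ lk q' → q = q') ∧
      (∀ (b : B) e, M.inc b e → ∃ q, e ∈ lk q) ∧
      (∀ (b : B) q, J.inc b q ↔ ∃ e ∈ lk q, M.inc b e) ∧
      (∀ (b : B) q e e', e ∈ lk q → e' ∈ lk q → M.inc b e → M.inc b e' → e = e') ∧
      (∀ q v e e', v ∉ B → e ∈ lk q → M.inc v e → M.inc v e' → e' ∈ lk q)

/-- Step (5) at a vertex with a torso. -/
theorem exists_X_of_torso {L g Ls : ℕ} {C : Finset E} (h : Bad M L C) (hg : 2 * g + 2 ≤ L)
    (hLs : g * Ls ≤ L)
    (hO : ∀ e, ∃ O : Finset E, M.IsEven O ∧ e ∈ O ∧ O.card ≤ g)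
    {s : V} (hs : s ∈ M.verts C) (ht : TorsoData M s Ls) :
    ∃ (X : Set V) (a b : E), s ∈ X ∧ a ≠ b ∧ M.cut X = {a, b} ∧ a ∈ C ∧ b ∈ C ∧
      (M.inside C X).card ≤ g := by
  classical
  obtain ⟨B, E', J, lk, hsB, hgen, hdis, hcov, hinc, huniq, hout⟩ := ht
  have hcirc := h.isCircuit
  -- restriction to a link
  let res : Finset E → E' → Finset E := fun z q => z.filter (· ∈ lk q)
  have mem_res : ∀ z q e, e ∈ res z q ↔ e ∈ z ∧ e ∈ lk q := fun z q e => Finset.mem_filter
  -- parity outside of `B`
  have res_out : ∀ z, M.IsEven z → ∀ q v, v ∉ B → M.par (res z q) v = 0 := by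
    intro z hz q v hv
    by_cases hex : ∃ e ∈ lk q, M.inc v e
    · obtain ⟨e, he, hve⟩ := hex
      rw [par_congr (w := z)]
      · exact (M.isEven_iff).1 hz v
      · intro e' he'
        rw [mem_res]
        exact ⟨fun h => h.1, fun h => ⟨h, hout q v e e' hv he hve he'⟩⟩
    · push Not at hex
      apply M.par_eq_zero_of_not_mem_verts
      rintro ⟨e, he, hve⟩
      exact hex e ((mem_res _ _ _).1 he).2 hve
  have res_notinc : ∀ z q (b : B), ¬ J.inc b q → M.par (res z q) b = 0 := by
    intro z q b hb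
    apply M.par_eq_zero_of_not_mem_verts
    rintro ⟨e, he, hve⟩
    exact hb ((hinc b q).2 ⟨e, ((mem_res _ _ _).1 he).2, hve⟩)
  have res_one : ∀ z q (b : B) e, e ∈ z → e ∈ lk q → M.inc b e → M.par (res z q) b = 1 := by
    intro z q b e he heq hbe
    have : M.par (res z q) b = M.par {e} b := by
      apply par_congr
      intro e' he'
      rw [mem_res, Finset.mem_singleton]
      constructor
      · rintro ⟨_, h2⟩
        exact huniq b q e' e h2 heq he' hbe
      · rintro rfl
        exact ⟨he, heq⟩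
    rw [this, par_singleton, if_pos hbe]
  have res_mem : ∀ z q (b : B), M.par (res z q) b = 1 → ∃ e ∈ z, e ∈ lk q ∧ M.inc b e := by
    intro z q b hb
    have := M.mem_verts_of_par (z := res z q) (v := b) (by rw [hb]; decide)
    obtain ⟨e, he, hbe⟩ := this
    exact ⟨e, ((mem_res _ _ _).1 he).1, ((mem_res _ _ _).1 he).2, hbe⟩
  -- Key parity statement
  have KP : ∀ z, M.IsEven z → ∀ q, (∃ e ∈ z, e ∈ lk q ∧ ∃ b : B, M.inc b e) →
      ∀ b : B, M.par (res z q) b = if J.inc b q then 1 else 0 := by
    intro z hz q hex b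
    obtain ⟨e, hez, heq, b0, hb0⟩ := hex
    obtain ⟨b1, b2, hb12, hends⟩ := J.two q
    have h0 : M.par (res z q) b0 = 1 := res_one z q b0 e hez heq hb0
    have hb0J : J.inc b0 q := (hinc b0 q).2 ⟨e, heq, hb0⟩
    have hhs : M.par (res z q) b1 = M.par (res z q) b2 := by
      apply par_eq_of_handshake
      · intro heq; exact hb12 (Subtype.ext heq)
      · intro v hv1 hv2
        by_cases hvB : v ∈ B
        · apply res_notinc z q ⟨v, hvB⟩
          rw [hends]
          rintro (h' | h')
          · exact hv1 (congrArg Subtype.val h')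
          · exact hv2 (congrArg Subtype.val h')
        · exact res_out z hz q v hvB
    by_cases hb : J.inc b q
    · rw [if_pos hb]
      rcases (hends b0).1 hb0J with rfl | rfl <;> rcases (hends b).1 hb with rfl | rfl
      · exact h0
      · rw [← hhs]; exact h0
      · rw [hhs]; exact h0
      · exact h0
    · rw [if_neg hb]
      exact res_notinc z q b hb
  -- joins in the links
  have hP : ∀ q, ∃ P : Finset E, (∀ e ∈ P, e ∈ lk q) ∧ P.card ≤ g ∧
      (∀ v, v ∉ B → M.par P v = 0) ∧ ∀ b : B, M.par P b = if J.inc b q then 1 else 0 := by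
    intro q
    obtain ⟨b1, b2, hb12, hends⟩ := J.two q
    obtain ⟨e1, he1, hb1⟩ := (hinc b1 q).1 ((hends b1).2 (Or.inl rfl))
    obtain ⟨O, hOe, he1O, hOc⟩ := hO e1
    refine ⟨res O q, fun e he => ((mem_res _ _ _).1 he).2,
      (Finset.card_filter_le _ _).trans hOc, fun v hv => res_out O hOe q v hv,
      KP O hOe q ⟨e1, he1O, he1, b1, hb1⟩⟩
  choose P hPlk hPc hPout hPB using hP
  -- the set of links used by `C`
  have hfin : {q : E' | ∃ e ∈ C, e ∈ lk q ∧ ∃ b : B, M.inc b e}.Finite := by
    have hsub : {q : E' | ∃ e ∈ C, e ∈ lk q ∧ ∃ b : B, M.inc b e} ⊆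
        ⋃ e ∈ (C : Set E), {q | e ∈ lk q} := by
      rintro q ⟨e, he, heq, -⟩
      rw [Set.mem_iUnion₂]
      exact ⟨e, he, heq⟩
    refine Set.Finite.subset (Set.Finite.biUnion C.finite_toSet fun e _ => ?_) hsub
    apply Set.Subsingleton.finite
    intro q hq q' hq'
    exact hdis q q' e hq hq'
  let z' : Finset E' := hfin.toFinset
  have mem_z' : ∀ q, q ∈ z' ↔ ∃ e ∈ C, e ∈ lk q ∧ ∃ b : B, M.inc b e := by
    intro q
    simp [z']
  have hdisres : ∀ z, ∀ i ∈ z', ∀ j ∈ z', ∀ e, e ∈ res z i → e ∈ res z j → i = j := by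
    intro z i _ j _ e hi hj
    exact hdis i j e ((mem_res _ _ _).1 hi).2 ((mem_res _ _ _).1 hj).2
  -- `C` is the union of its restrictions
  have hCB_B : ∀ b : B, M.par (z'.biUnion (res C)) b = M.par C b := by
    intro b
    apply par_congr
    intro e hbe
    rw [Finset.mem_biUnion]
    constructor
    · rintro ⟨q, _, hq⟩; exact ((mem_res _ _ _).1 hq).1
    · intro he
      obtain ⟨q, hq⟩ := hcov b e hbe
      exact ⟨q, (mem_z' q).2 ⟨e, he, hq, b, hbe⟩, (mem_res _ _ _).2 ⟨he, hq⟩⟩
  have hCBe : M.IsEven (z'.biUnion (res C)) := by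
    rw [isEven_iff]
    intro v
    by_cases hv : v ∈ B
    · have := hCB_B ⟨v, hv⟩
      rw [this]
      exact (M.isEven_iff).1 h.1 v
    · rw [par_biUnion z' (res C) (hdisres C)]
      apply Finset.sum_eq_zero
      intro q _
      exact res_out C h.1 q v hv
  have hCB : z'.biUnion (res C) = C := by
    apply hcirc.2.2 _ _ hCBe
    · obtain ⟨e, he, hse⟩ := hs
      obtain ⟨q, hq⟩ := hcov ⟨s, hsB⟩ e hse
      refine ⟨e, Finset.mem_biUnion.2 ⟨q, (mem_z' q).2 ⟨e, he, hq, ⟨s, hsB⟩, hse⟩, ?_⟩⟩
      exact (mem_res _ _ _).2 ⟨he, hq⟩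
    · intro e he
      rw [Finset.mem_biUnion] at he
      obtain ⟨q, _, hq⟩ := he
      exact ((mem_res _ _ _).1 hq).1
  have KPC : ∀ q ∈ z', ∀ b : B, M.par (res C q) b = if J.inc b q then 1 else 0 := by
    intro q hq
    exact KP C h.1 q ((mem_z' q).1 hq)
  -- `z'` is even
  have hz'e : J.IsEven z' := by
    rw [isEven_iff]
    intro b
    have h1 : J.par z' b = ∑ q ∈ z', M.par (res C q) b := by
      rw [par_eq_sum]
      refine Finset.sum_congr rfl fun q hq => ?_
      rw [KPC q hq]
    rw [h1, ← par_biUnion z' (res C) (hdisres C), hCB]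
    exact (M.isEven_iff).1 h.1 b
  -- the map `Φ`
  have hPdis : ∀ i j e, e ∈ P i → e ∈ P j → i = j := fun i j e hi hj =>
    hdis i j e (hPlk i e hi) (hPlk j e hj)
  have hΦeven : ∀ w : Finset E', J.IsEven w → M.IsEven (w.biUnion P) := by
    intro w hw
    rw [isEven_iff]
    intro v
    rw [par_biUnion w P (fun i _ j _ e hi hj => hPdis i j e hi hj)]
    by_cases hv : v ∈ B
    · have h1 : ∑ i ∈ w, M.par (P i) v = J.par w ⟨v, hv⟩ := by
        rw [par_eq_sum]
        refine Finset.sum_congr rfl fun q _ => ?_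
        exact hPB q ⟨v, hv⟩
      rw [h1]
      exact (J.isEven_iff).1 hw _
    · exact Finset.sum_eq_zero fun q _ => hPout q v hv
  have hΦcard : ∀ w : Finset E', (w.biUnion P).card ≤ g * w.card := by
    intro w
    refine (Finset.card_biUnion_le_card_mul w P g fun q _ => hPc q).trans ?_
    rw [mul_comm]
  have hΦgen : ∀ w : Finset E', Gen (fun w => J.IsEven w ∧ w.card ≤ Ls) w →
      Gen (fun w => M.IsEven w ∧ w.card ≤ L) (w.biUnion P) := by
    intro w hw
    induction hw with
    | zero => rw [Finset.biUnion_empty]; exact Gen.zero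
    | @add z w t h1 _ h3 ih =>
      refine Gen.add (z := z.biUnion P) ⟨hΦeven z h1.1, ?_⟩ ih ?_
      · exact (hΦcard z).trans ((Nat.mul_le_mul_left g h1.2).trans hLs)
      · intro e
        have key : ∀ u : Finset E', e ∈ u.biUnion P ↔ ∃ q ∈ u, e ∈ P q := fun u =>
          Finset.mem_biUnion
        rw [key, key, key]
        constructor
        · rintro ⟨q, hq, he⟩
          rcases (h3 q).1 hq with ⟨hq1, hq2⟩ | ⟨hq1, hq2⟩
          · left
            refine ⟨⟨q, hq1, he⟩, ?_⟩
            rintro ⟨q', hq', he'⟩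
            rw [hPdis q q' e he he'] at hq2
            exact hq2 hq'
          · right
            refine ⟨⟨q, hq1, he⟩, ?_⟩
            rintro ⟨q', hq', he'⟩
            rw [hPdis q q' e he he'] at hq2
            exact hq2 hq'
        · rintro (⟨⟨q, hq, he⟩, hn⟩ | ⟨⟨q, hq, he⟩, hn⟩)
          · exact ⟨q, (h3 q).2 (Or.inl ⟨hq, fun hq' => hn ⟨q, hq', he⟩⟩), he⟩
          · exact ⟨q, (h3 q).2 (Or.inr ⟨hq, fun hq' => hn ⟨q, hq', he⟩⟩), he⟩
  -- some restriction is large
  have hlarge : ∃ q ∈ z', g + 2 < (res C q).card := by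
    by_contra hcon
    push Not at hcon
    let D : E' → Finset E := fun q => symmDiff (res C q) (P q)
    have hDlk : ∀ q e, e ∈ D q → e ∈ lk q := by
      intro q e he
      rw [Finset.mem_symmDiff] at he
      rcases he with ⟨he, _⟩ | ⟨he, _⟩
      · exact ((mem_res _ _ _).1 he).2
      · exact hPlk q e he
    have hDe : ∀ q ∈ z', M.IsEven (D q) := by
      intro q hq
      rw [isEven_iff]
      intro v
      rw [par_symmDiff]
      by_cases hv : v ∈ B
      · have h1 := KPC q hq ⟨v, hv⟩
        have h2 := hPB q ⟨v, hv⟩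
        rw [h1, h2]
        exact CharTwo.add_self_eq_zero _
      · rw [res_out C h.1 q v hv, hPout q v hv, add_zero]
    have hDc : ∀ q ∈ z', (D q).card ≤ L := by
      intro q hq
      have h1 : (D q).card ≤ (res C q).card + (P q).card := by
        have : D q ⊆ res C q ∪ P q := by
          intro e he
          rw [Finset.mem_symmDiff] at he
          rw [Finset.mem_union]
          tauto
        exact (Finset.card_le_card this).trans (Finset.card_union_le _ _)
      have h2 := hcon q hq
      have h3 := hPc q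
      omega
    have hDgen : ∀ u : Finset E', u ⊆ z' →
        Gen (fun w => M.IsEven w ∧ w.card ≤ L) (u.biUnion D) := by
      intro u
      induction u using Finset.induction_on with
      | empty => intro _; rw [Finset.biUnion_empty]; exact Gen.zero
      | @insert q u hqu ih =>
        intro hsub
        have hq : q ∈ z' := hsub (Finset.mem_insert_self q u)
        refine Gen.add (z := D q) (w := u.biUnion D) ⟨hDe q hq, hDc q hq⟩
          (ih fun x hx => hsub (Finset.mem_insert_of_mem hx)) ?_
        intro e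
        rw [Finset.biUnion_insert, Finset.mem_union]
        have hexcl : ¬ (e ∈ D q ∧ e ∈ u.biUnion D) := by
          rintro ⟨h1, h2⟩
          rw [Finset.mem_biUnion] at h2
          obtain ⟨q', hq', he'⟩ := h2
          have := hdis q q' e (hDlk q e h1) (hDlk q' e he')
          rw [this] at hqu
          exact hqu hq'
        unfold Xor
        tauto
    apply h.2.1
    refine gen_add (hDgen z' subset_rfl) (hΦgen z' (hgen z' hz'e)) C ?_
    intro e
    by_cases hex : ∃ q ∈ z', e ∈ lk q
    · obtain ⟨q, hq, heq⟩ := hex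
      have e1 : e ∈ z'.biUnion D ↔ e ∈ D q := by
        rw [Finset.mem_biUnion]
        constructor
        · rintro ⟨q', hq', he'⟩
          rw [hdis q q' e heq (hDlk q' e he')]
          exact he'
        · exact fun he => ⟨q, hq, he⟩
      have e2 : e ∈ z'.biUnion P ↔ e ∈ P q := by
        rw [Finset.mem_biUnion]
        constructor
        · rintro ⟨q', hq', he'⟩
          rw [hdis q q' e heq (hPlk q' e he')]
          exact he'
        · exact fun he => ⟨q, hq, he⟩
      have e3 : e ∈ res C q ↔ e ∈ C := by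
        rw [mem_res]
        exact ⟨fun h => h.1, fun h => ⟨h, heq⟩⟩
      rw [e1, e2, Finset.mem_symmDiff, e3]
      unfold Xor
      tauto
    · push Not at hex
      have e1 : e ∉ z'.biUnion D := by
        rw [Finset.mem_biUnion]
        rintro ⟨q, hq, he⟩
        exact hex q hq (hDlk q e he)
      have e2 : e ∉ z'.biUnion P := by
        rw [Finset.mem_biUnion]
        rintro ⟨q, hq, he⟩
        exact hex q hq (hPlk q e he)
      have e3 : e ∉ C := by
        rw [← hCB, Finset.mem_biUnion]
        rintro ⟨q, hq, he⟩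
        exact hex q hq ((mem_res _ _ _).1 he).2
      unfold Xor
      tauto
  obtain ⟨q, hq, hqc⟩ := hlarge
  obtain ⟨b1, b2, hb12, hends⟩ := J.two q
  have hb1J : J.inc b1 q := (hends b1).2 (Or.inl rfl)
  have hb2J : J.inc b2 q := (hends b2).2 (Or.inr rfl)
  obtain ⟨e1, he1C, he1q, hb1e⟩ := res_mem C q b1 (by rw [KPC q hq, if_pos hb1J])
  obtain ⟨e2, he2C, he2q, hb2e⟩ := res_mem C q b2 (by rw [KPC q hq, if_pos hb2J])
  have hBends : ∀ (b : B) e, e ∈ lk q → M.inc b e → e = e1 ∨ e = e2 := by
    intro b e he hbe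
    rcases (hends b).1 ((hinc b q).2 ⟨e, he, hbe⟩) with rfl | rfl
    · exact Or.inl (huniq b q e e1 he he1q hbe hb1e)
    · exact Or.inr (huniq b q e e2 he he2q hbe hb2e)
  have hne : e1 ≠ e2 := by
    intro heq
    have hDe : M.IsEven (symmDiff (res C q) {e1}) := by
      rw [isEven_iff]
      intro v
      rw [par_symmDiff]
      by_cases hv : v ∈ B
      · have h1 := KPC q hq ⟨v, hv⟩
        rw [h1, par_singleton]
        have h2 : J.inc ⟨v, hv⟩ q ↔ M.inc v e1 := by
          rw [hends]
          constructor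
          · rintro (h' | h')
            · have : v = b1 := congrArg Subtype.val h'
              rw [this]; exact hb1e
            · have : v = b2 := congrArg Subtype.val h'
              rw [this, heq]; exact hb2e
          · intro h'
            exact (hends _).1 ((hinc ⟨v, hv⟩ q).2 ⟨e1, he1q, h'⟩)
        by_cases h3 : M.inc v e1
        · rw [if_pos (h2.2 h3), if_pos h3]; decide
        · rw [if_neg (fun h' => h3 (h2.1 h')), if_neg h3, add_zero]
      · rw [res_out C h.1 q v hv, par_singleton, if_neg, add_zero]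
        intro hve
        have hb2e1 : M.inc b2 e1 := by rw [heq]; exact hb2e
        have hne12 : (b1 : V) ≠ b2 := fun h' => hb12 (Subtype.ext h')
        rcases M.inc_eq hb1e hb2e1 hne12 hve with h' | h'
        · rw [h'] at hv; exact hv b1.2
        · rw [h'] at hv; exact hv b2.2
    have he1res : e1 ∈ res C q := (mem_res _ _ _).2 ⟨he1C, he1q⟩
    have hsub : symmDiff (res C q) {e1} ⊆ C := by
      intro e he
      rw [Finset.mem_symmDiff, Finset.mem_singleton] at he
      rcases he with ⟨he, _⟩ | ⟨he, _⟩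
      · exact ((mem_res _ _ _).1 he).1
      · rw [he]; exact he1C
    by_cases hemp : (symmDiff (res C q) {e1}).Nonempty
    · have := hcirc.2.2 _ hsub hDe hemp
      have h1 : e1 ∈ symmDiff (res C q) {e1} := by rw [this]; exact he1C
      rw [Finset.mem_symmDiff, Finset.mem_singleton] at h1
      rcases h1 with ⟨_, h2⟩ | ⟨_, h2⟩
      · exact h2 rfl
      · exact h2 he1res
    · rw [Finset.not_nonempty_iff_eq_empty] at hemp
      have h1 : res C q ⊆ {e1} := by
        intro e he
        by_contra hne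
        have : e ∈ symmDiff (res C q) {e1} := by
          rw [Finset.mem_symmDiff]
          exact Or.inl ⟨he, hne⟩
        rw [hemp] at this
        exact absurd this (Finset.notMem_empty e)
      have h2 := Finset.card_le_card h1
      rw [Finset.card_singleton] at h2
      omega
  -- the outside of the link
  let W : Set V := {v | v ∉ B ∧ ∃ e ∈ lk q, M.inc v e}
  have hother : ∀ (b : B) e, e ∈ lk q → M.inc b e → ∃ u, u ∈ W ∧ M.inc u e := by
    intro b e he hbe
    obtain ⟨u, hub, hue, -⟩ := M.exists_other hbe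
    refine ⟨u, ⟨?_, e, he, hue⟩, hue⟩
    intro huB
    -- then `e` joins `b1` and `b2`
    have hJb : J.inc b q := (hinc b q).2 ⟨e, he, hbe⟩
    have hJu : J.inc ⟨u, huB⟩ q := (hinc ⟨u, huB⟩ q).2 ⟨e, he, hue⟩
    have hnb : (⟨u, huB⟩ : B) ≠ b := fun h' => hub (congrArg Subtype.val h')
    apply hne
    rcases (hends b).1 hJb with h1 | h1 <;> rcases (hends _).1 hJu with h2 | h2
    · exact absurd (h2.trans h1.symm) hnb
    · subst h1
      have e3 := huniq b q e e1 he he1q hbe hb1e
      have hue' : M.inc b2 e := by rw [← h2]; exact hue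
      have e4 := huniq b2 q e e2 he he2q hue' hb2e
      rw [← e3, e4]
    · subst h1
      have e3 := huniq b q e e2 he he2q hbe hb2e
      have hue' : M.inc b1 e := by rw [← h2]; exact hue
      have e4 := huniq b1 q e e1 he he1q hue' hb1e
      rw [← e3, ← e4]
    · exact absurd (h2.trans h1.symm) hnb
  have hcutW : M.cut W = {e1, e2} := by
    ext e
    constructor
    · rintro ⟨u, v, hue, hve, ⟨huB, e', he', hue'⟩, hvW⟩
      have he : e ∈ lk q := hout q u e' e huB he' hue' hue
      have hvB : v ∈ B := by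
        by_contra hvB
        exact hvW ⟨hvB, e, he, hve⟩
      exact hBends ⟨v, hvB⟩ e he hve
    · rintro (rfl | rfl)
      · obtain ⟨u, hu, hue⟩ := hother b1 e he1q hb1e
        exact ⟨u, b1, hue, hb1e, hu, fun hb => hb.1 b1.2⟩
      · obtain ⟨u, hu, hue⟩ := hother b2 e he2q hb2e
        exact ⟨u, b2, hue, hb2e, hu, fun hb => hb.1 b2.2⟩
  have hWc : g < (M.inside C W).card := by
    have hsub : res C q ⊆ M.inside C W ∪ {e1, e2} := by
      intro e he
      rw [mem_res] at he
      rw [Finset.mem_union, Finset.mem_insert, Finset.mem_singleton]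
      by_cases hex : ∃ b : B, M.inc b e
      · obtain ⟨b, hb⟩ := hex
        exact Or.inr (hBends b e he.2 hb)
      · push Not at hex
        left
        rw [mem_inside]
        refine ⟨he.1, fun v hv => ⟨fun hvB => hex ⟨v, hvB⟩ hv, e, he.2, hv⟩⟩
    have h1 := Finset.card_le_card hsub
    have h2 := Finset.card_union_le (M.inside C W) {e1, e2}
    have h3 : ({e1, e2} : Finset E).card ≤ 2 := Finset.card_le_two
    omega
  have hdich := dichotomy h (by omega) hO hne hcutW he1C he2C
  refine ⟨Wᶜ, e1, e2, fun hsW => hsW.1 hsB, hne, by rw [cut_compl]; exact hcutW, he1C, he2C, ?_⟩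
  rcases hdich with h1 | h1
  · omega
  · exact h1

/-! ### Uniform small even sets -/

theorem exists_uniform (sub : M.Subcubic) (br : M.Bridgeless) (qt : M.QT) :
    ∃ g, ∀ e, ∃ O : Finset E, M.IsEven O ∧ e ∈ O ∧ O.card ≤ g := by
  classical
  obtain ⟨S, hS, hφ⟩ := qt
  have hT : (⋃ s ∈ S, {e | M.inc s e}).Finite := by
    refine Set.Finite.biUnion hS fun s _ => ?_
    apply Set.finite_of_encard_le_coe (k := 3)
    exact sub s
  choose O hOe hO using br
  refine ⟨hT.toFinset.sup fun e => (O e).card, fun e => ?_⟩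
  obtain ⟨u, v, -, hu, -, -⟩ := M.exists_ends e
  obtain ⟨φ, hφu⟩ := hφ u
  refine ⟨img (inv φ) (O (φ.e e)), isEven_img _ (hOe _), ?_, ?_⟩
  · rw [mem_img]
    exact hO (φ.e e)
  · rw [card_img]
    apply Finset.le_sup (f := fun e => (O e).card)
    rw [Set.Finite.mem_toFinset, Set.mem_iUnion₂]
    exact ⟨φ.v u, hφu, (φ.inc_iff u e).2 hu⟩

theorem mem_cut_preimage (φ : M.Auto) (X : Set V) (e : E) :
    e ∈ M.cut (φ.v ⁻¹' X) ↔ φ.e e ∈ M.cut X := by
  constructor
  · rintro ⟨u, v, hu, hv, huX, hvX⟩
    exact ⟨φ.v u, φ.v v, (φ.inc_iff _ _).2 hu, (φ.inc_iff _ _).2 hv, huX, hvX⟩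
  · rintro ⟨u, v, hu, hv, huX, hvX⟩
    refine ⟨φ.v.symm u, φ.v.symm v, ?_, ?_, ?_, ?_⟩
    · rw [← φ.inc_iff]; simpa using hu
    · rw [← φ.inc_iff]; simpa using hv
    · simpa using huX
    · simpa using hvX

theorem inside_preimage (φ : M.Auto) (C : Finset E) (X : Set V) :
    img φ (M.inside C (φ.v ⁻¹' X)) = M.inside (img φ C) X := by
  ext e
  rw [mem_img, mem_inside, mem_inside, mem_img]
  refine and_congr_right fun _ => ?_
  constructor
  · intro h v hv
    have := h (φ.v.symm v) (by rw [← φ.inc_iff]; simpa using hv)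
    simpa using this
  · intro h v hv
    apply h
    have := (φ.inc_iff v (φ.e.symm e)).2 hv
    simpa using this

/-- Step (5). -/
theorem exists_X {L g : ℕ} {C : Finset E} (sub : M.Subcubic) (h : Bad M L C) (hg : 2 * g + 2 ≤ L)
    (hO : ∀ e, ∃ O : Finset E, M.IsEven O ∧ e ∈ O ∧ O.card ≤ g) (S : Set V)
    (hφ : ∀ x, ∃ φ : M.Auto, φ.v x ∈ S) (Ls : V → ℕ)
    (hLs : ∀ s ∈ S, g * Ls s ≤ L) (ht : ∀ s, {e | M.inc s e}.encard = 3 → TorsoData M s (Ls s))
    {v : V} (hv : v ∈ M.verts C) :
    ∃ (X : Set V) (a b : E), v ∈ X ∧ a ≠ b ∧ M.cut X = {a, b} ∧ a ∈ C ∧ b ∈ C ∧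
      (M.inside C X).card ≤ g := by
  classical
  by_cases h3 : {e | M.inc v e}.encard = 3
  · obtain ⟨φ, hφv⟩ := hφ v
    have hdeg : {e | M.inc (φ.v v) e}.encard = 3 := by
      have : {e | M.inc (φ.v v) e} = φ.e '' {e | M.inc v e} := by
        ext e
        constructor
        · intro he
          refine ⟨φ.e.symm e, ?_, by simp⟩
          show M.inc v (φ.e.symm e)
          rw [← φ.inc_iff]
          simpa using he
        · rintro ⟨e', he', rfl⟩
          exact (φ.inc_iff _ _).2 he'
      rw [this, φ.e.injective.encard_image, h3]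
    obtain ⟨e, he, hve⟩ := hv
    have hs : φ.v v ∈ M.verts (img φ C) :=
      ⟨φ.e e, apply_mem_img.2 he, (φ.inc_iff _ _).2 hve⟩
    obtain ⟨X, a, b, hX, hab, hcut, ha, hb, hin⟩ := exists_X_of_torso (bad_img φ h) hg
      (hLs _ hφv) hO hs (ht _ hdeg)
    refine ⟨φ.v ⁻¹' X, φ.e.symm a, φ.e.symm b, hX, ?_, ?_, mem_img.1 ha, mem_img.1 hb, ?_⟩
    · exact fun h' => hab (φ.e.symm.injective h')
    · ext f
      rw [mem_cut_preimage, hcut]
      simp only [Set.mem_insert_iff, Set.mem_singleton_iff]
      rw [Equiv.eq_symm_apply, Equiv.eq_symm_apply]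
    · rw [← inside_preimage, card_img] at hin
      exact hin
  · -- degree two
    have h2 : {e | M.inc v e}.encard ≤ 2 := by
      have h3' := sub v
      have hlt : {e | M.inc v e}.encard < 3 := lt_of_le_of_ne h3' h3
      have : (3 : ℕ∞) = 2 + 1 := by norm_num
      rw [this] at hlt
      exact Order.lt_add_one_iff_of_not_isMax (by simp) |>.1 hlt
    obtain ⟨e, he, hve⟩ := hv
    have hdeg := h.1 v
    rw [deg_def] at hdeg
    have hmem : e ∈ C.filter (fun e => M.inc v e) := Finset.mem_filter.2 ⟨he, hve⟩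
    have h1 : 1 < (C.filter (fun e => M.inc v e)).card := by
      have : 0 < (C.filter (fun e => M.inc v e)).card := Finset.card_pos.2 ⟨e, hmem⟩
      rcases hdeg with ⟨k, hk⟩
      omega
    obtain ⟨a, ha, b, hb, hab⟩ := Finset.one_lt_card.1 h1
    rw [Finset.mem_filter] at ha hb
    have hset : ({a, b} : Set E) = {e | M.inc v e} := by
      have hfin : ({a, b} : Set E).Finite := Set.toFinite _
      apply hfin.eq_of_subset_of_encard_le
      · rintro x (rfl | rfl)
        · exact ha.2
        · exact hb.2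
      · rw [Set.encard_pair hab]
        exact h2
    refine ⟨{v}, a, b, rfl, hab, ?_, ha.1, hb.1, ?_⟩
    · rw [hset]
      ext f
      constructor
      · rintro ⟨u, w, hu, hw, hu', -⟩
        rw [Set.mem_singleton_iff] at hu'
        rw [← hu']
        exact hu
      · intro hf
        obtain ⟨w, hwv, hw, -⟩ := M.exists_other hf
        exact ⟨v, w, hf, hw, rfl, hwv⟩
    · have : M.inside C {v} = ∅ := by
        ext f
        simp only [Finset.notMem_empty, iff_false]
        rw [mem_inside]
        rintro ⟨_, hf⟩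
        obtain ⟨u, w, huw, hu, hw, -⟩ := M.exists_ends f
        exact huw ((hf u hu).trans (hf w hw).symm)
      rw [this]
      simp

/-- Step (6). -/
theorem not_bad {L g : ℕ} {C : Finset E} (h : Bad M L C) (hg : 3 * g + 10 ≤ L)
    (hO : ∀ e, ∃ O : Finset E, M.IsEven O ∧ e ∈ O ∧ O.card ≤ g)
    (hX : ∀ v ∈ M.verts C, ∃ (X : Set V) (a b : E), v ∈ X ∧ a ≠ b ∧ M.cut X = {a, b} ∧ a ∈ C ∧
      b ∈ C ∧ (M.inside C X).card ≤ g) : False := by
  classical
  have hlt := h.lt_card
  -- the admissible sets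
  let F : Set (Set V) := {X | (∃ a b, a ≠ b ∧ M.cut X = {a, b} ∧ a ∈ C ∧ b ∈ C) ∧
    (M.inside C X).card ≤ g}
  have hne : ∃ X, X ∈ F := by
    obtain ⟨e, he⟩ := h.isCircuit.2.1
    obtain ⟨u, v, -, hu, -, -⟩ := M.exists_ends e
    obtain ⟨X, a, b, -, h1, h2, h3, h4, h5⟩ := hX u ⟨e, he, hu⟩
    exact ⟨X, ⟨a, b, h1, h2, h3, h4⟩, h5⟩
  -- choose `X` with maximal number of inner edges
  obtain ⟨X, hXF, hmax⟩ : ∃ X ∈ F, ∀ Y ∈ F, (M.inside C Y).card ≤ (M.inside C X).card := by
    have hbd : BddAbove ((fun X => (M.inside C X).card) '' F) := by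
      refine ⟨g, ?_⟩
      rintro _ ⟨X, hX, rfl⟩
      exact hX.2
    have hne' : ((fun X => (M.inside C X).card) '' F).Nonempty := by
      obtain ⟨X, hX⟩ := hne
      exact ⟨_, X, hX, rfl⟩
    obtain ⟨X, hX, hXeq⟩ := Nat.sSup_mem hne' hbd
    refine ⟨X, hX, fun Y hY => ?_⟩
    have hXeq' : (M.inside C X).card = sSup ((fun X => (M.inside C X).card) '' F) := hXeq
    rw [hXeq']
    exact le_csSup hbd ⟨Y, hY, rfl⟩
  obtain ⟨⟨a, b, hab, hcutX, ha, hb⟩, hXc⟩ := hXF
  have hacut : a ∈ M.cut X := by rw [hcutX]; exact Or.inl rfl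
  obtain ⟨x, x', hx, hx', hxX, hx'X⟩ := hacut
  obtain ⟨Y, c, d, hx'Y, hcd, hcutY, hc, hd, hYc⟩ := hX x' ⟨a, ha, hx'⟩
  have hin : ∀ w, M.inc w a → w ∈ X ∪ Y := by
    intro w hw
    rcases M.inc_eq hx hx' (fun h' => hx'X (h' ▸ hxX)) hw with rfl | rfl
    · exact Or.inl hxX
    · exact Or.inr hx'Y
  have hcutU : ∀ e ∈ M.cut (X ∪ Y), e = b ∨ e = c ∨ e = d := by
    rintro e ⟨u, v, hu, hv, huU, hvU⟩
    have hvX : v ∉ X := fun h' => hvU (Or.inl h')
    have hvY : v ∉ Y := fun h' => hvU (Or.inr h')
    rcases huU with huX | huY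
    · have : e ∈ M.cut X := ⟨u, v, hu, hv, huX, hvX⟩
      rw [hcutX] at this
      rcases this with h1 | h1
      · exact absurd (hin v (by rw [← h1]; exact hv)) hvU
      · exact Or.inl h1
    · have : e ∈ M.cut Y := ⟨u, v, hu, hv, huY, hvY⟩
      rw [hcutY] at this
      exact Or.inr this
  have hcutUC : ∀ e ∈ M.cut (X ∪ Y), e ∈ C := by
    intro e he
    rcases hcutU e he with rfl | rfl | rfl <;> assumption
  -- size of `C` inside the union
  have hinU : (M.inside C (X ∪ Y)).card ≤ 2 * g + 2 := by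
    have hsub : M.inside C (X ∪ Y) ⊆ (M.inside C X ∪ M.inside C Y) ∪ {a, b} := by
      intro e he
      rw [mem_inside] at he
      obtain ⟨heC, hends⟩ := he
      by_cases hcx : e ∈ M.cut X
      · rw [hcutX] at hcx
        apply Finset.mem_union_right
        rw [Finset.mem_insert, Finset.mem_singleton]
        exact hcx
      · apply Finset.mem_union_left
        obtain ⟨u, v, huv, hu, hv, hw⟩ := M.exists_ends e
        by_cases huX : u ∈ X
        · apply Finset.mem_union_left
          rw [mem_inside]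
          refine ⟨heC, fun w hwe => ?_⟩
          by_contra hwX
          exact hcx ⟨u, w, hu, hwe, huX, hwX⟩
        · apply Finset.mem_union_right
          rw [mem_inside]
          refine ⟨heC, fun w hwe => ?_⟩
          rcases hends w hwe with hwX | hwY
          · exact absurd ⟨w, u, hwe, hu, hwX, huX⟩ hcx
          · exact hwY
    have h1 := Finset.card_le_card hsub
    have h2 := Finset.card_union_le (M.inside C X ∪ M.inside C Y) {a, b}
    have h3 := Finset.card_union_le (M.inside C X) (M.inside C Y)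
    have h4 : ({a, b} : Finset E).card ≤ 2 := Finset.card_le_two
    omega
  -- the cut of the union
  have heven := h.1.even_cut M (X ∪ Y)
  set K := C.filter (fun e => e ∈ M.cut (X ∪ Y)) with hK
  have hKsub : K ⊆ {b, c, d} := by
    intro e he
    rw [hK, Finset.mem_filter] at he
    rw [Finset.mem_insert, Finset.mem_insert, Finset.mem_singleton]
    exact hcutU e he.2
  have hK3 : K.card ≤ 3 := (Finset.card_le_card hKsub).trans Finset.card_le_three
  have hK2 : K.card ≤ 2 := by
    rcases heven with ⟨k, hk⟩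
    omega
  have hcard := card_le_inside (M := M) C (X ∪ Y)
  rw [← hK] at hcard
  by_cases hK0 : K.card = 0
  · -- `C` avoids the cut of the union
    rw [Finset.card_eq_zero] at hK0
    have havoid : ∀ e ∈ C, e ∉ M.cut (X ∪ Y) := by
      intro e he hc
      have : e ∈ K := Finset.mem_filter.2 ⟨he, hc⟩
      rw [hK0] at this
      exact absurd this (Finset.notMem_empty e)
    rcases h.isCircuit.subset_or M havoid with h1 | h1
    · have h2 : M.inside C (X ∪ Y) = C := by
        ext e
        rw [mem_inside]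
        exact ⟨fun h' => h'.1, fun h' => ⟨h', fun v hv => h1 ⟨e, h', hv⟩⟩⟩
      rw [h2] at hinU
      omega
    · exact h1 x ⟨a, ha, hx⟩ (Or.inl hxX)
  · have hKc : K.card = 2 := by
      rcases heven with ⟨k, hk⟩
      omega
    obtain ⟨a', b', hab', hKeq⟩ := Finset.card_eq_two.1 hKc
    have hcutUeq : M.cut (X ∪ Y) = {a', b'} := by
      ext e
      constructor
      · intro he
        have : e ∈ K := Finset.mem_filter.2 ⟨hcutUC e he, he⟩
        rw [hKeq, Finset.mem_insert, Finset.mem_singleton] at this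
        exact this
      · intro he
        have : e ∈ K := by
          rw [hKeq, Finset.mem_insert, Finset.mem_singleton]
          exact he
        rw [hK, Finset.mem_filter] at this
        exact this.2
    have ha' : a' ∈ C := hcutUC a' (by rw [hcutUeq]; exact Or.inl rfl)
    have hb' : b' ∈ C := hcutUC b' (by rw [hcutUeq]; exact Or.inr rfl)
    rcases dichotomy h (by omega) hO hab' hcutUeq ha' hb' with h1 | h1
    · have h2 := hmax (X ∪ Y) ⟨⟨a', b', hab', hcutUeq, ha', hb'⟩, h1⟩
      have h3 : insert a (M.inside C X) ⊆ M.inside C (X ∪ Y) := by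
        intro e he
        rw [Finset.mem_insert] at he
        rw [mem_inside]
        rcases he with rfl | he
        · exact ⟨ha, hin⟩
        · rw [mem_inside] at he
          exact ⟨he.1, fun v hv => Or.inl (he.2 v hv)⟩
      have h4 : a ∉ M.inside C X := by
        rw [mem_inside]
        rintro ⟨_, h'⟩
        exact hx'X (h' x' hx')
      have h5 := Finset.card_le_card h3
      rw [Finset.card_insert_of_notMem h4] at h5
      omega
    · omega

end T6b

open T6b MG in
/-- T6b. Bounded generation for subcubic bridgeless quasi-transitive multigraphs. -/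
theorem T6b_gen
    (core : ∀ (V E : Type) (M : MG V E), M.Cubic → M.Conn → M.Conn3 → M.QT → ¬ M.K33 →
      ∃ L, M.GenBy L)
    (torso : TorsoStatement)
    {V E : Type} (M : MG V E) (sub : M.Subcubic) (br : M.Bridgeless) (qt : M.QT)
    (noK : ¬ M.K33) : ∃ L, M.GenBy L := by
  classical
  obtain ⟨g, hO⟩ := exists_uniform sub br qt
  have hdata : ∀ s, {e | M.inc s e}.encard = 3 → ∃ Ls, TorsoData M s Ls := by
    intro s hs
    obtain ⟨E', J, lk, h1, h2, h3, h4, h5, h6, h7, h8, h9, h10⟩ := torso M sub br qt noK s hs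
      {v | ∀ X : Set V, (M.cut X).encard ≤ 2 → (s ∈ X ↔ v ∈ X)} (fun v => Iff.rfl)
    obtain ⟨Ls, hLs⟩ := core _ _ J h1 h2 h3 h4 h5
    exact ⟨Ls, _, E', J, lk, fun X _ => Iff.rfl, hLs, h6, h7, h8, h9, h10⟩
  choose! Ls hLs using hdata
  have qt' := qt
  obtain ⟨S, hS, hφ⟩ := qt'
  set L : ℕ := 3 * g + 10 + ∑ s ∈ hS.toFinset, g * Ls s with hL
  have hLS : ∀ s ∈ S, g * Ls s ≤ L := by
    intro s hs
    have := Finset.single_le_sum (f := fun s => g * Ls s) (fun _ _ => Nat.zero_le _)
      (hS.mem_toFinset.2 hs)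
    rw [hL]
    have h' : g * Ls s ≤ ∑ s ∈ hS.toFinset, g * Ls s := this
    omega
  have hnobad : ∀ C, ¬ Bad M L C := by
    intro C hC
    exact not_bad hC (by omega) hO fun v hv => exists_X sub hC (by omega) hO S hφ Ls hLS hLs hv
  refine ⟨L, ?_⟩
  intro z hz
  induction hn : z.card using Nat.strong_induction_on generalizing z with
  | _ n ih =>
    by_contra hcon
    apply hnobad z
    refine ⟨hz, hcon, fun w hw hc => ?_⟩
    exact ih w.card (by omega) w hw rfl

end Pool.Agent.MP_57dfd7_co
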