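import Pool.Agent.MP_57dfd7_co.T0

/-!
T7a: nine edge-disjoint joins in a simple graph of maximum degree three give a subdivision of
`K_{3,3}`.
-/

set_option linter.unusedVariables false

namespace Pool.Agent.MP_57dfd7_co

open MG

section T7a

variable {V : Type} (H : SimpleGraph V)

/-- the subgraph formed by a finite set of edges -/
def subg (P : Finset H.edgeSet) : SimpleGraph V where
  Adj u v := u ≠ v ∧ ∃ e ∈ P, u ∈ (e : Sym2 V) ∧ v ∈ (e : Sym2 V)
  symm := ⟨fun u v ⟨h, e, he, h1, h2⟩ => ⟨h.symm, e, he, h2, h1⟩⟩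
  loopless := ⟨fun u h => h.1 rfl⟩

lemma subg_le (P : Finset H.edgeSet) : subg H P ≤ H := by
  rintro u v ⟨huv, e, -, hu, hv⟩
  have : (e : Sym2 V) = s(u, v) := (Sym2.mem_and_mem_iff huv).1 ⟨hu, hv⟩
  have h := e.2
  rw [this] at h
  exact h

lemma reachable_subg {P : Finset H.edgeSet} {x y : V}
    (h : (ofGraph H).Reach (↑P) x y) : (subg H P).Reachable x y := by
  induction h with
  | refl => exact SimpleGraph.Reachable.refl _
  | @tail u v _ hs ih =>
    obtain ⟨e, he, hu, hv⟩ := hs
    by_cases huv : u = v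
    · rw [← huv]; exact ih
    · exact ih.trans (SimpleGraph.Adj.reachable ⟨huv, e, he, hu, hv⟩)

lemma exists_adj_of_walk {G : SimpleGraph V} {x y : V} (hxy : x ≠ y) (p : G.Walk x y) :
    ∃ w, G.Adj x w := by
  cases p with
  | nil => exact absurd rfl hxy
  | cons h q => exact ⟨_, h⟩

/-- every vertex on a nontrivial walk in `subg H P` is on an edge of `P` -/
lemma deg_pos_of_mem_support {P : Finset H.edgeSet} {x y : V} (hxy : x ≠ y)
    (p : (subg H P).Walk x y) {v : V} (hv : v ∈ p.support) : 0 < (ofGraph H).deg P v := by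
  classical
  have key : ∃ w, (subg H P).Adj v w := by
    by_cases hvx : v = x
    · rw [hvx]; exact exists_adj_of_walk hxy p
    · exact exists_adj_of_walk hvx (p.takeUntil v hv).reverse
  obtain ⟨w, _, e, he, h1, _⟩ := key
  rw [deg, Finset.card_pos]
  exact ⟨e, Finset.mem_filter.2 ⟨he, h1⟩⟩

lemma deg_le_three (deg : ∀ v, (H.neighborSet v).encard ≤ 3) (z : Finset H.edgeSet) (v : V) :
    (ofGraph H).deg z v ≤ 3 := by
  classical
  have h1 : ((z.filter (fun e => (ofGraph H).inc v e) : Finset H.edgeSet) :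
      Set H.edgeSet).encard ≤ (H.incidenceSet v).encard := by
    rw [← Subtype.val_injective.encard_image]
    apply Set.encard_le_encard
    rintro _ ⟨e, he, rfl⟩
    rw [Finset.mem_coe, Finset.mem_filter] at he
    exact ⟨e.2, he.2⟩
  have h2 : (H.incidenceSet v).encard = (H.neighborSet v).encard :=
    Set.encard_congr (H.incidenceSetEquivNeighborSet v)
  rw [h2] at h1
  have h3 := h1.trans (deg v)
  rw [Set.encard_coe_eq_coe_finsetCard] at h3
  rw [deg_def]
  exact_mod_cast h3

theorem T7a_k33 {V : Type} (H : SimpleGraph V) (deg : ∀ v, (H.neighborSet v).encard ≤ 3)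
    (hK : (ofGraph H).K33) : HasK33Subdivision H := by
  classical
  obtain ⟨a, b, P, ha, hb, hab, hP, hd⟩ := hK
  have hreach : ∀ i j, (subg H (P i j)).Reachable (a i) (b j) :=
    fun i j => reachable_subg H (hP i j).reach
  -- the paths
  set q : ∀ i j, (subg H (P i j)).Path (a i) (b j) := fun i j => (hreach i j).some.toPath with hq
  -- degrees
  have hpos : ∀ i j v, v ∈ (q i j : (subg H (P i j)).Walk (a i) (b j)).support →
      0 < (ofGraph H).deg (P i j) v := fun i j v hv =>
    deg_pos_of_mem_support H (hab i j) _ hv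
  have hodd : ∀ i j v, (ofGraph H).deg (P i j) v = 1 → v = a i ∨ v = b j := by
    intro i j v h
    rw [← hP i j v, h]
    exact odd_one
  have htwo : ∀ (X Y : Finset H.edgeSet) v, Disjoint X Y →
      (ofGraph H).deg X v + (ofGraph H).deg Y v ≤ 3 := by
    intro X Y v hXY
    rw [← deg_union _ hXY]
    exact deg_le_three H deg _ v
  have hfour : ∀ (X Y Z W : Finset H.edgeSet) v, Disjoint X Y → Disjoint X Z → Disjoint X W →
      Disjoint Y Z → Disjoint Y W → Disjoint Z W →
      (ofGraph H).deg X v + (ofGraph H).deg Y v + (ofGraph H).deg Z v + (ofGraph H).deg W v ≤ 3 := by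
    intro X Y Z W v h1 h2 h3 h4 h5 h6
    have e1 := deg_union (ofGraph H) h1 v
    have h7 : Disjoint (X ∪ Y) Z := Finset.disjoint_union_left.2 ⟨h2, h4⟩
    have e2 := deg_union (ofGraph H) h7 v
    have h8 : Disjoint (X ∪ Y ∪ Z) W :=
      Finset.disjoint_union_left.2 ⟨Finset.disjoint_union_left.2 ⟨h3, h5⟩, h6⟩
    have e3 := deg_union (ofGraph H) h8 v
    have := deg_le_three H deg (X ∪ Y ∪ Z ∪ W) v
    omega
  have hda : ∀ i j, 0 < (ofGraph H).deg (P i j) (a i) := fun i j =>
    ((hP i j (a i)).2 (Or.inl rfl)).pos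
  have hdb : ∀ i j, 0 < (ofGraph H).deg (P i j) (b j) := fun i j =>
    ((hP i j (b j)).2 (Or.inr rfl)).pos
  -- at `a i` only the joins `P i _` are present
  have hA : ∀ i i' j', 0 < (ofGraph H).deg (P i' j') (a i) → i = i' := by
    intro i i' j' h
    by_contra hne
    have := hfour (P i 0) (P i 1) (P i 2) (P i' j') (a i)
      (hd _ _ _ _ (by simp)) (hd _ _ _ _ (by simp)) (hd _ _ _ _ (by simp [hne]))
      (hd _ _ _ _ (by simp)) (hd _ _ _ _ (by simp [hne])) (hd _ _ _ _ (by simp [hne]))
    have h0 := hda i 0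
    have h1 := hda i 1
    have h2 := hda i 2
    omega
  have hB : ∀ j i' j', 0 < (ofGraph H).deg (P i' j') (b j) → j = j' := by
    intro j i' j' h
    by_contra hne
    have := hfour (P 0 j) (P 1 j) (P 2 j) (P i' j') (b j)
      (hd _ _ _ _ (by simp)) (hd _ _ _ _ (by simp)) (hd _ _ _ _ (by simp [hne]))
      (hd _ _ _ _ (by simp)) (hd _ _ _ _ (by simp [hne])) (hd _ _ _ _ (by simp [hne]))
    have h0 := hdb 0 j
    have h1 := hdb 1 j
    have h2 := hdb 2 j
    omega
  refine ⟨a, b, fun i j => ((q i j : (subg H (P i j)).Walk (a i) (b j))).mapLe (subg_le H (P i j)),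
    ha, hb, hab, ?_, ?_⟩
  · intro i j
    exact (SimpleGraph.Walk.isPath_mapLe (subg_le H (P i j))).2 (q i j).2
  · intro i j i' j' v hv hv'
    rw [SimpleGraph.Walk.support_mapLe_eq_support] at hv hv'
    have h1 := hpos i j v hv
    have h2 := hpos i' j' v hv'
    by_cases hij : (i, j) = (i', j')
    · left
      exact ⟨congrArg Prod.fst hij, congrArg Prod.snd hij⟩
    · right
      have h3 := htwo (P i j) (P i' j') v (hd i j i' j' hij)
      have h4 : (ofGraph H).deg (P i j) v = 1 ∨ (ofGraph H).deg (P i' j') v = 1 := by omega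
      rcases h4 with h4 | h4
      · rcases hodd i j v h4 with h5 | h5
        · left
          rw [h5] at h2
          exact ⟨hA i i' j' h2, h5⟩
        · right
          rw [h5] at h2
          exact ⟨hB j i' j' h2, h5⟩
      · rcases hodd i' j' v h4 with h5 | h5
        · left
          rw [h5] at h1
          have := hA i' i j h1
          exact ⟨this.symm, by rw [h5, this]⟩
        · right
          rw [h5] at h1
          have := hB j' i j h1
          exact ⟨this.symm, by rw [h5, this]⟩

end T7a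

end Pool.Agent.MP_57dfd7_co
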