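import Pool.Agent.MP_57dfd7_co.T1
import Pool.Agent.MP_57dfd7_co.T1d
import Pool.Agent.MP_57dfd7_co.T2
import Pool.Agent.MP_57dfd7_co.T3
import Pool.Agent.MP_57dfd7_co.T4
import Pool.Agent.MP_57dfd7_co.T5e
import Pool.Agent.MP_57dfd7_co.T6a
import Pool.Agent.MP_57dfd7_co.T6b
import Pool.Agent.MP_57dfd7_co.T7a

/-! T7b: assembly. -/

namespace Pool.Agent.MP_57dfd7_co

open MG

/-- bounded generation for cubic 3-edge-connected quasi-transitive multigraphs without `K33` -/
theorem core_gen (V E : Type) (M : MG V E) (cub : M.Cubic) (conn : M.Conn) (c3 : M.Conn3)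
    (qt : M.QT) (noK : ¬ M.K33) : ∃ L, M.GenBy L := by
  have h2 : M.H2 := T3_match_unique M (fun v => (cub v).le) noK
  have h1 : M.H1 := T4a_match_exists M cub conn c3
  have h3 : M.H3 := T4b_regions M cub conn c3 h1 h2
  exact T5_genBy cub conn qt h1 h3

theorem torso_statement : TorsoStatement := by
  intro V E M sub br qt noK s hs B hB
  exact T6a_torso M sub br qt noK s hs B hB

theorem bridgeless_gen {V E : Type} (M : MG V E) (sub : M.Subcubic) (br : M.Bridgeless)
    (qt : M.QT) (noK : ¬ M.K33) : ∃ L, M.GenBy L :=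
  T6b_gen core_gen torso_statement M sub br qt noK

namespace MG

variable {V E : Type} (M : MG V E)

/-- edges lying in an even set -/
def good (e : E) : Prop := ∃ z, M.IsEven z ∧ e ∈ z

/-- the sub-multigraph formed by the edges lying in even sets -/
def core : MG V {e : E // M.good e} where
  inc v e := M.inc v e.1
  two e := M.two e.1

variable {M}

lemma core_deg (z : Finset {e : E // M.good e}) (v : V) :
    M.core.deg z v = M.deg (z.map (Function.Embedding.subtype _)) v := by
  classical
  unfold deg
  rw [Finset.filter_map, Finset.card_map]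
  congr 1

lemma core_even_iff {z : Finset {e : E // M.good e}} :
    M.core.IsEven z ↔ M.IsEven (z.map (Function.Embedding.subtype _)) := by
  unfold IsEven
  simp only [core_deg]

lemma exists_lift {z : Finset E} (hz : M.IsEven z) :
    ∃ z' : Finset {e : E // M.good e}, z'.map (Function.Embedding.subtype _) = z := by
  classical
  refine ⟨z.subtype M.good, ?_⟩
  rw [Finset.subtype_map]
  apply Finset.filter_true_of_mem
  intro e he
  exact ⟨z, hz, he⟩

lemma core_bridgeless : M.core.Bridgeless := by
  rintro ⟨e, z, hz, he⟩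
  obtain ⟨z', hz'⟩ := exists_lift hz
  refine ⟨z', core_even_iff.2 (by rw [hz']; exact hz), ?_⟩
  rw [← hz', Finset.mem_map] at he
  obtain ⟨x, hx, hxe⟩ := he
  have : x = ⟨e, z, hz, by rw [← hz', Finset.mem_map]; exact ⟨x, hx, hxe⟩⟩ := Subtype.ext hxe
  rwa [← this]

lemma core_subcubic (h : M.Subcubic) : M.core.Subcubic := by
  intro v
  refine le_trans ?_ (h v)
  rw [← Subtype.val_injective.encard_image]
  apply Set.encard_le_encard
  rintro _ ⟨e, he, rfl⟩
  exact he

lemma Auto.good_iff (φ : M.Auto) (e : E) : M.good e ↔ M.good (φ.e e) := by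
  have key : ∀ (φ : M.Auto) e, M.good e → M.good (φ.e e) := by
    rintro φ e ⟨z, hz, he⟩
    refine ⟨φ.act z, φ.even_act hz, ?_⟩
    rw [φ.mem_act, Equiv.symm_apply_apply]
    exact he
  refine ⟨key φ e, fun h => ?_⟩
  have := key φ.symm _ h
  simpa [Auto.symm] using this

lemma core_qt (h : M.QT) : M.core.QT := by
  obtain ⟨S, hS, h⟩ := h
  refine ⟨S, hS, fun x => ?_⟩
  obtain ⟨φ, hφ⟩ := h x
  refine ⟨⟨φ.v, φ.e.subtypeEquiv (fun e => φ.good_iff e), fun x f => ?_⟩, hφ⟩
  exact φ.inc_iff x f.1

lemma core_k33 (h : M.core.K33) : M.K33 := by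
  obtain ⟨a, b, P, ha, hb, hab, hP, hd⟩ := h
  refine ⟨a, b, fun i j => (P i j).map (Function.Embedding.subtype _), ha, hb, hab, ?_, ?_⟩
  · intro i j v
    rw [← core_deg]
    exact hP i j v
  · intro i j i' j' hne
    exact (Finset.disjoint_map _).2 (hd i j i' j' hne)

lemma core_gen_lift {P : Finset {e : E // M.good e} → Prop} {Q : Finset E → Prop}
    (h : ∀ z, P z → Q (z.map (Function.Embedding.subtype _)))
    {z : Finset {e : E // M.good e}} (hz : Gen P z) :
    Gen Q (z.map (Function.Embedding.subtype _)) := by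
  induction hz with
  | zero => simpa using (Gen.zero : Gen Q ∅)
  | @add a b t h1 _ h3 ih =>
    refine Gen.add (h _ h1) ih (fun e => ?_)
    by_cases he : M.good e
    · have hm : ∀ z : Finset {e : E // M.good e},
          e ∈ z.map (Function.Embedding.subtype _) ↔ (⟨e, he⟩ : {e : E // M.good e}) ∈ z := by
        intro z
        rw [Finset.mem_map]
        constructor
        · rintro ⟨x, hx, hxe⟩
          have : x = ⟨e, he⟩ := Subtype.ext hxe
          rwa [← this]
        · intro hx
          exact ⟨_, hx, rfl⟩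
      rw [hm, hm, hm]
      exact h3 _
    · have hm : ∀ z : Finset {e : E // M.good e},
          e ∉ z.map (Function.Embedding.subtype _) := by
        intro z hz
        rw [Finset.mem_map] at hz
        obtain ⟨x, _, rfl⟩ := hz
        exact he x.2
      simp [hm, Xor]

lemma genBy_of_core {L : ℕ} (h : M.core.GenBy L) : M.GenBy L := by
  intro z hz
  obtain ⟨z', rfl⟩ := exists_lift hz
  refine core_gen_lift (fun w hw => ?_) (h z' (core_even_iff.2 hz))
  exact ⟨core_even_iff.1 hw.1, by rw [Finset.card_map]; exact hw.2⟩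

end MG

/-- bounded generation for subcubic quasi-transitive multigraphs without `K33` -/
theorem subcubic_gen {V E : Type} (M : MG V E) (sub : M.Subcubic) (qt : M.QT)
    (noK : ¬ M.K33) : ∃ L, M.GenBy L := by
  obtain ⟨L, hL⟩ := bridgeless_gen M.core (core_subcubic sub) core_bridgeless (core_qt qt)
    (fun h => noK (core_k33 h))
  exact ⟨L, genBy_of_core hL⟩

/-- subcubic quasi-transitive simple graphs without a subdivision of `K33` have a cycle space
generated by short cycles -/
theorem graph_gen {V : Type} (H : SimpleGraph V) (deg : ∀ v, (H.neighborSet v).encard ≤ 3)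
    (qt : QuasiTransitive H) (noK : ¬ HasK33Subdivision H) : ∃ L, (ofGraph H).GenBy L := by
  refine subcubic_gen _ ?_ ?_ (fun h => noK (T7a_k33 H deg h))
  · intro v
    have h1 : {e | (ofGraph H).inc v e}.encard ≤ (H.incidenceSet v).encard := by
      rw [← Subtype.val_injective.encard_image]
      apply Set.encard_le_encard
      rintro _ ⟨e, he, rfl⟩
      exact ⟨e.2, he⟩
    have h2 : (H.incidenceSet v).encard = (H.neighborSet v).encard :=
      Set.encard_congr (by classical exact H.incidenceSetEquivNeighborSet v)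
    rw [h2] at h1
    exact h1.trans (deg v)
  · obtain ⟨S, hS, h⟩ := qt
    refine ⟨S, hS, fun x => ?_⟩
    obtain ⟨s, hs, φ, hφ⟩ := h x
    refine ⟨⟨φ.symm.toEquiv, φ.symm.mapEdgeSet, fun y f => ?_⟩, ?_⟩
    · obtain ⟨f, hf⟩ := f
      induction f using Sym2.ind with
      | _ u v =>
        simp [ofGraph, SimpleGraph.Iso.mapEdgeSet, SimpleGraph.Hom.mapEdgeSet]
    · have : φ.symm.toEquiv x = s := by
        rw [← hφ]
        exact φ.symm_apply_apply s
      rw [this]
      exact hs

/-- every quasi-transitive subgraph of unbounded treewidth of the lamplighter graph contains a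
subdivision of `K33` -/
theorem lamplighter_subgraph (H : lamplighter.Subgraph) (qt : QuasiTransitive H.coe)
    (tw : ∀ k, ¬ TreewidthLE H.coe k) : HasK33Subdivision H.coe := by
  classical
  by_contra noK
  have hemb : Function.Injective (Subtype.val : H.verts → Finset ℤ × ℤ) :=
    Subtype.val_injective
  have deg : ∀ v, (H.coe.neighborSet v).encard ≤ 3 := by
    intro v
    refine le_trans ?_ (T1c_deg v.1)
    rw [← Subtype.val_injective.encard_image]
    apply Set.encard_le_encard
    rintro _ ⟨w, hw, rfl⟩
    exact H.adj_sub hw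
  obtain ⟨L, hL⟩ := graph_gen H.coe deg qt noK
  suffices h : ∃ k, TreewidthLE H.coe k by
    obtain ⟨k, hk⟩ := h
    exact tw k hk
  refine T2_treewidth_of_gen H.coe (fun v => v.1.2) ?_ ?_ L hL
  · intro u v huv
    have h : lamplighter.Adj u.1 v.1 := H.adj_sub huv
    rcases h with ⟨_, h | h⟩ | ⟨h, _⟩
    · rw [h, abs_le]; constructor <;> omega
    · rw [h, abs_le]; constructor <;> omega
    · rw [h, abs_le]; constructor <;> omega
  · intro n
    refine ⟨2 ^ (n + 1) * (n + 1), fun a S hc hS => ?_⟩
    have hcard : (S.map ⟨Subtype.val, hemb⟩).card = S.card := Finset.card_map _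
    rw [← hcard]
    apply T1b_slab n a
    · have hmem : ∀ v : H.verts, v ∈ S → v.1 ∈ (S.map ⟨Subtype.val, hemb⟩) := by
        intro v hv
        rw [Finset.mem_map]
        exact ⟨v, hv, rfl⟩
      let f : (H.coe.induce (S : Set H.verts)) →g
          (lamplighter.induce ((S.map ⟨Subtype.val, hemb⟩ : Finset (Finset ℤ × ℤ)) :
            Set (Finset ℤ × ℤ))) :=
        { toFun := fun v => ⟨v.1.1, hmem v.1 v.2⟩
          map_rel' := fun {u v} huv => by
            exact H.adj_sub huv }
      have hsurj : Function.Surjective f := by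
        rintro ⟨x, hx⟩
        have hx' := hx
        rw [Finset.mem_coe, Finset.mem_map] at hx'
        obtain ⟨v, hv, hvx⟩ := hx'
        exact ⟨⟨v, hv⟩, Subtype.ext hvx⟩
      exact hc.map f hsurj
    · intro v hv
      rw [Finset.mem_map] at hv
      obtain ⟨w, hw, rfl⟩ := hv
      exact hS w hw

end Pool.Agent.MP_57dfd7_co
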